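import Pool.Agent.MP_dd54b8_co.L2

set_option autoImplicit false

/-! Task [RBC-A1]: arms. -/

namespace Pool.Agent.RBC

open SimpleGraph

variable {V : Type} [Fintype V] {G : SimpleGraph V}

theorem mem_arm {v0 : V} {ρ : ℕ} {v x : V} : x ∈ arm G v0 ρ v ↔ ArmRel G v0 ρ v x := by
  classical
  unfold arm
  simp

theorem self_mem_arm (v0 : V) (ρ : ℕ) (v : V) : v ∈ arm G v0 ρ v :=
  mem_arm.2 Relation.ReflTransGen.refl

omit [Fintype V] in
private theorem armStep_symm {v0 : V} {ρ : ℕ} {v x : V} (h : ArmStep G v0 ρ v x) :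
    ArmStep G v0 ρ x v := by
  obtain ⟨h1, h2, h3⟩ := h
  refine ⟨h1.symm, ?_, ?_⟩
  · rw [← h1]
    exact up_symm h2
  · rw [SimpleGraph.dist_comm]
    exact h3

theorem armRel_symm {v0 : V} {ρ : ℕ} {v x : V} (h : ArmRel G v0 ρ v x) : ArmRel G v0 ρ x v := by
  unfold ArmRel at h ⊢
  induction h with
  | refl => exact Relation.ReflTransGen.refl
  | tail _ hbc ih => exact Relation.ReflTransGen.head (armStep_symm hbc) ih

theorem arm_eq_of_mem {v0 : V} {ρ : ℕ} {v x : V} (h : x ∈ arm G v0 ρ v) :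
    arm G v0 ρ x = arm G v0 ρ v := by
  have h' : ArmRel G v0 ρ v x := mem_arm.1 h
  ext y
  rw [mem_arm, mem_arm]
  constructor
  · intro hy
    exact Relation.ReflTransGen.trans h' hy
  · intro hy
    exact Relation.ReflTransGen.trans (armRel_symm h') hy

theorem arm_mono (v0 v : V) {ρ ρ' : ℕ} (h : ρ ≤ ρ') : arm G v0 ρ v ⊆ arm G v0 ρ' v := by
  intro x hx
  have h' : Relation.ReflTransGen (ArmStep G v0 ρ) v x := mem_arm.1 hx
  rw [mem_arm]
  clear hx
  unfold ArmRel
  induction h' with
  | refl => exact Relation.ReflTransGen.refl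
  | tail _ hbc ih =>
    exact Relation.ReflTransGen.tail ih ⟨hbc.1, hbc.2.1, le_trans hbc.2.2 h⟩

theorem lev_of_mem_arm {v0 : V} {ρ : ℕ} {v x : V} (h : x ∈ arm G v0 ρ v) :
    lev G v0 x = lev G v0 v := by
  have h' : Relation.ReflTransGen (ArmStep G v0 ρ) v x := mem_arm.1 h
  clear h
  induction h' with
  | refl => rfl
  | tail _ hbc ih => exact hbc.1.symm.trans ih

theorem up_of_mem_arm {v0 : V} {ρ : ℕ} {v x : V} (h : x ∈ arm G v0 ρ v) :
    Up G v0 (lev G v0 v) v x := by
  have h' : Relation.ReflTransGen (ArmStep G v0 ρ) v x := mem_arm.1 h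
  clear h
  induction h' with
  | refl => exact up_refl le_rfl
  | @tail b c hab hbc ih =>
    have hl : lev G v0 b = lev G v0 v := lev_of_mem_arm (mem_arm.2 hab)
    refine up_trans ih ?_
    rw [← hl]
    exact hbc.2.1

theorem mem_arm_of_close {v0 : V} {ρ : ℕ} {v x : V} (h1 : lev G v0 x = lev G v0 v)
    (h2 : Up G v0 (lev G v0 v) v x) (h3 : G.dist v x ≤ ρ) : x ∈ arm G v0 ρ v :=
  mem_arm.2 (Relation.ReflTransGen.single ⟨h1.symm, h2, h3⟩)

private theorem rtg_exit {α : Type} {r : α → α → Prop} {P : α → Prop} {a x : α}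
    (h : Relation.ReflTransGen r a x) (ha : P a) (hx : ¬ P x) :
    ∃ b c, Relation.ReflTransGen r a b ∧ r b c ∧ P b ∧ ¬ P c := by
  induction h with
  | refl => exact absurd ha hx
  | @tail b c hab hbc ih =>
    by_cases hb : P b
    · exact ⟨b, c, hab, hbc, hb, hx⟩
    · exact ih hb

open Classical in
/-- Growth: the part of the arm within distance `t ρ` of `a` is everything or has more than `t`
elements. -/
theorem arm_growth (hc : G.Connected) (v0 a : V) (ρ t : ℕ) :
    (∀ x ∈ arm G v0 ρ a, G.dist a x ≤ t * ρ) ∨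
      t + 1 ≤ ((arm G v0 ρ a).filter (fun x => G.dist a x ≤ t * ρ)).card := by
  induction t with
  | zero =>
    right
    rw [Nat.zero_add]
    apply Finset.card_pos.2
    refine ⟨a, Finset.mem_filter.2 ⟨self_mem_arm v0 ρ a, ?_⟩⟩
    simp
  | succ t ih =>
    rcases ih with ih | ih
    · left
      intro x hx
      exact le_trans (ih x hx) (Nat.mul_le_mul_right ρ (Nat.le_succ t))
    · by_cases hall : ∀ x ∈ arm G v0 ρ a, G.dist a x ≤ (t + 1) * ρ
      · left
        exact hall
      · right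
        push Not at hall
        obtain ⟨x, hx, hxd⟩ := hall
        have hx' : Relation.ReflTransGen (ArmStep G v0 ρ) a x := mem_arm.1 hx
        have ha : G.dist a a ≤ t * ρ := by simp
        have hxt : ¬ G.dist a x ≤ t * ρ := by
          have : t * ρ ≤ (t + 1) * ρ := Nat.mul_le_mul_right ρ (Nat.le_succ t)
          omega
        obtain ⟨b, c, hab, hbc, hb, hcn⟩ := rtg_exit (P := fun y => G.dist a y ≤ t * ρ) hx' ha hxt
        have hcm : c ∈ arm G v0 ρ a := mem_arm.2 (Relation.ReflTransGen.tail hab hbc)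
        have hcd : G.dist a c ≤ (t + 1) * ρ := by
          have h1 : G.dist a c ≤ G.dist a b + G.dist b c := hc.dist_triangle
          have h2 := hbc.2.2
          have h3 : (t + 1) * ρ = t * ρ + ρ := by ring
          omega
        have hsub : insert c ((arm G v0 ρ a).filter (fun x => G.dist a x ≤ t * ρ)) ⊆
            (arm G v0 ρ a).filter (fun x => G.dist a x ≤ (t + 1) * ρ) := by
          intro y hy
          rw [Finset.mem_insert] at hy
          rcases hy with rfl | hy
          · exact Finset.mem_filter.2 ⟨hcm, hcd⟩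
          · rw [Finset.mem_filter] at hy
            refine Finset.mem_filter.2 ⟨hy.1, le_trans hy.2 ?_⟩
            exact Nat.mul_le_mul_right ρ (Nat.le_succ t)
        have hcnot : c ∉ (arm G v0 ρ a).filter (fun x => G.dist a x ≤ t * ρ) := by
          intro hmem
          exact hcn (Finset.mem_filter.1 hmem).2
        have hcard := Finset.card_le_card hsub
        rw [Finset.card_insert_of_notMem hcnot] at hcard
        omega

theorem arm_dist_le (hc : G.Connected) {v0 : V} {ρ k : ℕ} {a x : V} (hx : x ∈ arm G v0 ρ a)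
    (hcard : (arm G v0 ρ a).card ≤ k) : G.dist a x ≤ k * ρ := by
  classical
  rcases arm_growth hc v0 a ρ k with h | h
  · exact h x hx
  · exfalso
    have h2 : ((arm G v0 ρ a).filter (fun x => G.dist a x ≤ k * ρ)).card ≤
        (arm G v0 ρ a).card := Finset.card_filter_le _ _
    omega

theorem iso_far (hc : G.Connected) {v0 : V} {ρ R : ℕ} (hρR : ρ ≤ R) {a x y : V}
    (hiso : Iso G v0 ρ R a) (hx : x ∈ arm G v0 ρ a) (hy : lev G v0 y = lev G v0 a)
    (hup : Up G v0 (lev G v0 a) a y) (hne : y ∉ arm G v0 ρ a) : R < G.dist x y := by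
  by_contra hcon
  push Not at hcon
  apply hne
  have hxl : lev G v0 x = lev G v0 a := lev_of_mem_arm hx
  have hupx : Up G v0 (lev G v0 a) a x := up_of_mem_arm hx
  have hxy : y ∈ arm G v0 R x := by
    apply mem_arm_of_close
    · rw [hxl, hy]
    · rw [hxl]
      exact up_trans (up_symm hupx) hup
    · exact hcon
  have hxR : x ∈ arm G v0 R a := arm_mono v0 a hρR hx
  rw [arm_eq_of_mem hxR] at hxy
  rw [← hiso]
  exact hxy

/-- `Iso` depends only on the arm. -/
theorem iso_of_mem {v0 : V} {ρ R : ℕ} (hρR : ρ ≤ R) {a x : V} (hx : x ∈ arm G v0 ρ a) :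
    Iso G v0 ρ R x ↔ Iso G v0 ρ R a := by
  unfold Iso
  rw [arm_eq_of_mem hx, arm_eq_of_mem (arm_mono v0 a hρR hx)]

end Pool.Agent.RBC
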