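import Pool.Agent.MP_dd54b8_co.A1

set_option autoImplicit false

/-! Task [RBC-A2]: counting strand vertices arm by arm. -/

namespace Pool.Agent.RBC

open SimpleGraph

variable {V : Type} [Fintype V] {G : SimpleGraph V}

omit [Fintype V] in
open Classical in
private theorem count_aux (m m' : ℕ) (T F : Finset V) (B : V → Finset V)
    (hB : ∀ x ∈ T, m ≤ m' * (B x).card)
    (hdisj : ∀ x ∈ T, ∀ y ∈ T, x ≠ y → Disjoint (B x) (B y))
    (hsub : ∀ x ∈ T, B x ⊆ F) : m * T.card ≤ m' * F.card := by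
  have h1 : (T.biUnion B).card = ∑ x ∈ T, (B x).card :=
    Finset.card_biUnion fun x hx y hy hne => hdisj x hx y hy hne
  have h2 : (T.biUnion B).card ≤ F.card :=
    Finset.card_le_card (Finset.biUnion_subset.mpr hsub)
  calc m * T.card = ∑ _x ∈ T, m := by rw [Finset.sum_const, smul_eq_mul, mul_comm]
    _ ≤ ∑ x ∈ T, m' * (B x).card := Finset.sum_le_sum hB
    _ = m' * (T.biUnion B).card := by rw [← Finset.mul_sum, h1]
    _ ≤ m' * F.card := Nat.mul_le_mul_left _ h2

open Classical in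
theorem strand_thick (hc : G.Connected) (v0 : V) {k ρ r : ℕ} (hk : 1 ≤ k) (hr : 2 * k * ρ ≤ r)
    (S : Finset V)
    (hsep : ∀ x ∈ S, ∀ y ∈ S, lev G v0 x = lev G v0 y → x ≠ y → r < G.dist x y) :
    k * (S.filter (fun x => k ≤ (arm G v0 ρ x).card)).card ≤
      (Finset.univ.filter (fun x => k ≤ (arm G v0 ρ x).card)).card := by
  have key := count_aux k 1 (S.filter (fun x => k ≤ (arm G v0 ρ x).card))
    (Finset.univ.filter (fun x => k ≤ (arm G v0 ρ x).card))
    (fun x => (arm G v0 ρ x).filter (fun y => G.dist x y ≤ (k - 1) * ρ)) ?_ ?_ ?_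
  · simpa using key
  · intro x hx
    rw [Finset.mem_filter] at hx
    rw [one_mul]
    rcases arm_growth hc v0 x ρ (k - 1) with h | h
    · rw [Finset.filter_true_of_mem h]
      exact hx.2
    · omega
  · intro x hx y hy hne
    rw [Finset.mem_filter] at hx hy
    rw [Finset.disjoint_left]
    intro z hz1 hz2
    rw [Finset.mem_filter] at hz1 hz2
    have hl : lev G v0 x = lev G v0 y :=
      (lev_of_mem_arm hz1.1).symm.trans (lev_of_mem_arm hz2.1)
    have hd := hsep x hx.1 y hy.1 hl hne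
    have h1 : G.dist x y ≤ G.dist x z + G.dist z y := hc.dist_triangle
    have h2 : G.dist z y = G.dist y z := dist_comm
    have h3 : (k - 1) * ρ + (k - 1) * ρ ≤ 2 * k * ρ := by
      have : (k - 1) * ρ ≤ k * ρ := Nat.mul_le_mul_right _ (Nat.sub_le _ _)
      nlinarith
    have := hz1.2
    have := hz2.2
    omega
  · intro x hx y hy
    rw [Finset.mem_filter] at hx hy
    rw [Finset.mem_filter]
    refine ⟨Finset.mem_univ _, ?_⟩
    rw [arm_eq_of_mem hy.1]
    exact hx.2

open Classical in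
theorem strand_thin (hc : G.Connected) (v0 : V) {k ρ R r : ℕ} (hρR : ρ ≤ R) (hr : k * ρ ≤ r)
    (S : Finset V)
    (hsep : ∀ x ∈ S, ∀ y ∈ S, lev G v0 x = lev G v0 y → x ≠ y → r < G.dist x y) :
    k * (S.filter (fun x => (arm G v0 ρ x).card < k ∧ k ≤ 2 * (arm G v0 ρ x).card ∧
        Iso G v0 ρ R x)).card ≤
      2 * (Finset.univ.filter (fun x => (arm G v0 ρ x).card < k ∧
        k ≤ 2 * (arm G v0 ρ x).card ∧ Iso G v0 ρ R x)).card := by
  refine count_aux k 2 _ _ (fun x => arm G v0 ρ x) ?_ ?_ ?_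
  · intro x hx
    rw [Finset.mem_filter] at hx
    exact hx.2.2.1
  · intro x hx y hy hne
    rw [Finset.mem_filter] at hx hy
    rw [Finset.disjoint_left]
    intro z hz1 hz2
    have hl : lev G v0 x = lev G v0 y :=
      (lev_of_mem_arm hz1).symm.trans (lev_of_mem_arm hz2)
    have hd := hsep x hx.1 y hy.1 hl hne
    have hyx : y ∈ arm G v0 ρ x := by
      rw [← arm_eq_of_mem hz1, arm_eq_of_mem hz2]
      exact self_mem_arm v0 ρ y
    have h1 : G.dist x y ≤ k * ρ := arm_dist_le hc hyx hx.2.1.le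
    omega
  · intro x hx y hy
    rw [Finset.mem_filter] at hx
    rw [Finset.mem_filter]
    refine ⟨Finset.mem_univ _, ?_⟩
    rw [arm_eq_of_mem hy, iso_of_mem hρR hy]
    exact hx.2

end Pool.Agent.RBC
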