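import Pool.Agent.MP_dd54b8_co.A1

set_option autoImplicit false

/-! Task [RBC-A3]: choice of the scale. -/

namespace Pool.Agent.RBC

open SimpleGraph

variable {V : Type} [Fintype V] {G : SimpleGraph V}

open Classical in
private theorem bad_card_le (v0 x : V) {k K : ℕ} (hk : 1 ≤ k) (hK : 1 ≤ K) (J : ℕ) :
    ((Finset.range J).filter (fun j => (arm G v0 (K ^ j) x).card < k ∧
        ¬ Iso G v0 (K ^ j) (K ^ (j + 1)) x)).card ≤ k - 1 := by
  have hstep : ∀ j, arm G v0 (K ^ j) x ⊆ arm G v0 (K ^ (j + 1)) x := fun j =>
    arm_mono v0 x (Nat.pow_le_pow_right hK (Nat.le_succ j))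
  set P : ℕ → Prop := fun j => (arm G v0 (K ^ j) x).card < k ∧
        ¬ Iso G v0 (K ^ j) (K ^ (j + 1)) x with hP
  have key : ∀ m, ((Finset.range m).filter P).card + 1 ≤ (arm G v0 (K ^ m) x).card := by
    intro m
    induction m with
    | zero =>
      simp only [Finset.range_zero, Finset.filter_empty, Finset.card_empty, zero_add]
      exact Finset.card_pos.mpr ⟨x, self_mem_arm v0 _ x⟩
    | succ m ih =>
      rw [Finset.range_add_one, Finset.filter_insert]
      split_ifs with h
      · rw [Finset.card_insert_of_notMem (by simp)]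
        have hlt : (arm G v0 (K ^ m) x).card < (arm G v0 (K ^ (m + 1)) x).card := by
          apply Finset.card_lt_card
          refine (hstep m).ssubset_of_ne ?_
          intro he
          exact h.2 he.symm
        omega
      · exact ih.trans (Finset.card_le_card (hstep m))
  have fin : ∀ J, ((Finset.range J).filter P).card ≤ k - 1 := by
    intro J
    induction J with
    | zero => simp
    | succ J ih =>
      rw [Finset.range_add_one, Finset.filter_insert]
      split_ifs with h
      · rw [Finset.card_insert_of_notMem (by simp)]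
        have h1 := key J
        have h2 := h.1
        omega
      · exact ih
  exact fin J

open Classical in
theorem exists_scale (v0 : V) {k K J : ℕ} (hk : 1 ≤ k) (hK : 1 ≤ K) (hJ : 0 < J) :
    ∃ j < J, J * (Finset.univ.filter (fun x => (arm G v0 (K ^ j) x).card < k ∧
        ¬ Iso G v0 (K ^ j) (K ^ (j + 1)) x)).card ≤ (k - 1) * Fintype.card V := by
  by_contra hcon
  push Not at hcon
  have hsum : ∑ j ∈ Finset.range J, (Finset.univ.filter (fun x => (arm G v0 (K ^ j) x).card < k ∧
        ¬ Iso G v0 (K ^ j) (K ^ (j + 1)) x)).card ≤ (k - 1) * Fintype.card V := by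
    have h1 : ∑ j ∈ Finset.range J, (Finset.univ.filter (fun x => (arm G v0 (K ^ j) x).card < k ∧
        ¬ Iso G v0 (K ^ j) (K ^ (j + 1)) x)).card =
        ∑ x : V, ((Finset.range J).filter (fun j => (arm G v0 (K ^ j) x).card < k ∧
        ¬ Iso G v0 (K ^ j) (K ^ (j + 1)) x)).card := by
      simp only [Finset.card_filter]
      exact Finset.sum_comm
    rw [h1]
    calc _ ≤ ∑ _x : V, (k - 1) := Finset.sum_le_sum fun x _ => bad_card_le v0 x hk hK J
      _ = (k - 1) * Fintype.card V := by
        rw [Finset.sum_const, smul_eq_mul, Finset.card_univ, mul_comm]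
  have h2 : J * ((k - 1) * Fintype.card V) <
      ∑ j ∈ Finset.range J, J * (Finset.univ.filter (fun x => (arm G v0 (K ^ j) x).card < k ∧
        ¬ Iso G v0 (K ^ j) (K ^ (j + 1)) x)).card := by
    have h3 : J * ((k - 1) * Fintype.card V) =
        ∑ _j ∈ Finset.range J, (k - 1) * Fintype.card V := by
      rw [Finset.sum_const, Finset.card_range, smul_eq_mul]
    rw [h3]
    apply Finset.sum_lt_sum_of_nonempty (Finset.nonempty_range_iff.mpr hJ.ne')
    intro j hj
    exact hcon j (Finset.mem_range.mp hj)
  rw [← Finset.mul_sum] at h2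
  exact absurd h2 (not_lt.mpr (Nat.mul_le_mul_left J hsum))

end Pool.Agent.RBC
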