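import Pool.Agent.MP_dd54b8_co.P0

set_option autoImplicit false

/-! Task [RBC-B0]: the first leg comes back close to `H`. -/

namespace Pool.Agent.RBC

open SimpleGraph

variable {V : Type} [Fintype V] {G : SimpleGraph V}

theorem step_B0 (hc : G.Connected) {v0 : V} {k ρ R r C3 Λ M : ℕ}
    {H Sp Se Bot : Finset V} {q ov : ℕ} (h : St G v0 k ρ R r H Sp Se Bot q ov)
    {z z' : V} {i h0 b1 : ℕ} (hl : Legs G v0 r R C3 H z z' i h0 b1)
    (hcase : ∃ l, i < l ∧ l ≤ h0 ∧ ∃ y ∈ H, G.dist (anc G v0 z l) y ≤ 2 * r)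
    (hC : 4 * r ≤ C3) (hΛ : Λ * (3 * r + 1) + 3 * r ≤ 2 * C3 + 1) (hM : M + 3 * r ≤ 2 * C3 + 1) :
    Better G v0 k ρ R r Λ M Sp Se Bot ov := by
  classical
  -- the least level above `i` close to `H`
  obtain ⟨hs, ⟨his, hsh0, y1, hy1, hd1⟩, hmin⟩ :
      ∃ hs, (i < hs ∧ hs ≤ h0 ∧ ∃ y ∈ H, G.dist (anc G v0 z hs) y ≤ 2 * r) ∧
        ∀ l, i < l → l < hs → ∀ y ∈ H, 2 * r < G.dist (anc G v0 z l) y := by
    refine ⟨Nat.find hcase, Nat.find_spec hcase, ?_⟩
    intro l hl1 hl2 y hy
    by_contra hcon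
    exact Nat.find_min hcase hl2 ⟨hl1, (hl2.le.trans (Nat.find_spec hcase).2.1), y, hy,
      not_lt.1 hcon⟩
  obtain ⟨y0, hy0, hd0⟩ := hl.bH
  have hz := hl.hz
  have hbi := hl.bi
  have hgap := hl.gap
  -- lengths
  have hdi : G.dist (anc G v0 z hs) (anc G v0 z i) = hs - i := dist_anc hc his.le (by omega)
  have hlen2 : C3 < (hs - i) + 2 * r := by
    have h1 := hl.farA y1 hy1
    have h2 := hc.dist_triangle (u := anc G v0 z i) (v := anc G v0 z hs) (w := y1)
    rw [SimpleGraph.dist_comm] at hdi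
    omega
  -- distance of the new vertices from `H`
  have hfar : ∀ l, b1 < l → l < hs → ∀ y ∈ H, r < G.dist (anc G v0 z l) y := by
    intro l hl1 hl2 y hy
    by_cases hli : l ≤ i
    · exact hl.clear l hl1 hli y hy
    · have := hmin l (by omega) hl2 y hy; omega
  -- the connectors
  obtain ⟨κ1, hx1, -, hκ1, hst1⟩ := add_conn hc h (x := anc G v0 z b1) hy0 hd0
  obtain ⟨κ2, hx2, -, hκ2, hst2⟩ := add_conn hc hst1 (x := anc G v0 z hs) (y0 := y1) (d := 2 * r)
    (Finset.mem_union_left _ hy1) hd1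
  -- the ear
  set L : List V := vseg G v0 z b1 (hs - 1) with hLdef
  have hmemL : ∀ x, x ∈ L.toFinset ↔ ∃ l, b1 < l ∧ l < hs ∧ x = anc G v0 z l := by
    intro x
    rw [List.mem_toFinset, hLdef, mem_vseg]
    constructor
    · rintro ⟨l, h1, h2, h3⟩; exact ⟨l, h1, by omega, h3⟩
    · rintro ⟨l, h1, h2, h3⟩; exact ⟨l, h1, by omega, h3⟩
  have hnd : L.Nodup := vseg_nodup hc (by omega)
  have hLlen : L.length = hs - 1 - b1 := vseg_length v0 z b1 (hs - 1)
  have hcard : L.toFinset.card = hs - 1 - b1 := by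
    rw [List.toFinset_card_of_nodup hnd, hLlen]
  have hch : List.IsChain G.Adj (anc G v0 z b1 :: (L ++ [anc G v0 z hs])) := by
    rw [← List.cons_append, List.isChain_append]
    refine ⟨vseg_chain hc (by omega) (by omega), by simp, ?_⟩
    intro x hx y hy
    rw [List.getLast?_eq_some_getLast (by simp)] at hx
    simp only [Option.mem_def, Option.some.injEq, List.head?_cons] at hx hy
    have hx' : anc G v0 z (hs - 1) = x := by
      rw [← hx]; exact (vseg_getLast v0 z (by omega)).symm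
    rw [← hx', ← hy]
    have := adj_anc (G := G) hc (v0 := v0) (v := z) (i := hs - 1) (by omega)
    rw [Nat.sub_add_cancel (by omega)] at this
    exact this.symm
  have hlev : ∀ l, l < hs → lev G v0 (anc G v0 z l) = l := fun l hl => lev_anc hc (by omega)
  have hT : (L.toFinset ∩ (H ∪ κ1 ∪ κ2)).card ≤ 0 := by
    rw [Nat.le_zero, Finset.card_eq_zero, Finset.eq_empty_iff_forall_notMem]
    intro x hx
    rw [Finset.mem_inter, hmemL] at hx
    obtain ⟨⟨l, hl1, hl2, rfl⟩, hxH⟩ := hx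
    rw [Finset.mem_union, Finset.mem_union] at hxH
    rcases hxH with (hxH | hxκ) | hxκ
    · have := hfar l hl1 hl2 _ hxH
      simp at this
    · have h1 := hκ1 _ hxκ
      have h2 := hfar l hl1 hl2 _ hy0
      omega
    · have h1 := hκ2 _ hxκ
      by_cases hli : l ≤ i
      · have h2 := hfar l hl1 hl2 _ hy1
        have h3 : G.dist (anc G v0 z hs) (anc G v0 z l) = hs - l := dist_anc hc hl2.le (by omega)
        omega
      · have h2 := hmin l (by omega) hl2 _ hy1
        omega
  obtain ⟨hst3, hSe⟩ := add_ear hc hst2 (a := anc G v0 z b1) (b := anc G v0 z hs)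
    (Finset.mem_union_left _ (Finset.mem_union_right _ hx1)) (Finset.mem_union_right _ hx2)
    L hch hnd 0 1 hT L.toFinset {anc G v0 z (b1 + 1)} (Finset.Subset.refl _)
    (by
      intro x hx y hy _
      obtain ⟨l, hl1, hl2, rfl⟩ := (hmemL x).1 hx
      exact hfar l hl1 hl2 y (by
        rcases hy with hy | hy
        · exact h.subp hy
        · exact h.sube hy))
    (by
      intro x hx y hy hxy hne
      obtain ⟨l, hl1, hl2, rfl⟩ := (hmemL x).1 hx
      obtain ⟨l', hl1', hl2', rfl⟩ := (hmemL y).1 hy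
      rw [hlev l hl2, hlev l' hl2'] at hxy
      subst hxy
      exact absurd rfl hne)
    (by
      intro x hx
      obtain ⟨l, hl1, hl2, rfl⟩ := (hmemL x).1 hx
      by_cases hlb : l = b1 + 1
      · left; rw [hlb]; simp
      · right
        refine ⟨by rw [hlev l hl2]; omega, ?_⟩
        rw [hmemL]
        refine ⟨l - 1, by omega, by omega, ?_⟩
        have := par_anc_succ (G := G) hc (v0 := v0) (v := z) (i := l - 1) (by omega)
        rwa [Nat.sub_add_cancel (by omega)] at this)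
    (by omega)
  refine ⟨_, _, _, _, _, _, hst3, ?_, ?_, ?_⟩
  · rw [hSe, hcard]; omega
  · rw [hSe, hcard]
    have : Λ * (ov + r + 2 * r + 1) = Λ * ov + Λ * (3 * r + 1) := by ring
    rw [this]; omega
  · rw [hSe, hcard]
    have hB : (Bot ∪ {anc G v0 z (b1 + 1)}).card ≤ Bot.card + 1 := by
      refine (Finset.card_union_le _ _).trans ?_
      simp
    have h1 : M * (Bot ∪ {anc G v0 z (b1 + 1)}).card ≤ M * (Bot.card + 1) :=
      Nat.mul_le_mul_left _ hB
    have h2 : M * (Bot.card + 1) = M * Bot.card + M := by ring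
    omega

end Pool.Agent.RBC
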