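import Pool.Agent.MP_dd54b8_co.P0

set_option autoImplicit false

/-! Task [RBC-B1]: both legs reach `H` separately; `W` is the list of the ear. -/

namespace Pool.Agent.RBC

open SimpleGraph

variable {V : Type} [Fintype V] {G : SimpleGraph V}

/-- The ear: up the first leg, across the top, down the second leg. -/
noncomputable def earList (G : SimpleGraph V) (v0 z z' : V) (b1 j h0 : ℕ)
    (w : G.Walk (anc G v0 z h0) (anc G v0 z' h0)) : List V :=
  vseg G v0 z b1 (h0 - 1) ++ w.support ++ (vseg G v0 z' j (h0 - 1)).reverse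

private theorem head?_support_aux {u v : V} (p : G.Walk u v) : p.support.head? = some u := by
  cases p <;> rfl

theorem earList_chain (hc : G.Connected) {v0 z z' : V} {b1 j h0 : ℕ}
    (w : G.Walk (anc G v0 z h0) (anc G v0 z' h0)) (hb : b1 < h0) (hj : j < h0)
    (hz : h0 ≤ lev G v0 z) (hz' : h0 ≤ lev G v0 z') :
    List.IsChain G.Adj (anc G v0 z b1 :: (earList G v0 z z' b1 j h0 w ++ [anc G v0 z' j])) := by
  have e : (anc G v0 z b1 :: (earList G v0 z z' b1 j h0 w ++ [anc G v0 z' j])) =
      (anc G v0 z b1 :: vseg G v0 z b1 (h0 - 1)) ++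
        (w.support ++ (anc G v0 z' j :: vseg G v0 z' j (h0 - 1)).reverse) := by
    simp [earList, List.append_assoc]
  rw [e, List.isChain_append]
  refine ⟨vseg_chain hc (by omega) (by omega), ?_, ?_⟩
  · rw [List.isChain_append]
    refine ⟨w.isChain_adj_support, ?_, ?_⟩
    · rw [List.isChain_reverse]
      have h := vseg_chain (G := G) hc (v0 := v0) (z := z') (lo := j) (hi := h0 - 1)
        (by omega) (by omega)
      exact h.imp (fun a b hab => hab.symm)
    · intro x hx y hy
      rw [List.head?_reverse] at hy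
      rw [List.getLast?_eq_some_getLast (by simp)] at hx hy
      simp only [Option.mem_def, Option.some.injEq] at hx hy
      have hx' : anc G v0 z' h0 = x := by
        rw [← hx]; simp
      have hy' : anc G v0 z' (h0 - 1) = y := by
        rw [← hy]; exact (vseg_getLast v0 z' (by omega)).symm
      rw [← hx', ← hy']
      have := adj_anc (G := G) hc (v0 := v0) (v := z') (i := h0 - 1) (by omega)
      rwa [Nat.sub_add_cancel (by omega)] at this
  · intro x hx y hy
    rw [List.getLast?_eq_some_getLast (by simp)] at hx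
    simp only [Option.mem_def, Option.some.injEq] at hx
    have hx' : anc G v0 z (h0 - 1) = x := by
      rw [← hx]; exact (vseg_getLast v0 z (by omega)).symm
    have hy' : anc G v0 z h0 = y := by
      rw [List.head?_append, head?_support_aux w] at hy
      simpa using hy
    rw [← hx', ← hy']
    have := adj_anc (G := G) hc (v0 := v0) (v := z) (i := h0 - 1) (by omega)
    rw [Nat.sub_add_cancel (by omega)] at this
    exact this.symm

theorem earList_nodup (hc : G.Connected) {v0 z z' : V} {i b1 j h0 r R : ℕ}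
    (w : G.Walk (anc G v0 z h0) (anc G v0 z' h0)) (hw : w.IsPath)
    (hwl : w.length = G.dist (anc G v0 z h0) (anc G v0 z' h0)) (hwr : w.length ≤ r)
    (hrR : 3 * r ≤ R) (hi : i < h0) (hlong : R < 2 * (h0 - i) + r)
    (hz : h0 ≤ lev G v0 z) (hz' : h0 ≤ lev G v0 z')
    (hap : ∀ l, i ≤ l → l < h0 → r < G.dist (anc G v0 z l) (anc G v0 z' l))
    (hap2 : ∀ l, b1 < l → j < l → l < h0 → r < G.dist (anc G v0 z l) (anc G v0 z' l)) :
    (earList G v0 z z' b1 j h0 w).Nodup := by
  -- points of a walk
  have hsplit : ∀ x ∈ w.support, G.dist (anc G v0 z h0) x + G.dist x (anc G v0 z' h0) ≤ w.length := by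
    classical
    intro x hx
    have h1 := SimpleGraph.dist_le (w.takeUntil x hx)
    have h2 := SimpleGraph.dist_le (w.dropUntil x hx)
    have h3 : (w.takeUntil x hx).length + (w.dropUntil x hx).length = w.length := by
      rw [← SimpleGraph.Walk.length_append, SimpleGraph.Walk.take_spec]
    omega
  have key : ∀ l, l < h0 → G.dist (anc G v0 z l) (anc G v0 z' l) ≤ w.length → (h0 - l) ≤ w.length →
      False := by
    intro l hl hd hle
    by_cases hil : i ≤ l
    · have := hap l hil hl; omega
    · omega
  unfold earList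
  rw [List.nodup_append, List.nodup_append]
  refine ⟨⟨vseg_nodup hc (by omega), (SimpleGraph.Walk.isPath_def w).1 hw, ?_⟩, ?_, ?_⟩
  · intro a ha b hb hab
    subst hab
    obtain ⟨l, hl1, hl2, rfl⟩ := mem_vseg.1 ha
    have hl : l < h0 := by omega
    have h1 := hsplit _ hb
    have h2 : G.dist (anc G v0 z h0) (anc G v0 z l) = h0 - l := dist_anc hc hl.le hz
    have h3 : G.dist (anc G v0 z' h0) (anc G v0 z' l) = h0 - l := dist_anc hc hl.le hz'
    have h4 := hc.dist_triangle (u := anc G v0 z l) (v := anc G v0 z' h0) (w := anc G v0 z' l)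
    exact key l hl (by omega) (by omega)
  · rw [List.nodup_reverse]; exact vseg_nodup hc (by omega)
  · intro a ha b hb hab
    subst hab
    rw [List.mem_reverse] at hb
    obtain ⟨l, hl1, hl2, rfl⟩ := mem_vseg.1 hb
    have hl : l < h0 := by omega
    rcases List.mem_append.1 ha with ha | ha
    · obtain ⟨l', hl1', hl2', heq⟩ := mem_vseg.1 ha
      have hll : l = l' := by
        have e1 := lev_anc (G := G) hc (v0 := v0) (v := z') (i := l) (by omega)
        have e2 := lev_anc (G := G) hc (v0 := v0) (v := z) (i := l') (by omega)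
        rw [heq] at e1; omega
      subst hll
      have := hap2 l hl1' hl1 hl
      rw [heq] at this
      simp at this
    · have h1 := hsplit _ ha
      have h2 : G.dist (anc G v0 z h0) (anc G v0 z l) = h0 - l := dist_anc hc hl.le hz
      have h3 : G.dist (anc G v0 z' h0) (anc G v0 z' l) = h0 - l := dist_anc hc hl.le hz'
      have h4 := hc.dist_triangle (u := anc G v0 z l) (v := anc G v0 z h0) (w := anc G v0 z' l)
      have h5 : G.dist (anc G v0 z l) (anc G v0 z h0) = h0 - l := by
        rw [SimpleGraph.dist_comm]; exact h2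
      have h6 : G.dist (anc G v0 z' l) (anc G v0 z' h0) = h0 - l := by
        rw [SimpleGraph.dist_comm]; exact h3
      exact key l hl (by omega) (by omega)

theorem earList_length {v0 z z' : V} {b1 j h0 : ℕ}
    (w : G.Walk (anc G v0 z h0) (anc G v0 z' h0)) :
    (earList G v0 z z' b1 j h0 w).length = (h0 - 1 - b1) + (w.length + 1) + (h0 - 1 - j) := by
  simp [earList, vseg_length, SimpleGraph.Walk.length_support, add_assoc]

theorem mem_earList {v0 z z' : V} {b1 j h0 : ℕ}
    (w : G.Walk (anc G v0 z h0) (anc G v0 z' h0)) (x : V) :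
    x ∈ earList G v0 z z' b1 j h0 w ↔ (∃ l, b1 < l ∧ l < h0 ∧ x = anc G v0 z l) ∨
      x ∈ w.support ∨ (∃ l, j < l ∧ l < h0 ∧ x = anc G v0 z' l) := by
  simp only [earList, List.mem_append, List.mem_reverse, mem_vseg, or_assoc]
  have h : ∀ (b : ℕ) (y : V), (∃ l, b < l ∧ l ≤ h0 - 1 ∧ x = anc G v0 y l) ↔
      (∃ l, b < l ∧ l < h0 ∧ x = anc G v0 y l) := by
    intro b y
    constructor
    · rintro ⟨l, h1, h2, h3⟩; exact ⟨l, h1, by omega, h3⟩
    · rintro ⟨l, h1, h2, h3⟩; exact ⟨l, h1, by omega, h3⟩
  rw [h, h]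

end Pool.Agent.RBC
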