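import Pool.Agent.MP_dd54b8_co.B1

set_option autoImplicit false

/-! Task [RBC-B2]: both legs reach `H` without coming close to each other. -/

namespace Pool.Agent.RBC

open SimpleGraph

variable {V : Type} [Fintype V] {G : SimpleGraph V}

open Classical in
theorem step_B2 (hc : G.Connected) {v0 : V} {k ρ R r C3 Λ M : ℕ}
    {H Sp Se Bot : Finset V} {q ov : ℕ} (h : St G v0 k ρ R r H Sp Se Bot q ov)
    {z z' : V} {i h0 b1 j : ℕ} (hl : Legs G v0 r R C3 H z z' i h0 b1)
    (hA : ∀ l, i < l → l ≤ h0 → ∀ y ∈ H, 2 * r < G.dist (anc G v0 z l) y)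
    (hj : j < h0) (hjH : ∃ y ∈ H, G.dist (anc G v0 z' j) y ≤ r)
    (hjc : ∀ l, j < l → l < h0 → ∀ y ∈ H, r < G.dist (anc G v0 z' l) y)
    (hja : ∀ l, j < l → b1 < l → l < i → r < G.dist (anc G v0 z' l) (anc G v0 z l))
    (hR : 3 * r ≤ R) (hC : 4 * r ≤ C3)
    (hΛ : Λ * (3 * r + 2) + r ≤ C3 + 1) (hM : 2 * M + r ≤ C3 + 1) :
    Better G v0 k ρ R r Λ M Sp Se Bot ov := by
  obtain ⟨ih, hz, hz', top, apart, long, bi, bH, clear, gap, farA⟩ := hl
  obtain ⟨w, hwp, hwl⟩ := (hc (anc G v0 z h0) (anc G v0 z' h0)).exists_path_of_dist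
  have hwr : w.length ≤ r := by omega
  obtain ⟨yb, hyb, hdb⟩ := bH
  obtain ⟨yj, hyj, hdj⟩ := hjH
  obtain ⟨κ1, hx1, -, hκ1, st1⟩ := add_conn hc h hyb hdb
  obtain ⟨κ2, hx2, -, hκ2, st2⟩ := add_conn hc st1 (Finset.mem_union_left κ1 hyj) hdj
  -- distance of the legs to `H`
  have far1 : ∀ l, b1 < l → l < h0 → ∀ y ∈ H, r < G.dist (anc G v0 z l) y := by
    intro l h1 h2 y hy
    by_cases hli : l ≤ i
    · exact clear l h1 hli y hy
    · have := hA l (by omega) (by omega) y hy
      omega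
  have lev1 : ∀ l, l < h0 → lev G v0 (anc G v0 z l) = l := fun l hl =>
    lev_anc hc (by omega)
  have lev2 : ∀ l, l < h0 → lev G v0 (anc G v0 z' l) = l := fun l hl =>
    lev_anc hc (by omega)
  have apart2 : ∀ l, b1 < l → j < l → l < h0 → r < G.dist (anc G v0 z l) (anc G v0 z' l) := by
    intro l h1 h2 h3
    by_cases hli : i ≤ l
    · exact apart l hli h3
    · rw [SimpleGraph.dist_comm]
      exact hja l h2 h1 (by omega)
  -- the new strand vertices
  set N1 : List V := vseg G v0 z b1 (h0 - 1) with hN1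
  set N2 : List V := vseg G v0 z' j (h0 - 1) with hN2
  have mem1 : ∀ x, x ∈ N1 ↔ ∃ l, b1 < l ∧ l < h0 ∧ x = anc G v0 z l := by
    intro x
    rw [hN1, mem_vseg]
    constructor
    · rintro ⟨l, h1, h2, h3⟩
      exact ⟨l, h1, by omega, h3⟩
    · rintro ⟨l, h1, h2, h3⟩
      exact ⟨l, h1, by omega, h3⟩
  have mem2 : ∀ x, x ∈ N2 ↔ ∃ l, j < l ∧ l < h0 ∧ x = anc G v0 z' l := by
    intro x
    rw [hN2, mem_vseg]
    constructor
    · rintro ⟨l, h1, h2, h3⟩
      exact ⟨l, h1, by omega, h3⟩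
    · rintro ⟨l, h1, h2, h3⟩
      exact ⟨l, h1, by omega, h3⟩
  have hnodN : (N1 ++ N2).Nodup := by
    rw [List.nodup_append']
    refine ⟨vseg_nodup hc (by omega), vseg_nodup hc (by omega), ?_⟩
    intro x hx hx'
    obtain ⟨l, h1, h2, rfl⟩ := (mem1 x).1 hx
    obtain ⟨l', h1', h2', h3'⟩ := (mem2 _).1 hx'
    have e1 := lev1 l h2
    rw [h3', lev2 l' h2'] at e1
    subst e1
    have := apart2 l' h1 h1' h2
    rw [h3', SimpleGraph.dist_self] at this
    omega
  set New : Finset V := (N1 ++ N2).toFinset with hNew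
  have hNewCard : New.card = (h0 - 1 - b1) + (h0 - 1 - j) := by
    rw [hNew, List.toFinset_card_of_nodup hnodN, List.length_append, hN1, hN2, vseg_length,
      vseg_length]
  have memNew : ∀ x, x ∈ New ↔ (∃ l, b1 < l ∧ l < h0 ∧ x = anc G v0 z l) ∨
      (∃ l, j < l ∧ l < h0 ∧ x = anc G v0 z' l) := by
    intro x
    rw [hNew, List.mem_toFinset, List.mem_append, mem1, mem2]
  have farNew : ∀ x ∈ New, ∀ y ∈ H, r < G.dist x y := by
    intro x hx y hy
    rcases (memNew x).1 hx with ⟨l, h1, h2, rfl⟩ | ⟨l, h1, h2, rfl⟩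
    · exact far1 l h1 h2 y hy
    · exact hjc l h1 h2 y hy
  have notin : ∀ x ∈ New, x ∉ H ∪ κ1 ∪ κ2 := by
    intro x hx hx'
    rw [Finset.mem_union, Finset.mem_union] at hx'
    rcases hx' with (hx' | hx') | hx'
    · have := farNew x hx x hx'
      rw [SimpleGraph.dist_self] at this
      omega
    · have h1 := farNew x hx yb hyb
      have h2 := hκ1 x hx'
      omega
    · have h1 := farNew x hx yj hyj
      have h2 := hκ2 x hx'
      omega
  set L : List V := earList G v0 z z' b1 j h0 w with hL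
  have memL : ∀ x, x ∈ L ↔ (∃ l, b1 < l ∧ l < h0 ∧ x = anc G v0 z l) ∨
      x ∈ w.support ∨ (∃ l, j < l ∧ l < h0 ∧ x = anc G v0 z' l) := fun x => mem_earList w x
  have hsub : New ⊆ L.toFinset := by
    intro x hx
    rw [List.mem_toFinset, memL]
    rcases (memNew x).1 hx with hx | hx
    · exact Or.inl hx
    · exact Or.inr (Or.inr hx)
  have hT : (L.toFinset ∩ (H ∪ κ1 ∪ κ2)).card ≤ r + 1 := by
    have hs : L.toFinset ∩ (H ∪ κ1 ∪ κ2) ⊆ w.support.toFinset := by
      intro x hx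
      rw [Finset.mem_inter, List.mem_toFinset, memL] at hx
      obtain ⟨hx1, hx2⟩ := hx
      rw [List.mem_toFinset]
      rcases hx1 with hx1 | hx1 | hx1
      · exact absurd hx2 (notin x ((memNew x).2 (Or.inl hx1)))
      · exact hx1
      · exact absurd hx2 (notin x ((memNew x).2 (Or.inr hx1)))
    calc (L.toFinset ∩ (H ∪ κ1 ∪ κ2)).card ≤ w.support.toFinset.card := Finset.card_le_card hs
      _ ≤ w.support.length := List.toFinset_card_le _
      _ = w.length + 1 := w.length_support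
      _ ≤ r + 1 := by omega
  have hold : ∀ x ∈ New, ∀ y, (y ∈ Sp ∨ y ∈ Se) → lev G v0 x = lev G v0 y →
      r < G.dist x y := by
    intro x hx y hy _
    exact farNew x hx y (hy.elim (fun h' => h.subp h') (fun h' => h.sube h'))
  have hnew : ∀ x ∈ New, ∀ y ∈ New, lev G v0 x = lev G v0 y → x ≠ y → r < G.dist x y := by
    intro x hx y hy hlev hne
    rcases (memNew x).1 hx with ⟨l, h1, h2, rfl⟩ | ⟨l, h1, h2, rfl⟩ <;>
      rcases (memNew y).1 hy with ⟨l', h1', h2', rfl⟩ | ⟨l', h1', h2', rfl⟩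
    · rw [lev1 l h2, lev1 l' h2'] at hlev
      exact absurd (by rw [hlev]) hne
    · rw [lev1 l h2, lev2 l' h2'] at hlev
      subst hlev
      exact apart2 l h1 h1' h2
    · rw [lev2 l h2, lev1 l' h2'] at hlev
      subst hlev
      rw [SimpleGraph.dist_comm]
      exact apart2 l h1' h1 h2
    · rw [lev2 l h2, lev2 l' h2'] at hlev
      exact absurd (by rw [hlev]) hne
  set NB : Finset V := {anc G v0 z (b1 + 1), anc G v0 z' (j + 1)} with hNB
  have hnb : ∀ x ∈ New, x ∈ NB ∨ (0 < lev G v0 x ∧ par G v0 x ∈ New) := by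
    intro x hx
    rcases (memNew x).1 hx with ⟨l, h1, h2, rfl⟩ | ⟨l, h1, h2, rfl⟩
    · by_cases hlb : l = b1 + 1
      · left
        subst hlb
        simp [hNB]
      · right
        refine ⟨by rw [lev1 l h2]; omega, ?_⟩
        obtain ⟨m, rfl⟩ : ∃ m, l = m + 1 := ⟨l - 1, by omega⟩
        rw [par_anc_succ hc (by omega)]
        exact (memNew _).2 (Or.inl ⟨m, by omega, by omega, rfl⟩)
    · by_cases hlb : l = j + 1
      · left
        subst hlb
        simp [hNB]
      · right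
        refine ⟨by rw [lev2 l h2]; omega, ?_⟩
        obtain ⟨m, rfl⟩ : ∃ m, l = m + 1 := ⟨l - 1, by omega⟩
        rw [par_anc_succ hc (by omega)]
        exact (memNew _).2 (Or.inr ⟨m, by omega, by omega, rfl⟩)
  have hLlen : L.length = (h0 - 1 - b1) + (w.length + 1) + (h0 - 1 - j) := earList_length w
  obtain ⟨st3, hcard⟩ := add_ear hc st2
    (a := anc G v0 z b1) (b := anc G v0 z' j)
    (Finset.mem_union_left _ (Finset.mem_union_right _ hx1)) (Finset.mem_union_right _ hx2)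
    L (earList_chain hc w (by omega) hj hz hz')
    (earList_nodup hc w hwp hwl hwr hR ih long hz hz' apart apart2)
    (r + 1) (r + 2) hT New NB hsub hold hnew hnb (by omega)
  refine ⟨_, _, _, _, _, _, st3, ?_, ?_, ?_⟩
  · rw [hcard]
    omega
  · rw [hcard]
    have e : Λ * (ov + r + r + (r + 2)) = Λ * ov + Λ * (3 * r + 2) := by ring
    rw [e]
    omega
  · rw [hcard]
    have hBot : (Bot ∪ NB).card ≤ Bot.card + 2 := by
      calc (Bot ∪ NB).card ≤ Bot.card + NB.card := Finset.card_union_le _ _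
        _ ≤ Bot.card + 2 := by
          have : NB.card ≤ 2 := Finset.card_le_two
          omega
    have e : M * (Bot ∪ NB).card ≤ M * Bot.card + 2 * M := by
      calc M * (Bot ∪ NB).card ≤ M * (Bot.card + 2) := Nat.mul_le_mul_left M hBot
        _ = M * Bot.card + 2 * M := by ring
    omega

end Pool.Agent.RBC
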