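import Pool.Agent.MP_dd54b8_co.Defs

set_option autoImplicit false

/-! Task [RBC-C1]: basic facts on `Rb`. -/

namespace Pool.Agent.RBC

open SimpleGraph

variable {V : Type} {G : SimpleGraph V}

theorem rb_singleton (v : V) : Rb G {v} 0 := by
  refine ⟨fun _ => 0, ?_⟩
  intro u hu w hw
  rw [Set.mem_singleton_iff] at hu hw
  subst hu
  subst hw
  refine ⟨Walk.nil, ?_, ?_, ?_⟩
  · intro x hx
    simpa using hx
  · simp
  · intro e he
    simp at he

theorem rb_mono {D : Set V} {q q' : ℕ} (h : Rb G D q) (hq : q ≤ q') : Rb G D q' := by
  obtain ⟨c, hc⟩ := h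
  refine ⟨c, ?_⟩
  intro u hu v hv
  obtain ⟨w, h1, h2, h3⟩ := hc u hu v hv
  exact ⟨w, h1, h2, fun e he => (h3 e he).trans_le hq⟩

private theorem rb_add_edge {D : Set V} {q : ℕ} (h : Rb G D q) {x y : V} (hx : x ∈ D)
    (hxy : G.Adj x y) : Rb G (D ∪ {y}) (q + 1) := by
  classical
  by_cases hy : y ∈ D
  · have h1 : D ∪ {y} = D := by
      ext z
      simp only [Set.mem_union, Set.mem_singleton_iff]
      constructor
      · rintro (hz | rfl)
        · exact hz
        · exact hy
      · exact fun hz => Or.inl hz
    rw [h1]
    exact rb_mono h (Nat.le_succ q)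
  · obtain ⟨c, hc⟩ := h
    have key : ∀ {u v : V} (w : G.Walk u v), (∀ z ∈ w.support, z ∈ D) → ∀ e ∈ w.edges,
        e ≠ s(x, y) := by
      intro u v w hw e he heq
      subst heq
      exact hy (hw y (w.snd_mem_support_of_mem_edges he))
    have keymap : ∀ {u v : V} (w : G.Walk u v), (∀ z ∈ w.support, z ∈ D) →
        w.edges.map (fun e => if e = s(x, y) then q else c e) = w.edges.map c := by
      intro u v w hw
      apply List.map_congr_left
      intro e he
      exact if_neg (key w hw e he)
    refine ⟨fun e => if e = s(x, y) then q else c e, ?_⟩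
    intro u hu v hv
    rcases hu with hu | hu
    · rcases hv with hv | hv
      · obtain ⟨w, h1, h2, h3⟩ := hc u hu v hv
        refine ⟨w, fun z hz => Or.inl (h1 z hz), ?_, ?_⟩
        · rw [keymap w h1]
          exact h2
        · intro e he
          change (if e = s(x, y) then q else c e) < q + 1
          rw [if_neg (key w h1 e he)]
          exact (h3 e he).trans (Nat.lt_succ_self q)
      · rw [Set.mem_singleton_iff] at hv
        subst hv
        obtain ⟨w, h1, h2, h3⟩ := hc u hu x hx
        refine ⟨w.concat hxy, ?_, ?_, ?_⟩
        · intro z hz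
          rw [Walk.support_concat, List.mem_append] at hz
          rcases hz with hz | hz
          · exact Or.inl (h1 z hz)
          · right
            simpa using hz
        · rw [Walk.edges_concat, List.concat_eq_append, List.map_append, keymap w h1,
            List.nodup_append]
          refine ⟨h2, by simp, ?_⟩
          intro a ha b hb
          simp only [List.map_cons, List.map_nil, if_pos, List.mem_singleton] at hb
          rw [List.mem_map] at ha
          obtain ⟨e, he, rfl⟩ := ha
          rw [hb]
          exact (h3 e he).ne
        · intro e he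
          rw [Walk.edges_concat, List.concat_eq_append, List.mem_append] at he
          change (if e = s(x, v) then q else c e) < q + 1
          rcases he with he | he
          · rw [if_neg (key w h1 e he)]
            exact (h3 e he).trans (Nat.lt_succ_self q)
          · rw [List.mem_singleton] at he
            rw [if_pos he]
            exact Nat.lt_succ_self q
    · rw [Set.mem_singleton_iff] at hu
      subst hu
      rcases hv with hv | hv
      · obtain ⟨w, h1, h2, h3⟩ := hc x hx v hv
        refine ⟨Walk.cons hxy.symm w, ?_, ?_, ?_⟩
        · intro z hz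
          rw [Walk.support_cons, List.mem_cons] at hz
          rcases hz with hz | hz
          · right
            exact hz
          · exact Or.inl (h1 z hz)
        · rw [Walk.edges_cons, List.map_cons, keymap w h1, List.nodup_cons]
          refine ⟨?_, h2⟩
          rw [if_pos Sym2.eq_swap, List.mem_map]
          rintro ⟨e, he, hqe⟩
          exact absurd hqe (h3 e he).ne
        · intro e he
          rw [Walk.edges_cons, List.mem_cons] at he
          change (if e = s(x, u) then q else c e) < q + 1
          rcases he with he | he
          · rw [if_pos (he.trans Sym2.eq_swap)]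
            exact Nat.lt_succ_self q
          · rw [if_neg (key w h1 e he)]
            exact (h3 e he).trans (Nat.lt_succ_self q)
      · rw [Set.mem_singleton_iff] at hv
        subst hv
        refine ⟨Walk.nil, ?_, ?_, ?_⟩
        · intro z hz
          right
          simpa using hz
        · simp
        · intro e he
          simp at he

/-- Adding a walk starting in `D` costs at most its length. -/
theorem rb_walk {D : Set V} {q : ℕ} (h : Rb G D q) {a b : V} (ha : a ∈ D) (w : G.Walk a b) :
    Rb G (D ∪ {x | x ∈ w.support}) (q + w.length) := by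
  induction w generalizing D q with
  | nil =>
    rename_i a
    have h1 : D ∪ {x | x ∈ (Walk.nil : G.Walk a a).support} = D := by
      ext z
      simp only [Set.mem_union, Set.mem_ofPred_eq, Walk.support_nil, List.mem_singleton]
      constructor
      · rintro (hz | rfl)
        · exact hz
        · exact ha
      · exact fun hz => Or.inl hz
    rw [h1]
    simpa using h
  | cons hadj p ih =>
    rename_i a u b
    have h1 := rb_add_edge h ha hadj
    have h2 := ih h1 (Or.inr rfl)
    have h3 : D ∪ {x | x ∈ (Walk.cons hadj p).support} = (D ∪ {u}) ∪ {x | x ∈ p.support} := by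
      ext z
      simp only [Set.mem_union, Set.mem_ofPred_eq, Walk.support_cons, List.mem_cons,
        Set.mem_singleton_iff]
      constructor
      · rintro (hz | rfl | hz)
        · exact Or.inl (Or.inl hz)
        · exact Or.inl (Or.inl ha)
        · exact Or.inr hz
      · rintro ((hz | rfl) | hz)
        · exact Or.inl hz
        · exact Or.inr (Or.inr p.start_mem_support)
        · exact Or.inr (Or.inr hz)
    rw [h3, Walk.length_cons]
    have h4 : q + (p.length + 1) = q + 1 + p.length := by omega
    rw [h4]
    exact h2

/-- From `Rb` of everything to the colouring asked for in the problem. -/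
theorem rb_final {q N : ℕ} (h : Rb G Set.univ q) (hq : q ≤ N) (hN : 0 < N) :
    ∃ f : Sym2 V → Fin N, ∀ u v : V, ∃ p : G.Walk u v, p.IsPath ∧ (p.edges.map f).Nodup := by
  classical
  obtain ⟨c, hc⟩ := h
  refine ⟨fun e => ⟨c e % N, Nat.mod_lt _ hN⟩, ?_⟩
  intro u v
  obtain ⟨w, -, h2, h3⟩ := hc u (Set.mem_univ u) v (Set.mem_univ v)
  refine ⟨w.bypass, w.bypass_isPath, ?_⟩
  have hsub : ∀ e ∈ w.bypass.edges, e ∈ w.edges := fun e he => w.edges_bypass_subset_edges he
  apply List.Nodup.map_on _ w.bypass_isPath.isTrail.edges_nodup
  intro e he e' he' hee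
  have h4 : c e % N = c e' % N := congrArg Fin.val hee
  rw [Nat.mod_eq_of_lt ((h3 e (hsub e he)).trans_le hq),
    Nat.mod_eq_of_lt ((h3 e' (hsub e' he')).trans_le hq)] at h4
  exact List.inj_on_of_nodup_map h2 (hsub e he) (hsub e' he') h4

end Pool.Agent.RBC
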