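import Pool.Agent.MP_dd54b8_co.C1

set_option autoImplicit false

/-! Task [RBC-C2]: ears.  `a :: (L ++ [b])` is the ear, `L` its interior. -/

namespace Pool.Agent.RBC

open SimpleGraph

variable {V : Type} {G : SimpleGraph V}

/-- walk along a sequence of adjacent vertices -/
private theorem seq_walk (P : ℕ → V) (n : ℕ) : ∀ (i : ℕ), (∀ t, i ≤ t → t < i + n → G.Adj (P t) (P (t+1))) →
    ∃ w : G.Walk (P i) (P (i + n)), (∀ x ∈ w.support, ∃ t, i ≤ t ∧ t ≤ i + n ∧ x = P t) ∧
      w.edges = (List.range' i n).map (fun t => s(P t, P (t+1))) := by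
  induction n with
  | zero =>
    intro i _
    refine ⟨Walk.nil, ?_, ?_⟩
    · intro x hx
      refine ⟨i, le_rfl, by omega, ?_⟩
      simpa using hx
    · simp
  | succ n ih =>
    intro i h
    have h1 := h i le_rfl (by omega)
    obtain ⟨w, hw1, hw2⟩ := ih (i+1) (fun t h1 h2 => h t (by omega) (by omega))
    refine ⟨Walk.cons h1 (w.copy rfl (by congr 1; omega)), ?_, ?_⟩
    · intro x hx
      rw [Walk.support_cons, Walk.support_copy] at hx
      rcases List.mem_cons.1 hx with rfl | hx
      · exact ⟨i, le_rfl, by omega, rfl⟩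
      · obtain ⟨t, h1, h2, h3⟩ := hw1 x hx
        exact ⟨t, by omega, by omega, h3⟩
    · rw [Walk.edges_cons, Walk.edges_copy, hw2, List.range'_succ]
      simp

/-- rainbow walks with colours in `A` and vertices in `D'`. -/
private def Rw (G : SimpleGraph V) (c : Sym2 V → ℕ) (D' : Set V) (A : Set ℕ) (u v : V) : Prop :=
  ∃ w : G.Walk u v, (∀ x ∈ w.support, x ∈ D') ∧ (w.edges.map c).Nodup ∧ ∀ e ∈ w.edges, c e ∈ A

private theorem Rw.symm' {c : Sym2 V → ℕ} {D' : Set V} {A : Set ℕ} {u v : V}
    (h : Rw G c D' A u v) : Rw G c D' A v u := by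
  obtain ⟨w, h1, h2, h3⟩ := h
  refine ⟨w.reverse, ?_, ?_, ?_⟩
  · intro x hx
    rw [Walk.support_reverse, List.mem_reverse] at hx
    exact h1 x hx
  · rw [Walk.edges_reverse, List.map_reverse]
    exact List.nodup_reverse.2 h2
  · intro e he
    rw [Walk.edges_reverse, List.mem_reverse] at he
    exact h3 e he

private theorem Rw.trans' {c : Sym2 V → ℕ} {D' : Set V} {A B : Set ℕ} {u v z : V}
    (h : Rw G c D' A u v) (h' : Rw G c D' B v z) (hd : ∀ x ∈ A, x ∉ B) :
    Rw G c D' (A ∪ B) u z := by
  obtain ⟨w, h1, h2, h3⟩ := h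
  obtain ⟨w', h1', h2', h3'⟩ := h'
  refine ⟨w.append w', ?_, ?_, ?_⟩
  · intro x hx
    rcases (Walk.mem_support_append_iff _ _).1 hx with hx | hx
    · exact h1 x hx
    · exact h1' x hx
  · rw [Walk.edges_append, List.map_append]
    refine List.nodup_append.2 ⟨h2, h2', ?_⟩
    intro x hx y hy hxy
    obtain ⟨e, he, rfl⟩ := List.mem_map.1 hx
    obtain ⟨e', he', rfl⟩ := List.mem_map.1 hy
    exact hd _ (h3 e he) (hxy ▸ h3' e' he')
  · intro e he
    rw [Walk.edges_append, List.mem_append] at he
    rcases he with he | he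
    · exact Or.inl (h3 e he)
    · exact Or.inr (h3' e he)

private theorem Rw.mono' {c : Sym2 V → ℕ} {D' : Set V} {A B : Set ℕ} {u v : V}
    (h : Rw G c D' A u v) (hd : A ⊆ B) : Rw G c D' B u v := by
  obtain ⟨w, h1, h2, h3⟩ := h
  exact ⟨w, h1, h2, fun e he => hd (h3 e he)⟩

/-- An ear with `s` interior vertices outside `D` costs `⌊s/2⌋ + 1` colours (closed ears `a = b`
allowed). -/
theorem rb_ear {D : Set V} {q : ℕ} (h : Rb G D q) {a b : V} (ha : a ∈ D) (hb : b ∈ D)
    (L : List V) (hch : List.IsChain G.Adj (a :: (L ++ [b]))) (hnd : L.Nodup)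
    (hout : ∀ x ∈ L, x ∉ D) :
    Rb G (D ∪ {x | x ∈ L}) (q + (L.length + 2) / 2) := by
  classical
  rcases Nat.eq_zero_or_pos L.length with h0 | hpos
  · rw [List.length_eq_zero_iff] at h0
    subst h0
    simpa using rb_mono h (Nat.le_add_right q 1)
  obtain ⟨c, hc⟩ := h
  set s := L.length with hs
  set m := (s + 2) / 2 with hm
  have hm1 : 1 ≤ m := by omega
  have hm2 : s + 1 ≤ 2 * m := by omega
  have hm3 : 2 * m ≤ s + 2 := by omega
  -- positions
  set M : List V := a :: (L ++ [b]) with hM
  have hMl : M.length = s + 2 := by simp [hM, hs]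
  let P : ℕ → V := fun t => M.getD t a
  have hP0 : P 0 = a := by simp [P, hM]
  have hPs : P (s+1) = b := by simp [P, hM, hs]
  have hPL : ∀ t (h1 : 1 ≤ t) (h2 : t ≤ s), P t = L[t-1]'(by omega) := by
    intro t h1 h2
    obtain ⟨t, rfl⟩ : ∃ t', t = t' + 1 := ⟨t - 1, by omega⟩
    have : t < L.length := by omega
    simp [P, hM, List.getD, List.getElem?_append_left this, List.getElem?_eq_getElem this]
  have hPmem : ∀ t, 1 ≤ t → t ≤ s → P t ∈ L := by
    intro t h1 h2
    rw [hPL t h1 h2]
    exact List.getElem_mem _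
  have hPinj : ∀ t t', 1 ≤ t → t ≤ s → 1 ≤ t' → t' ≤ s → P t = P t' → t = t' := by
    intro t t' h1 h2 h1' h2' he
    rw [hPL t h1 h2, hPL t' h1' h2'] at he
    have := (List.Nodup.getElem_inj_iff hnd).1 he
    omega
  have hPadj : ∀ t, t ≤ s → G.Adj (P t) (P (t+1)) := by
    intro t ht
    have := (List.isChain_iff_getElem.1 hch) t (by rw [hMl]; omega)
    have e1 : P t = M[t]'(by omega) := by
      simp [P, List.getD, List.getElem?_eq_getElem (show t < M.length by omega)]
    have e2 : P (t+1) = M[t+1]'(by omega) := by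
      simp [P, List.getD, List.getElem?_eq_getElem (show t+1 < M.length by omega)]
    rw [e1, e2]
    exact this
  have haL : a ∉ L := fun h => hout a h ha
  have hbL : b ∉ L := fun h => hout b h hb
  -- key: the index is determined mod m
  have key : ∀ i j, i ≤ s → j ≤ s → s(P i, P (i+1)) = s(P j, P (j+1)) → i % m = j % m := by
    intro i j hi hj he
    have hL : ∀ t, t ≤ s + 1 → (P t ∈ L ↔ 1 ≤ t ∧ t ≤ s) := by
      intro t ht
      constructor
      · intro h
        by_contra hcon
        have : t = 0 ∨ t = s + 1 := by omega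
        rcases this with rfl | rfl
        · rw [hP0] at h; exact haL h
        · rw [hPs] at h; exact hbL h
      · rintro ⟨h1, h2⟩; exact hPmem t h1 h2
    rw [Sym2.eq_iff] at he
    rcases he with ⟨h1, h2⟩ | ⟨h1, h2⟩
    · rcases Nat.eq_zero_or_pos i with rfl | hi'
      · have : ¬ (P j ∈ L) := by rw [← h1, hP0]; exact haL
        rw [hL j (by omega)] at this
        have : j = 0 := by omega
        rw [this]
      · have : P j ∈ L := by rw [← h1]; exact hPmem i hi' hi
        rw [hL j (by omega)] at this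
        rw [hPinj i j hi' hi this.1 this.2 h1]
    · rcases Nat.eq_zero_or_pos i with rfl | hi'
      · have : ¬ (P (j+1) ∈ L) := by rw [← h1, hP0]; exact haL
        rw [hL (j+1) (by omega)] at this
        have hj' : j = s := by omega
        subst hj'
        have : 1 = s := hPinj 1 s le_rfl (by omega) (by omega) le_rfl (by simpa using h2)
        have hm' : m = 1 := by omega
        rw [hm', Nat.mod_one, Nat.mod_one]
      · have : P (j+1) ∈ L := by rw [← h1]; exact hPmem i hi' hi
        rw [hL (j+1) (by omega)] at this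
        have hij := hPinj i (j+1) hi' hi this.1 this.2 h1
        subst hij
        rcases Nat.eq_zero_or_pos j with rfl | hj'
        · have : ¬ (P (0+1+1) ∈ L) := by rw [h2, hP0]; exact haL
          rw [hL (0+1+1) (by omega)] at this
          have hm' : m = 1 := by omega
          simp [hm']
        · have : P (j+1+1) ∈ L := by rw [h2]; exact hPmem j hj' hj
          rw [hL (j+1+1) (by omega)] at this
          have := hPinj (j+1+1) j this.1 this.2 hj' hj h2
          omega
  let c' : Sym2 V → ℕ := fun e =>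
    if h : ∃ i, i ≤ s ∧ e = s(P i, P (i+1)) then q + h.choose % m else c e
  have hc'1 : ∀ i, i ≤ s → c' (s(P i, P (i+1))) = q + i % m := by
    intro i hi
    have hex : ∃ j, j ≤ s ∧ s(P i, P (i+1)) = s(P j, P (j+1)) := ⟨i, hi, rfl⟩
    have : c' (s(P i, P (i+1))) = q + hex.choose % m := by
      simp only [c']
      rw [dif_pos hex]
    rw [this, key i hex.choose hi hex.choose_spec.1 hex.choose_spec.2]
  have hc'2 : ∀ e : Sym2 V, (∀ x ∈ e, x ∈ D) → c' e = c e := by
    intro e he
    have : ¬ ∃ i, i ≤ s ∧ e = s(P i, P (i+1)) := by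
      rintro ⟨i, hi, rfl⟩
      rcases Nat.eq_zero_or_pos i with rfl | hi'
      · exact hout _ (hPmem 1 le_rfl (by omega)) (he _ (by simp))
      · exact hout _ (hPmem i hi' hi) (he _ (by simp))
    simp only [c']
    rw [dif_neg this]
  -- D' 
  set D' : Set V := D ∪ {x | x ∈ L} with hD'
  have hPD' : ∀ t, t ≤ s + 1 → P t ∈ D' := by
    intro t ht
    by_cases h1 : 1 ≤ t ∧ t ≤ s
    · exact Or.inr (hPmem t h1.1 h1.2)
    · have : t = 0 ∨ t = s + 1 := by omega
      rcases this with rfl | rfl
      · rw [hP0]; exact Or.inl ha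
      · rw [hPs]; exact Or.inl hb
  have G1 : ∀ u ∈ D, ∀ v ∈ D, Rw G c' D' {x | x < q} u v := by
    intro u hu v hv
    obtain ⟨w, h1, h2, h3⟩ := hc u hu v hv
    have hE : ∀ e ∈ w.edges, c' e = c e := by
      intro e he
      apply hc'2
      intro x hx
      exact h1 x (Walk.mem_support_of_mem_edges he hx)
    refine ⟨w, fun x hx => Or.inl (h1 x hx), ?_, ?_⟩
    · rw [List.map_congr_left hE]; exact h2
    · intro e he
      rw [hE e he]; exact h3 e he
  have G2 : ∀ i j, i ≤ j → j ≤ s + 1 → j - i ≤ m →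
      Rw G c' D' {x | ∃ t, i ≤ t ∧ t < j ∧ x = q + t % m} (P i) (P j) := by
    intro i j hij hj hm'
    obtain ⟨n, rfl⟩ : ∃ n, j = i + n := ⟨j - i, by omega⟩
    obtain ⟨w, h1, h2⟩ := seq_walk (G := G) P n i (fun t _ h2 => hPadj t (by omega))
    refine ⟨w, ?_, ?_, ?_⟩
    · intro x hx
      obtain ⟨t, ht1, ht2, rfl⟩ := h1 x hx
      exact hPD' t (by omega)
    · rw [h2, List.map_map]
      refine List.Nodup.map_on ?_ (List.nodup_range' (step := 1) (by omega))
      intro x hx y hy hxy
      rw [List.mem_range'_1] at hx hy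
      simp only [Function.comp] at hxy
      rw [hc'1 x (by omega), hc'1 y (by omega)] at hxy
      have hxy' : x % m = y % m := by omega
      by_contra hne
      rcases Nat.lt_or_gt_of_ne hne with hlt | hlt
      · have := (Nat.ModEq.dvd (n := m) (a := x) (b := y) hxy')
        have h3 : (m : ℤ) ≤ (y : ℤ) - x := Int.le_of_dvd (by omega) this
        omega
      · have := (Nat.ModEq.dvd (n := m) (a := y) (b := x) hxy'.symm)
        have h3 : (m : ℤ) ≤ (x : ℤ) - y := Int.le_of_dvd (by omega) this
        omega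
    · intro e he
      rw [h2, List.mem_map] at he
      obtain ⟨t, ht, rfl⟩ := he
      rw [List.mem_range'_1] at ht
      exact ⟨t, by omega, by omega, hc'1 t (by omega)⟩
  have hsub : ∀ i j, {x : ℕ | ∃ t, i ≤ t ∧ t < j ∧ x = q + t % m} ⊆ {x | x < q + m} := by
    rintro i j x ⟨t, -, -, rfl⟩
    have := Nat.mod_lt t (show m > 0 by omega)
    simp only [Set.mem_ofPred_eq]; omega
  have hsubq : {x : ℕ | x < q} ⊆ {x | x < q + m} := by
    intro x hx
    simp only [Set.mem_ofPred_eq] at hx ⊢; omega
  -- (b)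
  have Hb : ∀ u ∈ D, ∀ j, j ≤ s → Rw G c' D' {x | x < q + m} u (P j) := by
    intro u hu j hj
    by_cases hjm : j ≤ m
    · have h1 := G1 u hu a ha
      have h2 := G2 0 j (by omega) (by omega) (by omega)
      rw [hP0] at h2
      refine (h1.trans' h2 ?_).mono' (Set.union_subset hsubq (hsub _ _))
      rintro x hx ⟨t, -, -, rfl⟩
      simp only [Set.mem_ofPred_eq] at hx; omega
    · have h1 := G1 u hu b hb
      have h2 := (G2 j (s+1) (by omega) (by omega) (by omega)).symm'
      rw [hPs] at h2
      refine (h1.trans' h2 ?_).mono' (Set.union_subset hsubq (hsub _ _))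
      rintro x hx ⟨t, -, -, rfl⟩
      simp only [Set.mem_ofPred_eq] at hx; omega
  have Hc : ∀ i j, i ≤ j → j ≤ s → Rw G c' D' {x | x < q + m} (P i) (P j) := by
    intro i j hij hj
    by_cases hjm : j - i ≤ m
    · exact (G2 i j hij (by omega) hjm).mono' (hsub _ _)
    · have h1 := (G2 0 i (by omega) (by omega) (by omega)).symm'
      have h2 := G1 a ha b hb
      have h3 := (G2 j (s+1) (by omega) (by omega) (by omega)).symm'
      rw [hP0] at h1
      rw [hPs] at h3
      have h12 := h1.trans' h2 (by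
        rintro x ⟨t, -, -, rfl⟩ hx
        simp only [Set.mem_ofPred_eq] at hx; omega)
      refine (h12.trans' h3 ?_).mono'
        (Set.union_subset (Set.union_subset (hsub _ _) hsubq) (hsub _ _))
      rintro x (⟨t, -, ht, rfl⟩ | hx) ⟨t', ht1, ht2, hE⟩
      · have e1 : t % m = t := Nat.mod_eq_of_lt (by omega)
        have e2 : t' % m = t' - m := by
          rw [Nat.mod_eq_sub_mod (by omega), Nat.mod_eq_of_lt (by omega)]
        rw [e1, e2] at hE
        omega
      · simp only [Set.mem_ofPred_eq] at hx; omega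
  have hidx : ∀ x ∈ L, ∃ i, i ≤ s ∧ x = P i := by
    intro x hx
    obtain ⟨i, hi, rfl⟩ := List.mem_iff_getElem.1 hx
    refine ⟨i + 1, by omega, ?_⟩
    rw [hPL (i+1) (by omega) (by omega)]
    rfl
  have final : ∀ u ∈ D', ∀ v ∈ D', Rw G c' D' {x | x < q + m} u v := by
    rintro u (hu | hu) v (hv | hv)
    · exact (G1 u hu v hv).mono' hsubq
    · obtain ⟨j, hj, rfl⟩ := hidx v hv
      exact Hb u hu j hj
    · obtain ⟨j, hj, rfl⟩ := hidx u hu
      exact (Hb v hv j hj).symm'
    · obtain ⟨i, hi, rfl⟩ := hidx u hu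
      obtain ⟨j, hj, rfl⟩ := hidx v hv
      rcases le_total i j with hij | hij
      · exact Hc i j hij hj
      · exact (Hc j i hij hi).symm'
  exact ⟨c', final⟩

end Pool.Agent.RBC
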