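import Pool.Agent.MP_dd54b8_co.C2

set_option autoImplicit false

/-! Task [RBC-C3]: ears that touch the set. -/

namespace Pool.Agent.RBC

open SimpleGraph

variable {V : Type} {G : SimpleGraph V}

open Classical in
/-- An ear up to `T` of whose interior vertices are already in `D`. -/
theorem rb_ear_touch {D : Set V} {q : ℕ} (h : Rb G D q) {a b : V} (ha : a ∈ D) (hb : b ∈ D)
    (L : List V) (hch : List.IsChain G.Adj (a :: (L ++ [b]))) (hnd : L.Nodup)
    (T : ℕ) (hT : (L.filter (fun x => decide (x ∈ D))).length ≤ T) :
    Rb G (D ∪ {x | x ∈ L}) (q + (L.length + T + 2) / 2) := by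
  have key : ∀ n : ℕ, ∀ (D : Set V) (q : ℕ) (a : V) (L : List V) (T : ℕ), L.length = n →
      Rb G D q → a ∈ D → b ∈ D → List.IsChain G.Adj (a :: (L ++ [b])) → L.Nodup →
      (L.filter (fun x => decide (x ∈ D))).length ≤ T →
      Rb G (D ∪ {x | x ∈ L}) (q + (L.length + T + 2) / 2) := by
    intro n
    induction n using Nat.strong_induction_on with
    | _ n ih =>
      intro D q a L T hn h ha hb hch hnd hT
      by_cases hex : ∃ x ∈ L, x ∈ D
      · obtain ⟨L1, x, L2, hL, hxD, h1⟩ : ∃ L1 x L2, L = L1 ++ x :: L2 ∧ x ∈ D ∧
            ∀ y ∈ L1, y ∉ D := by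
          clear hn hch hnd hT
          induction L with
          | nil =>
            obtain ⟨x, hx, -⟩ := hex
            simp at hx
          | cons y L ihL =>
            by_cases hy : y ∈ D
            · exact ⟨[], y, L, rfl, hy, by simp⟩
            · have hex' : ∃ x ∈ L, x ∈ D := by
                obtain ⟨x, hx, hxD⟩ := hex
                rcases List.mem_cons.1 hx with rfl | hx
                · exact absurd hxD hy
                · exact ⟨x, hx, hxD⟩
              obtain ⟨L1, x, L2, hL, hxD, h1⟩ := ihL hex'
              refine ⟨y :: L1, x, L2, by rw [hL]; rfl, hxD, ?_⟩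
              intro z hz
              rcases List.mem_cons.1 hz with rfl | hz
              · exact hy
              · exact h1 z hz
        subst hL
        have hnd1 : L1.Nodup := (List.nodup_append.1 hnd).1
        have hnd2 : (x :: L2).Nodup := (List.nodup_append.1 hnd).2.1
        have hdis : ∀ y ∈ L1, ∀ z ∈ x :: L2, y ≠ z := (List.nodup_append.1 hnd).2.2
        have hch' : List.IsChain G.Adj ((a :: L1) ++ (x :: (L2 ++ [b]))) := by
          have : (a :: L1) ++ (x :: (L2 ++ [b])) = a :: ((L1 ++ x :: L2) ++ [b]) := by simp
          rw [this]
          exact hch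
        have hch1 : List.IsChain G.Adj (a :: (L1 ++ [x])) := by
          have h3 : (a :: L1) ++ (x :: (L2 ++ [b])) = (a :: (L1 ++ [x])) ++ (L2 ++ [b]) := by simp
          rw [h3] at hch'
          exact (List.isChain_append.1 hch').1
        have hch2 : List.IsChain G.Adj (x :: (L2 ++ [b])) := (List.isChain_append.1 hch').2.1
        have hR1 : Rb G (D ∪ {y | y ∈ L1}) (q + (L1.length + 2) / 2) :=
          rb_ear h ha hxD L1 hch1 hnd1 h1
        have hfil : ((L1 ++ x :: L2).filter (fun y => decide (y ∈ D))).length =
            (L2.filter (fun y => decide (y ∈ D))).length + 1 := by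
          rw [List.filter_append, List.filter_eq_nil_iff.2, List.nil_append, List.filter_cons_of_pos]
          · rfl
          · simpa using hxD
          · intro y hy
            simpa using h1 y hy
        have hlen : (L1 ++ x :: L2).length = L1.length + L2.length + 1 := by
          simp only [List.length_append, List.length_cons]
          omega
        have hR2 := ih L2.length (by rw [← hn, hlen]; omega) (D ∪ {y | y ∈ L1})
          (q + (L1.length + 2) / 2) x L2 (T - 1) rfl hR1 (Or.inl hxD) (Or.inl hb) hch2
          (List.nodup_cons.1 hnd2).2 (by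
            refine le_trans (le_of_eq (congrArg List.length (List.filter_congr fun y hy => ?_)))
              (show (L2.filter (fun y => decide (y ∈ D))).length ≤ T - 1 by omega)
            have : y ∉ L1 := fun h => hdis y h y (List.mem_cons_of_mem _ hy) rfl
            simp [this])
        have hset : D ∪ {y | y ∈ L1} ∪ {y | y ∈ L2} = D ∪ {y | y ∈ L1 ++ x :: L2} := by
          ext y
          simp only [Set.mem_union, Set.mem_ofPred_eq, List.mem_append, List.mem_cons]
          constructor
          · rintro ((h | h) | h)
            · exact Or.inl h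
            · exact Or.inr (Or.inl h)
            · exact Or.inr (Or.inr (Or.inr h))
          · rintro (h | h | rfl | h)
            · exact Or.inl (Or.inl h)
            · exact Or.inl (Or.inr h)
            · exact Or.inl (Or.inl hxD)
            · exact Or.inr h
        rw [hset] at hR2
        refine rb_mono hR2 ?_
        rw [hlen]
        omega
      · have hout : ∀ x ∈ L, x ∉ D := fun x hx hxD => hex ⟨x, hx, hxD⟩
        exact rb_mono (rb_ear h ha hb L hch hnd hout) (by omega)
  exact key _ D q a L T rfl h ha hb hch hnd hT

end Pool.Agent.RBC
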