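import Mathlib

set_option autoImplicit false

/-!
Rainbow connection of k-connected graphs (MP_dd54b8_co).  Basic definitions.
-/

namespace Pool.Agent.RBC

open SimpleGraph

section
variable {V : Type} [Fintype V] (G : SimpleGraph V)

/-- `k`-connected, exactly as in the problem. -/
def KConn (k : ℕ) : Prop :=
  k < Fintype.card V ∧
    ∀ S : Finset V, S.card < k → (G.induce ((↑S : Set V)ᶜ)).Connected

end

section
variable {V : Type} (G : SimpleGraph V)

/-- `D` is rainbow connected inside itself with colours `0, …, q-1`: there is a colouring `c` of the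
edges such that any two vertices of `D` are joined by a walk inside `D` whose colours are pairwise
distinct and smaller than `q`. -/
def Rb (D : Set V) (q : ℕ) : Prop :=
  ∃ c : Sym2 V → ℕ, ∀ u ∈ D, ∀ v ∈ D, ∃ w : G.Walk u v,
    (∀ x ∈ w.support, x ∈ D) ∧ (w.edges.map c).Nodup ∧ ∀ e ∈ w.edges, c e < q

/-- Level of `v`: distance from the root `v0`. -/
noncomputable def lev (v0 v : V) : ℕ := G.dist v0 v

open Classical in
/-- A parent of `v`: a neighbour one level lower (and `v` itself if there is none). -/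
noncomputable def par (v0 v : V) : V :=
  if h : ∃ u, G.Adj v u ∧ lev G v0 u + 1 = lev G v0 v then h.choose else v

/-- The ancestor of `v` at level `i` (for `i ≤ lev v`). -/
noncomputable def anc (v0 v : V) (i : ℕ) : V := (par G v0)^[lev G v0 v - i] v

/-- `u` and `v` are joined by a walk all of whose vertices have level at least `i`. -/
def Up (v0 : V) (i : ℕ) (u v : V) : Prop :=
  ∃ w : G.Walk u v, ∀ x ∈ w.support, i ≤ lev G v0 x

/-- One step of the arm relation at scale `ρ`. -/
def ArmStep (v0 : V) (ρ : ℕ) (a b : V) : Prop :=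
  lev G v0 a = lev G v0 b ∧ Up G v0 (lev G v0 a) a b ∧ G.dist a b ≤ ρ

/-- The arm relation at scale `ρ` (an equivalence relation). -/
def ArmRel (v0 : V) (ρ : ℕ) : V → V → Prop := Relation.ReflTransGen (ArmStep G v0 ρ)

end

section
variable {V : Type} [Fintype V] (G : SimpleGraph V)

open Classical in
/-- The arm of `v` at scale `ρ`. -/
noncomputable def arm (v0 : V) (ρ : ℕ) (v : V) : Finset V :=
  Finset.univ.filter (fun u => ArmRel G v0 ρ v u)

/-- The arm of `v` at scale `ρ` is isolated at scale `R`. -/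
def Iso (v0 : V) (ρ R : ℕ) (v : V) : Prop := arm G v0 R v = arm G v0 ρ v

/-- State of the construction. `H` the current subgraph (vertex set), `Sp` the pendant strand
vertices, `Se` the ear strand vertices, `Bot` the bottom vertices of ear segments, `q` colours,
`ov` the overhead. -/
structure St (v0 : V) (k ρ R r : ℕ) (H Sp Se Bot : Finset V) (q ov : ℕ) : Prop where
  root : v0 ∈ H
  rb : Rb G (↑H : Set V) q
  subp : Sp ⊆ H
  sube : Se ⊆ H
  disj : Disjoint Sp Se
  sep : ∀ x, (x ∈ Sp ∨ x ∈ Se) → ∀ y, (y ∈ Sp ∨ y ∈ Se) → lev G v0 x = lev G v0 y → x ≠ y →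
    r < G.dist x y
  pend : ∀ x ∈ Sp, ¬ (Iso G v0 ρ R x ∧ (arm G v0 ρ x).card < k)
  bot : ∀ x ∈ Se, x ∈ Bot ∨ (0 < lev G v0 x ∧ par G v0 x ∈ Se)
  cost : 2 * q ≤ 2 * Sp.card + Se.card + 2 * ov

/-- `a` represents a thin isolated arm, far from `H`, with something above it. -/
def FarIso (v0 : V) (k ρ R C3 : ℕ) (H : Finset V) (a : V) : Prop :=
  1 ≤ lev G v0 a ∧ Iso G v0 ρ R a ∧ (arm G v0 ρ a).card < k ∧
    (∃ u, lev G v0 a < lev G v0 u ∧ Up G v0 (lev G v0 a) a u) ∧
    ∀ x ∈ arm G v0 ρ a, ∀ h ∈ H, C3 < G.dist x h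

end

end Pool.Agent.RBC
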