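import Mathlib

set_option autoImplicit false

/-! Task [RBC-E1]: a function without fixed points is properly 3-coloured. -/

namespace Pool.Agent.RBC

private theorem exists_low {X : Type} [DecidableEq X] (f : X → Option X) (S : Finset X)
    (hS : S.Nonempty) : ∃ x ∈ S, (S.filter (fun z => f z = some x)).card ≤ 1 := by
  by_contra hcon
  push Not at hcon
  have h1 : ∑ x ∈ S, (S.filter (fun z => f z = some x)).card ≤ S.card := by
    rw [← Finset.card_biUnion]
    · apply Finset.card_le_card
      intro z hz
      rw [Finset.mem_biUnion] at hz
      obtain ⟨x, _, hz⟩ := hz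
      exact (Finset.mem_filter.mp hz).1
    · intro x _ y _ hxy
      change Disjoint _ _
      rw [Finset.disjoint_left]
      intro z hz1 hz2
      have e1 := (Finset.mem_filter.mp hz1).2
      have e2 := (Finset.mem_filter.mp hz2).2
      rw [e1] at e2
      exact hxy (Option.some.inj e2)
  have h2 : ∑ x ∈ S, 2 ≤ ∑ x ∈ S, (S.filter (fun z => f z = some x)).card :=
    Finset.sum_le_sum (fun x hx => hcon x hx)
  have h3 : 0 < S.card := hS.card_pos
  simp only [Finset.sum_const, smul_eq_mul] at h2
  omega

private theorem col_aux {X : Type} [DecidableEq X] (f : X → Option X) (hf : ∀ x, f x ≠ some x) :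
    ∀ (n : ℕ) (S : Finset X), S.card = n →
      ∃ κ : X → Fin 3, ∀ x ∈ S, ∀ y ∈ S, f x = some y → κ x ≠ κ y := by
  intro n
  induction n with
  | zero =>
    intro S hS
    rw [Finset.card_eq_zero] at hS
    subst hS
    exact ⟨fun _ => 0, fun x hx => absurd hx (Finset.notMem_empty x)⟩
  | succ n ih =>
    intro S hS
    have hne : S.Nonempty := Finset.card_pos.mp (by omega)
    obtain ⟨x, hx, hlow⟩ := exists_low f S hne
    obtain ⟨κ, hκ⟩ := ih (S.erase x) (by rw [Finset.card_erase_of_mem hx]; omega)
    set F : Finset (Fin 3) :=
      ((S.filter (fun z => f z = some x)).image κ) ∪ ((f x).toFinset.image κ) with hF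
    have hFc : F.card < 3 := by
      have h1 : ((S.filter (fun z => f z = some x)).image κ).card ≤ 1 :=
        (Finset.card_image_le).trans hlow
      have h2 : ((f x).toFinset.image κ).card ≤ 1 := by
        refine (Finset.card_image_le).trans ?_
        cases f x <;> simp
      have h3 := Finset.card_union_le ((S.filter (fun z => f z = some x)).image κ)
        ((f x).toFinset.image κ)
      rw [hF]
      omega
    obtain ⟨c, hc⟩ : ∃ c : Fin 3, c ∉ F := by
      by_contra hall
      push Not at hall
      have : F = Finset.univ := Finset.eq_univ_iff_forall.mpr hall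
      rw [this, Finset.card_univ, Fintype.card_fin] at hFc
      omega
    refine ⟨Function.update κ x c, ?_⟩
    intro u hu v hv huv
    have huv' : u ≠ v := by
      rintro rfl
      exact hf _ huv
    by_cases hux : u = x
    · subst hux
      rw [Function.update_self, Function.update_of_ne (Ne.symm huv')]
      intro h
      apply hc
      rw [hF, Finset.mem_union]
      right
      rw [Finset.mem_image]
      refine ⟨v, ?_, h.symm⟩
      rw [huv]
      simp
    · by_cases hvx : v = x
      · subst hvx
        rw [Function.update_self, Function.update_of_ne hux]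
        intro h
        apply hc
        rw [hF, Finset.mem_union]
        left
        rw [Finset.mem_image]
        exact ⟨u, Finset.mem_filter.mpr ⟨hu, huv⟩, h⟩
      · rw [Function.update_of_ne hux, Function.update_of_ne hvx]
        exact hκ u (Finset.mem_erase.mpr ⟨hux, hu⟩) v (Finset.mem_erase.mpr ⟨hvx, hv⟩) huv

theorem three_colouring {X : Type} [Finite X] (f : X → Option X) (hf : ∀ x, f x ≠ some x) :
    ∃ κ : X → Fin 3, ∀ x y, f x = some y → κ x ≠ κ y := by
  classical
  have := Fintype.ofFinite X
  obtain ⟨κ, hκ⟩ := col_aux f hf (Finset.univ : Finset X).card Finset.univ rfl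
  exact ⟨κ, fun x y h => hκ x (Finset.mem_univ x) y (Finset.mem_univ y) h⟩

end Pool.Agent.RBC
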