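import Pool.Agent.MP_dd54b8_co.F0

set_option autoImplicit false

/-! Task [RBC-E2a]: existence of the forest and of the exits. -/

namespace Pool.Agent.RBC

open SimpleGraph

variable {V : Type} [Fintype V] {G : SimpleGraph V}

theorem kconn_mono {k l : ℕ} (h : KConn G k) (hl : l ≤ k) : KConn G l :=
  ⟨lt_of_le_of_lt hl h.1, fun S hS => h.2 S (lt_of_lt_of_le hS hl)⟩

omit [Fintype V] in
/-- A walk of the induced subgraph gives reachability with a closed property. -/
private theorem induct_reach {S : Set V} (hc : (G.induce S).Connected) {P : V → Prop}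
    {a : V} (ha : a ∈ S) (hPa : P a)
    (hstep : ∀ u v, u ∈ S → v ∈ S → G.Adj u v → P u → P v) {b : V} (hb : b ∈ S) : P b := by
  obtain ⟨w⟩ := hc.preconnected ⟨a, ha⟩ ⟨b, hb⟩
  have key : ∀ (x y : S), (G.induce S).Walk x y → P x.1 → P y.1 := by
    intro x y w
    induction w with
    | nil => exact fun h => h
    | cons hadj p ih =>
      intro hx
      apply ih
      exact hstep _ _ (Subtype.property _) (Subtype.property _) (by simpa using hadj) hx
  exact key _ _ w hPa

theorem kconn_connected {k : ℕ} (h : KConn G k) (hk : 0 < k) : G.Connected := by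
  have h1 := h.2 ∅ (by simpa using hk)
  have hcard : 0 < Fintype.card V := lt_of_le_of_lt (Nat.zero_le _) h.1
  have : Nonempty V := Fintype.card_pos_iff.1 hcard
  refine ⟨fun u v => ?_⟩
  refine induct_reach (P := fun y => G.Reachable u y) h1 (a := u) (by simp) (Reachable.refl _) ?_
    (b := v) (by simp)
  intro x y _ _ hxy hx
  exact hx.trans hxy.reachable

theorem exists_forest (hc : G.Connected) {D : Set V} (hne : D.Nonempty) :
    ∃ (h : V → ℕ) (π : V → V), Forest G D h π ∧ ∀ v, ∀ u ∈ D, h v ≤ G.dist v u := by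
  classical
  obtain ⟨d0, hd0⟩ := hne
  have hex : ∀ v, ∃ n, ∃ u ∈ D, G.dist v u = n := fun v => ⟨_, d0, hd0, rfl⟩
  let h : V → ℕ := fun v => Nat.find (hex v)
  have hmin : ∀ v, ∀ u ∈ D, h v ≤ G.dist v u := fun v u hu => Nat.find_min' (hex v) ⟨u, hu, rfl⟩
  have hspec : ∀ v, ∃ u ∈ D, G.dist v u = h v := fun v => Nat.find_spec (hex v)
  have hlip : ∀ u v, G.Adj u v → h u ≤ h v + 1 := by
    intro u v huv
    obtain ⟨w, hw, hwd⟩ := hspec v
    have h1 : G.dist u w ≤ G.dist u v + G.dist v w := hc.dist_triangle
    have h2 : G.dist u v = 1 := SimpleGraph.dist_eq_one_iff_adj.2 huv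
    have h3 := hmin u w hw
    omega
  have hstep : ∀ v, ∃ p, 0 < h v → G.Adj v p ∧ h p + 1 = h v := by
    intro v
    by_cases hv : 0 < h v
    · obtain ⟨u, hu, hud⟩ := hspec v
      obtain ⟨w, hw⟩ := hc.exists_walk_length_eq_dist v u
      cases w with
      | nil =>
        have hvv : G.dist v v = 0 := SimpleGraph.dist_self
        omega
      | @cons _ p _ hadj q =>
        refine ⟨p, fun _ => ⟨hadj, ?_⟩⟩
        have h1 := hlip v p hadj
        have h2 := hmin p u hu
        have h3 : G.dist p u ≤ q.length := SimpleGraph.dist_le q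
        simp only [Walk.length_cons] at hw
        omega
    · exact ⟨v, fun hh => absurd hh hv⟩
  choose π hπ using hstep
  refine ⟨h, π, ⟨?_, hπ, hlip⟩, hmin⟩
  intro v
  constructor
  · intro hv
    obtain ⟨u, hu, hud⟩ := hspec v
    have : G.dist v u = 0 := by omega
    have huv : v = u := (hc.dist_eq_zero_iff).1 this
    rw [huv]; exact hu
  · intro hv
    have := hmin v v hv
    simpa using this

/-- Every branch has an edge to a vertex outside the branch other than its foot `π x`. -/
theorem exists_exit (hk : KConn G 2) {D : Set V} {h : V → ℕ} {π : V → V} (F : Forest G D h π)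
    {x : V} (hx : h x = 1) :
    ∃ v w, G.Adj v w ∧ 0 < h v ∧ rt h π v = x ∧ w ≠ π x ∧ (0 < h w → rt h π w ≠ x) := by
  classical
  by_contra hno
  push Not at hno
  have hx0 : 0 < h x := by omega
  obtain ⟨hxπ, hπx⟩ := F.step x hx0
  have hπ0 : h (π x) = 0 := by omega
  have hne : x ≠ π x := hxπ.ne
  -- everything other than `π x` is in the branch
  have h1 := hk.2 {π x} (by simp)
  have hall : ∀ y, y ≠ π x → 0 < h y ∧ rt h π y = x := by
    intro y hy
    refine induct_reach (P := fun y => 0 < h y ∧ rt h π y = x) h1 (a := x) (by simpa using hne)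
      ⟨hx0, by simp [rt, hx]⟩ ?_ (b := y) (by simpa using hy)
    intro u v _ hv huv hu
    have hv' : v ≠ π x := by simpa using hv
    exact hno u v huv hu.1 hu.2 hv'
  -- a third vertex
  have h2 := hk.2 {x} (by simp)
  have h3 : ∃ y, y ≠ x ∧ y ≠ π x := by
    by_contra hcon
    push Not at hcon
    have hsub : (Finset.univ : Finset V) ⊆ {x, π x} := by
      intro y _
      by_cases hyx : y = x
      · simp [hyx]
      · simp [hcon y hyx]
    have hcard := Finset.card_le_card hsub
    have h4 := hk.1
    have h5 : ({x, π x} : Finset V).card ≤ 2 := Finset.card_le_two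
    rw [Finset.card_univ] at hcard
    omega
  obtain ⟨y, hyx, hyπ⟩ := h3
  -- `π x` has a neighbour other than `x`
  have h4 : ∃ z, z ≠ x ∧ G.Adj (π x) z := by
    by_contra hcon
    push Not at hcon
    have : y = π x := by
      refine induct_reach (P := fun y => y = π x) h2 (a := π x) (by simpa using hne.symm) rfl ?_
        (b := y) (by simpa using hyx)
      intro u v _ hv huv hu
      have hv' : v ≠ x := by simpa using hv
      subst hu
      exact absurd huv (hcon v hv')
    exact hyπ this
  obtain ⟨z, hzx, hz⟩ := h4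
  obtain ⟨hz0, hzr⟩ := hall z hz.ne'
  have h5 := F.lip z (π x) hz.symm
  have h6 : h z = 1 := by omega
  apply hzx
  simpa [rt, h6] using hzr

end Pool.Agent.RBC
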