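import Pool.Agent.MP_dd54b8_co.F0
import Pool.Agent.MP_dd54b8_co.C1
import Pool.Agent.MP_dd54b8_co.E1

set_option autoImplicit false

/-! Task [RBC-E2b]: colouring the branches. -/

namespace Pool.Agent.RBC

open SimpleGraph

variable {V : Type} {G : SimpleGraph V}

private theorem e2b_h_iter {D : Set V} {h : V → ℕ} {π : V → V} (F : Forest G D h π) (v : V) :
    ∀ t, t ≤ h v → h (π^[t] v) = h v - t := by
  intro t
  induction t with
  | zero => intro _; simp
  | succ t ih =>
    intro ht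
    rw [Function.iterate_succ_apply']
    have h1 := ih (by omega)
    have h2 := (F.step (π^[t] v) (by omega)).2
    omega

private theorem e2b_rt_iter {D : Set V} {h : V → ℕ} {π : V → V} (F : Forest G D h π) (v : V)
    (t : ℕ) (ht : t < h v) : rt h π (π^[t] v) = rt h π v := by
  unfold rt
  rw [e2b_h_iter F v t ht.le, ← Function.iterate_add_apply]
  congr 2; omega

private theorem e2b_h_rt {D : Set V} {h : V → ℕ} {π : V → V} (F : Forest G D h π) (v : V)
    (hv : 0 < h v) : h (rt h π v) = 1 := by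
  unfold rt
  rw [e2b_h_iter F v _ (by omega)]; omega

private theorem e2b_rt_step {D : Set V} {h : V → ℕ} {π : V → V} (F : Forest G D h π) (v : V)
    (hv : 1 < h v) : rt h π (π v) = rt h π v := e2b_rt_iter F v 1 hv

private theorem e2b_rt_one {h : V → ℕ} {π : V → V} (v : V)
    (hv : h v = 1) : rt h π v = v := by
  unfold rt; rw [hv]; rfl

/-- Uniqueness of the lower end of a forest edge. -/
private theorem e2b_unique {D : Set V} {h : V → ℕ} {π : V → V} (F : Forest G D h π) {y z : V}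
    (hy : 0 < h y) (hz : 0 < h z) (he : s(y, π y) = s(z, π z)) : y = z := by
  rw [Sym2.eq_iff] at he
  rcases he with ⟨h1, _⟩ | ⟨h1, h2⟩
  · exact h1
  · have a1 := (F.step y hy).2
    have a2 := (F.step z hz).2
    rw [h2] at a1
    rw [← h1] at a2
    omega

private theorem e2b_path {D : Set V} {h : V → ℕ} {π : V → V} (F : Forest G D h π)
    (c' : Sym2 V → ℕ) (col : V → ℕ) (hcol : ∀ y, 0 < h y → c' s(y, π y) = col y)
    (hinj : ∀ y z, 0 < h y → 0 < h z → col y = col z → h y = h z) (v : V) :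
    ∀ t, t ≤ h v → ∃ w : G.Walk (π^[t] v) v, (∀ z ∈ w.support, ∃ i, i ≤ t ∧ z = π^[i] v) ∧
      (w.edges.map c').Nodup ∧ ∀ e ∈ w.edges, ∃ i, i < t ∧ c' e = col (π^[i] v) := by
  intro t
  induction t with
  | zero =>
    intro _
    exact ⟨Walk.nil, by simp, by simp, by simp⟩
  | succ t ih =>
    intro ht
    obtain ⟨w, w1, w2, w3⟩ := ih (by omega)
    have hh := e2b_h_iter F v t (by omega)
    have hpos : 0 < h (π^[t] v) := by omega
    have hadj := (F.step (π^[t] v) hpos).1
    rw [Function.iterate_succ_apply']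
    refine ⟨Walk.cons hadj.symm w, ?_, ?_, ?_⟩
    · intro z hz
      rw [Walk.support_cons, List.mem_cons] at hz
      rcases hz with hz | hz
      · exact ⟨t + 1, le_rfl, by rw [hz, Function.iterate_succ_apply']⟩
      · obtain ⟨i, hi, e⟩ := w1 z hz
        exact ⟨i, by omega, e⟩
    · rw [Walk.edges_cons, List.map_cons, List.nodup_cons]
      refine ⟨?_, w2⟩
      intro hmem
      rw [List.mem_map] at hmem
      obtain ⟨e, he, hce⟩ := hmem
      obtain ⟨i, hi, hci⟩ := w3 e he
      rw [Sym2.eq_swap, hcol _ hpos, hci] at hce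
      have hi' := e2b_h_iter F v i (by omega)
      have := hinj _ _ (by omega) hpos hce
      omega
    · intro e he
      rw [Walk.edges_cons, List.mem_cons] at he
      rcases he with he | he
      · refine ⟨t, by omega, ?_⟩
        rw [he, Sym2.eq_swap, hcol _ hpos]
      · obtain ⟨i, hi, hci⟩ := w3 e he
        exact ⟨i, by omega, hci⟩

/-- The data of the stage. -/
private structure E2bData (G : SimpleGraph V) (D : Set V) (q c : ℕ) (h : V → ℕ) (π : V → V)
    (ve we : V → V) (K : V → ℕ) (c0 : Sym2 V → ℕ) : Prop where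
  hD : ∀ u ∈ D, ∀ v ∈ D, ∃ w : G.Walk u v,
    (∀ x ∈ w.support, x ∈ D) ∧ (w.edges.map c0).Nodup ∧ ∀ e ∈ w.edges, c0 e < q
  hc : 0 < c
  F : Forest G D h π
  hh : ∀ v, h v ≤ c
  adj : ∀ x, h x = 1 → G.Adj (ve x) (we x)
  hve : ∀ x, h x = 1 → 0 < h (ve x)
  hrt : ∀ x, h x = 1 → rt h π (ve x) = x
  hne : ∀ x, h x = 1 → we x ≠ π x
  hout : ∀ x, h x = 1 → 0 < h (we x) → rt h π (we x) ≠ x
  hK3 : ∀ v, K v < 3
  hKrt : ∀ u v, 0 < h u → 0 < h v → rt h π u = rt h π v → K u = K v
  hKne : ∀ x, h x = 1 → 0 < h (we x) → K x ≠ K (we x)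

private def E2bSpine (h : V → ℕ) (π ve : V → V) (v : V) : Prop :=
  ∃ x, h x = 1 ∧ ∃ t, t < h (ve x) ∧ π^[t] (ve x) = v

private def E2bD' (D : Set V) (h : V → ℕ) (π ve we : V → V) : Set V :=
  {v | v ∈ D ∨ E2bSpine h π ve v ∨ E2bSpine h π we v}

open Classical in
private noncomputable def E2bcol (q c : ℕ) (h : V → ℕ) (π ve : V → V) (K : V → ℕ) (v : V) : ℕ :=
  q + ((2 * K v + (if E2bSpine h π ve v then 1 else 0)) * c + (h v - 1))

open Classical in
private noncomputable def E2bc' (D : Set V) (q c : ℕ) (h : V → ℕ) (π ve : V → V) (K : V → ℕ)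
    (c0 : Sym2 V → ℕ) (e : Sym2 V) : ℕ :=
  if H : ∃ y, 0 < h y ∧ e = s(y, π y) then E2bcol q c h π ve K H.choose
  else if ∀ z ∈ e, z ∈ D then c0 e else q + 6 * c

section
variable {D : Set V} {q c : ℕ} {h : V → ℕ} {π ve we : V → V} {K : V → ℕ} {c0 : Sym2 V → ℕ}

private theorem e2b_c'_forest (X : E2bData G D q c h π ve we K c0) (y : V) (hy : 0 < h y) :
    E2bc' D q c h π ve K c0 s(y, π y) = E2bcol q c h π ve K y := by
  have H : ∃ z, 0 < h z ∧ s(y, π y) = s(z, π z) := ⟨y, hy, rfl⟩
  unfold E2bc'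
  rw [dif_pos H]
  have h1 := H.choose_spec
  rw [← e2b_unique X.F hy h1.1 h1.2]

private theorem e2b_c'_D (X : E2bData G D q c h π ve we K c0) (e : Sym2 V)
    (he : ∀ z ∈ e, z ∈ D) : E2bc' D q c h π ve K c0 e = c0 e := by
  have H : ¬ ∃ z, 0 < h z ∧ e = s(z, π z) := by
    rintro ⟨z, hz, rfl⟩
    have := (X.F.zero z).2 (he z (by simp))
    omega
  unfold E2bc'
  rw [dif_neg H, if_pos he]

private theorem e2b_c'_exit (X : E2bData G D q c h π ve we K c0) (x : V) (hx : h x = 1) :
    E2bc' D q c h π ve K c0 s(ve x, we x) = q + 6 * c := by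
  have h0 := X.hve x hx
  have h1 := X.hrt x hx
  have H : ¬ ∃ z, 0 < h z ∧ s(ve x, we x) = s(z, π z) := by
    rintro ⟨z, hz, he⟩
    rw [Sym2.eq_iff] at he
    rcases he with ⟨a, b⟩ | ⟨a, b⟩
    · rw [← a] at b
      rcases Nat.lt_or_ge 1 (h (ve x)) with hv | hv
      · have hp := (X.F.step (ve x) h0).2
        have := e2b_rt_step X.F (ve x) hv
        rw [← b] at this hp
        exact X.hout x hx (by omega) (this.trans h1)
      · have hv1 : h (ve x) = 1 := by omega
        have := e2b_rt_one (h := h) (π := π) (ve x) hv1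
        rw [h1] at this
        exact X.hne x hx (by rw [b, ← this])
    · rw [← b] at a hz
      have hp := (X.F.step (we x) hz).2
      rw [← a] at hp
      have := e2b_rt_step X.F (we x) (by omega)
      rw [← a] at this
      exact X.hout x hx hz (this.symm.trans h1)
  have H2 : ¬ ∀ z ∈ s(ve x, we x), z ∈ D := by
    intro hz
    have := (X.F.zero (ve x)).2 (hz _ (by simp))
    omega
  unfold E2bc'
  rw [dif_neg H, if_neg H2]

private theorem e2b_col_inj (X : E2bData G D q c h π ve we K c0) (y z : V) (hy : 0 < h y)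
    (hz : 0 < h z) (e : E2bcol q c h π ve K y = E2bcol q c h π ve K z) :
    K y = K z ∧ (E2bSpine h π ve y ↔ E2bSpine h π ve z) ∧ h y = h z := by
  unfold E2bcol at e
  have e' := Nat.add_left_cancel e
  have l1 : h y - 1 < c := by have := X.hh y; omega
  have l2 : h z - 1 < c := by have := X.hh z; omega
  have hm : h y - 1 = h z - 1 := by
    have := congrArg (· % c) e'
    simp only [Nat.mul_add_mod_self_right, Nat.mod_eq_of_lt l1, Nat.mod_eq_of_lt l2] at this
    exact this
  rw [hm] at e'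
  have e2 := Nat.eq_of_mul_eq_mul_right X.hc (Nat.add_right_cancel e')
  refine ⟨?_, ?_, by omega⟩
  · split_ifs at e2 <;> omega
  · split_ifs at e2 with p1 p2 p2
    · exact ⟨fun _ => p2, fun _ => p1⟩
    · omega
    · omega
    · exact ⟨fun t => absurd t p1, fun t => absurd t p2⟩

open Classical in
private theorem e2b_col_lt (X : E2bData G D q c h π ve we K c0) (y : V) (hy : 0 < h y) :
    q ≤ E2bcol q c h π ve K y ∧ E2bcol q c h π ve K y < q + 6 * c := by
  unfold E2bcol
  refine ⟨Nat.le_add_right _ _, ?_⟩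
  have l1 : h y - 1 < c := by have := X.hh y; omega
  have l2 := X.hK3 y
  have l3 : 2 * K y + (if E2bSpine h π ve y then 1 else 0) ≤ 5 := by split_ifs <;> omega
  have := Nat.mul_le_mul_right c l3
  omega

private theorem e2b_K_iter (X : E2bData G D q c h π ve we K c0) (v : V) (t : ℕ) (ht : t < h v) :
    K (π^[t] v) = K v :=
  X.hKrt _ _ (by rw [e2b_h_iter X.F v t ht.le]; omega) (by omega) (e2b_rt_iter X.F v t ht)

/-- Spines (and landing paths) are closed under `π` at positive heights. -/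
private theorem e2b_spine_iter (F : Forest G D h π) (g : V → V) (v : V)
    (hv : E2bSpine h π g v) (i : ℕ) (hi : i < h v) : E2bSpine h π g (π^[i] v) := by
  obtain ⟨x, hx, t, ht, rfl⟩ := hv
  rw [e2b_h_iter F _ _ ht.le] at hi
  refine ⟨x, hx, i + t, by omega, ?_⟩
  rw [Function.iterate_add_apply]

private theorem e2b_D'_iter (F : Forest G D h π) (v : V)
    (hv : v ∈ E2bD' D h π ve we) (i : ℕ) (hi : i ≤ h v) : π^[i] v ∈ E2bD' D h π ve we := by
  rcases Nat.lt_or_ge i (h v) with hlt | hge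
  · rcases hv with hv | hv | hv
    · have := (F.zero v).2 hv; omega
    · exact Or.inr (Or.inl (e2b_spine_iter F ve v hv i hlt))
    · exact Or.inr (Or.inr (e2b_spine_iter F we v hv i hlt))
  · left
    rw [← F.zero, e2b_h_iter F v i hi]
    omega

private theorem e2b_ve_mem (X : E2bData G D q c h π ve we K c0) (x : V) (hx : h x = 1) :
    ve x ∈ E2bD' D h π ve we := Or.inr (Or.inl ⟨x, hx, 0, X.hve x hx, rfl⟩)

private theorem e2b_we_mem (X : E2bData G D q c h π ve we K c0) (x : V) (hx : h x = 1) :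
    we x ∈ E2bD' D h π ve we := by
  rcases Nat.eq_zero_or_pos (h (we x)) with h0 | h0
  · exact Or.inl ((X.F.zero _).1 h0)
  · exact Or.inr (Or.inr ⟨x, hx, 0, h0, rfl⟩)

private def E2bEx (G : SimpleGraph V) (D D' : Set V) (c' : Sym2 V → ℕ) (u : V)
    (A : ℕ → Prop) : Prop :=
  ∃ d ∈ D, ∃ w : G.Walk u d, (∀ z ∈ w.support, z ∈ D') ∧ (w.edges.map c').Nodup ∧
    ∀ e ∈ w.edges, A (c' e)

private theorem e2b_ex0 {D' : Set V} {c' : Sym2 V → ℕ} (u : V) (hu : u ∈ D) (hu' : u ∈ D') :
    E2bEx G D D' c' u (fun _ => False) :=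
  ⟨u, hu, Walk.nil, by simpa using hu', by simp, by simp⟩

private theorem e2b_ex1 (X : E2bData G D q c h π ve we K c0) (u : V)
    (hu : u ∈ E2bD' D h π ve we) :
    E2bEx G D (E2bD' D h π ve we) (E2bc' D q c h π ve K c0) u
      (fun n => ∃ y, 0 < h y ∧ n = E2bcol q c h π ve K y ∧ K y = K u ∧ h y ≤ h u ∧
        (E2bSpine h π ve u → E2bSpine h π ve y)) := by
  obtain ⟨w, w1, w2, w3⟩ := e2b_path X.F (E2bc' D q c h π ve K c0) (E2bcol q c h π ve K)
    (fun y hy => e2b_c'_forest X y hy) (fun y z hy hz e => (e2b_col_inj X y z hy hz e).2.2) u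
    (h u) le_rfl
  refine ⟨π^[h u] u, ?_, w.reverse, ?_, ?_, ?_⟩
  · rw [← X.F.zero, e2b_h_iter X.F u _ le_rfl]; omega
  · intro z hz
    rw [Walk.support_reverse, List.mem_reverse] at hz
    obtain ⟨i, hi, rfl⟩ := w1 z hz
    exact e2b_D'_iter X.F u hu i hi
  · rw [Walk.edges_reverse, List.map_reverse, List.nodup_reverse]
    exact w2
  · intro e he
    rw [Walk.edges_reverse, List.mem_reverse] at he
    obtain ⟨i, hi, hce⟩ := w3 e he
    refine ⟨π^[i] u, ?_, hce, e2b_K_iter X u i hi, ?_, fun hs => e2b_spine_iter X.F ve u hs i hi⟩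
    · rw [e2b_h_iter X.F u i hi.le]; omega
    · rw [e2b_h_iter X.F u i hi.le]; omega

private theorem e2b_exit (X : E2bData G D q c h π ve we K c0) (a b : V) (hadj : G.Adj a b)
    (hE : E2bc' D q c h π ve K c0 s(a, b) = q + 6 * c)
    (hKab : 0 < h a → 0 < h b → K a ≠ K b)
    (ha : a ∈ E2bD' D h π ve we) (hb : b ∈ E2bD' D h π ve we) (t : ℕ) (ht : t ≤ h a) :
    E2bEx G D (E2bD' D h π ve we) (E2bc' D q c h π ve K c0) (π^[t] a)
      (fun n => n = q + 6 * c ∨ (∃ i, i < t ∧ n = E2bcol q c h π ve K (π^[i] a)) ∨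
        ∃ j, j < h b ∧ n = E2bcol q c h π ve K (π^[j] b)) := by
  obtain ⟨w, w1, w2, w3⟩ := e2b_path X.F (E2bc' D q c h π ve K c0) (E2bcol q c h π ve K)
    (fun y hy => e2b_c'_forest X y hy) (fun y z hy hz e => (e2b_col_inj X y z hy hz e).2.2) a
    t ht
  obtain ⟨v, v1, v2, v3⟩ := e2b_path X.F (E2bc' D q c h π ve K c0) (E2bcol q c h π ve K)
    (fun y hy => e2b_c'_forest X y hy) (fun y z hy hz e => (e2b_col_inj X y z hy hz e).2.2) b
    (h b) le_rfl
  have pa : ∀ i, i < t → 0 < h (π^[i] a) := by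
    intro i hi
    rw [e2b_h_iter X.F a i (by omega)]; omega
  have pb : ∀ i, i < h b → 0 < h (π^[i] b) := by
    intro i hi
    rw [e2b_h_iter X.F b i (by omega)]; omega
  refine ⟨π^[h b] b, ?_, w.append (Walk.cons hadj v.reverse), ?_, ?_, ?_⟩
  · rw [← X.F.zero, e2b_h_iter X.F b _ le_rfl]; omega
  · intro z hz
    rw [Walk.mem_support_append_iff, Walk.support_cons, List.mem_cons, Walk.support_reverse,
      List.mem_reverse] at hz
    rcases hz with hz | hz | hz
    · obtain ⟨i, hi, rfl⟩ := w1 z hz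
      exact e2b_D'_iter X.F a ha i (by omega)
    · rw [hz]; exact ha
    · obtain ⟨i, hi, rfl⟩ := v1 z hz
      exact e2b_D'_iter X.F b hb i hi
  · rw [Walk.edges_append, Walk.edges_cons, Walk.edges_reverse, List.map_append, List.map_cons,
      List.map_reverse, hE, List.nodup_append, List.nodup_cons, List.nodup_reverse]
    refine ⟨w2, ⟨?_, v2⟩, ?_⟩
    · rw [List.mem_reverse, List.mem_map]
      rintro ⟨e, he, hce⟩
      obtain ⟨i, hi, hc⟩ := v3 e he
      have := e2b_col_lt X _ (pb i hi)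
      omega
    · intro m hm n hn hmn
      rw [List.mem_map] at hm
      obtain ⟨e, he, hce⟩ := hm
      obtain ⟨i, hi, hc⟩ := w3 e he
      have := e2b_col_lt X _ (pa i hi)
      rw [List.mem_cons, List.mem_reverse, List.mem_map] at hn
      rcases hn with hn | ⟨e', he', hce'⟩
      · omega
      · obtain ⟨j, hj, hc'⟩ := v3 e' he'
        have hKK := (e2b_col_inj X _ _ (pa i hi) (pb j hj) (by
          rw [← hc, ← hc', hce, hce', hmn])).1
        rw [e2b_K_iter X a i (by omega), e2b_K_iter X b j hj] at hKK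
        exact hKab (by omega) (by omega) hKK
  · intro e he
    rw [Walk.edges_append, Walk.edges_cons, Walk.edges_reverse, List.mem_append, List.mem_cons,
      List.mem_reverse] at he
    rcases he with he | he | he
    · exact Or.inr (Or.inl (w3 e he))
    · left; rw [he, hE]
    · exact Or.inr (Or.inr (v3 e he))

/-- Exit 2: from a spine vertex up the spine and out. -/
private theorem e2b_ex2 (X : E2bData G D q c h π ve we K c0) (u : V)
    (hu : E2bSpine h π ve u) :
    E2bEx G D (E2bD' D h π ve we) (E2bc' D q c h π ve K c0) u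
      (fun n => n = q + 6 * c ∨ ∃ y, 0 < h y ∧ n = E2bcol q c h π ve K y ∧
        ((K y = K u ∧ h u < h y) ∨ K y ≠ K u)) := by
  obtain ⟨x, hx, t, ht, rfl⟩ := hu
  obtain ⟨d, hd, w, w1, w2, w3⟩ := e2b_exit X (ve x) (we x) (X.adj x hx) (e2b_c'_exit X x hx)
    (fun _ hw => by
      have : K (ve x) = K x := X.hKrt _ _ (X.hve x hx) (by omega)
        ((X.hrt x hx).trans (e2b_rt_one x hx).symm)
      rw [this]; exact X.hKne x hx hw) (e2b_ve_mem X x hx) (e2b_we_mem X x hx) t ht.le
  refine ⟨d, hd, w, w1, w2, fun e he => ?_⟩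
  have hKu := e2b_K_iter X (ve x) t ht
  have hKx : K (ve x) = K x := X.hKrt _ _ (X.hve x hx) (by omega)
        ((X.hrt x hx).trans (e2b_rt_one x hx).symm)
  rcases w3 e he with h1 | ⟨i, hi, h1⟩ | ⟨j, hj, h1⟩
  · exact Or.inl h1
  · right
    refine ⟨_, ?_, h1, Or.inl ⟨?_, ?_⟩⟩
    · rw [e2b_h_iter X.F _ i (by omega)]; omega
    · rw [hKu, e2b_K_iter X (ve x) i (by omega)]
    · rw [e2b_h_iter X.F _ i (by omega), e2b_h_iter X.F _ t (by omega)]; omega
  · right
    refine ⟨_, ?_, h1, Or.inr ?_⟩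
    · rw [e2b_h_iter X.F _ j (by omega)]; omega
    · rw [hKu, e2b_K_iter X (we x) j hj, hKx]
      exact (X.hKne x hx (by omega)).symm

/-- Exit 3: from a landing vertex that is not on a spine, up the landing path, across and down
the spine of the other branch. -/
private theorem e2b_ex3 (X : E2bData G D q c h π ve we K c0) (u : V)
    (hu : E2bSpine h π we u) (hn : ¬ E2bSpine h π ve u) :
    E2bEx G D (E2bD' D h π ve we) (E2bc' D q c h π ve K c0) u
      (fun n => n = q + 6 * c ∨ ∃ y, 0 < h y ∧ n = E2bcol q c h π ve K y ∧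
        ((K y = K u ∧ ¬ E2bSpine h π ve y ∧ h u < h y) ∨ K y ≠ K u)) := by
  obtain ⟨x, hx, t, ht, rfl⟩ := hu
  have hKx : K (ve x) = K x := X.hKrt _ _ (X.hve x hx) (by omega)
        ((X.hrt x hx).trans (e2b_rt_one x hx).symm)
  have hE := e2b_c'_exit X x hx
  rw [Sym2.eq_swap] at hE
  obtain ⟨d, hd, w, w1, w2, w3⟩ := e2b_exit X (we x) (ve x) (X.adj x hx).symm hE
    (fun hw _ => by rw [hKx]; exact (X.hKne x hx hw).symm)
    (e2b_we_mem X x hx) (e2b_ve_mem X x hx) t ht.le
  refine ⟨d, hd, w, w1, w2, fun e he => ?_⟩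
  have hKu := e2b_K_iter X (we x) t ht
  rcases w3 e he with h1 | ⟨i, hi, h1⟩ | ⟨j, hj, h1⟩
  · exact Or.inl h1
  · right
    refine ⟨_, ?_, h1, Or.inl ⟨?_, ?_, ?_⟩⟩
    · rw [e2b_h_iter X.F _ i (by omega)]; omega
    · rw [hKu, e2b_K_iter X (we x) i (by omega)]
    · intro hs
      apply hn
      have := e2b_spine_iter X.F ve _ hs (t - i) (by rw [e2b_h_iter X.F _ i (by omega)]; omega)
      rw [← Function.iterate_add_apply] at this
      rwa [show t - i + i = t by omega] at this
    · rw [e2b_h_iter X.F _ i (by omega), e2b_h_iter X.F _ t (by omega)]; omega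
  · right
    refine ⟨_, ?_, h1, Or.inr ?_⟩
    · rw [e2b_h_iter X.F _ j (by omega)]; omega
    · rw [hKu, e2b_K_iter X (ve x) j hj, hKx]
      exact (X.hKne x hx (by omega))

private theorem e2b_join (X : E2bData G D q c h π ve we K c0) {u v : V} {A B : ℕ → Prop}
    (hu : E2bEx G D (E2bD' D h π ve we) (E2bc' D q c h π ve K c0) u A)
    (hv : E2bEx G D (E2bD' D h π ve we) (E2bc' D q c h π ve K c0) v B)
    (hAB : ∀ n, A n → B n → False) (hA : ∀ n, A n → q ≤ n ∧ n < q + (6 * c + 1))
    (hB : ∀ n, B n → q ≤ n ∧ n < q + (6 * c + 1)) :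
    ∃ w : G.Walk u v, (∀ x ∈ w.support, x ∈ E2bD' D h π ve we) ∧
      (w.edges.map (E2bc' D q c h π ve K c0)).Nodup ∧
      ∀ e ∈ w.edges, E2bc' D q c h π ve K c0 e < q + (6 * c + 1) := by
  obtain ⟨d, hd, w, w1, w2, w3⟩ := hu
  obtain ⟨d', hd', w', w1', w2', w3'⟩ := hv
  obtain ⟨m, m1, m2, m3⟩ := X.hD d hd d' hd'
  have hm : ∀ e ∈ m.edges, E2bc' D q c h π ve K c0 e = c0 e := by
    intro e he
    apply e2b_c'_D X
    intro z hz
    exact m1 z (Walk.mem_support_of_mem_edges he hz)
  have hm' : m.edges.map (E2bc' D q c h π ve K c0) = m.edges.map c0 :=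
    List.map_congr_left hm
  refine ⟨w.append (m.append w'.reverse), ?_, ?_, ?_⟩
  · intro z hz
    rw [Walk.mem_support_append_iff, Walk.mem_support_append_iff, Walk.support_reverse,
      List.mem_reverse] at hz
    rcases hz with hz | hz | hz
    · exact w1 z hz
    · exact Or.inl (m1 z hz)
    · exact w1' z hz
  · rw [Walk.edges_append, Walk.edges_append, Walk.edges_reverse, List.map_append,
      List.map_append, List.map_reverse, hm', List.nodup_append, List.nodup_append,
      List.nodup_reverse]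
    refine ⟨w2, ⟨m2, w2', ?_⟩, ?_⟩
    · intro n hn n' hn' hnn
      rw [List.mem_map] at hn
      obtain ⟨e, he, rfl⟩ := hn
      rw [List.mem_reverse, List.mem_map] at hn'
      obtain ⟨e', he', rfl⟩ := hn'
      have := m3 e he
      have := hB _ (w3' e' he')
      omega
    · intro n hn n' hn' hnn
      rw [List.mem_map] at hn
      obtain ⟨e, he, rfl⟩ := hn
      rw [List.mem_append, List.mem_map, List.mem_reverse, List.mem_map] at hn'
      rcases hn' with ⟨e', he', rfl⟩ | ⟨e', he', rfl⟩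
      · have := m3 e' he'
        have := hA _ (w3 e he)
        omega
      · exact hAB _ (w3 e he) (hnn ▸ w3' e' he')
  · intro e he
    rw [Walk.edges_append, Walk.edges_append, Walk.edges_reverse, List.mem_append,
      List.mem_append, List.mem_reverse] at he
    rcases he with he | he | he
    · exact (hA _ (w3 e he)).2
    · rw [hm e he]
      have := m3 e he
      omega
    · exact (hB _ (w3' e he)).2

private def E2bGood (G : SimpleGraph V) (D' : Set V) (c' : Sym2 V → ℕ) (Q : ℕ) (u v : V) :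
    Prop :=
  ∃ w : G.Walk u v, (∀ x ∈ w.support, x ∈ D') ∧ (w.edges.map c').Nodup ∧ ∀ e ∈ w.edges, c' e < Q

private theorem e2b_good_symm {D' : Set V} {c' : Sym2 V → ℕ} {Q : ℕ} {u v : V}
    (hg : E2bGood G D' c' Q u v) : E2bGood G D' c' Q v u := by
  obtain ⟨w, w1, w2, w3⟩ := hg
  refine ⟨w.reverse, ?_, ?_, ?_⟩
  · intro x hx
    rw [Walk.support_reverse, List.mem_reverse] at hx
    exact w1 x hx
  · rw [Walk.edges_reverse, List.map_reverse, List.nodup_reverse]
    exact w2
  · intro e he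
    rw [Walk.edges_reverse, List.mem_reverse] at he
    exact w3 e he

private theorem e2b_good1 (X : E2bData G D q c h π ve we K c0) (u v : V)
    (hu : u ∈ E2bD' D h π ve we) (hv : v ∈ E2bD' D h π ve we)
    (hK : K u ≠ K v ∨ h u = 0 ∨ h v = 0) :
    E2bGood G (E2bD' D h π ve we) (E2bc' D q c h π ve K c0) (q + (6 * c + 1)) u v := by
  refine e2b_join X (e2b_ex1 X u hu) (e2b_ex1 X v hv) ?_ ?_ ?_
  · rintro n ⟨y, hy, hn, hKy, hyu, -⟩ ⟨z, hz, hn', hKz, hzv, -⟩
    have := (e2b_col_inj X y z hy hz (hn.symm.trans hn')).1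
    rcases hK with hK | hK | hK
    · exact hK (by rw [← hKy, ← hKz, this])
    · omega
    · omega
  · rintro n ⟨y, hy, rfl, -⟩
    have := e2b_col_lt X y hy
    omega
  · rintro n ⟨y, hy, rfl, -⟩
    have := e2b_col_lt X y hy
    omega

private theorem e2b_good2 (X : E2bData G D q c h π ve we K c0) (u v : V)
    (hu : u ∈ E2bD' D h π ve we)
    (hK : K u = K v) (_hsu : E2bSpine h π ve u) (hsv : E2bSpine h π ve v) (huv : h u ≤ h v) :
    E2bGood G (E2bD' D h π ve we) (E2bc' D q c h π ve K c0) (q + (6 * c + 1)) u v := by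
  refine e2b_join X (e2b_ex1 X u hu) (e2b_ex2 X v hsv) ?_ ?_ ?_
  · rintro n ⟨y, hy, hn, hKy, hyu, hys⟩ (hn' | ⟨z, hz, hn', hz'⟩)
    · have := e2b_col_lt X y hy
      omega
    · have := e2b_col_inj X y z hy hz (hn.symm.trans hn')
      rcases hz' with ⟨h1, h2⟩ | h1
      · omega
      · exact h1 (by rw [← this.1, hKy, hK])
  · rintro n ⟨y, hy, rfl, -⟩
    have := e2b_col_lt X y hy
    omega
  · rintro n (rfl | ⟨y, hy, rfl, -⟩)
    · omega
    · have := e2b_col_lt X y hy
      omega

private theorem e2b_good3 (X : E2bData G D q c h π ve we K c0) (u v : V)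
    (hu : u ∈ E2bD' D h π ve we) (hv : v ∈ E2bD' D h π ve we)
    (hK : K u = K v) (hsv : ¬ E2bSpine h π ve v) (hv0 : 0 < h v)
    (huv : E2bSpine h π ve u ∨ h u ≤ h v) :
    E2bGood G (E2bD' D h π ve we) (E2bc' D q c h π ve K c0) (q + (6 * c + 1)) u v := by
  have hl : E2bSpine h π we v := by
    rcases hv with hv | hv | hv
    · have := (X.F.zero v).2 hv
      omega
    · exact absurd hv hsv
    · exact hv
  refine e2b_join X (e2b_ex1 X u hu) (e2b_ex3 X v hl hsv) ?_ ?_ ?_
  · rintro n ⟨y, hy, hn, hKy, hyu, hys⟩ (hn' | ⟨z, hz, hn', hz'⟩)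
    · have := e2b_col_lt X y hy
      omega
    · have := e2b_col_inj X y z hy hz (hn.symm.trans hn')
      rcases hz' with ⟨h1, h2, h3⟩ | h1
      · rcases huv with huv | huv
        · exact h2 (this.2.1.1 (hys huv))
        · omega
      · exact h1 (by rw [← this.1, hKy, hK])
  · rintro n ⟨y, hy, rfl, -⟩
    have := e2b_col_lt X y hy
    omega
  · rintro n (rfl | ⟨y, hy, rfl, -⟩)
    · omega
    · have := e2b_col_lt X y hy
      omega

private theorem e2b_rb (X : E2bData G D q c h π ve we K c0) :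
    Rb G (E2bD' D h π ve we) (q + (6 * c + 1)) := by
  refine ⟨E2bc' D q c h π ve K c0, fun u hu v hv => ?_⟩
  by_cases hK : K u ≠ K v ∨ h u = 0 ∨ h v = 0
  · exact e2b_good1 X u v hu hv hK
  · push Not at hK
    obtain ⟨hK, hu0, hv0⟩ := hK
    by_cases su : E2bSpine h π ve u
    · by_cases sv : E2bSpine h π ve v
      · rcases le_total (h u) (h v) with hl | hl
        · exact e2b_good2 X u v hu hK su sv hl
        · exact e2b_good_symm (e2b_good2 X v u hv hK.symm sv su hl)
      · exact e2b_good3 X u v hu hv hK sv (by omega) (Or.inl su)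
    · by_cases sv : E2bSpine h π ve v
      · exact e2b_good_symm (e2b_good3 X v u hv hu hK.symm su (by omega) (Or.inl sv))
      · rcases le_total (h u) (h v) with hl | hl
        · exact e2b_good3 X u v hu hv hK sv (by omega) (Or.inr hl)
        · exact e2b_good_symm (e2b_good3 X v u hv hu hK.symm su (by omega) (Or.inr hl))

end

variable [Fintype V]

theorem stage_colour {D : Set V} {q c : ℕ} (hD : Rb G D q) (hc : 0 < c) {h : V → ℕ} {π : V → V}
    (F : Forest G D h π) (hh : ∀ v, h v ≤ c)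
    (hex : ∀ x, h x = 1 →
      ∃ v w, G.Adj v w ∧ 0 < h v ∧ rt h π v = x ∧ w ≠ π x ∧ (0 < h w → rt h π w ≠ x)) :
    ∃ D' : Set V, D ⊆ D' ∧ (∀ x, h x = 1 → x ∈ D') ∧ Rb G D' (q + (6 * c + 1)) := by
  classical
  obtain ⟨c0, hc0⟩ := hD
  have hex' : ∀ x, ∃ v w, h x = 1 → (G.Adj v w ∧ 0 < h v ∧ rt h π v = x ∧ w ≠ π x ∧
      (0 < h w → rt h π w ≠ x)) := by
    intro x
    by_cases hx : h x = 1
    · obtain ⟨v, w, hvw⟩ := hex x hx
      exact ⟨v, w, fun _ => hvw⟩
    · exact ⟨x, x, fun hx' => absurd hx' hx⟩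
  choose ve we hvw using hex'
  let f : {x : V // h x = 1} → Option {x : V // h x = 1} := fun x =>
    if hw : 0 < h (we x.1) then some ⟨rt h π (we x.1), e2b_h_rt F _ hw⟩ else none
  have hf : ∀ x, f x ≠ some x := by
    intro x hfx
    by_cases hw : 0 < h (we x.1)
    · simp only [f, dif_pos hw, Option.some.injEq] at hfx
      exact (hvw x.1 x.2).2.2.2.2 hw (congrArg Subtype.val hfx)
    · simp only [f, dif_neg hw] at hfx
      exact absurd hfx (by simp)
  obtain ⟨κ, hκ⟩ := three_colouring f hf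
  let K : V → ℕ := fun v => if hv : h (rt h π v) = 1 then ((κ ⟨rt h π v, hv⟩ : Fin 3) : ℕ) else 0
  have hKpos : ∀ v, 0 < h v → ∀ (hv : h (rt h π v) = 1), K v = ((κ ⟨rt h π v, hv⟩ : Fin 3) : ℕ) := by
    intro v _ hv
    simp only [K, dif_pos hv]
  have X : E2bData G D q c h π ve we K c0 :=
    { hD := hc0
      hc := hc
      F := F
      hh := hh
      adj := fun x hx => (hvw x hx).1
      hve := fun x hx => (hvw x hx).2.1
      hrt := fun x hx => (hvw x hx).2.2.1
      hne := fun x hx => (hvw x hx).2.2.2.1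
      hout := fun x hx => (hvw x hx).2.2.2.2
      hK3 := by
        intro v
        simp only [K]
        split_ifs with hv
        · exact (κ _).2
        · omega
      hKrt := by
        intro u v hu hv huv
        simp only [K, huv]
      hKne := by
        intro x hx hw
        have hx1 : rt h π x = x := e2b_rt_one x hx
        have hw1 := e2b_h_rt F _ hw
        have e1 : K x = ((κ ⟨x, hx⟩ : Fin 3) : ℕ) := by
          simp only [K, hx1, dif_pos hx]
        rw [e1, hKpos (we x) hw hw1]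
        have := hκ ⟨x, hx⟩ ⟨rt h π (we x), hw1⟩ (by simp only [f, dif_pos hw])
        intro he
        exact this (Fin.ext he) }
  refine ⟨E2bD' D h π ve we, fun x hx => Or.inl hx, fun x hx => ?_, e2b_rb X⟩
  right; left
  have h1 := X.hve x hx
  refine ⟨x, hx, h (ve x) - 1, by omega, X.hrt x hx⟩

end Pool.Agent.RBC
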