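import Pool.Agent.MP_dd54b8_co.E2a
import Pool.Agent.MP_dd54b8_co.E2b

set_option autoImplicit false

/-! Task [RBC-E3]: the extension lemma. -/

namespace Pool.Agent.RBC

open SimpleGraph

variable {V : Type} [Fintype V] {G : SimpleGraph V}

private theorem forest_iter {D : Set V} {h : V → ℕ} {π : V → V} (F : Forest G D h π)
    (hcG : G.Connected) (v : V) (t : ℕ) : t ≤ h v → h (π^[t] v) = h v - t ∧ G.dist v (π^[t] v) ≤ t := by
  induction t with
  | zero => intro _; simp
  | succ t ih =>
    intro ht
    obtain ⟨h1, h2⟩ := ih (by omega)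
    rw [Function.iterate_succ_apply']
    obtain ⟨h3, h4⟩ := F.step (π^[t] v) (by omega)
    refine ⟨by omega, ?_⟩
    have h5 := hcG.dist_triangle (u := v) (v := π^[t] v) (w := π (π^[t] v))
    have h6 : G.dist (π^[t] v) (π (π^[t] v)) = 1 := SimpleGraph.dist_eq_one_iff_adj.2 h3
    omega

theorem stage (hk : KConn G 2) {D : Set V} {q c : ℕ} (hD : Rb G D q) (hne : D.Nonempty)
    (hc : 0 < c) (hdom : ∀ v, ∃ u ∈ D, G.dist v u ≤ c) :
    ∃ D' : Set V, D ⊆ D' ∧ Rb G D' (q + (6 * c + 1)) ∧ ∀ v, ∃ u ∈ D', G.dist v u ≤ c - 1 := by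
  have hcG : G.Connected := kconn_connected hk (by norm_num)
  obtain ⟨h, π, F, hmin⟩ := exists_forest hcG hne
  have hh : ∀ v, h v ≤ c := by
    intro v
    obtain ⟨u, hu, hd⟩ := hdom v
    exact (hmin v u hu).trans hd
  obtain ⟨D', h1, h2, h3⟩ := stage_colour hD hc F hh (fun x hx => exists_exit hk F hx)
  refine ⟨D', h1, h3, ?_⟩
  intro v
  rcases Nat.eq_zero_or_pos (h v) with h0 | hpos
  · refine ⟨v, h1 ((F.zero v).1 h0), ?_⟩
    simp
  · obtain ⟨h4, h5⟩ := forest_iter F hcG v (h v - 1) (by omega)
    refine ⟨_, h2 _ (by rw [h4]; omega), h5.trans ?_⟩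
    have := hh v
    omega

theorem extend (hk : KConn G 2) {D : Set V} {q C : ℕ} (hD : Rb G D q) (hne : D.Nonempty)
    (hdom : ∀ v, ∃ u ∈ D, G.dist v u ≤ C) :
    Rb G Set.univ (q + (3 * C ^ 2 + 4 * C)) := by
  induction C generalizing D q with
  | zero =>
    have hcG : G.Connected := kconn_connected hk (by norm_num)
    have : D = Set.univ := by
      apply Set.eq_univ_of_forall
      intro v
      obtain ⟨u, hu, hd⟩ := hdom v
      have : v = u := hcG.dist_eq_zero_iff.1 (by omega)
      rw [this]; exact hu
    rw [← this]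
    simpa using hD
  | succ C ih =>
    obtain ⟨D', h1, h2, h3⟩ := stage hk hD hne (Nat.succ_pos C) hdom
    have := ih h2 (hne.mono h1) (by simpa using h3)
    refine rb_mono this ?_
    ring_nf
    omega

/-- The trivial bound, for `k = 1`. -/
theorem rb_univ_card (hc : G.Connected) : Rb G Set.univ (Fintype.card V) := by
  classical
  obtain ⟨v⟩ := hc.nonempty
  have main : ∀ n, n + 1 ≤ Fintype.card V → ∃ D : Finset V, D.card = n + 1 ∧ Rb G (↑D : Set V) n := by
    intro n
    induction n with
    | zero =>
      intro _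
      exact ⟨{v}, by simp, by simpa using rb_singleton v⟩
    | succ n ih =>
      intro hn
      obtain ⟨D, hD1, hD2⟩ := ih (by omega)
      obtain ⟨x, hx⟩ : D.Nonempty := by rw [← Finset.card_pos]; omega
      obtain ⟨y, hy⟩ : ∃ y, y ∉ D := by
        by_contra hcon
        push Not at hcon
        have : D = Finset.univ := Finset.eq_univ_of_forall hcon
        rw [this, Finset.card_univ] at hD1
        omega
      obtain ⟨w⟩ := hc x y
      obtain ⟨d, hd, hd1, hd2⟩ := w.exists_boundary_dart (↑D : Set V) hx hy
      refine ⟨insert d.snd D, ?_, ?_⟩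
      · rw [Finset.card_insert_of_notMem (by simpa using hd2), hD1]
      · have := rb_walk hD2 hd1 (Walk.cons d.adj Walk.nil)
        have hE : (↑(insert d.snd D) : Set V)
            = (↑D : Set V) ∪ {x | x ∈ (Walk.cons d.adj Walk.nil).support} := by
          ext z
          simp only [Finset.coe_insert, Set.mem_insert_iff, Finset.mem_coe, Walk.support_cons,
            Walk.support_nil, Set.mem_union, Set.mem_ofPred_eq, List.mem_cons, List.not_mem_nil,
            or_false]
          constructor
          · rintro (h | h)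
            · exact Or.inr (Or.inr h)
            · exact Or.inl h
          · rintro (h | h | h)
            · exact Or.inr h
            · rw [h]; exact Or.inr hd1
            · exact Or.inl h
        rw [hE]
        simpa using this
  have hpos : 0 < Fintype.card V := Fintype.card_pos_iff.2 ⟨v⟩
  obtain ⟨D, hD1, hD2⟩ := main (Fintype.card V - 1) (by omega)
  have : D = Finset.univ := by
    apply Finset.eq_univ_of_card
    omega
  rw [this, Finset.coe_univ] at hD2
  exact rb_mono hD2 (by omega)

end Pool.Agent.RBC
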