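import Pool.Agent.MP_dd54b8_co.Defs

set_option autoImplicit false

/-! Forests hanging from a set `D` (definitions only). -/

namespace Pool.Agent.RBC

open SimpleGraph

variable {V : Type} (G : SimpleGraph V)

/-- A spanning breadth-first forest rooted in `D`: `h v` is the height of `v` (`0` exactly on `D`),
`π v` the parent of a vertex `v` of positive height. -/
structure Forest (D : Set V) (h : V → ℕ) (π : V → V) : Prop where
  zero : ∀ v, h v = 0 ↔ v ∈ D
  step : ∀ v, 0 < h v → G.Adj v (π v) ∧ h (π v) + 1 = h v
  lip : ∀ u v, G.Adj u v → h u ≤ h v + 1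

/-- The branch of a vertex `v` of positive height: its ancestor of height `1`. -/
def rt (h : V → ℕ) (π : V → V) (v : V) : V := π^[h v - 1] v

end Pool.Agent.RBC
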