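import Pool.Agent.MP_dd54b8_co.M

set_option autoImplicit false

/-! The final form. -/

namespace Pool.Agent.RBC

open SimpleGraph

theorem final_form : ∀ k : ℕ, 0 < k → ∀ ε : ℝ, 0 < ε → ∃ c : ℕ, ∀ (V : Type) [Fintype V]
    (G : SimpleGraph V),
      (k < Fintype.card V ∧
        ∀ S : Finset V, S.card < k → (G.induce ((↑S : Set V)ᶜ)).Connected) →
      ∃ f : Sym2 V → Fin (⌈(1 + ε) * (Fintype.card V : ℝ) / (k : ℝ)⌉₊ + c),
        ∀ u v : V, ∃ p : G.Walk u v, p.IsPath ∧ (p.edges.map f).Nodup := by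
  intro k hk ε hε
  obtain ⟨t, ht⟩ := exists_nat_gt (1 / ε)
  have ht0 : 0 < t := by
    have : (0 : ℝ) < t := lt_trans (by positivity) ht
    exact_mod_cast this
  obtain ⟨C0, hC0⟩ := main_nat k t hk ht0
  refine ⟨C0 + 1, fun V _ G hG => ?_⟩
  obtain ⟨q, hq, hle⟩ := hC0 V G hG
  refine rb_final hq ?_ (by omega)
  have hkR : (0 : ℝ) < k := by exact_mod_cast hk
  have htR : (0 : ℝ) < t := by exact_mod_cast ht0
  have hle' : (k : ℝ) * t * q ≤ (t + 1) * (Fintype.card V : ℝ) + C0 := by exact_mod_cast hle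
  have h1 : (q : ℝ) ≤ (1 + ε) * (Fintype.card V : ℝ) / (k : ℝ) + C0 := by
    have hn : (0 : ℝ) ≤ (Fintype.card V : ℝ) := Nat.cast_nonneg _
    have hC : (0 : ℝ) ≤ (C0 : ℝ) := Nat.cast_nonneg _
    have hεt : 1 ≤ ε * t := by
      have := (div_lt_iff₀ hε).1 ht
      linarith
    have hkt : (1 : ℝ) ≤ k * t := by
      have : (1 : ℕ) ≤ k * t := Nat.mul_pos hk ht0
      exact_mod_cast this
    have h2 : (k : ℝ) * t * q ≤ k * t * ((1 + ε) * (Fintype.card V : ℝ) / (k : ℝ) + C0) := by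
      have e1 : (k : ℝ) * t * ((1 + ε) * (Fintype.card V : ℝ) / (k : ℝ) + C0) =
          (t + ε * t) * (Fintype.card V : ℝ) + k * t * C0 := by
        field_simp
      rw [e1]
      nlinarith
    exact le_of_mul_le_mul_left h2 (by positivity)
  have h3 : (q : ℝ) ≤ ((⌈(1 + ε) * (Fintype.card V : ℝ) / (k : ℝ)⌉₊ + (C0 + 1) : ℕ) : ℝ) := by
    push_cast
    have := Nat.le_ceil ((1 + ε) * (Fintype.card V : ℝ) / (k : ℝ))
    linarith
  exact_mod_cast h3

end Pool.Agent.RBC
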