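import Pool.Agent.MP_dd54b8_co.E3

set_option autoImplicit false

/-! The case `k = 2`: ear decompositions (definitions only). -/

namespace Pool.Agent.RBC

open SimpleGraph

variable {V : Type} (G : SimpleGraph V)

/-- `L` is the (non-empty) list of interior vertices of an ear `a, L, b` on the vertex set `D`; the
two ends are different. -/
structure Ear (D : Finset V) (a : V) (L : List V) (b : V) : Prop where
  ha : a ∈ D
  hb : b ∈ D
  ab : a ≠ b
  ne : L ≠ []
  out : ∀ x ∈ L, x ∉ D
  nd : L.Nodup
  ch : List.IsChain G.Adj (a :: (L ++ [b]))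

/-- Vertex sets obtained from an edge by adding `t` ears, each with at least one interior vertex. -/
inductive ED [DecidableEq V] : Finset V → ℕ → Prop
  | base (a b : V) (h : G.Adj a b) : ED {a, b} 0
  | ear (D : Finset V) (t : ℕ) (a : V) (L : List V) (b : V) (hD : ED D t) (hL : Ear G D a L b) :
      ED (D ∪ L.toFinset) (t + 1)

/-- `t` is the smallest possible number of ears for `D`. -/
def MinED [DecidableEq V] (D : Finset V) (t : ℕ) : Prop :=
  ED G D t ∧ ∀ s, ED G D s → t ≤ s

/-- `L` (with the ends `a`, `b`) is a removable ear of `D` (with respect to `t` ears). -/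
def Rem [DecidableEq V] (D : Finset V) (t : ℕ) (a : V) (L : List V) (b : V) : Prop :=
  ∃ (F : Finset V) (s : ℕ), ED G F s ∧ Ear G F a L b ∧ D = F ∪ L.toFinset ∧ t = s + 1

/-- A bouquet: pairwise disjoint ears `(a, L, b)` on `D`. -/
def Bq (D : Finset V) (E : List (V × List V × V)) : Prop :=
  (∀ e ∈ E, Ear G D e.1 e.2.1 e.2.2) ∧ E.Pairwise (fun e e' => List.Disjoint e.2.1 e'.2.1)

/-- The interior vertices of the ears of a bouquet. -/
def bqV [DecidableEq V] (E : List (V × List V × V)) : Finset V :=
  (E.flatMap (fun e => e.2.1)).toFinset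

end Pool.Agent.RBC
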