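import Pool.Agent.MP_dd54b8_co.K0

set_option autoImplicit false

/-! Task [RBK-1]: the bouquet lemma. -/

namespace Pool.Agent.RBC

open SimpleGraph

variable {V : Type} {G : SimpleGraph V}

/-- walk along a sequence of adjacent vertices -/
private theorem seq_walk (P : ℕ → V) (n : ℕ) : ∀ (i : ℕ), (∀ t, i ≤ t → t < i + n → G.Adj (P t) (P (t+1))) →
    ∃ w : G.Walk (P i) (P (i + n)), (∀ x ∈ w.support, ∃ t, i ≤ t ∧ t ≤ i + n ∧ x = P t) ∧
      w.edges = (List.range' i n).map (fun t => s(P t, P (t+1))) := by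
  induction n with
  | zero =>
    intro i _
    refine ⟨Walk.nil, ?_, ?_⟩
    · intro x hx
      refine ⟨i, le_rfl, by omega, ?_⟩
      simpa using hx
    · simp
  | succ n ih =>
    intro i h
    have h1 := h i le_rfl (by omega)
    obtain ⟨w, hw1, hw2⟩ := ih (i+1) (fun t h1 h2 => h t (by omega) (by omega))
    refine ⟨Walk.cons h1 (w.copy rfl (by congr 1; omega)), ?_, ?_⟩
    · intro x hx
      rw [Walk.support_cons, Walk.support_copy] at hx
      rcases List.mem_cons.1 hx with rfl | hx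
      · exact ⟨i, le_rfl, by omega, rfl⟩
      · obtain ⟨t, h1, h2, h3⟩ := hw1 x hx
        exact ⟨t, by omega, by omega, h3⟩
    · rw [Walk.edges_cons, Walk.edges_copy, hw2, List.range'_succ]
      simp

/-- rainbow walks with colours in `A` and vertices in `D'`. -/
private def Rw (G : SimpleGraph V) (c : Sym2 V → ℕ) (D' : Set V) (A : Set ℕ) (u v : V) : Prop :=
  ∃ w : G.Walk u v, (∀ x ∈ w.support, x ∈ D') ∧ (w.edges.map c).Nodup ∧ ∀ e ∈ w.edges, c e ∈ A

private theorem Rw.symm' {c : Sym2 V → ℕ} {D' : Set V} {A : Set ℕ} {u v : V}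
    (h : Rw G c D' A u v) : Rw G c D' A v u := by
  obtain ⟨w, h1, h2, h3⟩ := h
  refine ⟨w.reverse, ?_, ?_, ?_⟩
  · intro x hx
    rw [Walk.support_reverse, List.mem_reverse] at hx
    exact h1 x hx
  · rw [Walk.edges_reverse, List.map_reverse]
    exact List.nodup_reverse.2 h2
  · intro e he
    rw [Walk.edges_reverse, List.mem_reverse] at he
    exact h3 e he

private theorem Rw.trans' {c : Sym2 V → ℕ} {D' : Set V} {A B : Set ℕ} {u v z : V}
    (h : Rw G c D' A u v) (h' : Rw G c D' B v z) (hd : ∀ x ∈ A, x ∉ B) :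
    Rw G c D' (A ∪ B) u z := by
  obtain ⟨w, h1, h2, h3⟩ := h
  obtain ⟨w', h1', h2', h3'⟩ := h'
  refine ⟨w.append w', ?_, ?_, ?_⟩
  · intro x hx
    rcases (Walk.mem_support_append_iff _ _).1 hx with hx | hx
    · exact h1 x hx
    · exact h1' x hx
  · rw [Walk.edges_append, List.map_append]
    refine List.nodup_append.2 ⟨h2, h2', ?_⟩
    intro x hx y hy hxy
    obtain ⟨e, he, rfl⟩ := List.mem_map.1 hx
    obtain ⟨e', he', rfl⟩ := List.mem_map.1 hy
    exact hd _ (h3 e he) (hxy ▸ h3' e' he')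
  · intro e he
    rw [Walk.edges_append, List.mem_append] at he
    rcases he with he | he
    · exact Or.inl (h3 e he)
    · exact Or.inr (h3' e he)

private theorem Rw.mono' {c : Sym2 V → ℕ} {D' : Set V} {A B : Set ℕ} {u v : V}
    (h : Rw G c D' A u v) (hd : A ⊆ B) : Rw G c D' B u v := by
  obtain ⟨w, h1, h2, h3⟩ := h
  exact ⟨w, h1, h2, fun e he => hd (h3 e he)⟩

/-! ### the vertices of an ear -/

/-- the `t`-th vertex of the ear `e` -/
private def pt (e : V × List V × V) (t : ℕ) : V := (e.1 :: (e.2.1 ++ [e.2.2])).getD t e.1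

private theorem pt_zero (e : V × List V × V) : pt e 0 = e.1 := by simp [pt]

private theorem pt_last (e : V × List V × V) : pt e (e.2.1.length + 1) = e.2.2 := by simp [pt]

private theorem pt_len (e : V × List V × V) :
    (e.1 :: (e.2.1 ++ [e.2.2])).length = e.2.1.length + 2 := by simp

private theorem pt_eq (e : V × List V × V) (t : ℕ) (h : t < (e.1 :: (e.2.1 ++ [e.2.2])).length) :
    pt e t = (e.1 :: (e.2.1 ++ [e.2.2]))[t] := by
  simp [pt, List.getD, List.getElem?_eq_getElem h]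

private theorem pt_eq' (e : V × List V × V) (t : ℕ) (h : t < e.2.1.length) :
    pt e (t + 1) = e.2.1[t] := by
  simp [pt, List.getD, List.getElem?_append_left h, List.getElem?_eq_getElem h]

private theorem pt_mem (e : V × List V × V) (t : ℕ) (h1 : 1 ≤ t) (h2 : t ≤ e.2.1.length) :
    pt e t ∈ e.2.1 := by
  obtain ⟨t, rfl⟩ : ∃ t', t = t' + 1 := ⟨t - 1, by omega⟩
  rw [pt_eq' e t (by omega)]
  exact List.getElem_mem _

private theorem pt_surj (e : V × List V × V) (x : V) (hx : x ∈ e.2.1) :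
    ∃ t, 1 ≤ t ∧ t ≤ e.2.1.length ∧ x = pt e t := by
  obtain ⟨i, hi, rfl⟩ := List.mem_iff_getElem.1 hx
  exact ⟨i + 1, by omega, by omega, (pt_eq' e i hi).symm⟩

private theorem pt_nodup {D : Finset V} {e : V × List V × V} (h : Ear G D e.1 e.2.1 e.2.2) :
    (e.1 :: (e.2.1 ++ [e.2.2])).Nodup := by
  rw [List.nodup_cons, List.nodup_append]
  refine ⟨?_, h.nd, by simp, ?_⟩
  · rw [List.mem_append, List.mem_singleton]
    rintro (h1 | h1)
    · exact h.out _ h1 h.ha
    · exact h.ab h1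
  · intro x hx y hy hxy
    rw [List.mem_singleton] at hy
    rw [hxy, hy] at hx
    exact h.out _ hx h.hb

private theorem pt_inj {D : Finset V} {e : V × List V × V} (h : Ear G D e.1 e.2.1 e.2.2)
    {t t' : ℕ} (ht : t ≤ e.2.1.length + 1) (ht' : t' ≤ e.2.1.length + 1) (he : pt e t = pt e t') :
    t = t' := by
  have hl := pt_len e
  rw [pt_eq e t (by omega), pt_eq e t' (by omega)] at he
  exact (List.Nodup.getElem_inj_iff (pt_nodup h)).1 he

private theorem pt_adj {D : Finset V} {e : V × List V × V} (h : Ear G D e.1 e.2.1 e.2.2)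
    {t : ℕ} (ht : t ≤ e.2.1.length) : G.Adj (pt e t) (pt e (t + 1)) := by
  have hl := pt_len e
  rw [pt_eq e t (by omega), pt_eq e (t + 1) (by omega)]
  exact (List.isChain_iff_getElem.1 h.ch) t (by omega)

/-- the vertices of an ear are interior vertices or are in `D`. -/
private theorem pt_cases {D : Finset V} {e : V × List V × V} (h : Ear G D e.1 e.2.1 e.2.2)
    {t : ℕ} (ht : t ≤ e.2.1.length + 1) : pt e t ∈ D ∨ pt e t ∈ e.2.1 := by
  by_cases h1 : 1 ≤ t ∧ t ≤ e.2.1.length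
  · exact Or.inr (pt_mem e t h1.1 h1.2)
  · have : t = 0 ∨ t = e.2.1.length + 1 := by omega
    rcases this with rfl | rfl
    · rw [pt_zero]; exact Or.inl h.ha
    · rw [pt_last]; exact Or.inl h.hb

/-- every edge of an ear contains an interior vertex. -/
private theorem pt_int {D : Finset V} {e : V × List V × V} (h : Ear G D e.1 e.2.1 e.2.2)
    {t : ℕ} (ht : t ≤ e.2.1.length) : ∃ x ∈ s(pt e t, pt e (t + 1)), x ∈ e.2.1 := by
  have hpos : 0 < e.2.1.length := List.length_pos_iff.2 h.ne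
  rcases Nat.eq_zero_or_pos t with rfl | h1
  · exact ⟨pt e (0 + 1), by simp, pt_mem e 1 le_rfl (by omega)⟩
  · exact ⟨pt e t, by simp, pt_mem e t h1 ht⟩

/-- an edge determines its ear and its index. -/
private theorem pt_edge {D : Finset V} {E : List (V × List V × V)} (hE : Bq G D E)
    {e e' : V × List V × V} (he : e ∈ E) (he' : e' ∈ E) {t t' : ℕ} (ht : t ≤ e.2.1.length)
    (ht' : t' ≤ e'.2.1.length) (h : s(pt e t, pt e (t + 1)) = s(pt e' t', pt e' (t' + 1))) :
    e = e' ∧ t = t' := by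
  have h1 := hE.1 e he
  have h2 := hE.1 e' he'
  have hee : e = e' := by
    by_contra hne
    have hd : List.Disjoint e.2.1 e'.2.1 := by
      have : Std.Symm (fun e e' : V × List V × V => List.Disjoint e.2.1 e'.2.1) :=
        ⟨fun a b hab => hab.symm⟩
      exact hE.2.forall he he' hne
    obtain ⟨x, hx, hx2⟩ := pt_int h1 ht
    rw [h, Sym2.mem_iff] at hx
    have h3 : x ∈ D ∨ x ∈ e'.2.1 := by
      rcases hx with rfl | rfl
      · exact pt_cases h2 (by omega)
      · exact pt_cases h2 (by omega)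
    rcases h3 with h3 | h3
    · exact h1.out x hx2 h3
    · exact hd hx2 h3
  subst hee
  refine ⟨rfl, ?_⟩
  rw [Sym2.eq_iff] at h
  rcases h with ⟨h3, -⟩ | ⟨h3, h4⟩
  · exact pt_inj h1 (by omega) (by omega) h3
  · have h5 := pt_inj h1 (by omega) (by omega) h3
    have h6 := pt_inj h1 (by omega) (by omega) h4
    omega

/-- colouring the edges of the ears of a bouquet by a given function. -/
private theorem exists_colour {D : Finset V} {E : List (V × List V × V)} (hE : Bq G D E)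
    (c : Sym2 V → ℕ) (f : V × List V × V → ℕ → ℕ) :
    ∃ c' : Sym2 V → ℕ, (∀ ε : Sym2 V, (∀ x ∈ ε, x ∈ D) → c' ε = c ε) ∧
      ∀ e ∈ E, ∀ t, t ≤ e.2.1.length → c' (s(pt e t, pt e (t + 1))) = f e t := by
  classical
  let c' : Sym2 V → ℕ := fun ε =>
    if h : ∃ p : (V × List V × V) × ℕ, p.1 ∈ E ∧ p.2 ≤ p.1.2.1.length ∧
      ε = s(pt p.1 p.2, pt p.1 (p.2 + 1)) then f h.choose.1 h.choose.2 else c ε
  refine ⟨c', ?_, ?_⟩
  · intro ε hε
    have : ¬ ∃ p : (V × List V × V) × ℕ, p.1 ∈ E ∧ p.2 ≤ p.1.2.1.length ∧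
      ε = s(pt p.1 p.2, pt p.1 (p.2 + 1)) := by
      rintro ⟨p, hp1, hp2, rfl⟩
      obtain ⟨x, hx, hx2⟩ := pt_int (hE.1 _ hp1) hp2
      exact (hE.1 _ hp1).out x hx2 (hε x hx)
    simp only [c']
    rw [dif_neg this]
  · intro e he t ht
    have hex : ∃ p : (V × List V × V) × ℕ, p.1 ∈ E ∧ p.2 ≤ p.1.2.1.length ∧
      s(pt e t, pt e (t + 1)) = s(pt p.1 p.2, pt p.1 (p.2 + 1)) := ⟨(e, t), he, ht, rfl⟩
    have h1 : c' (s(pt e t, pt e (t + 1))) = f hex.choose.1 hex.choose.2 := by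
      simp only [c']
      rw [dif_pos hex]
    obtain ⟨h2, h3, h4⟩ := hex.choose_spec
    obtain ⟨h5, h6⟩ := pt_edge hE he h2 ht h3 h4
    rw [h1, ← h5, ← h6]

/-- BOUQUET LEMMA: adding any number of internally disjoint parallel ears to `D` costs only
(about) half of the total length of the two longest ones.

The ear `e1` has `N + d` edges, all other ears have at most `N - d` edges; the cost is `N`. -/
theorem rb_bouquet {D : Finset V} {q N d : ℕ} (h : Rb G (↑D : Set V) q)
    (e1 : V × List V × V) (E : List (V × List V × V)) (hE : Bq G D (e1 :: E))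
    (h1 : e1.2.1.length + 1 = N + d) (hd : d ≤ N) (h2 : ∀ e ∈ E, e.2.1.length + 1 + d ≤ N) :
    Rb G ((↑D : Set V) ∪ {x | ∃ e ∈ e1 :: E, x ∈ e.2.1}) (q + N) := by
  classical
  obtain ⟨c, hc⟩ := h
  -- the colours
  let f : V × List V × V → ℕ → ℕ := fun e t =>
    if e = e1 then (if t < N then q + t else q + (t - N)) else q + d + t
  have hf1 : ∀ t, t < N → f e1 t = q + t := by
    intro t ht
    simp [f, ht]
  have hf1' : ∀ t, N ≤ t → f e1 t = q + (t - N) := by
    intro t ht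
    have : ¬ t < N := by omega
    simp [f, this]
  have hf2 : ∀ e, e ≠ e1 → ∀ t, f e t = q + d + t := by
    intro e he t
    simp [f, he]
  obtain ⟨c', hc1, hc2⟩ := exists_colour hE c f
  set D' : Set V := (↑D : Set V) ∪ {x | ∃ e ∈ e1 :: E, x ∈ e.2.1} with hD'
  have hPD' : ∀ e ∈ e1 :: E, ∀ t, t ≤ e.2.1.length + 1 → pt e t ∈ D' := by
    intro e he t ht
    rcases pt_cases (hE.1 e he) ht with h3 | h3
    · exact Or.inl h3
    · exact Or.inr ⟨e, he, h3⟩
  -- walks in `D`
  have G1 : ∀ u ∈ D, ∀ v ∈ D, Rw G c' D' {x | x < q} u v := by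
    intro u hu v hv
    obtain ⟨w, h1, h2, h3⟩ := hc u hu v hv
    have hE : ∀ e ∈ w.edges, c' e = c e := by
      intro e he
      apply hc1
      intro x hx
      exact h1 x (Walk.mem_support_of_mem_edges he hx)
    refine ⟨w, fun x hx => Or.inl (h1 x hx), ?_, ?_⟩
    · rw [List.map_congr_left hE]; exact h2
    · intro e he
      rw [hE e he]; exact h3 e he
  -- walks along an ear
  have G2 : ∀ e ∈ e1 :: E, ∀ i j, i ≤ j → j ≤ e.2.1.length + 1 →
      (∀ t t', i ≤ t → t < j → i ≤ t' → t' < j → f e t = f e t' → t = t') → ∀ A : Set ℕ,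
      (∀ t, i ≤ t → t < j → f e t ∈ A) → Rw G c' D' A (pt e i) (pt e j) := by
    intro e he i j hij hj hinj A hA
    obtain ⟨n, rfl⟩ : ∃ n, j = i + n := ⟨j - i, by omega⟩
    obtain ⟨w, h1, h2⟩ := seq_walk (G := G) (pt e) n i
      (fun t _ h2 => pt_adj (hE.1 e he) (by omega))
    refine ⟨w, ?_, ?_, ?_⟩
    · intro x hx
      obtain ⟨t, ht1, ht2, rfl⟩ := h1 x hx
      exact hPD' e he t (by omega)
    · rw [h2, List.map_map]
      refine List.Nodup.map_on ?_ (List.nodup_range' (step := 1) (by omega))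
      intro x hx y hy hxy
      rw [List.mem_range'_1] at hx hy
      simp only [Function.comp] at hxy
      rw [hc2 e he x (by omega), hc2 e he y (by omega)] at hxy
      exact hinj x y hx.1 hx.2 hy.1 hy.2 hxy
    · intro ε hε
      rw [h2, List.mem_map] at hε
      obtain ⟨t, ht, rfl⟩ := hε
      rw [List.mem_range'_1] at ht
      rw [hc2 e he t (by omega)]
      exact hA t ht.1 ht.2
  -- exits
  let X : V → Set ℕ → Prop := fun x A => (∀ n ∈ A, q ≤ n ∧ n < q + N) ∧ ∃ u ∈ D, Rw G c' D' A x u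
  have glue : ∀ x y A B, X x A → X y B → (∀ n ∈ A, n ∉ B) → Rw G c' D' {n | n < q + N} x y := by
    rintro x y A B ⟨hA, u, hu, hxu⟩ ⟨hB, v, hv, hyv⟩ hAB
    have h3 := hxu.trans' (G1 u hu v hv) (by
      intro n hn hn'
      have := (hA n hn).1
      simp only [Set.mem_ofPred_eq] at hn'
      omega)
    have h4 := h3.trans' hyv.symm' (by
      rintro n (hn | hn) hn'
      · exact hAB n hn hn'
      · have := (hB n hn').1
        simp only [Set.mem_ofPred_eq] at hn
        omega)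
    refine h4.mono' ?_
    rintro n ((hn | hn) | hn)
    · exact (hA n hn).2
    · simp only [Set.mem_ofPred_eq] at hn ⊢
      omega
    · exact (hB n hn).2
  have XD : ∀ x ∈ D, X x ∅ := by
    intro x hx
    refine ⟨by simp, x, hx, Walk.nil, ?_, by simp, by simp⟩
    intro y hy
    have : y = x := by simpa using hy
    rw [this]
    exact Or.inl hx
  have Xlow : ∀ e ∈ E, e ≠ e1 → ∀ p, 1 ≤ p → p ≤ e.2.1.length → X (pt e p) {n | q + d ≤ n ∧ n < q + d + p} := by
    intro e he hne p hp1 hp2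
    have h3 := h2 e he
    refine ⟨?_, e.1, (hE.1 e (List.mem_cons_of_mem _ he)).ha, ?_⟩
    · rintro n ⟨hn1, hn2⟩
      omega
    · have := G2 e (List.mem_cons_of_mem _ he) 0 p (by omega) (by omega) (by
        intro t t' _ _ _ _ h
        rw [hf2 e hne, hf2 e hne] at h
        omega) {n | q + d ≤ n ∧ n < q + d + p} (by
        intro t _ ht
        rw [hf2 e hne]
        exact ⟨by omega, by omega⟩)
      rw [pt_zero] at this
      exact this.symm'
  have Xhigh : ∀ e ∈ E, e ≠ e1 → ∀ p, 1 ≤ p → p ≤ e.2.1.length → X (pt e p) {n | q + d + p ≤ n ∧ n < q + N} := by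
    intro e he hne p hp1 hp2
    have h3 := h2 e he
    refine ⟨?_, e.2.2, (hE.1 e (List.mem_cons_of_mem _ he)).hb, ?_⟩
    · rintro n ⟨hn1, hn2⟩
      omega
    · have := G2 e (List.mem_cons_of_mem _ he) p (e.2.1.length + 1) (by omega) (by omega) (by
        intro t t' _ _ _ _ h
        rw [hf2 e hne, hf2 e hne] at h
        omega) {n | q + d + p ≤ n ∧ n < q + N} (by
        intro t _ ht
        rw [hf2 e hne]
        exact ⟨by omega, by omega⟩)
      rw [pt_last] at this
      exact this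
  -- injectivity of the colours of `e1` on windows of length `N`
  have hinj1 : ∀ i j, j ≤ i + N → j ≤ N + d →
      (∀ t t', i ≤ t → t < j → i ≤ t' → t' < j → f e1 t = f e1 t' → t = t') := by
    intro i j hij hj t t' ht1 ht2 ht1' ht2' hh
    rcases Nat.lt_or_ge t N with h3 | h3 <;> rcases Nat.lt_or_ge t' N with h4 | h4
    · rw [hf1 t h3, hf1 t' h4] at hh; omega
    · rw [hf1 t h3, hf1' t' h4] at hh; omega
    · rw [hf1' t h3, hf1 t' h4] at hh; omega
    · rw [hf1' t h3, hf1' t' h4] at hh; omega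
  have he1 : e1 ∈ e1 :: E := List.mem_cons_self
  have Ylow : ∀ p, 1 ≤ p → p ≤ N → p ≤ e1.2.1.length → X (pt e1 p) {n | q ≤ n ∧ n < q + p} := by
    intro p hp1 hp2 hp3
    refine ⟨?_, e1.1, (hE.1 e1 he1).ha, ?_⟩
    · rintro n ⟨hn1, hn2⟩
      omega
    · have := G2 e1 he1 0 p (by omega) (by omega) (hinj1 0 p (by omega) (by omega))
        {n | q ≤ n ∧ n < q + p} (by
        intro t _ ht
        rw [hf1 t (by omega)]
        exact ⟨by omega, by omega⟩)
      rw [pt_zero] at this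
      exact this.symm'
  have Yhigh : ∀ p, N < p → p ≤ e1.2.1.length → X (pt e1 p) {n | q + (p - N) ≤ n ∧ n < q + d} := by
    intro p hp1 hp2
    refine ⟨?_, e1.2.2, (hE.1 e1 he1).hb, ?_⟩
    · rintro n ⟨hn1, hn2⟩
      omega
    · have := G2 e1 he1 p (e1.2.1.length + 1) (by omega) (by omega)
        (hinj1 p _ (by omega) (by omega)) {n | q + (p - N) ≤ n ∧ n < q + d} (by
        intro t _ ht
        rw [hf1' t (by omega)]
        exact ⟨by omega, by omega⟩)
      rw [pt_last] at this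
      exact this
  have Ymid : ∀ p, d ≤ p → p ≤ N → 1 ≤ p → p ≤ e1.2.1.length →
      X (pt e1 p) {n | (q ≤ n ∧ n < q + d) ∨ (q + p ≤ n ∧ n < q + N)} := by
    intro p hp1 hp2 hp3 hp4
    refine ⟨?_, e1.2.2, (hE.1 e1 he1).hb, ?_⟩
    · rintro n (⟨hn1, hn2⟩ | ⟨hn1, hn2⟩) <;> omega
    · have := G2 e1 he1 p (e1.2.1.length + 1) (by omega) (by omega)
        (hinj1 p _ (by omega) (by omega)) {n | (q ≤ n ∧ n < q + d) ∨ (q + p ≤ n ∧ n < q + N)} (by
        intro t ht1 ht
        rcases Nat.lt_or_ge t N with h3 | h3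
        · rw [hf1 t h3]
          exact Or.inr ⟨by omega, by omega⟩
        · rw [hf1' t h3]
          exact Or.inl ⟨by omega, by omega⟩)
      rw [pt_last] at this
      exact this
  -- a vertex of `e1` and a vertex of another ear
  have P1 : ∀ p, 1 ≤ p → p ≤ e1.2.1.length → ∀ e ∈ E, e ≠ e1 → ∀ p', 1 ≤ p' → p' ≤ e.2.1.length →
      Rw G c' D' {n | n < q + N} (pt e1 p) (pt e p') := by
    intro p hp1 hp2 e he hne p' hp1' hp2'
    rcases Nat.lt_or_ge N p with h3 | h3
    · refine glue _ _ _ _ (Yhigh p h3 hp2) (Xlow e he hne p' hp1' hp2') ?_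
      rintro n ⟨hn1, hn2⟩ ⟨hn3, hn4⟩
      omega
    · rcases Nat.lt_or_ge (d + p') p with h4 | h4
      · refine glue _ _ _ _ (Ymid p (by omega) h3 hp1 hp2) (Xlow e he hne p' hp1' hp2') ?_
        rintro n (⟨hn1, hn2⟩ | ⟨hn1, hn2⟩) ⟨hn3, hn4⟩ <;> omega
      · refine glue _ _ _ _ (Ylow p hp1 h3 hp2) (Xhigh e he hne p' hp1' hp2') ?_
        rintro n ⟨hn1, hn2⟩ ⟨hn3, hn4⟩
        omega
  -- two vertices of `e1`
  have P2 : ∀ p p', p ≤ p' → 1 ≤ p → p' ≤ e1.2.1.length →
      Rw G c' D' {n | n < q + N} (pt e1 p) (pt e1 p') := by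
    intro p p' hpp hp1 hp2
    rcases Nat.lt_or_ge (p + N) p' with h3 | h3
    · refine glue _ _ _ _ (Ylow p hp1 (by omega) (by omega)) (Yhigh p' (by omega) hp2) ?_
      rintro n ⟨hn1, hn2⟩ ⟨hn3, hn4⟩
      omega
    · refine G2 e1 he1 p p' hpp (by omega) (hinj1 p p' (by omega) (by omega)) _ ?_
      intro t ht1 ht2
      simp only [Set.mem_ofPred_eq]
      rcases Nat.lt_or_ge t N with h3 | h3
      · rw [hf1 t h3]; omega
      · rw [hf1' t h3]; omega
  -- two vertices of other ears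
  have P3 : ∀ e ∈ E, e ≠ e1 → ∀ e' ∈ E, e' ≠ e1 → ∀ p p', p ≤ p' → 1 ≤ p → p ≤ e.2.1.length →
      p' ≤ e'.2.1.length → Rw G c' D' {n | n < q + N} (pt e p) (pt e' p') := by
    intro e he hne e' he' hne' p p' hpp hp1 hp2 hp3
    refine glue _ _ _ _ (Xlow e he hne p hp1 hp2) (Xhigh e' he' hne' p' (by omega) hp3) ?_
    rintro n ⟨hn1, hn2⟩ ⟨hn3, hn4⟩
    omega
  -- a vertex of `D` and an interior vertex
  have hne1 : ∀ e ∈ E, e ≠ e1 := by
    rintro e he rfl
    have h3 := (List.pairwise_cons.1 hE.2).1 e he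
    have h4 := (hE.1 e he1).ne
    obtain ⟨x, hx⟩ := List.exists_mem_of_ne_nil _ h4
    exact h3 hx hx
  have P4 : ∀ u ∈ D, ∀ e ∈ e1 :: E, ∀ p, 1 ≤ p → p ≤ e.2.1.length →
      Rw G c' D' {n | n < q + N} u (pt e p) := by
    intro u hu e he p hp1 hp2
    rcases List.mem_cons.1 he with rfl | he'
    · rcases Nat.lt_or_ge N p with h3 | h3
      · exact glue _ _ _ _ (XD u hu) (Yhigh p h3 hp2) (by simp)
      · exact glue _ _ _ _ (XD u hu) (Ylow p hp1 h3 hp2) (by simp)
    · exact glue _ _ _ _ (XD u hu) (Xlow e he' (hne1 e he') p hp1 hp2) (by simp)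
  have final : ∀ u ∈ D', ∀ v ∈ D', Rw G c' D' {n | n < q + N} u v := by
    rintro u (hu | ⟨e, he, hu⟩) v (hv | ⟨e', he', hv⟩)
    · refine (G1 u hu v hv).mono' ?_
      intro n hn
      simp only [Set.mem_ofPred_eq] at hn ⊢
      omega
    · obtain ⟨p, hp1, hp2, rfl⟩ := pt_surj e' v hv
      exact P4 u hu e' he' p hp1 hp2
    · obtain ⟨p, hp1, hp2, rfl⟩ := pt_surj e u hu
      exact (P4 v hv e he p hp1 hp2).symm'
    · obtain ⟨p, hp1, hp2, rfl⟩ := pt_surj e u hu
      obtain ⟨p', hp1', hp2', rfl⟩ := pt_surj e' v hv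
      rcases List.mem_cons.1 he with rfl | he2 <;> rcases List.mem_cons.1 he' with rfl | he2'
      · rcases le_total p p' with h3 | h3
        · exact P2 p p' h3 hp1 hp2'
        · exact (P2 p' p h3 hp1' hp2).symm'
      · exact P1 p hp1 hp2 e' he2' (hne1 e' he2') p' hp1' hp2'
      · exact (P1 p' hp1' hp2' e he2 (hne1 e he2) p hp1 hp2).symm'
      · rcases le_total p p' with h3 | h3
        · exact P3 e he2 (hne1 e he2) e' he2' (hne1 e' he2') p p' h3 hp1 hp2 hp2'
        · exact (P3 e' he2' (hne1 e' he2') e he2 (hne1 e he2) p' p h3 hp1' hp2' hp2).symm'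
  exact ⟨c', final⟩

end Pool.Agent.RBC
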