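import Pool.Agent.MP_dd54b8_co.K0

set_option autoImplicit false

/-! Task [RBK-2]: existence of ears in 2-connected graphs. -/

namespace Pool.Agent.RBC

open SimpleGraph

theorem k2_split {α : Type} (p : α → Prop) : ∀ l : List α, (∃ y ∈ l, p y) →
    ∃ (L : List α) (b : α) (R : List α), l = L ++ b :: R ∧ (∀ x ∈ L, ¬ p x) ∧ p b := by
  intro l
  induction l with
  | nil =>
    rintro ⟨y, hy, _⟩
    simp at hy
  | cons z l ih =>
    intro h
    by_cases hz : p z
    · exact ⟨[], z, l, rfl, by simp, hz⟩
    · obtain ⟨y, hy, hpy⟩ := h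
      have hy' : y ∈ l := by
        rcases List.mem_cons.1 hy with rfl | h1
        · exact absurd hpy hz
        · exact h1
      obtain ⟨L, b, R, h1, h2, h3⟩ := ih ⟨y, hy', hpy⟩
      refine ⟨z :: L, b, R, by rw [h1, List.cons_append], ?_, h3⟩
      intro x hx
      rcases List.mem_cons.1 hx with rfl | h4
      · exact hz
      · exact h2 x h4

variable {V : Type} [Fintype V] [DecidableEq V] {G : SimpleGraph V}

/-- In a 2-connected graph there is an ear on every proper vertex subset with at least two elements.

PROOF. `G` is connected (`kconn_connected`), so some `x ∉ D` has a neighbour `a ∈ D` (take a walk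
from a vertex outside `D` to `D`).  `G - a` is connected (`hk.2 {a}`), and `D \ {a}` is non-empty, so
there is a walk avoiding `a` from `x` to some vertex of `D \ {a}`; take its beginning up to the
first vertex `b` in `D` and make it a path (`Walk.bypass` / `toPath`, or take a walk of minimal
length from `x` to `D` in `G - a`, i.e. minimal among all lists).  Its vertices before `b` are
outside `D`, different, `≠ a`; they form `L` (it starts with `x`, so it is non-empty). -/
theorem exists_ear (hk : KConn G 2) {D : Finset V} (h2 : 2 ≤ D.card) (hne : D ≠ Finset.univ) :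
    ∃ (a : V) (L : List V) (b : V), Ear G D a L b := by
  classical
  have hconn : G.Connected := kconn_connected hk (by norm_num)
  obtain ⟨y0, hy0⟩ : ∃ y, y ∉ D := by
    by_contra h
    push Not at h
    exact hne (Finset.eq_univ_iff_forall.2 h)
  obtain ⟨a0, ha0⟩ : D.Nonempty := Finset.card_pos.1 (by omega)
  obtain ⟨w⟩ := hconn.preconnected a0 y0
  obtain ⟨d, -, hd1, hd2⟩ := w.exists_boundary_dart (D : Set V) (Finset.mem_coe.2 ha0)
    (fun h => hy0 (Finset.mem_coe.1 h))
  obtain ⟨⟨a, x⟩, hax⟩ := d
  have ha : a ∈ D := Finset.mem_coe.1 hd1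
  have hx : x ∉ D := fun h => hd2 (Finset.mem_coe.2 h)
  have hadj : G.Adj a x := hax
  obtain ⟨b0, hb0, hb0a⟩ : ∃ b ∈ D, b ≠ a := Finset.exists_mem_ne (by omega) a
  have hxa : x ≠ a := fun h => hx (h ▸ ha)
  have hH := hk.2 {a} (by simp)
  have hx' : x ∈ ((↑({a} : Finset V) : Set V)ᶜ) := by simpa using hxa
  have hb' : b0 ∈ ((↑({a} : Finset V) : Set V)ᶜ) := by simpa using hb0a
  obtain ⟨p⟩ := hH.preconnected ⟨x, hx'⟩ ⟨b0, hb'⟩
  have hP := p.bypass_isPath
  set q := p.bypass with hq
  set l : List V := q.support.map Subtype.val with hl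
  have hchain : List.IsChain G.Adj l := by
    rw [hl, List.isChain_map]
    exact q.isChain_adj_support
  have hnd : l.Nodup := hP.support_nodup.map Subtype.val_injective
  have hna : ∀ z ∈ l, z ≠ a := by
    intro z hz
    rw [hl, List.mem_map] at hz
    obtain ⟨z', _, rfl⟩ := hz
    have := z'.2
    simpa using this
  have hhead : ∃ t, l = x :: t := by
    rw [hl, ← SimpleGraph.Walk.cons_tail_support]
    exact ⟨_, rfl⟩
  have hbl : b0 ∈ l := by
    rw [hl, List.mem_map]
    exact ⟨_, q.end_mem_support, rfl⟩
  obtain ⟨L, b, R, hLbR, hL, hb⟩ := k2_split (fun z => z ∈ D) l ⟨b0, hbl, hb0⟩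
  have hLne : L ≠ [] := by
    rintro rfl
    obtain ⟨t, ht⟩ := hhead
    rw [ht, List.nil_append] at hLbR
    have : x = b := (List.cons.inj hLbR).1
    exact hx (this ▸ hb)
  have hl2 : l = (L ++ [b]) ++ R := by rw [hLbR]; simp
  refine ⟨a, L, b, ⟨ha, hb, ?_, hLne, hL, ?_, ?_⟩⟩
  · intro h
    exact hna b (by rw [hLbR]; simp) h.symm
  · rw [hLbR] at hnd
    exact (List.nodup_append.1 hnd).1
  · rw [List.isChain_cons]
    constructor
    · intro y hy
      obtain ⟨t, ht⟩ := hhead
      have hy' : y = x := by
        obtain ⟨z, L', rfl⟩ := List.exists_cons_of_ne_nil hLne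
        rw [ht] at hLbR
        simp at hLbR hy
        rw [← hy, hLbR.1]
      rw [hy']
      exact hadj
    · rw [hl2] at hchain
      exact hchain.left_of_append

/-- A 2-connected graph has an ear decomposition.

PROOF. Take a set `D` with `ED G D t` for some `t` with `D.card` maximal (an edge exists, since `G`
is connected with more than two vertices).  `2 ≤ D.card` always (the base set has two elements as
`G.Adj a b → a ≠ b`, and sets only grow).  If `D ≠ univ`, `exists_ear` gives a larger one. -/
theorem exists_ed_univ (hk : KConn G 2) : ∃ t, ED G (Finset.univ : Finset V) t := by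
  classical
  have hconn : G.Connected := kconn_connected hk (by norm_num)
  have hcard : ∀ D : Finset V, ∀ t, ED G D t → 2 ≤ D.card := by
    intro D t h
    induction h with
    | base a b hab => rw [Finset.card_pair hab.ne]
    | ear D t a L b _ _ ih => exact ih.trans (Finset.card_le_card Finset.subset_union_left)
  -- an edge
  obtain ⟨u, v, huv⟩ : ∃ u v, G.Adj u v := by
    have h1 : 1 < Fintype.card V := lt_trans (by norm_num) hk.1
    obtain ⟨u, v, huv⟩ := Fintype.one_lt_card_iff.1 h1
    obtain ⟨w⟩ := hconn.preconnected u v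
    cases w with
    | nil => exact absurd rfl huv
    | cons h _ => exact ⟨_, _, h⟩
  -- maximal cardinality
  have key : ∀ n : ℕ, ∀ D : Finset V, ∀ t, ED G D t → Fintype.card V - D.card = n →
      ∃ t, ED G (Finset.univ : Finset V) t := by
    intro n
    induction n using Nat.strong_induction_on with
    | _ n ih =>
      intro D t hD hn
      by_cases hne : D = Finset.univ
      · exact ⟨t, hne ▸ hD⟩
      · obtain ⟨a, L, b, hL⟩ := exists_ear hk (hcard D t hD) hne
        have hD' := ED.ear D t a L b hD hL
        have hlt : D.card < (D ∪ L.toFinset).card := by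
          apply Finset.card_lt_card
          rw [Finset.ssubset_iff_of_subset Finset.subset_union_left]
          obtain ⟨z, L', hzL⟩ := List.exists_cons_of_ne_nil hL.ne
          have hz : z ∈ L := by rw [hzL]; simp
          exact ⟨z, Finset.mem_union_right _ (List.mem_toFinset.2 hz), hL.out z hz⟩
        have hle : (D ∪ L.toFinset).card ≤ Fintype.card V := Finset.card_le_univ _
        exact ih (Fintype.card V - (D ∪ L.toFinset).card) (by omega) _ _ hD' rfl
  exact key _ _ _ (ED.base u v huv) rfl

end Pool.Agent.RBC
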