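import Pool.Agent.MP_dd54b8_co.K0

set_option autoImplicit false

/-! Task [RBK-3]: removable ears after adding an ear. -/

namespace Pool.Agent.RBC

open SimpleGraph

variable {V : Type} [DecidableEq V] {G : SimpleGraph V}

omit [DecidableEq V] in
theorem k3_rev {x y : V} {L : List V} (h : List.IsChain G.Adj (x :: (L ++ [y]))) :
    List.IsChain G.Adj (y :: (L.reverse ++ [x])) := by
  have h1 : y :: (L.reverse ++ [x]) = (x :: (L ++ [y])).reverse := by simp
  rw [h1, List.isChain_reverse]
  exact h.imp fun _ _ h2 => h2.symm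

omit [DecidableEq V] in
theorem k3_split {x y c : V} {L1 L2 : List V} :
    List.IsChain G.Adj (x :: ((L1 ++ c :: L2) ++ [y])) ↔
      List.IsChain G.Adj (x :: (L1 ++ [c])) ∧ List.IsChain G.Adj (c :: (L2 ++ [y])) := by
  have h1 : x :: ((L1 ++ c :: L2) ++ [y]) = (x :: L1) ++ c :: (L2 ++ [y]) := by simp
  rw [h1, List.isChain_split]
  rfl

omit [DecidableEq V] in
/-- Reversal of an ear. -/
theorem Ear.reverse {D : Finset V} {a b : V} {L : List V} (h : Ear G D a L b) :
    Ear G D b L.reverse a :=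
  ⟨h.hb, h.ha, h.ab.symm, fun h1 => h.ne (List.reverse_eq_nil_iff.1 h1),
    fun x hx => h.out x (List.mem_reverse.1 hx), List.nodup_reverse.2 h.nd, k3_rev h.ch⟩

theorem k3_core {F D'' : Finset V} {s : ℕ} (hF : ED G F s) {u v a' b' : V} {M L' : List V}
    (hM : Ear G F u M v) (hD : D'' = (F ∪ M.toFinset) ∪ L'.toFinset)
    (hmin : ∀ r, ED G D'' r → s + 2 ≤ r) (ha' : a' ∈ F ∪ M.toFinset) (hb' : b' ∈ F ∪ M.toFinset)
    (hab : a' ≠ b') (hout : ∀ x ∈ L', x ∉ F ∪ M.toFinset) (hnd : L'.Nodup)
    (hch : List.IsChain G.Adj (a' :: (L' ++ [b']))) : Rem G D'' (s + 2) a' L' b' := by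
  have hED : ED G (F ∪ M.toFinset) (s + 1) := ED.ear F s u M v hF hM
  refine ⟨F ∪ M.toFinset, s + 1, hED, ⟨ha', hb', hab, ?_, hout, hnd, hch⟩, hD, rfl⟩
  rintro rfl
  rw [List.toFinset_nil, Finset.union_empty] at hD
  have := hmin (s + 1) (hD ▸ hED)
  omega

/-- one end inside -/
theorem k3_one {F D' : Finset V} {s : ℕ} {a0 b0 : V} {L0 : List V}
    (h0 : Ear G D' a0 L0 b0) (hmin : ∀ r, ED G (D' ∪ L0.toFinset) r → s + 2 ≤ r)
    {a b : V} {L : List V} (hF : ED G F s) (hE : Ear G F a L b) (hD : D' = F ∪ L.toFinset)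
    (ha0 : a0 ∈ L) (hb0 : b0 ∉ L) :
    ∃ (a' : V) (L' : List V) (b' : V), Rem G (D' ∪ L0.toFinset) (s + 2) a' L' b' ∧
      ∀ x ∈ L', x ∈ L := by
  have hLD : ∀ x ∈ L, x ∈ D' := fun x hx => by
    rw [hD]
    exact Finset.mem_union_right _ (List.mem_toFinset.2 hx)
  have hFD : ∀ x ∈ F, x ∈ D' := fun x hx => by
    rw [hD]
    exact Finset.mem_union_left _ hx
  have hbF : b0 ∈ F := by
    have h1 := h0.hb
    rw [hD, Finset.mem_union, List.mem_toFinset] at h1
    exact h1.resolve_right hb0
  have hdis : ∀ x ∈ L, ∀ y ∈ L0, x ≠ y := fun x hx y hy h => h0.out y hy (h ▸ hLD x hx)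
  have hF0 : ∀ y ∈ L0, y ∉ F := fun y hy h => h0.out y hy (hFD y h)
  obtain ⟨L1, L2, hL⟩ := List.append_of_mem ha0
  have hnd := hE.nd
  rw [hL, List.nodup_append, List.nodup_cons] at hnd
  obtain ⟨hn1, ⟨hn2, hn3⟩, hn4⟩ := hnd
  have hch := hE.ch
  rw [hL, k3_split] at hch
  have hL1 : ∀ x ∈ L1, x ∈ L := fun x hx => by rw [hL]; simp [hx]
  have hL2 : ∀ x ∈ L2, x ∈ L := fun x hx => by rw [hL]; simp [hx]
  by_cases hbb : b0 = b
  · -- `b0 = b`
    refine ⟨a0, L2, b, ?_, hL2⟩
    have hM : Ear G F a (L1 ++ a0 :: L0) b0 := by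
      refine ⟨hE.ha, hbF, hbb ▸ hE.ab, by simp, ?_, ?_, ?_⟩
      · intro x hx
        rw [List.mem_append, List.mem_cons] at hx
        rcases hx with hx | rfl | hx
        · exact hE.out x (hL1 x hx)
        · exact hE.out _ ha0
        · exact hF0 x hx
      · rw [List.nodup_append, List.nodup_cons]
        refine ⟨hn1, ⟨fun h => hdis a0 ha0 a0 h rfl, h0.nd⟩, ?_⟩
        intro x hx y hy
        rcases List.mem_cons.1 hy with rfl | hy
        · exact hn4 x hx y (by simp)
        · exact hdis x (hL1 x hx) y hy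
      · rw [k3_split]
        exact ⟨hch.1, h0.ch⟩
    refine k3_core hF hM ?_ hmin ?_ ?_ ?_ ?_ hn3 hch.2
    · rw [hD, hL]
      ext x
      simp only [Finset.mem_union, List.mem_toFinset, List.mem_append, List.mem_cons]
      tauto
    · exact Finset.mem_union_right _ (by simp)
    · exact Finset.mem_union_left _ hE.hb
    · intro h
      exact hE.out a0 ha0 (h ▸ hE.hb)
    · intro x hx
      rw [Finset.mem_union, List.mem_toFinset, List.mem_append, List.mem_cons]
      rintro (h | h | rfl | h)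
      · exact hE.out x (hL2 x hx) h
      · exact hn4 x h x (by simp [hx]) rfl
      · exact hn2 hx
      · exact hdis x (hL2 x hx) x h rfl
  · -- `b0 ≠ b`
    refine ⟨a, L1, a0, ?_, hL1⟩
    have hM : Ear G F b (L2.reverse ++ a0 :: L0) b0 := by
      refine ⟨hE.hb, hbF, fun h => hbb h.symm, by simp, ?_, ?_, ?_⟩
      · intro x hx
        rw [List.mem_append, List.mem_cons, List.mem_reverse] at hx
        rcases hx with hx | rfl | hx
        · exact hE.out x (hL2 x hx)
        · exact hE.out _ ha0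
        · exact hF0 x hx
      · rw [List.nodup_append, List.nodup_cons, List.nodup_reverse]
        refine ⟨hn3, ⟨fun h => hdis a0 ha0 a0 h rfl, h0.nd⟩, ?_⟩
        intro x hx y hy
        rw [List.mem_reverse] at hx
        rcases List.mem_cons.1 hy with rfl | hy
        · rintro rfl
          exact hn2 hx
        · exact hdis x (hL2 x hx) y hy
      · rw [k3_split]
        exact ⟨k3_rev hch.2, h0.ch⟩
    refine k3_core hF hM ?_ hmin ?_ ?_ ?_ ?_ hn1 hch.1
    · rw [hD, hL]
      ext x
      simp only [Finset.mem_union, List.mem_toFinset, List.mem_append, List.mem_cons,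
        List.mem_reverse]
      tauto
    · exact Finset.mem_union_left _ hE.ha
    · exact Finset.mem_union_right _ (by simp)
    · intro h
      exact hE.out a0 ha0 (h ▸ hE.ha)
    · intro x hx
      rw [Finset.mem_union, List.mem_toFinset, List.mem_append, List.mem_cons, List.mem_reverse]
      rintro (h | h | rfl | h)
      · exact hE.out x (hL1 x hx) h
      · exact hn4 x hx x (by simp [h]) rfl
      · exact hn4 x hx x (by simp) rfl
      · exact hdis x (hL1 x hx) x h rfl

/-- both ends inside, in the right order -/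
theorem k3_two {F D' : Finset V} {s : ℕ} {a0 b0 : V} {L0 : List V}
    (h0 : Ear G D' a0 L0 b0) (hmin : ∀ r, ED G (D' ∪ L0.toFinset) r → s + 2 ≤ r)
    {a b : V} {L : List V} (hF : ED G F s) (hE : Ear G F a L b) (hD : D' = F ∪ L.toFinset)
    (L1 L2 L3 : List V) (hL : L = L1 ++ a0 :: (L2 ++ b0 :: L3)) :
    ∃ (a' : V) (L' : List V) (b' : V), Rem G (D' ∪ L0.toFinset) (s + 2) a' L' b' ∧
      ∀ x ∈ L', x ∈ L := by
  have hLD : ∀ x ∈ L, x ∈ D' := fun x hx => by
    rw [hD]
    exact Finset.mem_union_right _ (List.mem_toFinset.2 hx)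
  have hFD : ∀ x ∈ F, x ∈ D' := fun x hx => by
    rw [hD]
    exact Finset.mem_union_left _ hx
  have hdis : ∀ x ∈ L, ∀ y ∈ L0, x ≠ y := fun x hx y hy h => h0.out y hy (h ▸ hLD x hx)
  have hF0 : ∀ y ∈ L0, y ∉ F := fun y hy h => h0.out y hy (hFD y h)
  have hnd := hE.nd
  rw [hL, List.nodup_append, List.nodup_cons, List.nodup_append, List.nodup_cons] at hnd
  obtain ⟨hn1, ⟨hn2, hn3, ⟨hn4, hn5⟩, hn6⟩, hn7⟩ := hnd
  have hch := hE.ch
  rw [hL, k3_split, k3_split] at hch
  obtain ⟨hc1, hc2, hc3⟩ := hch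
  have hL1 : ∀ x ∈ L1, x ∈ L := fun x hx => by rw [hL]; simp [hx]
  have hL2 : ∀ x ∈ L2, x ∈ L := fun x hx => by rw [hL]; simp [hx]
  have hL3 : ∀ x ∈ L3, x ∈ L := fun x hx => by rw [hL]; simp [hx]
  have ha0 : a0 ∈ L := by rw [hL]; simp
  have hb0 : b0 ∈ L := by rw [hL]; simp
  refine ⟨a0, L2, b0, ?_, hL2⟩
  have hM : Ear G F a (L1 ++ a0 :: (L0 ++ b0 :: L3)) b := by
    refine ⟨hE.ha, hE.hb, hE.ab, by simp, ?_, ?_, ?_⟩
    · intro x hx
      rw [List.mem_append, List.mem_cons, List.mem_append, List.mem_cons] at hx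
      rcases hx with hx | rfl | hx | rfl | hx
      · exact hE.out x (hL1 x hx)
      · exact hE.out _ ha0
      · exact hF0 x hx
      · exact hE.out _ hb0
      · exact hE.out x (hL3 x hx)
    · rw [List.nodup_append, List.nodup_cons, List.nodup_append, List.nodup_cons]
      refine ⟨hn1, ⟨?_, h0.nd, ⟨hn4, hn5⟩, ?_⟩, ?_⟩
      · intro h
        rw [List.mem_append, List.mem_cons] at h
        rcases h with h | h | h
        · exact hdis a0 ha0 a0 h rfl
        · exact h0.ab h
        · exact hn2 (by simp [h])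
      · intro x hx y hy
        rcases List.mem_cons.1 hy with rfl | hy
        · exact (hdis y hb0 x hx).symm
        · exact (hdis y (hL3 y hy) x hx).symm
      · intro x hx y hy
        rw [List.mem_cons, List.mem_append, List.mem_cons] at hy
        rcases hy with rfl | hy | rfl | hy
        · exact hn7 x hx y (by simp)
        · exact hdis x (hL1 x hx) y hy
        · exact hn7 x hx y (by simp)
        · exact hn7 x hx y (by simp [hy])
    · rw [k3_split, k3_split]
      exact ⟨hc1, h0.ch, hc3⟩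
  refine k3_core hF hM ?_ hmin ?_ ?_ h0.ab ?_ hn3 hc2
  · rw [hD, hL]
    ext x
    simp only [Finset.mem_union, List.mem_toFinset, List.mem_append, List.mem_cons]
    tauto
  · exact Finset.mem_union_right _ (by simp)
  · exact Finset.mem_union_right _ (by simp)
  · intro x hx
    rw [Finset.mem_union, List.mem_toFinset, List.mem_append, List.mem_cons, List.mem_append,
      List.mem_cons]
    rintro (h | h | rfl | h | rfl | h)
    · exact hE.out x (hL2 x hx) h
    · exact hn7 x h x (by simp [hx]) rfl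
    · exact hn2 (by simp [hx])
    · exact hdis x (hL2 x hx) x h rfl
    · exact hn6 x hx x (by simp) rfl
    · exact hn6 x hx x (by simp [h]) rfl

/-- Every removable ear `(a, L, b)` of `D'` contains a removable ear of `D' ∪ L0`, where
`(a0, L0, b0)` is an ear on `D'` and `D' ∪ L0` needs `t + 1` ears.

PROOF. Let `F, s` be as in `Rem G D' t a L b`: `D' = F ∪ L`, `ED G F s`, `t = s + 1`,
`(a, L, b)` an ear on `F`.  By symmetry (`Ear.reverse`) there are three cases.
(i) `a0 ∉ L` and `b0 ∉ L`.  Then `a0, b0 ∈ F`, `F ∪ L0` is an `ED` set with `s + 1` ears and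
`(a, L, b)` is an ear on it (`L` is disjoint from `L0`, because `L ⊆ D'` and `L0` is outside `D'`).
Take `L' = L`.
(ii) `a0 ∈ L`, `b0 ∉ L` (so `b0 ∈ F`).  Write `L = L1 ++ a0 :: L2`.
  If `b0 ≠ b`: `(b, L2.reverse ++ a0 :: L0, b0)` is an ear on `F`; let `F' = F ∪` its interior, an `ED`
  set with `s + 1` ears.  `(a, L1, a0)` satisfies all conditions of an ear on `F'` except possibly
  `L1 ≠ []`.  If `L1 = []` then `F' = D' ∪ L0` as sets, so `D' ∪ L0` has an ear decomposition with
  `s + 1 = t` ears, contradiction to `hmin`.  Take `L' = L1`.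
  If `b0 = b`: then `a ≠ b0`; use `(a, L1 ++ a0 :: L0, b0)` and `L' = L2` (ear `(a0, L2, b)`).
(iii) `a0, b0 ∈ L`, `a0 ≠ b0`.  By reversing `L0` (or `L`) we may assume that `a0` comes first:
  `L = L1 ++ a0 :: (L2 ++ b0 :: L3)`.  `(a, L1 ++ a0 :: (L0 ++ b0 :: L3), b)` is an ear on `F`, `F'`
  as before, and `(a0, L2, b0)` is an ear on `F'`, non-empty by `hmin` as before.  Take `L' = L2`.
-/
theorem rem_step {D' : Finset V} {t : ℕ} {a0 b0 : V} {L0 : List V}
    (h0 : Ear G D' a0 L0 b0) (hmin : ∀ s, ED G (D' ∪ L0.toFinset) s → t + 1 ≤ s)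
    {a b : V} {L : List V} (hr : Rem G D' t a L b) :
    ∃ (a' : V) (L' : List V) (b' : V), Rem G (D' ∪ L0.toFinset) (t + 1) a' L' b' ∧
      ∀ x ∈ L', x ∈ L := by
  obtain ⟨F, s, hF, hE, hD, rfl⟩ := hr
  have hrev : D' ∪ L0.reverse.toFinset = D' ∪ L0.toFinset := by rw [List.toFinset_reverse]
  have hmin' : ∀ r, ED G (D' ∪ L0.toFinset) r → s + 2 ≤ r := hmin
  have hminr : ∀ r, ED G (D' ∪ L0.reverse.toFinset) r → s + 2 ≤ r := by
    rw [hrev]
    exact hmin'
  by_cases ha0 : a0 ∈ L
  · by_cases hb0 : b0 ∈ L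
    · obtain ⟨L1, L2, hL⟩ := List.append_of_mem ha0
      have hb1 : b0 ∈ L1 ∨ b0 ∈ L2 := by
        rw [hL, List.mem_append, List.mem_cons] at hb0
        rcases hb0 with h | h | h
        · exact Or.inl h
        · exact absurd h.symm h0.ab
        · exact Or.inr h
      rcases hb1 with hb1 | hb1
      · obtain ⟨M1, M2, hM⟩ := List.append_of_mem hb1
        have := k3_two h0.reverse hminr hF hE hD M1 M2 L2 (by rw [hL, hM]; simp)
        rw [hrev] at this
        exact this
      · obtain ⟨M1, M2, hM⟩ := List.append_of_mem hb1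
        exact k3_two h0 hmin' hF hE hD L1 M1 M2 (by rw [hL, hM])
    · exact k3_one h0 hmin' hF hE hD ha0 hb0
  · by_cases hb0 : b0 ∈ L
    · have := k3_one h0.reverse hminr hF hE hD hb0 ha0
      rw [hrev] at this
      exact this
    · have haF : a0 ∈ F := by
        have h1 := h0.ha
        rw [hD, Finset.mem_union, List.mem_toFinset] at h1
        exact h1.resolve_right ha0
      have hbF : b0 ∈ F := by
        have h1 := h0.hb
        rw [hD, Finset.mem_union, List.mem_toFinset] at h1
        exact h1.resolve_right hb0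
      have hM : Ear G F a0 L0 b0 := by
        refine ⟨haF, hbF, h0.ab, h0.ne, fun x hx h => h0.out x hx ?_, h0.nd, h0.ch⟩
        rw [hD]
        exact Finset.mem_union_left _ h
      refine ⟨a, L, b, ?_, fun x hx => hx⟩
      refine k3_core hF hM ?_ hmin' ?_ ?_ hE.ab ?_ hE.nd hE.ch
      · rw [hD]
        ext x
        simp only [Finset.mem_union]
        tauto
      · exact Finset.mem_union_left _ hE.ha
      · exact Finset.mem_union_left _ hE.hb
      · intro x hx
        rw [Finset.mem_union, List.mem_toFinset]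
        rintro (h | h)
        · exact hE.out x hx h
        · apply h0.out x h
          rw [hD]
          exact Finset.mem_union_right _ (List.mem_toFinset.2 hx)

end Pool.Agent.RBC
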