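import Pool.Agent.MP_dd54b8_co.K3

set_option autoImplicit false

/-! Task [RBK-4]: many removable ears; parallel removable ears. -/

namespace Pool.Agent.RBC

open SimpleGraph

variable {V : Type} [DecidableEq V] {G : SimpleGraph V}

/-- `D` has at least `t - 1` pairwise disjoint removable ears, where `t` is the minimal number of
ears.  The family is given by the sets of interior vertices. -/
theorem exists_rem_family {D : Finset V} {t : ℕ} (h : MinED G D t) :
    ∃ 𝓐 : Finset (Finset V), t ≤ 𝓐.card + 1 ∧
      (∀ I ∈ 𝓐, ∃ (a : V) (L : List V) (b : V), Rem G D t a L b ∧ L.toFinset = I) ∧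
      ∀ I ∈ 𝓐, ∀ J ∈ 𝓐, I ≠ J → Disjoint I J := by
  induction t generalizing D with
  | zero => exact ⟨∅, by simp, by simp, by simp⟩
  | succ t ih =>
    obtain ⟨hED, hmin⟩ := h
    generalize ht : t + 1 = t1 at hED
    cases hED with
    | base a b hab => omega
    | ear D' t' a0 L0 b0 hD' hL0 =>
      obtain rfl : t' = t := by omega
      have hmin' : MinED G D' t' := by
        refine ⟨hD', ?_⟩
        intro s hs
        have := hmin _ (ED.ear D' s a0 L0 b0 hs hL0)
        omega
      obtain ⟨𝓐', hcard, hrem, hdis⟩ := ih hmin'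
      have key : ∀ I ∈ 𝓐', ∃ J : Finset V,
          (∃ (a : V) (L : List V) (b : V), Rem G (D' ∪ L0.toFinset) (t' + 1) a L b ∧
            L.toFinset = J) ∧ J ⊆ I ∧ J.Nonempty := by
        intro I hI
        obtain ⟨a, L, b, hr, rfl⟩ := hrem I hI
        obtain ⟨a', L', b', hr', hsub⟩ := rem_step hL0 hmin hr
        refine ⟨L'.toFinset, ⟨a', L', b', hr', rfl⟩, ?_, ?_⟩
        · intro x hx
          rw [List.mem_toFinset] at hx ⊢
          exact hsub x hx
        · obtain ⟨F, s, -, hear, -, -⟩ := hr'
          obtain ⟨x, hx⟩ := List.exists_mem_of_ne_nil _ hear.ne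
          exact ⟨x, List.mem_toFinset.2 hx⟩
      choose! g hg using key
      have hsubD : ∀ I ∈ 𝓐', I ⊆ D' := by
        intro I hI
        obtain ⟨a, L, b, ⟨F, s, -, -, hD, -⟩, rfl⟩ := hrem I hI
        rw [hD]
        exact Finset.subset_union_right
      have hinj : Set.InjOn g (↑𝓐' : Set (Finset V)) := by
        intro I hI J hJ hIJ
        by_contra hne
        obtain ⟨x, hx⟩ := (hg I hI).2.2
        have h1 := (hg I hI).2.1 hx
        have h2 := (hg J hJ).2.1 (hIJ ▸ hx)
        exact (Finset.disjoint_left.1 (hdis I hI J hJ hne)) h1 h2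
      have hnew : ∀ I ∈ 𝓐', Disjoint L0.toFinset (g I) := by
        intro I hI
        rw [Finset.disjoint_left]
        intro x hx hx'
        rw [List.mem_toFinset] at hx
        exact hL0.out x hx (hsubD I hI ((hg I hI).2.1 hx'))
      refine ⟨insert L0.toFinset (𝓐'.image g), ?_, ?_, ?_⟩
      · rw [Finset.card_insert_of_notMem, Finset.card_image_of_injOn hinj]
        · omega
        · intro hmem
          obtain ⟨I, hI, he⟩ := Finset.mem_image.1 hmem
          have h1 := hnew I hI
          obtain ⟨x, hx⟩ := (hg I hI).2.2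
          exact (Finset.disjoint_left.1 h1) (he ▸ hx) hx
      · intro I hI
        rcases Finset.mem_insert.1 hI with rfl | hI
        · exact ⟨a0, L0, b0, ⟨D', t', hD', hL0, rfl, rfl⟩, rfl⟩
        · obtain ⟨J, hJ, rfl⟩ := Finset.mem_image.1 hI
          exact (hg J hJ).1
      · intro I hI J hJ hIJ
        rcases Finset.mem_insert.1 hI with rfl | hI <;> rcases Finset.mem_insert.1 hJ with rfl | hJ
        · exact absurd rfl hIJ
        · obtain ⟨J', hJ', rfl⟩ := Finset.mem_image.1 hJ
          exact hnew J' hJ'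
        · obtain ⟨I', hI', rfl⟩ := Finset.mem_image.1 hI
          exact (hnew I' hI').symm
        · obtain ⟨I', hI', rfl⟩ := Finset.mem_image.1 hI
          obtain ⟨J', hJ', rfl⟩ := Finset.mem_image.1 hJ
          have hne : I' ≠ J' := by
            rintro rfl
            exact hIJ rfl
          exact Finset.disjoint_of_subset_left (hg I' hI').2.1
            (Finset.disjoint_of_subset_right (hg J' hJ').2.1 (hdis I' hI' J' hJ' hne))

/-- Removing `m` parallel ears whose interiors avoid a given small set `X`. -/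
theorem exists_parallel (m : ℕ) : ∀ (D : Finset V) (t : ℕ) (X : Finset V), MinED G D t →
    X.card + 3 * m ≤ t →
    ∃ (F : Finset V) (s : ℕ) (E : List (V × List V × V)), ED G F s ∧ Bq G F E ∧ E.length = m ∧
      D = F ∪ bqV E ∧ ∀ e ∈ E, ∀ x ∈ e.2.1, x ∉ X := by
  induction m with
  | zero =>
    intro D t X h _
    exact ⟨D, t, [], h.1, ⟨by simp, List.Pairwise.nil⟩, rfl, by simp [bqV], by simp⟩
  | succ m ih =>
    intro D t X h hX
    obtain ⟨𝓐, hcard, hrem, hdis⟩ := exists_rem_family h
    obtain ⟨I, hI, hIX⟩ : ∃ I ∈ 𝓐, Disjoint I X := by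
      by_contra hcon
      push Not at hcon
      have key : ∀ I ∈ 𝓐, ∃ x, x ∈ I ∧ x ∈ X := by
        intro I hI
        obtain ⟨x, hx, hx'⟩ := Finset.not_disjoint_iff.1 (hcon I hI)
        exact ⟨x, hx, hx'⟩
      have hne : 𝓐.Nonempty := by
        rw [← Finset.card_pos]
        omega
      obtain ⟨I0, hI0⟩ := hne
      obtain ⟨x0, -⟩ := key I0 hI0
      have : Nonempty V := ⟨x0⟩
      choose! f hf using key
      have := Finset.card_le_card_of_injOn (s := 𝓐) (t := X) f (fun I hI => (hf I hI).2) (by
        intro I hI J hJ hIJ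
        by_contra hne
        have h1 := (hf I hI).1
        have h2 := (hf J hJ).1
        rw [hIJ] at h1
        exact (Finset.disjoint_left.1 (hdis I hI J hJ hne)) h1 h2)
      omega
    obtain ⟨a, L, b, ⟨F1, s, hF1, hE, hD, ht⟩, rfl⟩ := hrem I hI
    have hmin : MinED G F1 s := by
      refine ⟨hF1, ?_⟩
      intro s' hs'
      have := h.2 (s' + 1) (hD ▸ ED.ear F1 s' a L b hs' hE)
      omega
    have hc : (X ∪ {a, b}).card + 3 * m ≤ s := by
      have h1 := Finset.card_union_le X ({a, b} : Finset V)
      have h2 := Finset.card_le_two (a := a) (b := b)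
      omega
    obtain ⟨F, s', E', hF, hB, hl, hF1', havoid⟩ := ih F1 s (X ∪ {a, b}) hmin hc
    have hmemb : ∀ x, x ∈ bqV E' ↔ ∃ e ∈ E', x ∈ e.2.1 := by
      intro x
      simp only [bqV, List.mem_toFinset, List.mem_flatMap]
    have hab : ∀ x, x ∈ F1 → (x = a ∨ x = b) → x ∈ F := by
      intro x hx hx2
      rw [hF1', Finset.mem_union] at hx
      refine hx.resolve_right ?_
      intro hx3
      obtain ⟨e, he, hxe⟩ := (hmemb x).1 hx3
      refine havoid e he x hxe ?_
      rw [Finset.mem_union, Finset.mem_insert, Finset.mem_singleton]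
      exact Or.inr hx2
    have hFF : F ⊆ F1 := by
      rw [hF1']
      exact Finset.subset_union_left
    refine ⟨F, s', (a, L, b) :: E', hF, ⟨?_, ?_⟩, by simp [hl], ?_, ?_⟩
    · intro e he
      rcases List.mem_cons.1 he with rfl | he
      · exact ⟨hab a hE.ha (Or.inl rfl), hab b hE.hb (Or.inr rfl), hE.ab, hE.ne,
          fun x hx hx' => hE.out x hx (hFF hx'), hE.nd, hE.ch⟩
      · exact hB.1 e he
    · rw [List.pairwise_cons]
      refine ⟨?_, hB.2⟩
      intro e he x hx hx'
      refine hE.out x hx ?_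
      rw [hF1', Finset.mem_union]
      exact Or.inr ((hmemb x).2 ⟨e, he, hx'⟩)
    · have h1 : bqV ((a, L, b) :: E') = L.toFinset ∪ bqV E' := by
        simp [bqV, List.toFinset_append]
      rw [h1, hD, hF1']
      rw [Finset.union_assoc, Finset.union_comm (bqV E')]
    · intro e he x hx
      rcases List.mem_cons.1 he with rfl | he
      · intro hx'
        exact (Finset.disjoint_left.1 hIX) (List.mem_toFinset.2 hx) hx'
      · intro hx'
        exact havoid e he x hx (Finset.mem_union_left _ hx')

end Pool.Agent.RBC
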