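import Pool.Agent.MP_dd54b8_co.C2
import Pool.Agent.MP_dd54b8_co.K1
import Pool.Agent.MP_dd54b8_co.K2
import Pool.Agent.MP_dd54b8_co.K4

set_option autoImplicit false

/-! Task [RBK-5]: the case `k = 2`. -/

namespace Pool.Agent.RBC

open SimpleGraph

section
variable {V : Type} [DecidableEq V] {G : SimpleGraph V}

omit [DecidableEq V] in
private theorem k5_max {α : Type} (f : α → ℕ) (E : List α) (hE : E ≠ []) :
    ∃ (e : α) (E' : List α), E.Perm (e :: E') ∧ ∀ x ∈ E', f x ≤ f e := by
  induction E with
  | nil => exact absurd rfl hE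
  | cons a l ih =>
    rcases l with _ | ⟨b, l⟩
    · exact ⟨a, [], List.Perm.refl _, by simp⟩
    · obtain ⟨e, E', hp, hm⟩ := ih (by simp)
      by_cases h : f a ≤ f e
      · refine ⟨e, a :: E', (hp.cons a).trans (List.Perm.swap e a E'), fun x hx => ?_⟩
        rcases List.mem_cons.1 hx with rfl | hx
        · exact h
        · exact hm x hx
      · refine ⟨a, e :: E', hp.cons a, fun x hx => ?_⟩
        rcases List.mem_cons.1 hx with rfl | hx
        · omega
        · exact (hm x hx).trans (by omega)

private theorem k5_mem (E : List (V × List V × V)) (x : V) :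
    x ∈ bqV E ↔ ∃ e ∈ E, x ∈ e.2.1 := by
  unfold bqV
  rw [List.mem_toFinset, List.mem_flatMap]

private theorem k5_card {D : Finset V} {E : List (V × List V × V)} (hE : Bq G D E) :
    (bqV E).card = (E.map fun e => e.2.1.length).sum := by
  unfold bqV
  rw [List.toFinset_card_of_nodup, List.length_flatMap]
  rw [List.nodup_flatMap]
  exact ⟨fun e he => (hE.1 e he).nd, hE.2⟩

omit [DecidableEq V] in
private theorem k5_perm {D : Finset V} {E E' : List (V × List V × V)} (hE : Bq G D E)
    (hp : E.Perm E') : Bq G D E' :=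
  ⟨fun e he => hE.1 e (hp.mem_iff.2 he),
    (hp.pairwise_iff (fun h => List.Disjoint.symm h)).1 hE.2⟩

private theorem k5_disj {D : Finset V} {E : List (V × List V × V)} (hE : Bq G D E) :
    Disjoint D (bqV E) := by
  rw [Finset.disjoint_left]
  intro x hx hx'
  obtain ⟨e, he, hxe⟩ := (k5_mem E x).1 hx'
  exact (hE.1 e he).out x hxe hx

omit [DecidableEq V] in
private theorem k5_pos {D : Finset V} {E : List (V × List V × V)} (hE : Bq G D E) :
    E.length ≤ (E.map fun e => e.2.1.length).sum := by
  have h := List.length_le_sum_of_one_le (E.map fun e => e.2.1.length) (by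
    intro i hi
    obtain ⟨e, he, rfl⟩ := List.mem_map.1 hi
    exact List.length_pos_iff.2 (hE.1 e he).ne)
  rwa [List.length_map] at h

/-- Adding five parallel ears has no loss.

PROOF. Let `e1` be an ear of `E` of maximal length (number of interior vertices `l1`), `E'` the other
four (`List.perm_cons_erase`, or induction; `Bq` and the set of interior vertices are invariant under
permutations, `List.Pairwise` with a symmetric relation: `List.Perm.pairwise_iff`), `l2` the
maximal length in `E'`.  `N = (l1 + l2 + 3) / 2`, `d = l1 + 1 - N`.  Then `l1 + 1 = N + d`,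
`d ≤ N` and `l + 1 + d ≤ N` for all `l ≤ l2` (because `2 N ≥ l1 + l2 + 2`), `rb_bouquet` gives the
cost `N` with `2 N ≤ l1 + l2 + 3 ≤` the sum of the five lengths (each is at least `1`).
`(bqV E).card = sum of lengths` by disjointness. -/
theorem rb_five {D : Finset V} {q : ℕ} (h : Rb G (↑D : Set V) q)
    (E : List (V × List V × V)) (hE : Bq G D E) (h5 : E.length = 5) :
    ∃ q', Rb G (↑(D ∪ bqV E) : Set V) q' ∧ 2 * q' ≤ 2 * q + (bqV E).card := by
  obtain ⟨e1, E1, hp1, hm1⟩ := k5_max (fun e : V × List V × V => e.2.1.length) E (by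
    intro h0
    rw [h0] at h5
    simp at h5)
  have hl1 : E1.length = 4 := by
    have h1 := hp1.length_eq
    rw [h5, List.length_cons] at h1
    omega
  obtain ⟨e2, E2, hp2, hm2⟩ := k5_max (fun e : V × List V × V => e.2.1.length) E1 (by
    intro h0
    rw [h0] at hl1
    simp at hl1)
  have hl2 : E2.length = 3 := by
    have h1 := hp2.length_eq
    rw [hl1, List.length_cons] at h1
    omega
  have hE1 : Bq G D (e1 :: E1) := k5_perm hE hp1
  have hE2 : Bq G D (e1 :: e2 :: E2) := k5_perm hE1 (hp2.cons e1)
  have hE3 : Bq G D E2 := ⟨fun e he => hE2.1 e (by simp [he]),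
    (List.pairwise_cons.1 (List.pairwise_cons.1 hE2.2).2).2⟩
  have h21 : e2.2.1.length ≤ e1.2.1.length := hm1 e2 (hp2.mem_iff.2 (by simp))
  have hle2 : ∀ e ∈ E1, e.2.1.length ≤ e2.2.1.length := by
    intro e he
    rcases List.mem_cons.1 (hp2.mem_iff.1 he) with rfl | he'
    · exact le_rfl
    · exact hm2 e he'
  have hcard := k5_card hE
  have hsum : (E.map fun e => e.2.1.length).sum =
      e1.2.1.length + (e2.2.1.length + (E2.map fun e => e.2.1.length).sum) := by
    rw [(hp1.map fun e : V × List V × V => e.2.1.length).sum_eq, List.map_cons, List.sum_cons,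
      (hp2.map fun e : V × List V × V => e.2.1.length).sum_eq, List.map_cons, List.sum_cons]
  have h3 := k5_pos hE3
  rw [hl2] at h3
  rw [hsum] at hcard
  have key := rb_bouquet h e1 E1 hE1 (N := (e1.2.1.length + e2.2.1.length + 3) / 2)
    (d := e1.2.1.length + 1 - (e1.2.1.length + e2.2.1.length + 3) / 2) (by omega) (by omega)
    (fun e he => by
      have := hle2 e he
      omega)
  refine ⟨q + (e1.2.1.length + e2.2.1.length + 3) / 2, ?_, ?_⟩
  · have hset : (↑(D ∪ bqV E) : Set V) = (↑D : Set V) ∪ {x | ∃ e ∈ e1 :: E1, x ∈ e.2.1} := by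
      ext x
      rw [Finset.mem_coe, Finset.mem_union, k5_mem, Set.mem_union, Finset.mem_coe,
        Set.mem_ofPred_eq]
      constructor
      · rintro (hx | ⟨e, he, hx⟩)
        · exact Or.inl hx
        · exact Or.inr ⟨e, hp1.mem_iff.1 he, hx⟩
      · rintro (hx | ⟨e, he, hx⟩)
        · exact Or.inl hx
        · exact Or.inr ⟨e, hp1.mem_iff.2 he, hx⟩
    rw [hset]
    exact key
  · omega

/-- A set with `t` ears: the cost is at most half the number of vertices plus `t`.

PROOF. Induction on `ED`.  Base: one edge, `q = 1` (`rb_singleton` and `rb_walk`).  Ear: `rb_ear` with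
`s = L.length` costs `(s + 2) / 2` (and `D`, `L` are disjoint, `L` has no duplicates, so the number
of vertices grows by `s`). -/
theorem rb_ed {D : Finset V} {t : ℕ} (h : ED G D t) :
    ∃ q, Rb G (↑D : Set V) q ∧ 2 * q ≤ D.card + 2 * t := by
  induction h with
  | base a b hab =>
    have h1 := rb_walk (G := G) (rb_singleton a) (Set.mem_singleton a)
      (Walk.cons hab Walk.nil : G.Walk a b)
    refine ⟨1, ?_, ?_⟩
    · have hset : (↑({a, b} : Finset V) : Set V) =
          {a} ∪ {x | x ∈ (Walk.cons hab Walk.nil : G.Walk a b).support} := by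
        ext x
        simp
      rw [hset]
      simpa using h1
    · rw [Finset.card_pair hab.ne]
  | ear D t a L b hD hL ih =>
    obtain ⟨q, hq, hle⟩ := ih
    have h1 := rb_ear hq (Finset.mem_coe.2 hL.ha) (Finset.mem_coe.2 hL.hb) L hL.ch hL.nd
      (fun x hx h' => hL.out x hx (Finset.mem_coe.1 h'))
    refine ⟨q + (L.length + 2) / 2, ?_, ?_⟩
    · have hset : (↑(D ∪ L.toFinset) : Set V) = (↑D : Set V) ∪ {x | x ∈ L} := by
        ext x
        simp
      rw [hset]
      exact h1
    · have h2 : (D ∪ L.toFinset).card = D.card + L.length := by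
        rw [Finset.card_union_of_disjoint, List.toFinset_card_of_nodup hL.nd]
        rw [Finset.disjoint_left]
        intro x hx hx'
        exact hL.out x (List.mem_toFinset.1 hx') hx
      rw [h2]
      omega

/-- Every set with an ear decomposition is rainbow connected with `|D| / 2 + 14` colours.

PROOF. Strong induction on `D.card`.  Let `t` be minimal with `ED G D t` (`Nat.find`).  If `t ≤ 14`
use `rb_ed`.  Otherwise `exists_parallel 5 D t ∅` gives `F`, `E`, with `F` smaller than `D` (the five
interiors are non-empty and disjoint from `F`), the induction hypothesis for `F` and `rb_five`. -/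
theorem rb_of_ed (D : Finset V) (h : ∃ t, ED G D t) :
    ∃ q, Rb G (↑D : Set V) q ∧ 2 * q ≤ D.card + 28 := by
  induction hn : D.card using Nat.strong_induction_on generalizing D with
  | _ n ih =>
    subst hn
    classical
    obtain ⟨t, hmin⟩ : ∃ t, MinED G D t :=
      ⟨Nat.find h, Nat.find_spec h, fun s hs => Nat.find_min' h hs⟩
    by_cases h14 : t ≤ 14
    · obtain ⟨q, hq, hle⟩ := rb_ed hmin.1
      exact ⟨q, hq, by omega⟩
    · obtain ⟨F, s, E, hF, hBq, hlen, hD, -⟩ := exists_parallel 5 D t ∅ hmin (by
        rw [Finset.card_empty]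
        omega)
      have hcard : D.card = F.card + (bqV E).card := by
        rw [hD, Finset.card_union_of_disjoint (k5_disj hBq)]
      have hc := k5_card hBq
      have hp := k5_pos hBq
      rw [hlen, ← hc] at hp
      obtain ⟨q, hq, hle⟩ := ih F.card (by omega) F ⟨s, hF⟩ rfl
      obtain ⟨q', hq', hle'⟩ := rb_five hq E hBq hlen
      refine ⟨q', ?_, by omega⟩
      rw [hD]
      exact hq'

end

/-- The case `k = 2`. -/
theorem main_two : ∃ C0 : ℕ, ∀ (V : Type) [Fintype V] (G : SimpleGraph V), KConn G 2 →
    ∃ q, Rb G Set.univ q ∧ 2 * q ≤ Fintype.card V + C0 := by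
  classical
  refine ⟨28, fun V _ G hG => ?_⟩
  obtain ⟨q, hq, hle⟩ := rb_of_ed (Finset.univ : Finset V) (exists_ed_univ hG)
  refine ⟨q, ?_, ?_⟩
  · simpa using hq
  · simpa using hle

end Pool.Agent.RBC
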