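import Pool.Agent.MP_dd54b8_co.Defs

set_option autoImplicit false

/-! Task [RBC-L1]: levels, parents, ancestors. -/

namespace Pool.Agent.RBC

open SimpleGraph

variable {V : Type} {G : SimpleGraph V}

theorem lev_root (v0 : V) : lev G v0 v0 = 0 := by
  unfold lev; exact SimpleGraph.dist_self

theorem eq_root_of_lev (hc : G.Connected) {v0 v : V} (h : lev G v0 v = 0) : v = v0 := by
  unfold lev at h
  exact (hc.dist_eq_zero_iff.mp h).symm

theorem lev_le_add (hc : G.Connected) (v0 u v : V) :
    lev G v0 u ≤ lev G v0 v + G.dist u v := by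
  unfold lev
  have := hc.dist_triangle (u := v0) (v := v) (w := u)
  rw [SimpleGraph.dist_comm (u := v) (v := u)] at this
  exact this

theorem lev_adj (hc : G.Connected) (v0 : V) {u v : V} (h : G.Adj u v) :
    lev G v0 u ≤ lev G v0 v + 1 := by
  have h1 := lev_le_add hc v0 u v
  have h2 : G.dist u v = 1 := SimpleGraph.dist_eq_one_iff_adj.mpr h
  omega

private theorem exists_par (hc : G.Connected) {v0 v : V} (hv : 0 < lev G v0 v) :
    ∃ u, G.Adj v u ∧ lev G v0 u + 1 = lev G v0 v := by
  obtain ⟨w, hw⟩ := hc.exists_walk_length_eq_dist v v0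
  have hl : w.length = lev G v0 v := by
    rw [hw]; unfold lev; exact SimpleGraph.dist_comm
  cases w with
  | nil => rw [← hl] at hv; simp at hv
  | cons h p =>
    rename_i u
    refine ⟨u, h, ?_⟩
    rw [Walk.length_cons] at hl
    have h1 : lev G v0 u ≤ p.length := by
      unfold lev
      rw [SimpleGraph.dist_comm]
      exact SimpleGraph.dist_le p
    have h2 := lev_adj hc v0 h
    omega

theorem par_spec (hc : G.Connected) {v0 v : V} (hv : 0 < lev G v0 v) :
    G.Adj v (par G v0 v) ∧ lev G v0 (par G v0 v) + 1 = lev G v0 v := by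
  have h := exists_par hc hv
  unfold par
  rw [dif_pos h]
  exact h.choose_spec

theorem anc_self (v0 v : V) : anc G v0 v (lev G v0 v) = v := by
  unfold anc; simp

private theorem lev_iter (hc : G.Connected) {v0 v : V} (n : ℕ) (hn : n ≤ lev G v0 v) :
    lev G v0 ((par G v0)^[n] v) = lev G v0 v - n := by
  induction n with
  | zero => simp
  | succ n ih =>
    rw [Function.iterate_succ_apply']
    have h1 := ih (by omega)
    have h2 := par_spec hc (v0 := v0) (v := (par G v0)^[n] v) (by omega)
    omega

theorem lev_anc (hc : G.Connected) {v0 v : V} {i : ℕ} (hi : i ≤ lev G v0 v) :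
    lev G v0 (anc G v0 v i) = i := by
  unfold anc
  rw [lev_iter hc _ (by omega)]
  omega

theorem par_anc_succ (hc : G.Connected) {v0 v : V} {i : ℕ} (hi : i < lev G v0 v) :
    par G v0 (anc G v0 v (i + 1)) = anc G v0 v i := by
  unfold anc
  rw [← Function.iterate_succ_apply' (par G v0)]
  congr 1
  have : (lev G v0 v - (i + 1)).succ = lev G v0 v - i := by omega
  rw [this]

theorem adj_anc (hc : G.Connected) {v0 v : V} {i : ℕ} (hi : i < lev G v0 v) :
    G.Adj (anc G v0 v (i + 1)) (anc G v0 v i) := by
  rw [← par_anc_succ hc hi]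
  apply (par_spec hc _).1
  rw [lev_anc hc (by omega)]
  omega

theorem anc_zero (hc : G.Connected) (v0 v : V) : anc G v0 v 0 = v0 :=
  eq_root_of_lev hc (lev_anc hc (Nat.zero_le _))

theorem anc_anc (hc : G.Connected) {v0 v : V} {i j : ℕ} (hij : j ≤ i) (hi : i ≤ lev G v0 v) :
    anc G v0 (anc G v0 v i) j = anc G v0 v j := by
  have h0 : anc G v0 (anc G v0 v i) j =
      (par G v0)^[lev G v0 (anc G v0 v i) - j] ((par G v0)^[lev G v0 v - i] v) := rfl
  rw [h0, lev_anc hc hi, ← Function.iterate_add_apply]
  show (par G v0)^[i - j + (lev G v0 v - i)] v = (par G v0)^[lev G v0 v - j] v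
  congr 1
  have : i - j + (lev G v0 v - i) = lev G v0 v - j := by omega
  rw [this]

theorem dist_anc (hc : G.Connected) {v0 v : V} {i j : ℕ} (hij : j ≤ i) (hi : i ≤ lev G v0 v) :
    G.dist (anc G v0 v i) (anc G v0 v j) = i - j := by
  apply le_antisymm
  · induction i, hij using Nat.le_induction with
    | base => simp
    | succ i hji ih =>
      have h1 := ih (by omega)
      have h2 := hc.dist_triangle (u := anc G v0 v (i+1)) (v := anc G v0 v i) (w := anc G v0 v j)
      have h3 : G.dist (anc G v0 v (i+1)) (anc G v0 v i) = 1 :=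
        SimpleGraph.dist_eq_one_iff_adj.mpr (adj_anc hc (by omega))
      omega
  · have h1 := lev_le_add hc v0 (anc G v0 v i) (anc G v0 v j)
    rw [lev_anc hc hi, lev_anc hc (hij.trans hi)] at h1
    omega

theorem dist_self_anc (hc : G.Connected) {v0 v : V} {j : ℕ} (hj : j ≤ lev G v0 v) :
    G.dist v (anc G v0 v j) = lev G v0 v - j := by
  have := dist_anc hc (v0 := v0) (v := v) hj le_rfl
  rwa [anc_self] at this

/-- The vertical list `[anc z (lo+1), …, anc z hi]`. -/
noncomputable def vseg (G : SimpleGraph V) (v0 z : V) (lo hi : ℕ) : List V :=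
  (List.range (hi - lo)).map (fun t => anc G v0 z (lo + 1 + t))

theorem mem_vseg {v0 z : V} {lo hi : ℕ} {x : V} :
    x ∈ vseg G v0 z lo hi ↔ ∃ l, lo < l ∧ l ≤ hi ∧ x = anc G v0 z l := by
  unfold vseg
  rw [List.mem_map]
  constructor
  · rintro ⟨t, ht, rfl⟩
    rw [List.mem_range] at ht
    exact ⟨lo + 1 + t, by omega, by omega, rfl⟩
  · rintro ⟨l, h1, h2, rfl⟩
    refine ⟨l - (lo + 1), ?_, ?_⟩
    · rw [List.mem_range]; omega
    · have : lo + 1 + (l - (lo + 1)) = l := by omega
      rw [this]

theorem vseg_length (v0 z : V) (lo hi : ℕ) : (vseg G v0 z lo hi).length = hi - lo := by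
  unfold vseg; simp

theorem vseg_nodup (hc : G.Connected) {v0 z : V} {lo hi : ℕ} (hhi : hi ≤ lev G v0 z) :
    (vseg G v0 z lo hi).Nodup := by
  unfold vseg
  apply List.Nodup.map_on _ List.nodup_range
  intro s hs t ht h
  rw [List.mem_range] at hs ht
  have := congrArg (lev G v0) h
  rw [lev_anc hc (by omega), lev_anc hc (by omega)] at this
  omega

private theorem vseg_succ (v0 z : V) {lo hi : ℕ} (h : lo ≤ hi) :
    vseg G v0 z lo (hi + 1) = vseg G v0 z lo hi ++ [anc G v0 z (hi + 1)] := by
  unfold vseg
  have h1 : hi + 1 - lo = (hi - lo) + 1 := by omega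
  rw [h1, List.range_succ, List.map_append, List.map_singleton]
  have h2 : lo + 1 + (hi - lo) = hi + 1 := by omega
  rw [h2]

private theorem vseg_getLast? (v0 z : V) {lo hi : ℕ} (h : lo ≤ hi) :
    (anc G v0 z lo :: vseg G v0 z lo hi).getLast? = some (anc G v0 z hi) := by
  induction hi, h using Nat.le_induction with
  | base => simp [vseg]
  | succ hi h ih =>
    rw [vseg_succ v0 z h, ← List.cons_append, List.getLast?_append]
    simp

/-- last element -/
theorem vseg_getLast (v0 z : V) {lo hi : ℕ} (h : lo ≤ hi) :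
    (anc G v0 z lo :: vseg G v0 z lo hi).getLast (by simp) = anc G v0 z hi := by
  have h1 := vseg_getLast? (G := G) v0 z h
  rw [List.getLast?_eq_some_getLast (by simp)] at h1
  exact Option.some.inj h1

/-- `anc z lo, anc z (lo+1), …, anc z hi` is a chain. -/
theorem vseg_chain (hc : G.Connected) {v0 z : V} {lo hi : ℕ} (h : lo ≤ hi)
    (hhi : hi ≤ lev G v0 z) :
    List.IsChain G.Adj (anc G v0 z lo :: vseg G v0 z lo hi) := by
  induction hi, h using Nat.le_induction with
  | base => simp [vseg]
  | succ hi h ih =>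
    rw [vseg_succ v0 z h, ← List.cons_append, List.isChain_append]
    refine ⟨ih (by omega), by simp, ?_⟩
    intro x hx y hy
    simp only [List.head?_cons, Option.mem_def, Option.some.injEq] at hy
    rw [vseg_getLast? v0 z h] at hx
    simp only [Option.mem_def, Option.some.injEq] at hx
    subst hx; subst hy
    exact (adj_anc hc (by omega)).symm

end Pool.Agent.RBC
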