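import Pool.Agent.MP_dd54b8_co.L1

set_option autoImplicit false

/-! Task [RBC-L2]: upper connectivity and the first hit of a level. -/

namespace Pool.Agent.RBC

open SimpleGraph

variable {V : Type} {G : SimpleGraph V}

theorem up_refl {v0 v : V} {i : ℕ} (h : i ≤ lev G v0 v) : Up G v0 i v v :=
  ⟨Walk.nil, by intro x hx; simp at hx; subst hx; exact h⟩

theorem up_symm {v0 u v : V} {i : ℕ} (h : Up G v0 i u v) : Up G v0 i v u := by
  obtain ⟨w, hw⟩ := h
  refine ⟨w.reverse, ?_⟩
  intro x hx
  rw [Walk.support_reverse, List.mem_reverse] at hx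
  exact hw x hx

theorem up_trans {v0 u v w : V} {i : ℕ} (h : Up G v0 i u v) (h' : Up G v0 i v w) :
    Up G v0 i u w := by
  obtain ⟨p, hp⟩ := h
  obtain ⟨p', hp'⟩ := h'
  refine ⟨p.append p', ?_⟩
  intro x hx
  rw [Walk.mem_support_append_iff] at hx
  rcases hx with hx | hx
  · exact hp x hx
  · exact hp' x hx

theorem up_mono {v0 u v : V} {i j : ℕ} (hij : j ≤ i) (h : Up G v0 i u v) : Up G v0 j u v := by
  obtain ⟨w, hw⟩ := h
  exact ⟨w, fun x hx => hij.trans (hw x hx)⟩

theorem up_left {v0 u v : V} {i : ℕ} (h : Up G v0 i u v) : i ≤ lev G v0 u := by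
  obtain ⟨w, hw⟩ := h
  exact hw u w.start_mem_support

theorem up_right {v0 u v : V} {i : ℕ} (h : Up G v0 i u v) : i ≤ lev G v0 v := by
  obtain ⟨w, hw⟩ := h
  exact hw v w.end_mem_support

theorem up_adj {v0 u v : V} {i : ℕ} (h : G.Adj u v) (hu : i ≤ lev G v0 u) (hv : i ≤ lev G v0 v) :
    Up G v0 i u v := by
  refine ⟨Walk.cons h Walk.nil, ?_⟩
  intro x hx
  simp only [Walk.support_cons, Walk.support_nil, List.mem_cons, List.not_mem_nil, or_false] at hx
  rcases hx with rfl | rfl
  · exact hu
  · exact hv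

theorem up_anc (hc : G.Connected) {v0 v : V} {i j l : ℕ} (hl : l ≤ j) (hij : j ≤ i)
    (hi : i ≤ lev G v0 v) : Up G v0 l (anc G v0 v i) (anc G v0 v j) := by
  induction i, hij using Nat.le_induction with
  | base =>
    apply up_refl
    rw [lev_anc hc hi]
    exact hl
  | succ i hij ih =>
    refine up_trans (v := anc G v0 v i) ?_ (ih (by omega))
    refine up_adj (adj_anc hc (by omega)) ?_ ?_
    · rw [lev_anc hc hi]; omega
    · rw [lev_anc hc (by omega)]; omega

theorem up_self_anc (hc : G.Connected) {v0 v : V} {j l : ℕ} (hl : l ≤ j)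
    (hj : j ≤ lev G v0 v) : Up G v0 l v (anc G v0 v j) := by
  have := up_anc hc (v0 := v0) (v := v) hl hj le_rfl
  rwa [anc_self] at this

/-- Cutting a walk at the first vertex of level `i`. -/
private theorem cut_walk (hc : G.Connected) (v0 : V) {i : ℕ} {P : V → Prop} :
    ∀ {u v : V} (w : G.Walk u v), (∀ x ∈ w.support, P x) → i < lev G v0 u → lev G v0 v ≤ i →
    ∃ (y : V) (w' : G.Walk u y), lev G v0 y = i ∧ (∀ x ∈ w'.support, P x) ∧
      (∀ x ∈ w'.support, x ≠ y → i < lev G v0 x) := by
  intro u v w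
  induction w with
  | nil => intro _ h1 h2; omega
  | @cons a b c h p ih =>
    intro hP h1 h2
    have hab := lev_adj hc v0 h
    by_cases hb : i < lev G v0 b
    · obtain ⟨y, w', hy, hw', hw''⟩ := ih
        (fun x hx => hP x (by rw [Walk.support_cons]; exact List.mem_cons_of_mem _ hx)) hb h2
      refine ⟨y, Walk.cons h w', hy, ?_, ?_⟩
      · intro x hx
        rw [Walk.support_cons, List.mem_cons] at hx
        rcases hx with rfl | hx
        · exact hP _ (by simp)
        · exact hw' x hx
      · intro x hx hxy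
        rw [Walk.support_cons, List.mem_cons] at hx
        rcases hx with rfl | hx
        · exact h1
        · exact hw'' x hx hxy
    · have hb' : lev G v0 b = i := by omega
      refine ⟨b, Walk.cons h Walk.nil, hb', ?_, ?_⟩
      · intro x hx
        simp only [Walk.support_cons, Walk.support_nil, List.mem_cons, List.not_mem_nil,
          or_false] at hx
        rcases hx with rfl | rfl
        · exact hP _ (by simp)
        · exact hP _ (by rw [Walk.support_cons]; exact List.mem_cons_of_mem _ p.start_mem_support)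
      · intro x hx hxy
        simp only [Walk.support_cons, Walk.support_nil, List.mem_cons, List.not_mem_nil,
          or_false] at hx
        rcases hx with rfl | rfl
        · exact h1
        · exact absurd rfl hxy

section
variable [Fintype V]

/-- If `|S| < k`, `u, v0 ∉ S` and `i < lev u`, there is a path from `u` avoiding `S` to a vertex `y`
of level `i`, all of whose other vertices have level `> i`. -/
theorem first_hit {k : ℕ} (hk : KConn G k) {S : Finset V} (hS : S.card < k) {v0 u : V}
    (hc : G.Connected) (hu : u ∉ S) (h0 : v0 ∉ S) {i : ℕ} (hi : i < lev G v0 u) :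
    ∃ (y : V) (w : G.Walk u y), w.IsPath ∧ lev G v0 y = i ∧ (∀ x ∈ w.support, x ∉ S) ∧
      (∀ x ∈ w.support, x ≠ y → i < lev G v0 x) := by
  classical
  have hconn := hk.2 S hS
  have hu' : u ∈ ((↑S : Set V)ᶜ) := by simpa using hu
  have h0' : v0 ∈ ((↑S : Set V)ᶜ) := by simpa using h0
  obtain ⟨w⟩ := hconn.preconnected ⟨u, hu'⟩ ⟨v0, h0'⟩
  let f : G.induce ((↑S : Set V)ᶜ) →g G := (Embedding.induce ((↑S : Set V)ᶜ)).toHom
  have hsup : ∀ x ∈ (w.map f).support, x ∉ S := by
    intro x hx
    rw [Walk.support_map, List.mem_map] at hx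
    obtain ⟨y, _, rfl⟩ := hx
    intro hy
    exact y.2 (Finset.mem_coe.mpr hy)
  obtain ⟨y, w', hy, hw', hw''⟩ := cut_walk hc v0 (i := i) (P := fun x => x ∉ S) (w.map f) hsup
    hi (by show lev G v0 v0 ≤ i; rw [lev_root]; omega)
  refine ⟨y, w'.bypass, w'.bypass_isPath, hy, ?_, ?_⟩
  · intro x hx
    exact hw' x (w'.support_bypass_subset_support hx)
  · intro x hx
    exact hw'' x (w'.support_bypass_subset_support hx)

end

end Pool.Agent.RBC
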