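import Pool.Agent.MP_dd54b8_co.P0

set_option autoImplicit false

/-! Task [RBC-PA]: no far thin isolated arm, but a far vertex: a pendant path. -/

namespace Pool.Agent.RBC

open SimpleGraph

variable {V : Type} [Fintype V] {G : SimpleGraph V}

theorem step_PA (hc : G.Connected) {v0 : V} {k ρ R r C3 C Λ M : ℕ}
    {H Sp Se Bot : Finset V} {q ov : ℕ} (h : St G v0 k ρ R r H Sp Se Bot q ov)
    (hno : ¬ ∃ a, FarIso G v0 k ρ R C3 H a) {w : V} (hw : ∀ y ∈ H, C < G.dist w y)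
    (hr : r ≤ C3) (hΛ : Λ * (C3 + k * ρ + 1) + (C3 + k * ρ) < C) :
    Better G v0 k ρ R r Λ M Sp Se Bot ov := by
  classical
  let P : ℕ → Prop := fun l => ∃ y ∈ H, G.dist (anc G v0 w l) y ≤ C3 + k * ρ
  have hP0 : P 0 := by
    refine ⟨v0, h.root, ?_⟩
    rw [anc_zero hc]
    simp
  obtain ⟨i3, hi3, hPi3, hmax⟩ : ∃ i3, i3 ≤ lev G v0 w ∧ P i3 ∧
      ∀ l, i3 < l → l ≤ lev G v0 w → ¬ P l := by
    refine ⟨Nat.findGreatest P (lev G v0 w), Nat.findGreatest_le _, ?_, ?_⟩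
    · exact Nat.findGreatest_spec (P := P) (m := 0) (Nat.zero_le _) hP0
    · intro l h1 h2
      exact Nat.findGreatest_is_greatest h1 h2
  obtain ⟨y0, hy0, hd⟩ := hPi3
  have hlong : C < (lev G v0 w - i3) + (C3 + k * ρ) := by
    have h1 := hw y0 hy0
    have h2 : G.dist w y0 ≤ G.dist w (anc G v0 w i3) + G.dist (anc G v0 w i3) y0 :=
      hc.dist_triangle
    rw [dist_self_anc hc hi3] at h2
    omega
  have hfarD : ∀ l, i3 < l → l ≤ lev G v0 w → ∀ y ∈ H,
      C3 + k * ρ < G.dist (anc G v0 w l) y := by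
    intro l h1 h2 y hy
    by_contra hcon
    exact hmax l h1 h2 ⟨y, hy, by omega⟩
  obtain ⟨κ, -, -, hSt, hcard⟩ := add_pend hc h (z := w) (y0 := y0) (d := C3 + k * ρ)
    (lo := i3) (hi := lev G v0 w) hy0 hd hi3 le_rfl
    (by
      intro l h1 h2 y hy
      have := hfarD l h1 h2.le y hy
      omega)
    (by
      rintro l h1 h2 ⟨hiso, hk⟩
      apply hno
      refine ⟨anc G v0 w l, ?_, hiso, hk, ⟨w, ?_, ?_⟩, ?_⟩
      · rw [lev_anc hc h2.le]; omega
      · rw [lev_anc hc h2.le]; exact h2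
      · rw [lev_anc hc h2.le]
        exact up_symm (up_self_anc hc le_rfl h2.le)
      · intro x hx y hy
        have h3 := hfarD l h1 h2.le y hy
        have h4 := arm_dist_le hc hx hk.le
        have h5 : G.dist (anc G v0 w l) y ≤ G.dist (anc G v0 w l) x + G.dist x y :=
          hc.dist_triangle
        omega)
  refine ⟨_, _, _, _, _, _, hSt, ?_, ?_, ?_⟩
  · rw [hcard]
    omega
  · rw [hcard]
    have h6 : Λ * (ov + (C3 + k * ρ) + 1) = Λ * ov + Λ * (C3 + k * ρ + 1) := by ring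
    rw [h6]
    omega
  · rw [hcard]
    omega

end Pool.Agent.RBC
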