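import Pool.Agent.MP_dd54b8_co.B0
import Pool.Agent.MP_dd54b8_co.B2
import Pool.Agent.MP_dd54b8_co.B3
import Pool.Agent.MP_dd54b8_co.PA

set_option autoImplicit false

/-! One step. -/

namespace Pool.Agent.RBC

open SimpleGraph

variable {V : Type} [Fintype V] {G : SimpleGraph V}

theorem step {k : ℕ} (hk : KConn G k) (hk0 : 0 < k) (hc : G.Connected) {v0 : V}
    {ρ R r C3 C Λ M : ℕ} {H Sp Se Bot : Finset V} {q ov : ℕ}
    (h : St G v0 k ρ R r H Sp Se Bot q ov)
    {w : V} (hw : ∀ y ∈ H, C < G.dist w y)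
    (hρR : ρ ≤ R) (hr2 : 2 ≤ r) (hkr : 2 * k * ρ ≤ r) (hR : 3 * r ≤ R) (hC : 4 * r ≤ C3)
    (hA : Λ * (C3 + k * ρ + 1) + (C3 + k * ρ) < C)
    (h0 : Λ * (3 * r + 1) + 3 * r ≤ 2 * C3 + 1) (h0M : M + 3 * r ≤ 2 * C3 + 1)
    (h2 : Λ * (3 * r + 2) + r ≤ C3 + 1) (h2M : 2 * M + r ≤ C3 + 1)
    (h3 : Λ * (2 * C3 + 2 * (k * ρ) + 4 * r + 7) + r ≤ R + 1) (h3M : 2 * M + r ≤ R + 1) :
    Better G v0 k ρ R r Λ M Sp Se Bot ov := by
  classical
  by_cases hfar : ∃ a, FarIso G v0 k ρ R C3 H a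
  swap
  · exact step_PA hc h hfar hw (by omega) hA
  -- a minimal level
  obtain ⟨a0, ha0⟩ := hfar
  have hex : ∃ m, ∃ a, FarIso G v0 k ρ R C3 H a ∧ lev G v0 a = m := ⟨_, a0, ha0, rfl⟩
  obtain ⟨a, ha, hai⟩ := Nat.find_spec hex
  have hmin : ∀ b, FarIso G v0 k ρ R C3 H b → lev G v0 a ≤ lev G v0 b := by
    intro b hb
    rw [hai]
    exact Nat.find_min' hex ⟨b, hb, rfl⟩
  obtain ⟨h1, hiso, hthin, hup, hfarH⟩ := ha
  obtain ⟨z, z', hadj, huz, huz', hza, hz'a⟩ := exists_split hk hc h1 hthin hup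
  set i := lev G v0 a with hi
  have hiz : i ≤ lev G v0 z := up_right huz
  have hiz' : i ≤ lev G v0 z' := up_right huz'
  have hRd : R < G.dist (anc G v0 z i) (anc G v0 z' i) := by
    refine iso_far hc hρR hiso hza (by rw [lev_anc hc hiz', hi]) ?_ hz'a
    exact up_trans huz' (up_self_anc hc le_rfl hiz')
  obtain ⟨h0', hih, hhz, hhz', htop, hap, hlong⟩ :=
    exists_top hc hr2 (by omega) hadj hiz hiz' hRd
  have hfarA : ∀ y ∈ H, C3 < G.dist (anc G v0 z i) y := fun y hy => hfarH _ hza y hy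
  -- b1
  let P : ℕ → Prop := fun l => ∃ y ∈ H, G.dist (anc G v0 z l) y ≤ r
  have hP0 : P 0 := ⟨v0, h.root, by rw [anc_zero hc]; simp⟩
  set b1 := Nat.findGreatest P i with hb1
  have hPb1 : P b1 := Nat.findGreatest_spec (Nat.zero_le _) hP0
  have hb1i : b1 ≤ i := Nat.findGreatest_le _
  have hPi : ¬ P i := by
    rintro ⟨y, hy, hd⟩
    have := hfarA y hy
    omega
  have hb1lt : b1 < i := by
    rcases Nat.lt_or_ge b1 i with hh | hh
    · exact hh
    · have : b1 = i := le_antisymm hb1i hh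
      rw [this] at hPb1
      exact absurd hPb1 hPi
  have hclear : ∀ l, b1 < l → l ≤ i → ∀ y ∈ H, r < G.dist (anc G v0 z l) y := by
    intro l hl hli y hy
    by_contra hcon
    have hPl : P l := ⟨y, hy, by omega⟩
    have := Nat.le_findGreatest hli hPl
    omega
  have hL : Legs G v0 r R C3 H z z' i h0' b1 := by
    refine ⟨hih, hhz, hhz', htop, hap, hlong, hb1lt, hPb1, hclear, ?_, hfarA⟩
    obtain ⟨y, hy, hd⟩ := hPb1
    have h3' := hfarA y hy
    have h4' := hc.dist_triangle (u := anc G v0 z i) (v := anc G v0 z b1) (w := y)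
    have h5' := dist_anc hc hb1i (hiz : i ≤ lev G v0 z)
    omega
  by_cases hcase : ∃ l, i < l ∧ l ≤ h0' ∧ ∃ y ∈ H, G.dist (anc G v0 z l) y ≤ 2 * r
  · exact step_B0 hc h hL hcase hC h0 h0M
  have hcl : ∀ l, i < l → l ≤ h0' → ∀ y ∈ H, 2 * r < G.dist (anc G v0 z l) y := by
    intro l hl hl' y hy
    by_contra hcon
    exact hcase ⟨l, hl, hl', y, hy, by omega⟩
  -- j
  let Q : ℕ → Prop := fun l => (∃ y ∈ H, G.dist (anc G v0 z' l) y ≤ r) ∨
    (l < i ∧ b1 < l ∧ G.dist (anc G v0 z' l) (anc G v0 z l) ≤ r)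
  have hQ0 : Q 0 := Or.inl ⟨v0, h.root, by rw [anc_zero hc]; simp⟩
  set j := Nat.findGreatest Q (h0' - 1) with hj
  have hQj : Q j := Nat.findGreatest_spec (Nat.zero_le _) hQ0
  have hjle : j ≤ h0' - 1 := Nat.findGreatest_le _
  have hjlt : j < h0' := by omega
  have hQn : ∀ l, j < l → l < h0' → ¬ Q l := by
    intro l hl hl' hQ
    have := Nat.le_findGreatest (P := Q) (show l ≤ h0' - 1 by omega) hQ
    omega
  have hjc : ∀ l, j < l → l < h0' → ∀ y ∈ H, r < G.dist (anc G v0 z' l) y := by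
    intro l hl hl' y hy
    by_contra hcon
    exact hQn l hl hl' (Or.inl ⟨y, hy, by omega⟩)
  have hja : ∀ l, j < l → b1 < l → l < i → r < G.dist (anc G v0 z' l) (anc G v0 z l) := by
    intro l hl hbl hli
    by_contra hcon
    exact hQn l hl (by omega) (Or.inr ⟨hli, hbl, by omega⟩)
  rcases hQj with hjH | ⟨hji, hbj, hjj⟩
  · exact step_B2 hc h hL hcl hjlt hjH hjc hja hR hC h2 h2M
  · refine step_B3 hc h hL hcl hbj hji hjj hjc (fun l hl hli => hja l hl (by omega) hli) ?_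
      hR hC h3 h3M
    rintro l hlj hlfar ⟨hliso, hlthin⟩
    have hlz : l ≤ lev G v0 z := by omega
    have hll : lev G v0 (anc G v0 z l) = l := lev_anc hc hlz
    have hl1 : 1 ≤ l := by
      rcases Nat.eq_zero_or_pos l with rfl | hp
      · have := hlfar v0 h.root
        rw [anc_zero hc] at this
        simp at this
      · exact hp
    have hF : FarIso G v0 k ρ R C3 H (anc G v0 z l) := by
      refine ⟨by rw [hll]; exact hl1, hliso, hlthin, ⟨z, by rw [hll]; omega, ?_⟩, ?_⟩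
      · rw [hll]; exact up_symm (up_self_anc hc le_rfl hlz)
      · intro x hx y hy
        have e1 := hlfar y hy
        have e2 := arm_dist_le hc hx (le_of_lt hlthin)
        have e3 := hc.dist_triangle (u := anc G v0 z l) (v := x) (w := y)
        omega
    have := hmin _ hF
    rw [hll] at this
    omega

end Pool.Agent.RBC
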