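import Pool.Agent.MP_dd54b8_co.A1

set_option autoImplicit false

/-! Task [RBC-T2]: overlapping escape sets. -/

namespace Pool.Agent.RBC

open SimpleGraph

variable {V : Type} [Fintype V] {G : SimpleGraph V}

omit [Fintype V] in
/-- The last vertex of level `≤ m` of a walk that ends at level `≥ m`. -/
private theorem last_cross (hc : G.Connected) (v0 : V) (m : ℕ) {u x : V} (w : G.Walk u x) :
    (∃ y ∈ w.support, lev G v0 y ≤ m) → m ≤ lev G v0 x →
      ∃ y ∈ w.support, lev G v0 y = m ∧ ∃ p : G.Walk y x, p.length ≤ w.length ∧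
        ∀ z ∈ p.support, m ≤ lev G v0 z := by
  induction w with
  | nil =>
    rintro ⟨y, hy, hym⟩ hx
    simp only [Walk.support_nil, List.mem_singleton] at hy
    subst hy
    exact ⟨y, by simp, le_antisymm hym hx, Walk.nil, le_rfl, by simpa using hx⟩
  | @cons u v x h p ih =>
    rintro ⟨y, hy, hym⟩ hx
    by_cases hex : ∃ y ∈ p.support, lev G v0 y ≤ m
    · obtain ⟨y', hy', hl, q, hq, hqs⟩ := ih hex hx
      refine ⟨y', ?_, hl, q, ?_, hqs⟩
      · rw [Walk.support_cons]; exact List.mem_cons_of_mem _ hy'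
      · rw [Walk.length_cons]; omega
    · push Not at hex
      have hyu : y = u := by
        rw [Walk.support_cons] at hy
        rcases List.mem_cons.mp hy with h' | h'
        · exact h'
        · exact absurd hym (by have := hex y h'; omega)
      subst hyu
      have hv : m < lev G v0 v := hex v p.start_mem_support
      have h1 := lev_adj hc v0 h.symm
      have hyl : lev G v0 y = m := by omega
      refine ⟨y, by simp, hyl, Walk.cons h p, le_rfl, ?_⟩
      intro z hz
      rw [Walk.support_cons] at hz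
      rcases List.mem_cons.mp hz with h' | h'
      · rw [h', hyl]
      · exact (hex z h').le

omit [Fintype V] in
private theorem up_of_walk {v0 : V} {i : ℕ} {u x : V} (w : G.Walk u x)
    (h : ∀ y ∈ w.support, i ≤ lev G v0 y) : Up G v0 i u x := ⟨w, h⟩

/-- If `x` is in the escape sets of `(a, b)` and of `(a', b')` with `lev a ≤ lev a'` then `a` is an
ancestor of `a'` and `a'` is lower than `b`. -/
theorem escape_overlap {k ρ R r N : ℕ} (hc : G.Connected) (hρR : ρ ≤ R) (hkr : k * ρ ≤ r)
    (hr : 2 ≤ r) (hR : 4 * N + 4 ≤ R) {v0 : V} {Se : Finset V}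
    (hsep : ∀ x ∈ Se, ∀ y ∈ Se, lev G v0 x = lev G v0 y → x ≠ y → r < G.dist x y)
    {a b a' b' x : V}
    (ha : (arm G v0 ρ a).card < k) (hia : Iso G v0 ρ R a)
    (hb : (arm G v0 ρ b).card < k) (hib : Iso G v0 ρ R b)
    (hab : lev G v0 a + 2 ≤ lev G v0 b) (hanc : anc G v0 b (lev G v0 a) = a)
    (hchain : ∀ l, lev G v0 a ≤ l → l ≤ lev G v0 b → anc G v0 b l ∈ Se)
    (hab' : lev G v0 a' + 2 ≤ lev G v0 b') (hanc' : anc G v0 b' (lev G v0 a') = a')
    (hdeep : ∀ l, l ≤ lev G v0 a' → lev G v0 a' ≤ l + N → anc G v0 a' l ∈ Se)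
    (hle : lev G v0 a ≤ lev G v0 a')
    (w : G.Walk (anc G v0 b (lev G v0 a + 1)) x) (hw : w.length < N)
    (hwy : ∀ y ∈ w.support, lev G v0 a < lev G v0 y ∧ y ∉ arm G v0 ρ b)
    (w' : G.Walk (anc G v0 b' (lev G v0 a' + 1)) x) (hw' : w'.length < N)
    (hwy' : ∀ y ∈ w'.support, lev G v0 a' < lev G v0 y) :
    anc G v0 a' (lev G v0 a) = a ∧ lev G v0 a' < lev G v0 b := by
  classical
  have hx0 : lev G v0 (anc G v0 b (lev G v0 a + 1)) = lev G v0 a + 1 := lev_anc hc (by omega)
  have hx0' : lev G v0 (anc G v0 b' (lev G v0 a' + 1)) = lev G v0 a' + 1 := lev_anc hc (by omega)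
  have hxa' : lev G v0 a' < lev G v0 x := hwy' x w'.end_mem_support
  have hdx : G.dist x (anc G v0 b (lev G v0 a + 1)) ≤ w.length := by
    rw [SimpleGraph.dist_comm]; exact SimpleGraph.dist_le w
  have hlx := lev_le_add hc v0 x (anc G v0 b (lev G v0 a + 1))
  have hδ : lev G v0 a' + 1 ≤ lev G v0 a + N := by omega
  -- adjacency
  have hadj : G.Adj (anc G v0 b (lev G v0 a + 1)) a := by
    have := adj_anc hc (v0 := v0) (v := b) (i := lev G v0 a) (by omega)
    rwa [hanc] at this
  have hadj' : G.Adj (anc G v0 b' (lev G v0 a' + 1)) a' := by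
    have := adj_anc hc (v0 := v0) (v := b') (i := lev G v0 a') (by omega)
    rwa [hanc'] at this
  -- Up and dist : from x to a', then down
  have hUxa' : Up G v0 (lev G v0 a') x a' := by
    refine up_trans (up_symm (up_of_walk w' fun y hy => (hwy' y hy).le)) ?_
    exact up_adj hadj' (by omega) le_rfl
  have hdxa' : G.dist x a' ≤ N := by
    have h1 : G.dist x (anc G v0 b' (lev G v0 a' + 1)) ≤ w'.length := by
      rw [SimpleGraph.dist_comm]; exact SimpleGraph.dist_le w'
    have h2 : G.dist (anc G v0 b' (lev G v0 a' + 1)) a' = 1 := SimpleGraph.dist_eq_one_iff_adj.mpr hadj'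
    have h3 := hc.dist_triangle (u := x) (v := anc G v0 b' (lev G v0 a' + 1)) (w := a')
    omega
  have hkey : ∀ l, lev G v0 a ≤ l → l ≤ lev G v0 a' →
      Up G v0 l x (anc G v0 a' l) ∧ G.dist x (anc G v0 a' l) ≤ N + (lev G v0 a' - l) := by
    intro l hl hl'
    refine ⟨up_trans (up_mono hl' hUxa') (up_self_anc hc le_rfl hl'), ?_⟩
    have h1 := dist_self_anc hc (v0 := v0) (v := a') (j := l) hl'
    have h3 := hc.dist_triangle (u := x) (v := a') (w := anc G v0 a' l)
    omega
  -- (1)
  have hca : anc G v0 a' (lev G v0 a) = a := by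
    by_contra hne
    have haSe : a ∈ Se := by
      have := hchain (lev G v0 a) le_rfl (by omega)
      rwa [hanc] at this
    have hcSe : anc G v0 a' (lev G v0 a) ∈ Se := hdeep _ hle (by omega)
    have hlc : lev G v0 (anc G v0 a' (lev G v0 a)) = lev G v0 a := lev_anc hc hle
    obtain ⟨hU, hD⟩ := hkey (lev G v0 a) le_rfl hle
    have hUa : Up G v0 (lev G v0 a) a (anc G v0 a' (lev G v0 a)) := by
      refine up_trans (up_adj hadj.symm le_rfl (by omega)) (up_trans ?_ hU)
      exact up_of_walk w fun y hy => (hwy y hy).1.le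
    have hDa : G.dist a (anc G v0 a' (lev G v0 a)) ≤ R := by
      have h1 : G.dist a (anc G v0 b (lev G v0 a + 1)) = 1 :=
        SimpleGraph.dist_eq_one_iff_adj.mpr hadj.symm
      have h2 := hc.dist_triangle (u := a) (v := anc G v0 b (lev G v0 a + 1)) (w := x)
      have h3 := hc.dist_triangle (u := a) (v := x) (w := anc G v0 a' (lev G v0 a))
      have h4 : G.dist (anc G v0 b (lev G v0 a + 1)) x ≤ w.length := SimpleGraph.dist_le w
      omega
    have hmem : anc G v0 a' (lev G v0 a) ∈ arm G v0 R a := mem_arm_of_close hlc hUa hDa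
    rw [hia] at hmem
    have hd := arm_dist_le hc hmem ha.le
    have hs := hsep a haSe _ hcSe hlc.symm (Ne.symm hne)
    omega
  refine ⟨hca, ?_⟩
  by_contra hnot
  push Not at hnot
  -- the two chains agree
  have hag : ∀ t, lev G v0 a + t ≤ lev G v0 b →
      anc G v0 a' (lev G v0 a + t) = anc G v0 b (lev G v0 a + t) := by
    intro t
    induction t with
    | zero => intro _; rw [Nat.add_zero, hca, hanc]
    | succ t ih =>
      intro ht
      have ih' := ih (by omega)
      by_contra hne
      have h1 : anc G v0 b (lev G v0 a + (t + 1)) ∈ Se := hchain _ (by omega) ht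
      have h2 : anc G v0 a' (lev G v0 a + (t + 1)) ∈ Se := hdeep _ (by omega) (by omega)
      have l1 : lev G v0 (anc G v0 b (lev G v0 a + (t + 1))) = lev G v0 a + (t + 1) :=
        lev_anc hc ht
      have l2 : lev G v0 (anc G v0 a' (lev G v0 a + (t + 1))) = lev G v0 a + (t + 1) :=
        lev_anc hc (by omega)
      have hs := hsep _ h2 _ h1 (by rw [l1, l2]) hne
      have e1 : G.Adj (anc G v0 b (lev G v0 a + (t + 1))) (anc G v0 b (lev G v0 a + t)) :=
        adj_anc hc (v0 := v0) (v := b) (i := lev G v0 a + t) (by omega)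
      have e2 : G.Adj (anc G v0 a' (lev G v0 a + (t + 1))) (anc G v0 a' (lev G v0 a + t)) :=
        adj_anc hc (v0 := v0) (v := a') (i := lev G v0 a + t) (by omega)
      rw [ih'] at e2
      have d1 := SimpleGraph.dist_eq_one_iff_adj.mpr e1.symm
      have d2 := SimpleGraph.dist_eq_one_iff_adj.mpr e2
      have d3 := hc.dist_triangle (u := anc G v0 a' (lev G v0 a + (t + 1)))
        (v := anc G v0 b (lev G v0 a + t)) (w := anc G v0 b (lev G v0 a + (t + 1)))
      omega
  have hb' : anc G v0 a' (lev G v0 b) = b := by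
    have := hag (lev G v0 b - lev G v0 a) (by omega)
    rwa [show lev G v0 a + (lev G v0 b - lev G v0 a) = lev G v0 b by omega, anc_self] at this
  obtain ⟨y, hy, hyl, p, hp, hps⟩ := last_cross hc v0 (lev G v0 b) w
    ⟨_, w.start_mem_support, by omega⟩ (by omega)
  obtain ⟨hU, hD⟩ := hkey (lev G v0 b) (by omega) hnot
  rw [hb'] at hU hD
  have hUb : Up G v0 (lev G v0 b) b y := up_trans (up_symm hU) (up_symm (up_of_walk p hps))
  have hDb : G.dist b y ≤ R := by
    have h1 : G.dist y x ≤ p.length := SimpleGraph.dist_le p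
    have h2 := hc.dist_triangle (u := b) (v := x) (w := y)
    rw [SimpleGraph.dist_comm (u := b) (v := x), SimpleGraph.dist_comm (u := x) (v := y)] at h2
    omega
  have hmem : y ∈ arm G v0 R b := mem_arm_of_close hyl hUb hDb
  rw [hib] at hmem
  exact (hwy y hy).2 hmem

end Pool.Agent.RBC
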