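import Pool.Agent.MP_dd54b8_co.T1
import Pool.Agent.MP_dd54b8_co.T2

set_option autoImplicit false

/-! Task [RBC-T3]: few strand vertices in very thin arms. -/

namespace Pool.Agent.RBC

open SimpleGraph

variable {V : Type} [Fintype V] {G : SimpleGraph V}

omit [Fintype V] in
private theorem t3_agree (hc : G.Connected) {r : ℕ} (hr : 2 ≤ r) {v0 : V} {Se : Finset V}
    (hsep : ∀ x ∈ Se, ∀ y ∈ Se, lev G v0 x = lev G v0 y → x ≠ y → r < G.dist x y)
    {x y : V} {l m : ℕ} (hlm : l ≤ m) (hmx : m ≤ lev G v0 x) (hmy : m ≤ lev G v0 y)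
    (hl : anc G v0 x l = anc G v0 y l)
    (hx : ∀ l', l ≤ l' → l' ≤ m → anc G v0 x l' ∈ Se)
    (hy : ∀ l', l ≤ l' → l' ≤ m → anc G v0 y l' ∈ Se) :
    anc G v0 x m = anc G v0 y m := by
  induction m, hlm using Nat.le_induction with
  | base => exact hl
  | succ m hlm ih =>
    have ih' := ih (by omega) (by omega) (fun l' h1 h2 => hx l' h1 (by omega))
      (fun l' h1 h2 => hy l' h1 (by omega))
    by_contra hne
    have h1 := hsep _ (hx (m+1) (by omega) le_rfl) _ (hy (m+1) (by omega) le_rfl)
      (by rw [lev_anc hc hmx, lev_anc hc hmy]) hne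
    have h2 := adj_anc hc (show m < lev G v0 x by omega)
    have h3 := adj_anc hc (show m < lev G v0 y by omega)
    rw [← ih'] at h3
    have h4 := SimpleGraph.dist_le (Walk.cons h2 (Walk.cons h3.symm Walk.nil))
    simp only [Walk.length_cons, Walk.length_nil] at h4
    omega

omit [Fintype V] in
private theorem t3_bot (hc : G.Connected) {v0 : V} {Se Bot : Finset V}
    (hbot : ∀ x ∈ Se, x ∈ Bot ∨ (0 < lev G v0 x ∧ par G v0 x ∈ Se)) (n : ℕ) :
    ∀ a ∈ Se, lev G v0 a = n → ∃ l, l ≤ lev G v0 a ∧ anc G v0 a l ∈ Bot ∧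
      ∀ l', l ≤ l' → l' ≤ lev G v0 a → anc G v0 a l' ∈ Se := by
  induction n with
  | zero =>
    intro a ha h0
    rcases hbot a ha with h | ⟨h, _⟩
    · refine ⟨lev G v0 a, le_rfl, by rw [anc_self]; exact h, ?_⟩
      intro l' h1 h2
      have : l' = lev G v0 a := le_antisymm h2 h1
      rw [this, anc_self]; exact ha
    · omega
  | succ n ih =>
    intro a ha hn
    rcases hbot a ha with h | ⟨h, hp⟩
    · refine ⟨lev G v0 a, le_rfl, by rw [anc_self]; exact h, ?_⟩
      intro l' h1 h2
      have : l' = lev G v0 a := le_antisymm h2 h1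
      rw [this, anc_self]; exact ha
    · have hpa : par G v0 a = anc G v0 a n := by
        have := par_anc_succ (G := G) hc (v0 := v0) (v := a) (i := n) (by omega)
        rw [← hn, anc_self] at this
        exact this
      have hlp : lev G v0 (par G v0 a) = n := by
        rw [hpa]; exact lev_anc hc (by omega)
      obtain ⟨l, h1, h2, h3⟩ := ih _ hp hlp
      have key : ∀ j, j ≤ n → anc G v0 (par G v0 a) j = anc G v0 a j := by
        intro j hj
        rw [hpa]
        exact anc_anc hc hj (by omega)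
      refine ⟨l, by omega, by rw [← key l (by omega)]; exact h2, ?_⟩
      intro l' h4 h5
      rcases Nat.lt_or_ge l' (n+1) with h6 | h6
      · rw [← key l' (by omega)]
        exact h3 l' h4 (by omega)
      · have : l' = lev G v0 a := by omega
        rw [this, anc_self]; exact ha

open Classical in
theorem thin2_count {k ρ R r N : ℕ} (hk : KConn G k) (hc : G.Connected) (hρR : ρ ≤ R)
    (hkr : k * ρ ≤ r) (hr : 2 ≤ r) (hN : 1 ≤ N) (hR : 4 * N + 4 ≤ R) {v0 : V}
    {Se Bot : Finset V}
    (hsep : ∀ x ∈ Se, ∀ y ∈ Se, lev G v0 x = lev G v0 y → x ≠ y → r < G.dist x y)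
    (hbot : ∀ x ∈ Se, x ∈ Bot ∨ (0 < lev G v0 x ∧ par G v0 x ∈ Se)) :
    N * (Se.filter (fun x => 2 * (arm G v0 ρ x).card < k ∧ Iso G v0 ρ R x)).card ≤
      N * ((N + 2) * Bot.card) + 2 * Fintype.card V := by
  set S2 := Se.filter (fun x => 2 * (arm G v0 ρ x).card < k ∧ Iso G v0 ρ R x) with hS2
  -- bottoms
  have hb : ∀ a : V, ∃ l, a ∈ Se → l ≤ lev G v0 a ∧ anc G v0 a l ∈ Bot ∧
      ∀ l', l ≤ l' → l' ≤ lev G v0 a → anc G v0 a l' ∈ Se := by
    intro a
    by_cases ha : a ∈ Se
    · obtain ⟨l, h⟩ := t3_bot hc hbot _ a ha rfl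
      exact ⟨l, fun _ => h⟩
    · exact ⟨0, fun h => absurd h ha⟩
  choose lb hlb using hb
  -- two elements with the same bottom
  have hsame : ∀ a ∈ Se, ∀ a' ∈ Se, anc G v0 a (lb a) = anc G v0 a' (lb a') →
      lev G v0 a ≤ lev G v0 a' → lb a = lb a' ∧ anc G v0 a' (lev G v0 a) = a := by
    intro a ha a' ha' he hle
    obtain ⟨h1, -, h3⟩ := hlb a ha
    obtain ⟨h1', -, h3'⟩ := hlb a' ha'
    have hll : lb a = lb a' := by
      have := congrArg (lev G v0) he
      rwa [lev_anc hc h1, lev_anc hc h1'] at this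
    refine ⟨hll, ?_⟩
    have := t3_agree hc hr hsep (x := a) (y := a') (l := lb a) (m := lev G v0 a) h1 le_rfl hle
      (by rw [he, hll]) (fun l' h4 h5 => h3 l' h4 h5)
      (fun l' h4 h5 => h3' l' (by omega) (by omega))
    rw [← this, anc_self]
  -- cand
  let cand : V → Finset V := fun a => S2.filter (fun b => lev G v0 a + 2 ≤ lev G v0 b ∧
    anc G v0 b (lev G v0 a) = a ∧ ∀ l, lev G v0 a ≤ l → l ≤ lev G v0 b → anc G v0 b l ∈ Se)
  let F1 := S2.filter (fun a => lev G v0 a < lb a + N)
  let F2 := S2.filter (fun a => cand a = ∅)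
  let Gd := S2.filter (fun a => ¬ (lev G v0 a < lb a + N) ∧ cand a ≠ ∅)
  have hmemS2 : ∀ a, a ∈ S2 → a ∈ Se ∧ 2 * (arm G v0 ρ a).card < k ∧ Iso G v0 ρ R a := by
    intro a ha
    rw [hS2, Finset.mem_filter] at ha
    exact ha
  have hF1 : F1.card ≤ N * Bot.card := by
    have : F1.card ≤ (Bot ×ˢ Finset.range N).card := by
      apply Finset.card_le_card_of_injOn (fun a => (anc G v0 a (lb a), lev G v0 a - lb a))
      · intro a ha
        have ha1 := (Finset.mem_filter.mp (Finset.mem_coe.mp ha))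
        obtain ⟨h1, h2, h3⟩ := hlb a (hmemS2 a ha1.1).1
        have h4 := ha1.2
        simp only [Finset.coe_product, Set.mem_prod, Finset.mem_coe, Finset.mem_range]
        exact ⟨h2, by omega⟩
      · intro a ha a' ha' he
        have ha1 := (Finset.mem_filter.mp (Finset.mem_coe.mp ha))
        have ha1' := (Finset.mem_filter.mp (Finset.mem_coe.mp ha'))
        have hs := (hmemS2 a ha1.1).1
        have hs' := (hmemS2 a' ha1'.1).1
        simp only [Prod.mk.injEq] at he
        obtain ⟨he1, he2⟩ := he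
        have q1 := (hlb a hs).1
        have q2 := (hlb a' hs').1
        rcases le_total (lev G v0 a) (lev G v0 a') with hle | hle
        · obtain ⟨h1, h2⟩ := hsame a hs a' hs' he1 hle
          have : lev G v0 a = lev G v0 a' := by omega
          rw [this, anc_self] at h2
          exact h2.symm
        · obtain ⟨h1, h2⟩ := hsame a' hs' a hs he1.symm hle
          have : lev G v0 a' = lev G v0 a := by omega
          rw [this, anc_self] at h2
          exact h2
    rw [Finset.card_product, Finset.card_range] at this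
    linarith [this, Nat.mul_comm Bot.card N]
  have hF2 : F2.card ≤ 2 * Bot.card := by
    have : F2.card ≤ (Bot ×ˢ Finset.range 2).card := by
      apply Finset.card_le_card_of_injOn (fun a => (anc G v0 a (lb a), lev G v0 a % 2))
      · intro a ha
        have ha1 := (Finset.mem_filter.mp (Finset.mem_coe.mp ha))
        obtain ⟨h1, h2, h3⟩ := hlb a (hmemS2 a ha1.1).1
        simp only [Finset.coe_product, Set.mem_prod, Finset.mem_coe, Finset.mem_range]
        exact ⟨h2, by omega⟩
      · have main : ∀ a ∈ F2, ∀ a' ∈ F2, anc G v0 a (lb a) = anc G v0 a' (lb a') →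
            lev G v0 a % 2 = lev G v0 a' % 2 → lev G v0 a ≤ lev G v0 a' → a = a' := by
          intro a ha a' ha' he1 he2 hle
          have ha1 := (Finset.mem_filter.mp ha)
          have ha1' := (Finset.mem_filter.mp ha')
          have hs := (hmemS2 a ha1.1).1
          have hs' := (hmemS2 a' ha1'.1).1
          obtain ⟨h1, h2⟩ := hsame a hs a' hs' he1 hle
          rcases Nat.lt_or_ge (lev G v0 a) (lev G v0 a') with hlt | hge
          · exfalso
            have hc' : a' ∈ cand a := by
              rw [Finset.mem_filter]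
              refine ⟨ha1'.1, by omega, h2, ?_⟩
              intro l h4 h5
              exact (hlb a' hs').2.2 l (by have := (hlb a hs).1; omega) h5
            rw [ha1.2] at hc'
            simp at hc'
          · have : lev G v0 a = lev G v0 a' := by omega
            rw [this, anc_self] at h2
            exact h2.symm
        intro a ha a' ha' he
        simp only [Prod.mk.injEq] at he
        obtain ⟨he1, he2⟩ := he
        rcases le_total (lev G v0 a) (lev G v0 a') with hle | hle
        · exact main a (Finset.mem_coe.mp ha) a' (Finset.mem_coe.mp ha') he1 he2 hle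
        · exact (main a' (Finset.mem_coe.mp ha') a (Finset.mem_coe.mp ha) he1.symm he2.symm hle).symm
    rw [Finset.card_product, Finset.card_range] at this
    linarith [this, Nat.mul_comm Bot.card 2]
  -- deep
  have hdeep : ∀ a ∈ Gd, ∀ l, l ≤ lev G v0 a → lev G v0 a ≤ l + N → anc G v0 a l ∈ Se := by
    intro a ha l h1 h2
    have ha1 := Finset.mem_filter.mp ha
    exact (hlb a (hmemS2 a ha1.1).1).2.2 l (by have := ha1.2.1; omega) h1
  -- the least candidate
  have hbex : ∀ a : V, ∃ b : V, a ∈ Gd → b ∈ cand a ∧ ∀ b' ∈ cand a, lev G v0 b ≤ lev G v0 b' := by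
    intro a
    by_cases ha : a ∈ Gd
    · have ha1 := Finset.mem_filter.mp ha
      obtain ⟨b, hb1, hb2⟩ := Finset.exists_min_image (cand a) (lev G v0)
        (Finset.nonempty_iff_ne_empty.mpr ha1.2.2)
      exact ⟨b, fun _ => ⟨hb1, hb2⟩⟩
    · exact ⟨a, fun h => absurd h ha⟩
  choose bb hbb using hbex
  have hXex : ∀ a : V, ∃ X : Finset V, a ∈ Gd → X.card = N ∧ ∀ x ∈ X,
      ∃ w : G.Walk (anc G v0 (bb a) (lev G v0 a + 1)) x,
      w.length < N ∧ ∀ y ∈ w.support, lev G v0 a < lev G v0 y ∧ y ∉ arm G v0 ρ (bb a) := by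
    intro a
    by_cases ha : a ∈ Gd
    · have ha1 := Finset.mem_filter.mp ha
      have hs := hmemS2 a ha1.1
      have hb1 := Finset.mem_filter.mp (hbb a ha).1
      have hsb := hmemS2 _ hb1.1
      have hge : 1 ≤ lev G v0 a := by
        have := ha1.2.1
        omega
      obtain ⟨X, hX⟩ := escape (N := N) hk hc hρR (by omega) hs.2.1 hsb.2.1 hs.2.2 hge hb1.2.1
        hb1.2.2.1
      exact ⟨X, fun _ => hX⟩
    · exact ⟨∅, fun h => absurd h ha⟩
  choose X hX using hXex
  -- overlap of two
  have hover : ∀ a ∈ Gd, ∀ a' ∈ Gd, ∀ x, x ∈ X a → x ∈ X a' → lev G v0 a ≤ lev G v0 a' →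
      anc G v0 a' (lev G v0 a) = a ∧ lev G v0 a' < lev G v0 (bb a) ∧
        lev G v0 a' < lev G v0 a + N := by
    intro a ha a' ha' x hx hx' hle
    have ha1 := Finset.mem_filter.mp ha
    have ha1' := Finset.mem_filter.mp ha'
    have hs := hmemS2 a ha1.1
    have hs' := hmemS2 a' ha1'.1
    have hb1 := Finset.mem_filter.mp (hbb a ha).1
    have hb1' := Finset.mem_filter.mp (hbb a' ha').1
    have hsb := hmemS2 _ hb1.1
    obtain ⟨w, hw1, hw2⟩ := (hX a ha).2 x hx
    obtain ⟨w', hw1', hw2'⟩ := (hX a' ha').2 x hx'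
    have h := escape_overlap (N := N) hc hρR hkr hr hR hsep (a := a) (b := bb a) (a' := a')
      (b' := bb a') (x := x) (by have := hs.2.1; omega) hs.2.2 (by have := hsb.2.1; omega)
      hsb.2.2 hb1.2.1 hb1.2.2.1 hb1.2.2.2 hb1'.2.1 hb1'.2.2.1 (hdeep a' ha') hle w hw1 hw2 w' hw1'
      (fun y hy => (hw2' y hy).1)
    refine ⟨h.1, h.2, ?_⟩
    have h1 : lev G v0 a' < lev G v0 x := (hw2' x w'.end_mem_support).1
    have h2 : lev G v0 x ≤ lev G v0 (anc G v0 (bb a) (lev G v0 a + 1)) +
        G.dist x (anc G v0 (bb a) (lev G v0 a + 1)) := lev_le_add hc v0 _ _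
    have h3 := SimpleGraph.dist_le w.reverse
    rw [Walk.length_reverse] at h3
    rw [lev_anc hc (by have := hb1.2.1; omega)] at h2
    omega
  have hthree : ∀ a ∈ Gd, ∀ a' ∈ Gd, ∀ a'' ∈ Gd, ∀ x, x ∈ X a → x ∈ X a' → x ∈ X a'' →
      a ≠ a' → a' ≠ a'' → lev G v0 a ≤ lev G v0 a' → lev G v0 a' ≤ lev G v0 a'' → False := by
    intro a ha a' ha' a'' ha'' x hx hx' hx'' hne hne' hle hle'
    have h1 := hover a ha a' ha' x hx hx' hle
    have h2 := hover a' ha' a'' ha'' x hx' hx'' hle'
    have h3 := hover a ha a'' ha'' x hx hx'' (hle.trans hle')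
    have hlt : lev G v0 a < lev G v0 a' := by
      rcases Nat.lt_or_ge (lev G v0 a) (lev G v0 a') with h | h
      · exact h
      · exfalso
        have he : lev G v0 a = lev G v0 a' := by omega
        have := h1.1
        rw [he, anc_self] at this
        exact hne this.symm
    have hlt' : lev G v0 a' < lev G v0 a'' := by
      rcases Nat.lt_or_ge (lev G v0 a') (lev G v0 a'') with h | h
      · exact h
      · exfalso
        have he : lev G v0 a' = lev G v0 a'' := by omega
        have := h2.1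
        rw [he, anc_self] at this
        exact hne' this.symm
    have hca : a'' ∈ cand a := by
      rw [Finset.mem_filter]
      refine ⟨(Finset.mem_filter.mp ha'').1, by omega, h3.1, ?_⟩
      intro l h4 h5
      exact hdeep a'' ha'' l h5 (by have := h3.2.2; omega)
    have := (hbb a ha).2 a'' hca
    omega
  have htwo : ∀ x : V, (Gd.filter (fun a => x ∈ X a)).card ≤ 2 := by
    intro x
    by_contra hcon
    push Not at hcon
    obtain ⟨a, b, c, ha, hb, hc', hab, hac, hbc⟩ := Finset.two_lt_card_iff.mp hcon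
    rw [Finset.mem_filter] at ha hb hc'
    rcases le_total (lev G v0 a) (lev G v0 b) with h1 | h1 <;>
    rcases le_total (lev G v0 b) (lev G v0 c) with h2 | h2 <;>
    rcases le_total (lev G v0 a) (lev G v0 c) with h3 | h3
    · exact hthree a ha.1 b hb.1 c hc'.1 x ha.2 hb.2 hc'.2 hab hbc h1 h2
    · exact hthree a ha.1 b hb.1 c hc'.1 x ha.2 hb.2 hc'.2 hab hbc h1 h2
    · exact hthree a ha.1 c hc'.1 b hb.1 x ha.2 hc'.2 hb.2 hac hbc.symm h3 h2
    · exact hthree c hc'.1 a ha.1 b hb.1 x hc'.2 ha.2 hb.2 hac.symm hab h3 h1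
    · exact hthree b hb.1 a ha.1 c hc'.1 x hb.2 ha.2 hc'.2 hab.symm hac h1 h3
    · exact hthree b hb.1 c hc'.1 a ha.1 x hb.2 hc'.2 ha.2 hbc hac.symm h2 h3
    · exact hthree c hc'.1 b hb.1 a ha.1 x hc'.2 hb.2 ha.2 hbc.symm hab.symm h2 h1
    · exact hthree c hc'.1 b hb.1 a ha.1 x hc'.2 hb.2 ha.2 hbc.symm hab.symm h2 h1
  have hGd : N * Gd.card ≤ 2 * Fintype.card V := by
    have e1 : N * Gd.card = ∑ a ∈ Gd, (X a).card := by
      rw [Finset.sum_congr rfl (fun a ha => (hX a ha).1), Finset.sum_const, smul_eq_mul,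
        Nat.mul_comm]
    have e2 : ∑ a ∈ Gd, (X a).card = ∑ x : V, (Gd.filter (fun a => x ∈ X a)).card := by
      have : ∀ a ∈ Gd, (X a).card = ∑ x : V, if x ∈ X a then 1 else 0 := by
        intro a _
        rw [Finset.sum_boole]
        simp
      rw [Finset.sum_congr rfl this, Finset.sum_comm]
      apply Finset.sum_congr rfl
      intro x _
      rw [Finset.sum_boole]
      simp
    rw [e1, e2]
    calc ∑ x : V, (Gd.filter (fun a => x ∈ X a)).card ≤ ∑ _x : V, 2 :=
          Finset.sum_le_sum (fun x _ => htwo x)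
      _ = 2 * Fintype.card V := by
          rw [Finset.sum_const, smul_eq_mul, Finset.card_univ, Nat.mul_comm]
  have hcov : S2 ⊆ F1 ∪ F2 ∪ Gd := by
    intro a ha
    by_cases h1 : lev G v0 a < lb a + N
    · exact Finset.mem_union_left _ (Finset.mem_union_left _ (Finset.mem_filter.mpr ⟨ha, h1⟩))
    · by_cases h2 : cand a = ∅
      · exact Finset.mem_union_left _ (Finset.mem_union_right _ (Finset.mem_filter.mpr ⟨ha, h2⟩))
      · exact Finset.mem_union_right _ (Finset.mem_filter.mpr ⟨ha, h1, h2⟩)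
  have hcard : S2.card ≤ F1.card + F2.card + Gd.card :=
    (Finset.card_le_card hcov).trans ((Finset.card_union_le _ _).trans
      (Nat.add_le_add_right (Finset.card_union_le _ _) _))
  calc N * S2.card ≤ N * (F1.card + F2.card + Gd.card) := Nat.mul_le_mul_left _ hcard
    _ = N * (F1.card + F2.card) + N * Gd.card := by ring
    _ ≤ N * ((N + 2) * Bot.card) + 2 * Fintype.card V := by
        apply Nat.add_le_add
        · apply Nat.mul_le_mul_left
          calc F1.card + F2.card ≤ N * Bot.card + 2 * Bot.card := Nat.add_le_add hF1 hF2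
            _ = (N + 2) * Bot.card := by ring
        · exact hGd

end Pool.Agent.RBC
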