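import Pool.Agent.MP_dd54b8_co.A2
import Pool.Agent.MP_dd54b8_co.A3
import Pool.Agent.MP_dd54b8_co.T3
import Pool.Agent.MP_dd54b8_co.E3
import Pool.Agent.MP_dd54b8_co.ST

set_option autoImplicit false

/-! The maximal state and the final count. -/

namespace Pool.Agent.RBC

open SimpleGraph

section
variable {V : Type} [Fintype V] {G : SimpleGraph V}

/-- A maximal state dominates. -/
theorem exists_max_state {k : ℕ} (hk : KConn G k) (hk0 : 0 < k) (hc : G.Connected) (v0 : V)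
    {ρ R r C3 C Λ M : ℕ}
    (hρR : ρ ≤ R) (hr2 : 2 ≤ r) (hkr : 2 * k * ρ ≤ r) (hR : 3 * r ≤ R) (hC : 4 * r ≤ C3)
    (hA : Λ * (C3 + k * ρ + 1) + (C3 + k * ρ) < C)
    (h0 : Λ * (3 * r + 1) + 3 * r ≤ 2 * C3 + 1) (h0M : M + 3 * r ≤ 2 * C3 + 1)
    (h2 : Λ * (3 * r + 2) + r ≤ C3 + 1) (h2M : 2 * M + r ≤ C3 + 1)
    (h3 : Λ * (2 * C3 + 2 * (k * ρ) + 4 * r + 7) + r ≤ R + 1) (h3M : 2 * M + r ≤ R + 1) :
    ∃ (H Sp Se Bot : Finset V) (q ov : ℕ), St G v0 k ρ R r H Sp Se Bot q ov ∧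
      Λ * ov ≤ Sp.card + Se.card ∧ M * Bot.card ≤ Sp.card + Se.card ∧
      ∀ w, ∃ y ∈ H, G.dist w y ≤ C := by
  classical
  let P : ℕ → Prop := fun m => ∃ (H Sp Se Bot : Finset V) (q ov : ℕ),
    St G v0 k ρ R r H Sp Se Bot q ov ∧ Λ * ov ≤ Sp.card + Se.card ∧
      M * Bot.card ≤ Sp.card + Se.card ∧ Sp.card + Se.card = m
  have hP0 : P 0 := by
    refine ⟨{v0}, ∅, ∅, ∅, 0, 0, ?_, by simp, by simp, by simp⟩
    refine ⟨by simp, ?_, by simp, by simp, by simp, ?_, by simp, by simp, by simp⟩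
    · simpa using rb_singleton (G := G) v0
    · intro x hx; simp at hx
  have hPle : ∀ m, P m → m ≤ Fintype.card V := by
    rintro m ⟨H, Sp, Se, Bot, q, ov, hst, -, -, rfl⟩
    rw [← Finset.card_union_of_disjoint hst.disj]
    exact Finset.card_le_univ _
  set m := Nat.findGreatest P (Fintype.card V) with hm
  have hPm : P m := Nat.findGreatest_spec (Nat.zero_le _) hP0
  obtain ⟨H, Sp, Se, Bot, q, ov, hst, hov, hbot, hcard⟩ := hPm
  refine ⟨H, Sp, Se, Bot, q, ov, hst, hov, hbot, ?_⟩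
  by_contra hcon
  push Not at hcon
  obtain ⟨w, hw⟩ := hcon
  obtain ⟨H', Sp', Se', Bot', q', ov', hst', hlt, hov', hbot'⟩ :=
    step hk hk0 hc hst hw hρR hr2 hkr hR hC hA h0 h0M h2 h2M h3 h3M
  have hP' : P (Sp'.card + Se'.card) :=
    ⟨H', Sp', Se', Bot', q', ov', hst', by omega, by omega, rfl⟩
  have h1 := Nat.le_findGreatest (hPle _ hP') hP'
  rw [← hm] at h1
  omega

/-- The count for a state. -/
theorem count_state {k : ℕ} (hk : KConn G k) (hk0 : 0 < k) (hc : G.Connected) (v0 : V)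
    {ρ R r Λ t J : ℕ} {H Sp Se Bot : Finset V} {q ov : ℕ}
    (hst : St G v0 k ρ R r H Sp Se Bot q ov)
    (hρR : ρ ≤ R) (hr2 : 2 ≤ r) (hkr : 2 * k * ρ ≤ r) (hR : 4 * Λ + 4 ≤ R)
    (hΛ : 5 * k * t ≤ Λ) (hΛ1 : 1 ≤ Λ) (hJ : 2 * k ^ 2 * t ≤ J)
    (hov : Λ * ov ≤ Sp.card + Se.card) (hbot : Λ * (Λ + 2) * Bot.card ≤ Sp.card + Se.card)
    (hbad : open Classical in J * (Finset.univ.filter (fun x => (arm G v0 ρ x).card < k ∧
        ¬ Iso G v0 ρ R x)).card ≤ (k - 1) * Fintype.card V) :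
    k * t * q ≤ (t + 1) * Fintype.card V := by
  classical
  have hkr' : k * ρ ≤ r := by nlinarith
  set n := Fintype.card V with hn
  -- the strand set
  have hcardS : Sp.card + Se.card = (Sp ∪ Se).card :=
    (Finset.card_union_of_disjoint hst.disj).symm
  have hSn : Sp.card + Se.card ≤ n := by rw [hcardS]; exact Finset.card_le_univ _
  have hsepS : ∀ x ∈ Sp ∪ Se, ∀ y ∈ Sp ∪ Se, lev G v0 x = lev G v0 y → x ≠ y →
      r < G.dist x y := by
    intro x hx y hy
    exact hst.sep x (Finset.mem_union.1 hx) y (Finset.mem_union.1 hy)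
  have hsepE : ∀ x ∈ Se, ∀ y ∈ Se, lev G v0 x = lev G v0 y → x ≠ y →
      r < G.dist x y := by
    intro x hx y hy
    exact hst.sep x (Or.inr hx) y (Or.inr hy)
  have hthick := strand_thick hc v0 (k := k) (ρ := ρ) (r := r) hk0 hkr (Sp ∪ Se) hsepS
  have hthin := strand_thin hc v0 (k := k) (ρ := ρ) (R := R) (r := r) hρR hkr' Se hsepE
  have hthin2 := thin2_count (r := r) hk hc hρR hkr' hr2 hΛ1 hR (v0 := v0) (Se := Se) (Bot := Bot)
    hsepE hst.bot
  -- names
  set A := (Sp.filter (fun x => k ≤ (arm G v0 ρ x).card)).card with hAdef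
  set A' := (Se.filter (fun x => k ≤ (arm G v0 ρ x).card)).card with hA'def
  set B := (Sp.filter (fun x => (arm G v0 ρ x).card < k ∧ ¬ Iso G v0 ρ R x)).card with hBdef
  set B' := (Se.filter (fun x => (arm G v0 ρ x).card < k ∧ ¬ Iso G v0 ρ R x)).card with hB'def
  set D1 := (Se.filter (fun x => (arm G v0 ρ x).card < k ∧ k ≤ 2 * (arm G v0 ρ x).card ∧
        Iso G v0 ρ R x)).card with hD1def
  set D2 := (Se.filter (fun x => 2 * (arm G v0 ρ x).card < k ∧ Iso G v0 ρ R x)).card with hD2def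
  set Th := (Finset.univ.filter (fun x => k ≤ (arm G v0 ρ x).card)).card with hThdef
  set Th1 := (Finset.univ.filter (fun x => (arm G v0 ρ x).card < k ∧
        k ≤ 2 * (arm G v0 ρ x).card ∧ Iso G v0 ρ R x)).card with hTh1def
  set bad := (Finset.univ.filter (fun x => (arm G v0 ρ x).card < k ∧
        ¬ Iso G v0 ρ R x)).card with hbaddef
  have e1 : Sp.card ≤ A + B := by
    have : Sp ⊆ Sp.filter (fun x => k ≤ (arm G v0 ρ x).card) ∪
        Sp.filter (fun x => (arm G v0 ρ x).card < k ∧ ¬ Iso G v0 ρ R x) := by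
      intro x hx
      have := hst.pend x hx
      simp only [Finset.mem_union, Finset.mem_filter]
      by_cases h : k ≤ (arm G v0 ρ x).card
      · exact Or.inl ⟨hx, h⟩
      · right
        refine ⟨hx, by omega, fun hi => this ⟨hi, by omega⟩⟩
    exact (Finset.card_le_card this).trans (Finset.card_union_le _ _)
  have e2 : Se.card ≤ A' + B' + D1 + D2 := by
    have : Se ⊆ Se.filter (fun x => k ≤ (arm G v0 ρ x).card) ∪
        Se.filter (fun x => (arm G v0 ρ x).card < k ∧ ¬ Iso G v0 ρ R x) ∪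
        Se.filter (fun x => (arm G v0 ρ x).card < k ∧ k ≤ 2 * (arm G v0 ρ x).card ∧
        Iso G v0 ρ R x) ∪ Se.filter (fun x => 2 * (arm G v0 ρ x).card < k ∧ Iso G v0 ρ R x) := by
      intro x hx
      simp only [Finset.mem_union, Finset.mem_filter]
      by_cases h : k ≤ (arm G v0 ρ x).card
      · exact Or.inl (Or.inl (Or.inl ⟨hx, h⟩))
      · by_cases hi : Iso G v0 ρ R x
        · by_cases h2 : k ≤ 2 * (arm G v0 ρ x).card
          · exact Or.inl (Or.inr ⟨hx, by omega, h2, hi⟩)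
          · exact Or.inr ⟨hx, by omega, hi⟩
        · exact Or.inl (Or.inl (Or.inr ⟨hx, by omega, hi⟩))
    refine (Finset.card_le_card this).trans ?_
    refine (Finset.card_union_le _ _).trans ?_
    refine Nat.add_le_add_right ?_ _
    refine (Finset.card_union_le _ _).trans ?_
    refine Nat.add_le_add_right ?_ _
    exact Finset.card_union_le _ _
  have e3 : k * (A + A') ≤ Th := by
    refine le_trans ?_ hthick
    refine Nat.mul_le_mul_left _ ?_
    rw [Finset.filter_union, Finset.card_union_of_disjoint]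
    exact Finset.disjoint_filter_filter hst.disj
  have e4 : B + B' ≤ bad := by
    rw [hBdef, hB'def, ← Finset.card_union_of_disjoint
      (Finset.disjoint_filter_filter hst.disj), ← Finset.filter_union]
    exact Finset.card_le_card (Finset.filter_subset_filter _ (Finset.subset_univ _))
  have e5 : Th + Th1 ≤ n := by
    rw [hThdef, hTh1def, ← Finset.card_union_of_disjoint]
    · exact Finset.card_le_univ _
    · rw [Finset.disjoint_left]
      intro x hx hx'
      simp only [Finset.mem_filter] at hx hx'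
      omega
  have e6 : k * D1 ≤ 2 * Th1 := hthin
  have e7 : Λ * D2 ≤ 3 * n := by
    have : Λ * ((Λ + 2) * Bot.card) ≤ n := by
      rw [← mul_assoc]; exact hbot.trans hSn
    have h' : Λ * D2 ≤ Λ * ((Λ + 2) * Bot.card) + 2 * n := hthin2
    omega
  have e8 : Λ * ov ≤ n := hov.trans hSn
  have e9 : 2 * k * t * bad ≤ n := by
    have h1 : 2 * k ^ 2 * t * bad ≤ k * n := by
      calc 2 * k ^ 2 * t * bad ≤ J * bad := Nat.mul_le_mul_right _ hJ
        _ ≤ (k - 1) * n := hbad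
        _ ≤ k * n := Nat.mul_le_mul_right _ (Nat.sub_le _ _)
    have h2 : k * (2 * k * t * bad) ≤ k * n := by
      calc k * (2 * k * t * bad) = 2 * k ^ 2 * t * bad := by ring
        _ ≤ k * n := h1
    exact Nat.le_of_mul_le_mul_left h2 hk0
  have e10 : 5 * k * t * D2 ≤ 3 * n := (Nat.mul_le_mul_right _ hΛ).trans e7
  have e11 : 5 * k * t * ov ≤ n := (Nat.mul_le_mul_right _ hΛ).trans e8
  have e12 := hst.cost
  have e13 : 2 * k * q ≤ 2 * n + 2 * k * bad + k * D2 + 2 * k * ov := by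
    have s1 : 2 * k * q ≤ k * (2 * Sp.card + Se.card + 2 * ov) := by
      calc 2 * k * q = k * (2 * q) := by ring
        _ ≤ _ := Nat.mul_le_mul_left _ e12
    have s2 : k * (2 * Sp.card + Se.card + 2 * ov) ≤
        k * (2 * (A + B) + (A' + B' + D1 + D2) + 2 * ov) := by
      refine Nat.mul_le_mul_left _ ?_
      omega
    have s3 : k * (2 * (A + B) + (A' + B' + D1 + D2) + 2 * ov) ≤
        2 * (k * (A + A')) + 2 * (k * (B + B')) + k * D1 + k * D2 + 2 * k * ov := by
      nlinarith [Nat.zero_le (k * A'), Nat.zero_le (k * B')]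
    have s4 : k * (B + B') ≤ k * bad := Nat.mul_le_mul_left _ e4
    have s5 : 2 * k * bad = 2 * (k * bad) := by ring
    omega
  -- multiply by t
  have f1 : 2 * (k * t * q) ≤ 2 * (t * n) + 2 * k * t * bad + k * t * D2 + 2 * (k * t * ov) := by
    have := Nat.mul_le_mul_left t e13
    calc 2 * (k * t * q) = t * (2 * k * q) := by ring
      _ ≤ t * (2 * n + 2 * k * bad + k * D2 + 2 * k * ov) := this
      _ = _ := by ring
  have f2 : 5 * (k * t * D2) ≤ 3 * n := by
    calc 5 * (k * t * D2) = 5 * k * t * D2 := by ring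
      _ ≤ _ := e10
  have f3 : 5 * (k * t * ov) ≤ n := by
    calc 5 * (k * t * ov) = 5 * k * t * ov := by ring
      _ ≤ _ := e11
  have f4 : (t + 1) * n = t * n + n := by ring
  omega

end

/-- The main theorem in natural number form. -/
theorem main_nat (k t : ℕ) (hk : 0 < k) (ht : 0 < t) : ∃ C0 : ℕ, ∀ (V : Type) [Fintype V]
    (G : SimpleGraph V), KConn G k → ∃ q, Rb G Set.univ q ∧
      k * t * q ≤ (t + 1) * Fintype.card V + C0 := by
  classical
  rcases Nat.lt_or_ge k 2 with h2 | h2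
  · have hk1 : k = 1 := by omega
    subst hk1
    refine ⟨0, fun V _ G hG => ⟨Fintype.card V, rb_univ_card (kconn_connected hG hk), ?_⟩⟩
    nlinarith
  · set Λ := 5 * k * t with hΛ
    set J := 2 * k ^ 2 * t with hJ
    set K := 40 * Λ ^ 3 * k with hK
    set Cf : ℕ → ℕ := fun ρ => (Λ + 1) * (10 * Λ ^ 2 * k * ρ + k * ρ + 2) with hCf
    set C1 := Cf (K ^ J) with hC1
    refine ⟨k * t * (3 * C1 ^ 2 + 4 * C1), fun V _ G hG => ?_⟩
    have hΛ10 : 10 ≤ Λ := by
      rw [hΛ]; nlinarith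
    have hK1 : 1 ≤ K := by
      rw [hK]
      have : 0 < 40 * Λ ^ 3 * k := by positivity
      omega
    have hJ0 : 0 < J := by rw [hJ]; positivity
    have hc : G.Connected := kconn_connected hG hk
    obtain ⟨v0⟩ : Nonempty V := by
      rw [← Fintype.card_pos_iff]
      have := hG.1
      omega
    obtain ⟨j, hjJ, hbad⟩ := exists_scale (G := G) v0 (k := k) (K := K) (J := J) hk hK1 hJ0
    set ρ := K ^ j with hρ
    set R := K ^ (j + 1) with hR
    have hρ1 : 1 ≤ ρ := Nat.one_le_pow _ _ hK1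
    have hRK : R = 40 * Λ ^ 3 * k * ρ := by rw [hR, pow_succ, hρ, hK]; ring
    have hkρ : 1 ≤ k * ρ := Nat.mul_pos hk hρ1
    -- abbreviations
    set y := k * ρ with hy
    have hRy : R = 40 * Λ ^ 3 * y := by rw [hRK, hy]; ring
    have hΛ2 : 10 * Λ ≤ Λ ^ 2 := by nlinarith
    have hΛ3 : 10 * Λ ^ 2 ≤ Λ ^ 3 := by
      calc 10 * Λ ^ 2 ≤ Λ * Λ ^ 2 := Nat.mul_le_mul_right _ hΛ10
        _ = Λ ^ 3 := by ring
    have hρy : ρ ≤ y := by rw [hy]; exact Nat.le_mul_of_pos_left _ hk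
    have g1 : 10 * Λ * y ≤ Λ ^ 2 * y := Nat.mul_le_mul_right _ hΛ2
    have g2 : 10 * Λ ^ 2 * y ≤ Λ ^ 3 * y := Nat.mul_le_mul_right _ hΛ3
    have g0 : 10 * y ≤ Λ * y := Nat.mul_le_mul_right _ hΛ10
    have g3 : Λ ≤ Λ * y := Nat.le_mul_of_pos_right _ hkρ
    have g4 : Λ ^ 2 ≤ Λ ^ 2 * y := Nat.le_mul_of_pos_right _ hkρ
    obtain ⟨H, Sp, Se, Bot, q, ov, hst, hov, hbot, hdom⟩ :=
      exists_max_state hG hk hc v0 (ρ := ρ) (R := R) (r := 2 * y) (C3 := 10 * Λ ^ 2 * y)
        (C := Cf ρ) (Λ := Λ) (M := Λ * (Λ + 2))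
        (by rw [hRy]; nlinarith) (by omega) (by rw [hy]; nlinarith) (by rw [hRy]; nlinarith)
        (by nlinarith)
        (by
          have : Cf ρ = (Λ + 1) * (10 * Λ ^ 2 * y + y + 2) := by rw [hCf, hy]; ring
          rw [this]; nlinarith)
        (by nlinarith) (by nlinarith) (by nlinarith) (by nlinarith)
        (by rw [hRy]; nlinarith) (by rw [hRy]; nlinarith)
    have hq := count_state hG hk hc v0 (Λ := Λ) (t := t) (J := J) hst
        (by rw [hRy]; nlinarith) (by omega) (by rw [hy]; nlinarith) (by rw [hRy]; nlinarith)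
        (le_of_eq hΛ.symm) (by omega) (le_of_eq hJ.symm) hov hbot hbad
    have hCle : Cf ρ ≤ C1 := by
      rw [hC1, hCf]
      have hle : ρ ≤ K ^ J := by
        rw [hρ]; exact Nat.pow_le_pow_right hK1 hjJ.le
      have : 10 * Λ ^ 2 * k * ρ + k * ρ + 2 ≤ 10 * Λ ^ 2 * k * K ^ J + k * K ^ J + 2 := by
        gcongr
      exact Nat.mul_le_mul_left _ this
    have hext := extend (kconn_mono hG h2) (C := C1) hst.rb ⟨v0, hst.root⟩ (fun v => by
      obtain ⟨y, hy, hd⟩ := hdom v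
      exact ⟨y, hy, hd.trans hCle⟩)
    refine ⟨_, hext, ?_⟩
    rw [mul_add]
    omega

end Pool.Agent.RBC
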