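import Pool.Agent.MP_dd54b8_co.P0

set_option autoImplicit false

/-! Odd `k`: definitions. -/

namespace Pool.Agent.RBC

open SimpleGraph

variable {V : Type} [Fintype V] (G : SimpleGraph V)

open Classical in
/-- The vertices of the level of `x` within distance `s` of `x`. -/
noncomputable def Nb (v0 : V) (s : ℕ) (x : V) : Finset V :=
  Finset.univ.filter (fun y => lev G v0 y = lev G v0 x ∧ G.dist x y ≤ s)

/-- `Sp` consists of vertical paths whose two end vertices are in `End`. -/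
def PEnd (v0 : V) (Sp End : Finset V) : Prop :=
  ∀ x ∈ Sp, (x ∈ End ∨ (0 < lev G v0 x ∧ par G v0 x ∈ Sp)) ∧
    (x ∈ End ∨ ∃ y ∈ Sp, par G v0 y = x ∧ lev G v0 y = lev G v0 x + 1)

/-- The state can be improved, measured by the number of ear strand vertices. -/
def Better1 (v0 : V) (k ρ R r Λ M : ℕ) (Sp Se Bot : Finset V) (ov : ℕ) : Prop :=
  ∀ End : Finset V, PEnd G v0 Sp End →
    ∃ (H' Sp' Se' Bot' End' : Finset V) (q' ov' : ℕ), St G v0 k ρ R r H' Sp' Se' Bot' q' ov' ∧
      PEnd G v0 Sp' End' ∧ Se.card < Se'.card ∧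
      Λ * ov' + Se.card ≤ Λ * ov + Se'.card ∧
      M * Bot'.card + Se.card ≤ M * Bot.card + Se'.card ∧
      M * End'.card + Se.card ≤ M * End.card + Se'.card

variable {G}

theorem mem_Nb {v0 : V} {s : ℕ} {x y : V} :
    y ∈ Nb G v0 s x ↔ lev G v0 y = lev G v0 x ∧ G.dist x y ≤ s := by
  classical
  unfold Nb
  simp

theorem self_mem_Nb (v0 : V) (s : ℕ) (x : V) : x ∈ Nb G v0 s x := by
  rw [mem_Nb]; simp

end Pool.Agent.RBC
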