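import Pool.Agent.MP_dd54b8_co.B1
import Pool.Agent.MP_dd54b8_co.O0

set_option autoImplicit false

/-! The second leg meets the first leg above `b1`: a stem and a cycle (improvement measured by ear
vertices). -/

namespace Pool.Agent.RBC

open SimpleGraph

variable {V : Type} [Fintype V] {G : SimpleGraph V}

theorem step1_B3 (hc : G.Connected) {v0 : V} {k ρ R r C3 Λ M : ℕ}
    {H Sp Se Bot : Finset V} {q ov : ℕ} (h : St G v0 k ρ R r H Sp Se Bot q ov)
    {z z' : V} {i h0 b1 j : ℕ} (hl : Legs G v0 r R C3 H z z' i h0 b1)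
    (hA : ∀ l, i < l → l ≤ h0 → ∀ y ∈ H, 2 * r < G.dist (anc G v0 z l) y)
    (hb1j : b1 < j) (hji : j < i) (hjj : G.dist (anc G v0 z' j) (anc G v0 z j) ≤ r)
    (hjc : ∀ l, j < l → l < h0 → ∀ y ∈ H, r < G.dist (anc G v0 z' l) y)
    (hja : ∀ l, j < l → l < i → r < G.dist (anc G v0 z' l) (anc G v0 z l))
    (hstem : ∀ l, l < j → (∀ y ∈ H, C3 + k * ρ < G.dist (anc G v0 z l) y) →
      ¬ (Iso G v0 ρ R (anc G v0 z l) ∧ (arm G v0 ρ (anc G v0 z l)).card < k))
    (hR : 3 * r ≤ R) (hC : 4 * r ≤ C3)
    (hΛ : Λ * (2 * C3 + 2 * (k * ρ) + 4 * r + 7) + r ≤ R + 1) (hM : 2 * M + r ≤ R + 1) :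
    Better1 G v0 k ρ R r Λ M Sp Se Bot ov := by
  classical
  obtain ⟨ih, hz, hz', htop, hapart, hlong, hbi, hbH, hclear, hgap, hfarA⟩ := hl
  have hzlev : j < lev G v0 z := by omega
  have hzlev' : j < lev G v0 z' := by omega
  -- the stem
  set P : ℕ → Prop := fun l => ∃ y ∈ H, G.dist (anc G v0 z l) y ≤ C3 + k * ρ with hP
  have hP0 : P 0 := by
    refine ⟨v0, h.root, ?_⟩
    rw [anc_zero hc, SimpleGraph.dist_self]
    exact Nat.zero_le _
  obtain ⟨i3, hi3j, hPi3, hnP⟩ : ∃ i3, i3 ≤ j ∧ P i3 ∧ ∀ l, i3 < l → l ≤ j → ¬ P l := by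
    refine ⟨Nat.findGreatest P j, Nat.findGreatest_le j, ?_, ?_⟩
    · exact Nat.findGreatest_spec (P := P) (Nat.zero_le j) hP0
    · intro l h1 h2
      exact Nat.findGreatest_is_greatest h1 h2
  obtain ⟨y3, hy3, hd3⟩ := hPi3
  have hfar3 : ∀ l, i3 < l → l ≤ j → ∀ y ∈ H, C3 + k * ρ < G.dist (anc G v0 z l) y := by
    intro l h1 h2 y hy
    by_contra hcon
    exact hnP l h1 h2 ⟨y, hy, by omega⟩
  obtain ⟨κ, hκc, -, hst1, hcard1⟩ := add_pend hc h (z := z) (y0 := y3) (d := C3 + k * ρ)
    (lo := i3) (hi := j) hy3 hd3 hi3j hzlev.le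
    (by
      intro l h1 h2 y hy
      have := hfar3 l h1 h2.le y hy
      omega)
    (by
      intro l h1 h2
      exact hstem l h2 (hfar3 l h1 h2.le))
  -- connector for `anc z' j`
  set H1 : Finset V := H ∪ κ ∪ (Finset.Icc i3 j).image (anc G v0 z) with hH1
  set Sp1 : Finset V := Sp ∪ (Finset.Ioo i3 j).image (anc G v0 z) with hSp1
  have hzj : anc G v0 z j ∈ H1 := by
    rw [hH1]
    apply Finset.mem_union_right
    exact Finset.mem_image_of_mem _ (Finset.mem_Icc.2 ⟨hi3j, le_refl _⟩)
  obtain ⟨κ5, hx5, hκ5c, -, hst2⟩ := add_conn hc hst1 (x := anc G v0 z' j) (y0 := anc G v0 z j)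
    (d := r) hzj hjj
  set H2 : Finset V := H1 ∪ κ5 with hH2
  -- the walk across the top
  obtain ⟨w, hwl⟩ := hc.exists_walk_length_eq_dist (anc G v0 z h0) (anc G v0 z' h0)
  have hwp : w.IsPath := w.isPath_of_length_eq_dist hwl
  have hwr : w.length ≤ r := by omega
  -- distances between the two legs above `j`
  have hap2 : ∀ l, j < l → l < h0 → r < G.dist (anc G v0 z l) (anc G v0 z' l) := by
    intro l h1 h2
    by_cases hli : i ≤ l
    · exact hapart l hli h2
    · have := hja l h1 (by omega)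
      rwa [SimpleGraph.dist_comm] at this
  have hfarz : ∀ l, j < l → l < h0 → ∀ y ∈ H, r < G.dist (anc G v0 z l) y := by
    intro l h1 h2 y hy
    by_cases hli : l ≤ i
    · exact hclear l (by omega) hli y hy
    · have := hA l (by omega) h2.le y hy
      omega
  have hlevz : ∀ l, l < h0 → lev G v0 (anc G v0 z l) = l := fun l hl' =>
    lev_anc hc (by omega)
  have hlevz' : ∀ l, l < h0 → lev G v0 (anc G v0 z' l) = l := fun l hl' =>
    lev_anc hc (by omega)
  -- new vertices
  set New : Finset V := (Finset.Ioo j h0).image (anc G v0 z) ∪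
    (Finset.Ioo j h0).image (anc G v0 z') with hNew
  have hmemNew : ∀ x, x ∈ New ↔ (∃ l, j < l ∧ l < h0 ∧ x = anc G v0 z l) ∨
      (∃ l, j < l ∧ l < h0 ∧ x = anc G v0 z' l) := by
    intro x
    rw [hNew, Finset.mem_union, Finset.mem_image, Finset.mem_image]
    constructor
    · rintro (⟨l, hl1, rfl⟩ | ⟨l, hl1, rfl⟩)
      · rw [Finset.mem_Ioo] at hl1
        exact Or.inl ⟨l, hl1.1, hl1.2, rfl⟩
      · rw [Finset.mem_Ioo] at hl1
        exact Or.inr ⟨l, hl1.1, hl1.2, rfl⟩
    · rintro (⟨l, h1, h2, rfl⟩ | ⟨l, h1, h2, rfl⟩)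
      · exact Or.inl ⟨l, Finset.mem_Ioo.2 ⟨h1, h2⟩, rfl⟩
      · exact Or.inr ⟨l, Finset.mem_Ioo.2 ⟨h1, h2⟩, rfl⟩
  have hcardNew : New.card = (h0 - 1 - j) + (h0 - 1 - j) := by
    rw [hNew, Finset.card_union_of_disjoint, Finset.card_image_of_injOn,
      Finset.card_image_of_injOn, Nat.card_Ioo]
    · omega
    · intro a ha b hb hab
      rw [Finset.coe_Ioo, Set.mem_Ioo] at ha hb
      have := congrArg (lev G v0) hab
      rwa [hlevz' a ha.2, hlevz' b hb.2] at this
    · intro a ha b hb hab
      rw [Finset.coe_Ioo, Set.mem_Ioo] at ha hb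
      have := congrArg (lev G v0) hab
      rwa [hlevz a ha.2, hlevz b hb.2] at this
    · rw [Finset.disjoint_left]
      intro x hx hx'
      rw [Finset.mem_image] at hx hx'
      obtain ⟨l, hl1, rfl⟩ := hx
      obtain ⟨l', hl2, heq⟩ := hx'
      rw [Finset.mem_Ioo] at hl1 hl2
      have h1 := congrArg (lev G v0) heq
      rw [hlevz' l' hl2.2, hlevz l hl1.2] at h1
      subst h1
      have h2 := hap2 l' hl1.1 hl1.2
      rw [heq, SimpleGraph.dist_self] at h2
      omega
  set L : List V := earList G v0 z z' j j h0 w with hL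
  have hmemL := fun x => mem_earList (G := G) (v0 := v0) (z := z) (z' := z') (b1 := j) (j := j)
    (h0 := h0) w x
  have hLlen : L.length = (h0 - 1 - j) + (w.length + 1) + (h0 - 1 - j) := earList_length w
  -- few touches
  have hT : (L.toFinset ∩ H2).card ≤ (C3 + k * ρ + 1) + (r + 1) + (r + 1) := by
    have hsub : L.toFinset ∩ H2 ⊆ κ ∪ κ5 ∪ w.support.toFinset := by
      intro x hx
      rw [Finset.mem_inter, List.mem_toFinset, hL, hmemL] at hx
      obtain ⟨hxL, hxH⟩ := hx
      rw [hH2, hH1] at hxH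
      simp only [Finset.mem_union, Finset.mem_image, Finset.mem_Icc] at hxH
      simp only [Finset.mem_union, List.mem_toFinset]
      rcases hxL with ⟨l, h1, h2, rfl⟩ | hxw | ⟨l, h1, h2, rfl⟩
      · rcases hxH with ((hxH | hxκ) | ⟨l', hl', heq⟩) | hx5'
        · exfalso
          have := hfarz l h1 h2 _ hxH
          rw [SimpleGraph.dist_self] at this
          omega
        · exact Or.inl (Or.inl hxκ)
        · exfalso
          have := congrArg (lev G v0) heq
          rw [hlevz l h2, hlevz l' (by omega)] at this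
          omega
        · exact Or.inl (Or.inr hx5')
      · exact Or.inr hxw
      · rcases hxH with ((hxH | hxκ) | ⟨l', hl', heq⟩) | hx5'
        · exfalso
          have := hjc l h1 h2 _ hxH
          rw [SimpleGraph.dist_self] at this
          omega
        · exact Or.inl (Or.inl hxκ)
        · exfalso
          have := congrArg (lev G v0) heq
          rw [hlevz' l h2, hlevz l' (by omega)] at this
          omega
        · exact Or.inl (Or.inr hx5')
    have h1 := Finset.card_le_card hsub
    have h2 := Finset.card_union_le (κ ∪ κ5) w.support.toFinset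
    have h3 := Finset.card_union_le κ κ5
    have h4 := List.toFinset_card_le w.support
    have h5 : w.support.length = w.length + 1 := w.length_support
    omega
  obtain ⟨hst3, hcard3⟩ := add_ear hc hst2 (a := anc G v0 z j) (b := anc G v0 z' j)
    (Finset.mem_union_left _ hzj) (Finset.mem_union_right _ hx5) L
    (earList_chain hc w (by omega) (by omega) hz hz')
    (earList_nodup hc (i := i) (R := R) (r := r) w hwp hwl hwr hR ih hlong hz hz' hapart
      (fun l h1 _ h2 => hap2 l h1 h2))
    ((C3 + k * ρ + 1) + (r + 1) + (r + 1)) (C3 + k * ρ + 3 * r + 6) hT New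
    {anc G v0 z (j + 1), anc G v0 z' (j + 1)}
    (by
      intro x hx
      rw [List.mem_toFinset, hL, hmemL]
      rcases (hmemNew x).1 hx with hx | hx
      · exact Or.inl hx
      · exact Or.inr (Or.inr hx))
    (by
      intro x hx y hy hxy
      have hy' : y ∈ H ∨ ∃ l, l < j ∧ y = anc G v0 z l := by
        rcases hy with hy | hy
        · rw [hSp1, Finset.mem_union, Finset.mem_image] at hy
          rcases hy with hy | ⟨l, hl1, rfl⟩
          · exact Or.inl (h.subp hy)
          · rw [Finset.mem_Ioo] at hl1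
            exact Or.inr ⟨l, hl1.2, rfl⟩
        · exact Or.inl (h.sube hy)
      rcases (hmemNew x).1 hx with ⟨l, h1, h2, rfl⟩ | ⟨l, h1, h2, rfl⟩
      · rcases hy' with hy' | ⟨l', hl', rfl⟩
        · exact hfarz l h1 h2 y hy'
        · exfalso
          rw [hlevz l h2, hlevz l' (by omega)] at hxy
          omega
      · rcases hy' with hy' | ⟨l', hl', rfl⟩
        · exact hjc l h1 h2 y hy'
        · exfalso
          rw [hlevz' l h2, hlevz l' (by omega)] at hxy
          omega)
    (by
      intro x hx y hy hxy hne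
      rcases (hmemNew x).1 hx with ⟨l, h1, h2, rfl⟩ | ⟨l, h1, h2, rfl⟩ <;>
        rcases (hmemNew y).1 hy with ⟨l', h1', h2', rfl⟩ | ⟨l', h1', h2', rfl⟩
      · rw [hlevz l h2, hlevz l' h2'] at hxy
        subst hxy
        exact absurd rfl hne
      · rw [hlevz l h2, hlevz' l' h2'] at hxy
        subst hxy
        exact hap2 l h1 h2
      · rw [hlevz' l h2, hlevz l' h2'] at hxy
        subst hxy
        rw [SimpleGraph.dist_comm]
        exact hap2 l h1 h2
      · rw [hlevz' l h2, hlevz' l' h2'] at hxy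
        subst hxy
        exact absurd rfl hne)
    (by
      intro x hx
      rcases (hmemNew x).1 hx with ⟨l, h1, h2, rfl⟩ | ⟨l, h1, h2, rfl⟩
      · by_cases hlj : l = j + 1
        · left
          subst hlj
          simp
        · right
          rw [hlevz l h2]
          refine ⟨by omega, ?_⟩
          obtain ⟨m, rfl⟩ : ∃ m, l = m + 1 := ⟨l - 1, by omega⟩
          rw [par_anc_succ hc (by omega)]
          exact (hmemNew _).2 (Or.inl ⟨m, by omega, by omega, rfl⟩)
      · by_cases hlj : l = j + 1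
        · left
          subst hlj
          simp
        · right
          rw [hlevz' l h2]
          refine ⟨by omega, ?_⟩
          obtain ⟨m, rfl⟩ : ∃ m, l = m + 1 := ⟨l - 1, by omega⟩
          rw [par_anc_succ hc (by omega)]
          exact (hmemNew _).2 (Or.inr ⟨m, by omega, by omega, rfl⟩))
    (by
      rw [hLlen, hcardNew]
      omega)
  have hbotcard : (Bot ∪ {anc G v0 z (j + 1), anc G v0 z' (j + 1)}).card ≤ Bot.card + 2 := by
    refine (Finset.card_union_le _ _).trans ?_
    exact Nat.add_le_add_left Finset.card_le_two _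
  intro End hEnd
  refine ⟨_, _, _, _, End ∪ {anc G v0 z (i3 + 1), anc G v0 z (j - 1)}, _, _, hst3, ?_, ?_, ?_, ?_, ?_⟩
  · intro x hx
    rw [hSp1, Finset.mem_union, Finset.mem_image] at hx
    rcases hx with hx | ⟨l, hl1, rfl⟩
    · obtain ⟨h1, h2⟩ := hEnd x hx
      constructor
      · rcases h1 with h1 | ⟨h1, h1'⟩
        · exact Or.inl (Finset.mem_union_left _ h1)
        · exact Or.inr ⟨h1, by rw [hSp1]; exact Finset.mem_union_left _ h1'⟩
      · rcases h2 with h2 | ⟨y, hy, h2, h2'⟩
        · exact Or.inl (Finset.mem_union_left _ h2)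
        · exact Or.inr ⟨y, by rw [hSp1]; exact Finset.mem_union_left _ hy, h2, h2'⟩
    · rw [Finset.mem_Ioo] at hl1
      obtain ⟨m, rfl⟩ : ∃ m, l = m + 1 := ⟨l - 1, by omega⟩
      constructor
      · by_cases hm : m = i3
        · left; subst hm; simp
        · right
          refine ⟨by rw [hlevz _ (by omega)]; omega, ?_⟩
          rw [par_anc_succ hc (by omega), hSp1]
          exact Finset.mem_union_right _ (Finset.mem_image.2
            ⟨m, Finset.mem_Ioo.2 ⟨by omega, by omega⟩, rfl⟩)
      · by_cases hm : m + 2 = j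
        · left; subst hm; simp
        · right
          refine ⟨anc G v0 z (m + 2), ?_, ?_, ?_⟩
          · rw [hSp1]
            exact Finset.mem_union_right _ (Finset.mem_image.2
              ⟨m + 2, Finset.mem_Ioo.2 ⟨by omega, by omega⟩, rfl⟩)
          · exact par_anc_succ hc (by omega)
          · rw [hlevz _ (by omega), hlevz _ (by omega)]
  · rw [hcard3, hcardNew]
    omega
  · rw [hcard3, hcardNew]
    have e : Λ * (ov + (C3 + k * ρ) + 1 + r + (C3 + k * ρ + 3 * r + 6)) =
        Λ * ov + Λ * (2 * C3 + 2 * (k * ρ) + 4 * r + 7) := by ring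
    rw [e]
    omega
  · rw [hcard3, hcardNew]
    have e : M * (Bot ∪ {anc G v0 z (j + 1), anc G v0 z' (j + 1)}).card ≤ M * Bot.card + 2 * M := by
      calc M * (Bot ∪ {anc G v0 z (j + 1), anc G v0 z' (j + 1)}).card
          ≤ M * (Bot.card + 2) := Nat.mul_le_mul_left _ hbotcard
        _ = M * Bot.card + 2 * M := by ring
    omega
  · rw [hcard3, hcardNew]
    have he : (End ∪ {anc G v0 z (i3 + 1), anc G v0 z (j - 1)}).card ≤ End.card + 2 := by
      refine (Finset.card_union_le _ _).trans ?_
      exact Nat.add_le_add_left Finset.card_le_two _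
    have e : M * (End ∪ {anc G v0 z (i3 + 1), anc G v0 z (j - 1)}).card ≤ M * End.card + 2 * M := by
      calc M * (End ∪ {anc G v0 z (i3 + 1), anc G v0 z (j - 1)}).card
          ≤ M * (End.card + 2) := Nat.mul_le_mul_left _ he
        _ = M * End.card + 2 * M := by ring
    omega

end Pool.Agent.RBC
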