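import Pool.Agent.MP_dd54b8_co.OT1

set_option autoImplicit false

/-! Task [RBO-T]: few ear strand vertices with a very small ball. -/

namespace Pool.Agent.RBC

open SimpleGraph

variable {V : Type} [Fintype V] {G : SimpleGraph V}

omit [Fintype V] in
private theorem ot3_agree (hc : G.Connected) {r : ℕ} (hr : 2 ≤ r) {v0 : V} {Se : Finset V}
    (hsep : ∀ x ∈ Se, ∀ y ∈ Se, lev G v0 x = lev G v0 y → x ≠ y → r < G.dist x y)
    {x y : V} {l m : ℕ} (hlm : l ≤ m) (hmx : m ≤ lev G v0 x) (hmy : m ≤ lev G v0 y)
    (hl : anc G v0 x l = anc G v0 y l)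
    (hx : ∀ l', l ≤ l' → l' ≤ m → anc G v0 x l' ∈ Se)
    (hy : ∀ l', l ≤ l' → l' ≤ m → anc G v0 y l' ∈ Se) :
    anc G v0 x m = anc G v0 y m := by
  induction m, hlm using Nat.le_induction with
  | base => exact hl
  | succ m hlm ih =>
    have ih' := ih (by omega) (by omega) (fun l' h1 h2 => hx l' h1 (by omega))
      (fun l' h1 h2 => hy l' h1 (by omega))
    by_contra hne
    have h1 := hsep _ (hx (m+1) (by omega) le_rfl) _ (hy (m+1) (by omega) le_rfl)
      (by rw [lev_anc hc hmx, lev_anc hc hmy]) hne
    have h2 := adj_anc hc (show m < lev G v0 x by omega)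
    have h3 := adj_anc hc (show m < lev G v0 y by omega)
    rw [← ih'] at h3
    have h4 := SimpleGraph.dist_le (Walk.cons h2 (Walk.cons h3.symm Walk.nil))
    simp only [Walk.length_cons, Walk.length_nil] at h4
    omega

omit [Fintype V] in
private theorem ot3_bot (hc : G.Connected) {v0 : V} {Se Bot : Finset V}
    (hbot : ∀ x ∈ Se, x ∈ Bot ∨ (0 < lev G v0 x ∧ par G v0 x ∈ Se)) (n : ℕ) :
    ∀ a ∈ Se, lev G v0 a = n → ∃ l, l ≤ lev G v0 a ∧ anc G v0 a l ∈ Bot ∧
      ∀ l', l ≤ l' → l' ≤ lev G v0 a → anc G v0 a l' ∈ Se := by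
  induction n with
  | zero =>
    intro a ha h0
    rcases hbot a ha with h | ⟨h, _⟩
    · refine ⟨lev G v0 a, le_rfl, by rw [anc_self]; exact h, ?_⟩
      intro l' h1 h2
      have : l' = lev G v0 a := le_antisymm h2 h1
      rw [this, anc_self]; exact ha
    · omega
  | succ n ih =>
    intro a ha hn
    rcases hbot a ha with h | ⟨h, hp⟩
    · refine ⟨lev G v0 a, le_rfl, by rw [anc_self]; exact h, ?_⟩
      intro l' h1 h2
      have : l' = lev G v0 a := le_antisymm h2 h1
      rw [this, anc_self]; exact ha
    · have hpa : par G v0 a = anc G v0 a n := by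
        have := par_anc_succ (G := G) hc (v0 := v0) (v := a) (i := n) (by omega)
        rw [← hn, anc_self] at this
        exact this
      have hlp : lev G v0 (par G v0 a) = n := by
        rw [hpa]; exact lev_anc hc (by omega)
      obtain ⟨l, h1, h2, h3⟩ := ih _ hp hlp
      have key : ∀ j, j ≤ n → anc G v0 (par G v0 a) j = anc G v0 a j := by
        intro j hj
        rw [hpa]
        exact anc_anc hc hj (by omega)
      refine ⟨l, by omega, by rw [← key l (by omega)]; exact h2, ?_⟩
      intro l' h4 h5
      rcases Nat.lt_or_ge l' (n+1) with h6 | h6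
      · rw [← key l' (by omega)]
        exact h3 l' h4 (by omega)
      · have : l' = lev G v0 a := by omega
        rw [this, anc_self]; exact ha

open Classical in
omit [Fintype V] in
private theorem ot3_double {A B : Finset V} (X : V → Finset V) (g : V → ℕ)
    (hX : ∀ a ∈ A, X a ⊆ B) (h2 : ∀ x ∈ B, (A.filter (fun a => x ∈ X a)).card ≤ 2) :
    ∑ a ∈ A, ∑ x ∈ X a, g x ≤ 2 * ∑ x ∈ B, g x := by
  rw [Finset.sum_comm' (s' := fun x => A.filter (fun a => x ∈ X a)) (t' := B)
    (by
      intro a x
      rw [Finset.mem_filter]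
      constructor
      · rintro ⟨h1, h3⟩
        exact ⟨⟨h1, h3⟩, hX a h1 h3⟩
      · rintro ⟨⟨h1, h3⟩, -⟩
        exact ⟨h1, h3⟩), Finset.mul_sum]
  apply Finset.sum_le_sum
  intro x hx
  rw [Finset.sum_const, smul_eq_mul]
  exact Nat.mul_le_mul_right _ (h2 x hx)

open Classical in
omit [Fintype V] in
private theorem ot3_par (m : V → ℕ) {A : Finset V} {X : V → Finset V} {x : V}
    (h : ∀ a ∈ A, ∀ a' ∈ A, x ∈ X a → x ∈ X a' → m a % 2 = m a' % 2 → m a ≤ m a' → a = a') :
    (A.filter (fun a => x ∈ X a)).card ≤ 2 := by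
  have : (A.filter (fun a => x ∈ X a)).card ≤ (Finset.range 2).card := by
    apply Finset.card_le_card_of_injOn (fun a => m a % 2)
    · intro a _
      simp only [Finset.mem_coe, Finset.mem_range]
      omega
    · intro a ha a' ha' he
      rw [Finset.mem_coe, Finset.mem_filter] at ha ha'
      rcases le_total (m a) (m a') with hle | hle
      · exact h a ha.1 a' ha'.1 ha.2 ha'.2 he hle
      · exact (h a' ha'.1 a ha.1 ha'.2 ha.2 he.symm hle).symm
  rwa [Finset.card_range] at this

open Classical in
/-- Proof (compare `T3.lean`, whose private lemmas `t3_agree`, `t3_bot` can be copied).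
`T = {x ∈ Se : 2 |Nb x| < k}`. By `hsep` (`r ≥ 2`) two different elements of `Se` of the same level
have different parents, so `Se` is a union of disjoint vertical paths (strands); every `x ∈ Se` has
a bottom `β x ∈ Bot` (iterate `par` inside `Se`), and if `β x = β x'`, `lev x ≤ lev x'` then
`anc x' (lev x) = x` (and all the intermediate `anc x' l` are in `Se`).
For `a ∈ T` let `Ab a` be the set of the `b ∈ T` with `lev a + 2 ≤ lev b ≤ lev a + G0`,
`anc b (lev a) = a` and `anc b l ∈ Se` for `lev a ≤ l ≤ lev b`.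
`T3 = {a ∈ T : 1 ≤ lev a, Ab a ≠ ∅}`, `T0 = T \ T3`.
`t0 = |T0|`: the `a ∈ T` of level `0` are in `Bot`. If `Ab a = ∅` let `c_i a` (`i < G0`) be the
element of `Se` at level `lev a + i` on the strand of `a` (if it exists). If `c_{G0-1} a` exists, `a`
gets the `G0` vertices `c_i a`; no `c ∈ Se` is used by three different `a, a', a''`
(`lev a < lev a' < lev a''` would give `a'' ∈ Ab a`). Otherwise the strand of `a` ends less than
`G0` levels above `a`; at most two such `a` have the same bottom (same reason). Altogether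
`G0 t0 ≤ 2 |Se| + 2 G0 |Bot| + G0 |Bot|`.
`t3 = |T3|`: for `a ∈ T3` let `b(a) ∈ Ab a` be of least level and
`I(a) = {anc b(a) l : lev a < l < lev b(a)} ⊆ Se`. `escape2` gives `N` vertices in the union of the
`Nb c`, `c ∈ I(a)`, so `N ≤ Σ_{I(a)} |Nb c| ≤ (G0 - 1) (k + 1)/2 + Σ_{I(a)} f c`,
`f c = |Nb c| - (k + 1)/2`, hence `N - G0 k ≤ Σ_{I(a)} f c`. No `c ∈ Se` is in `I(a)` for three
different `a, a', a'' ∈ T3` (otherwise `a'' ∈ Ab a` is lower than `b(a)`). Sum over `T3`. -/
theorem thin2_count2 {k s r G0 N : ℕ} (hk : KConn G k) (hc : G.Connected) (hk1 : 1 ≤ k)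
    (hs : G0 + N ≤ s) (hr : 2 ≤ r) (hG : 2 ≤ G0) {v0 : V} {Se Bot : Finset V}
    (hsep : ∀ x ∈ Se, ∀ y ∈ Se, lev G v0 x = lev G v0 y → x ≠ y → r < G.dist x y)
    (hbot : ∀ x ∈ Se, x ∈ Bot ∨ (0 < lev G v0 x ∧ par G v0 x ∈ Se)) :
    ∃ t0 t3 : ℕ, (Se.filter (fun x => 2 * (Nb G v0 s x).card < k)).card ≤ t0 + t3 ∧
      G0 * t0 ≤ 2 * Se.card + 4 * G0 * Bot.card ∧
      (N - G0 * k) * t3 ≤ 2 * ∑ x ∈ Se, ((Nb G v0 s x).card - (k + 1) / 2) := by
  set T := Se.filter (fun x => 2 * (Nb G v0 s x).card < k) with hT
  -- bottoms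
  have hb : ∀ a : V, ∃ l, a ∈ Se → l ≤ lev G v0 a ∧ anc G v0 a l ∈ Bot ∧
      ∀ l', l ≤ l' → l' ≤ lev G v0 a → anc G v0 a l' ∈ Se := by
    intro a
    by_cases ha : a ∈ Se
    · obtain ⟨l, h⟩ := ot3_bot hc hbot _ a ha rfl
      exact ⟨l, fun _ => h⟩
    · exact ⟨0, fun h => absurd h ha⟩
  choose lb hlb using hb
  -- two elements with the same bottom
  have hsame : ∀ a ∈ Se, ∀ a' ∈ Se, anc G v0 a (lb a) = anc G v0 a' (lb a') →
      lev G v0 a ≤ lev G v0 a' → lb a = lb a' ∧ anc G v0 a' (lev G v0 a) = a := by
    intro a ha a' ha' he hle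
    obtain ⟨h1, -, h3⟩ := hlb a ha
    obtain ⟨h1', -, h3'⟩ := hlb a' ha'
    have hll : lb a = lb a' := by
      have := congrArg (lev G v0) he
      rwa [lev_anc hc h1, lev_anc hc h1'] at this
    refine ⟨hll, ?_⟩
    have := ot3_agree hc hr hsep (x := a) (y := a') (l := lb a) (m := lev G v0 a) h1 le_rfl hle
      (by rw [he, hll]) (fun l' h4 h5 => h3 l' h4 h5)
      (fun l' h4 h5 => h3' l' (by omega) (by omega))
    rw [← this, anc_self]
  -- cand
  let cand : V → Finset V := fun a => T.filter (fun b => lev G v0 a + 2 ≤ lev G v0 b ∧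
    lev G v0 b ≤ lev G v0 a + G0 ∧
    anc G v0 b (lev G v0 a) = a ∧ ∀ l, lev G v0 a ≤ l → l ≤ lev G v0 b → anc G v0 b l ∈ Se)
  have hmemT : ∀ a, a ∈ T → a ∈ Se ∧ 2 * (Nb G v0 s a).card < k := by
    intro a ha
    rw [hT, Finset.mem_filter] at ha
    exact ha
  have hcand : ∀ a, ∀ a' ∈ T, ∀ c, lev G v0 a' ≤ lev G v0 c → anc G v0 c (lev G v0 a) = a →
      anc G v0 c (lev G v0 a') = a' →
      (∀ l, lev G v0 a ≤ l → l ≤ lev G v0 a' → anc G v0 c l ∈ Se) →
      lev G v0 a + 2 ≤ lev G v0 a' → lev G v0 a' ≤ lev G v0 a + G0 → a' ∈ cand a := by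
    intro a a' ha' c h1 h2 h3 h4 h5 h6
    have key : ∀ l, l ≤ lev G v0 a' → anc G v0 a' l = anc G v0 c l := by
      intro l hl
      have := anc_anc (G := G) hc (v0 := v0) (v := c) (i := lev G v0 a') (j := l) hl h1
      rwa [h3] at this
    refine Finset.mem_filter.mpr ⟨ha', h5, h6, ?_, ?_⟩
    · rw [key _ (by omega), h2]
    · intro l h7 h8
      rw [key l h8]
      exact h4 l h7 h8
  let up : V → V → Prop := fun a c => lev G v0 c = lev G v0 a + (G0 - 1) ∧
    anc G v0 c (lev G v0 a) = a ∧ ∀ l, lev G v0 a ≤ l → l ≤ lev G v0 c → anc G v0 c l ∈ Se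
  let Z := T.filter (fun a => lev G v0 a = 0)
  let Y1 := T.filter (fun a => cand a = ∅ ∧ ∃ c, up a c)
  let Y2 := T.filter (fun a => cand a = ∅ ∧ ¬ ∃ c, up a c)
  let T3 := T.filter (fun a => 1 ≤ lev G v0 a ∧ cand a ≠ ∅)
  have hcov : T ⊆ Z ∪ Y1 ∪ Y2 ∪ T3 := by
    intro a ha
    rcases Nat.eq_zero_or_pos (lev G v0 a) with h0 | h0
    · exact Finset.mem_union_left _ (Finset.mem_union_left _ (Finset.mem_union_left _
        (Finset.mem_filter.mpr ⟨ha, h0⟩)))
    · by_cases h1 : cand a = ∅
      · by_cases h2 : ∃ c, up a c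
        · exact Finset.mem_union_left _ (Finset.mem_union_left _ (Finset.mem_union_right _
            (Finset.mem_filter.mpr ⟨ha, h1, h2⟩)))
        · exact Finset.mem_union_left _ (Finset.mem_union_right _
            (Finset.mem_filter.mpr ⟨ha, h1, h2⟩))
      · exact Finset.mem_union_right _ (Finset.mem_filter.mpr ⟨ha, h0, h1⟩)
  refine ⟨Z.card + Y1.card + Y2.card, T3.card, ?_, ?_, ?_⟩
  · refine (Finset.card_le_card hcov).trans ?_
    have e1 := Finset.card_union_le (Z ∪ Y1 ∪ Y2) T3
    have e2 := Finset.card_union_le (Z ∪ Y1) Y2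
    have e3 := Finset.card_union_le Z Y1
    omega
  · have hZ : Z.card ≤ Bot.card := by
      apply Finset.card_le_card
      intro a ha
      have ha1 := Finset.mem_filter.mp ha
      rcases hbot a (hmemT a ha1.1).1 with h | ⟨h, -⟩
      · exact h
      · have := ha1.2
        omega
    have hY2 : Y2.card ≤ 2 * Bot.card := by
      have : Y2.card ≤ (Bot ×ˢ Finset.range 2).card := by
        apply Finset.card_le_card_of_injOn (fun a => (anc G v0 a (lb a), lev G v0 a % 2))
        · intro a ha
          have ha1 := (Finset.mem_filter.mp (Finset.mem_coe.mp ha))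
          obtain ⟨h1, h2, h3⟩ := hlb a (hmemT a ha1.1).1
          simp only [Finset.coe_product, Set.mem_prod, Finset.mem_coe, Finset.mem_range]
          exact ⟨h2, by omega⟩
        · have main : ∀ a ∈ Y2, ∀ a' ∈ Y2, anc G v0 a (lb a) = anc G v0 a' (lb a') →
              lev G v0 a % 2 = lev G v0 a' % 2 → lev G v0 a ≤ lev G v0 a' → a = a' := by
            intro a ha a' ha' he1 he2 hle
            have ha1 := (Finset.mem_filter.mp ha)
            have ha1' := (Finset.mem_filter.mp ha')
            have hs := (hmemT a ha1.1).1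
            have hs' := (hmemT a' ha1'.1).1
            obtain ⟨h1, h2⟩ := hsame a hs a' hs' he1 hle
            have h3 := (hlb a' hs').2.2
            have h3' := (hlb a hs).1
            rcases Nat.lt_or_ge (lev G v0 a) (lev G v0 a') with hlt | hge
            · exfalso
              rcases Nat.lt_or_ge (lev G v0 a') (lev G v0 a + (G0 - 1)) with hl2 | hl2
              · have hc' : a' ∈ cand a := by
                  refine hcand a a' ha1'.1 a' le_rfl h2 (anc_self _ _) ?_ (by omega) (by omega)
                  intro l h4 h5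
                  exact h3 l (by omega) h5
                rw [ha1.2.1] at hc'
                simp at hc'
              · apply ha1.2.2
                have hlc : lev G v0 (anc G v0 a' (lev G v0 a + (G0 - 1))) =
                    lev G v0 a + (G0 - 1) := lev_anc hc hl2
                have haa : ∀ l, l ≤ lev G v0 a + (G0 - 1) →
                    anc G v0 (anc G v0 a' (lev G v0 a + (G0 - 1))) l = anc G v0 a' l := by
                  intro l hl
                  exact anc_anc hc hl hl2
                refine ⟨anc G v0 a' (lev G v0 a + (G0 - 1)), hlc, ?_, ?_⟩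
                · rw [haa _ (by omega), h2]
                · intro l h4 h5
                  rw [hlc] at h5
                  rw [haa _ h5]
                  exact h3 l (by omega) (by omega)
            · have : lev G v0 a = lev G v0 a' := by omega
              rw [this, anc_self] at h2
              exact h2.symm
          intro a ha a' ha' he
          simp only [Prod.mk.injEq] at he
          obtain ⟨he1, he2⟩ := he
          rcases le_total (lev G v0 a) (lev G v0 a') with hle | hle
          · exact main a (Finset.mem_coe.mp ha) a' (Finset.mem_coe.mp ha') he1 he2 hle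
          · exact (main a' (Finset.mem_coe.mp ha') a (Finset.mem_coe.mp ha) he1.symm he2.symm
              hle).symm
      rw [Finset.card_product, Finset.card_range] at this
      linarith [this, Nat.mul_comm Bot.card 2]
    -- Y1
    have hupex : ∀ a : V, ∃ c : V, a ∈ Y1 → up a c := by
      intro a
      by_cases ha : a ∈ Y1
      · obtain ⟨c, hc'⟩ := (Finset.mem_filter.mp ha).2.2
        exact ⟨c, fun _ => hc'⟩
      · exact ⟨a, fun h => absurd h ha⟩
    choose cc hcc using hupex
    have hY1 : G0 * Y1.card ≤ 2 * Se.card := by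
      let X : V → Finset V := fun a =>
        (Finset.range G0).image (fun i => anc G v0 (cc a) (lev G v0 a + i))
      have hXc : ∀ a ∈ Y1, (X a).card = G0 := by
        intro a ha
        have h1 := (hcc a ha).1
        change ((Finset.range G0).image _).card = G0
        rw [Finset.card_image_of_injOn, Finset.card_range]
        intro i hi j hj hij
        have hi' : i < G0 := Finset.mem_range.1 hi
        have hj' : j < G0 := Finset.mem_range.1 hj
        have h2 := congrArg (lev G v0) hij
        simp only at h2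
        rw [lev_anc hc (by omega), lev_anc hc (by omega)] at h2
        omega
      have hXs : ∀ a ∈ Y1, X a ⊆ Se := by
        intro a ha x hx
        obtain ⟨i, hi, rfl⟩ := Finset.mem_image.1 hx
        have hi' : i < G0 := Finset.mem_range.1 hi
        have h1 := hcc a ha
        exact h1.2.2 _ (by omega) (by rw [h1.1]; omega)
      have h2 : ∀ x ∈ Se, (Y1.filter (fun a => x ∈ X a)).card ≤ 2 := by
        intro x _
        apply ot3_par (lev G v0)
        intro a ha a' ha' hx hx' hpar hle
        obtain ⟨i, hi, hix⟩ := Finset.mem_image.1 hx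
        obtain ⟨i', hi', hix'⟩ := Finset.mem_image.1 hx'
        have hi1 : i < G0 := Finset.mem_range.1 hi
        have hi1' : i' < G0 := Finset.mem_range.1 hi'
        have u := hcc a ha
        have u' := hcc a' ha'
        have l1 : lev G v0 x = lev G v0 a + i := by
          rw [← hix]; exact lev_anc hc (by rw [u.1]; omega)
        have l1' : lev G v0 x = lev G v0 a' + i' := by
          rw [← hix']; exact lev_anc hc (by rw [u'.1]; omega)
        have k1 : ∀ l, l ≤ lev G v0 x → anc G v0 x l = anc G v0 (cc a) l := by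
          intro l hl
          have := anc_anc (G := G) hc (v0 := v0) (v := cc a) (i := lev G v0 a + i) (j := l)
            (by omega) (by rw [u.1]; omega)
          rwa [hix] at this
        have k1' : ∀ l, l ≤ lev G v0 x → anc G v0 x l = anc G v0 (cc a') l := by
          intro l hl
          have := anc_anc (G := G) hc (v0 := v0) (v := cc a') (i := lev G v0 a' + i') (j := l)
            (by omega) (by rw [u'.1]; omega)
          rwa [hix'] at this
        have ea : anc G v0 x (lev G v0 a) = a := by rw [k1 _ (by omega), u.2.1]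
        have ea' : anc G v0 x (lev G v0 a') = a' := by rw [k1' _ (by omega), u'.2.1]
        rcases Nat.lt_or_ge (lev G v0 a) (lev G v0 a') with hlt | hge
        · exfalso
          have hc' : a' ∈ cand a := by
            refine hcand a a' (Finset.mem_filter.mp ha').1 x (by omega) ea ea' ?_ (by omega)
              (by omega)
            intro l h4 h5
            rw [k1 l (by omega)]
            exact u.2.2 l h4 (by rw [u.1]; omega)
          rw [(Finset.mem_filter.mp ha).2.1] at hc'
          simp at hc'
        · have : lev G v0 a = lev G v0 a' := by omega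
          rw [← ea, this, ea']
      have h3 := ot3_double X (fun _ => 1) hXs h2
      simp only [Finset.sum_const, smul_eq_mul, mul_one] at h3
      rw [Finset.sum_congr rfl hXc, Finset.sum_const, smul_eq_mul] at h3
      rw [Nat.mul_comm]
      exact h3
    have e1 := Nat.mul_le_mul_left G0 hZ
    have e2 := Nat.mul_le_mul_left G0 hY2
    have e3 : G0 * (Z.card + Y1.card + Y2.card) = G0 * Z.card + G0 * Y1.card + G0 * Y2.card := by
      ring
    have e4 : G0 * (2 * Bot.card) = 2 * (G0 * Bot.card) := by ring
    have e5 : 4 * G0 * Bot.card = 4 * (G0 * Bot.card) := by ring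
    rw [e3, e5]
    rw [e4] at e2
    omega
  · -- the least candidate
    have hbex : ∀ a : V, ∃ b : V, a ∈ T3 → b ∈ cand a ∧
        ∀ b' ∈ cand a, lev G v0 b ≤ lev G v0 b' := by
      intro a
      by_cases ha : a ∈ T3
      · have ha1 := Finset.mem_filter.mp ha
        obtain ⟨b, hb1, hb2⟩ := Finset.exists_min_image (cand a) (lev G v0)
          (Finset.nonempty_iff_ne_empty.mpr ha1.2.2)
        exact ⟨b, fun _ => ⟨hb1, hb2⟩⟩
      · exact ⟨a, fun h => absurd h ha⟩
    choose bb hbb using hbex
    let X : V → Finset V := fun a =>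
      (Finset.Ioo (lev G v0 a) (lev G v0 (bb a))).image (fun l => anc G v0 (bb a) l)
    have hXs : ∀ a ∈ T3, X a ⊆ Se := by
      intro a ha x hx
      obtain ⟨l, hl, rfl⟩ := Finset.mem_image.1 hx
      rw [Finset.mem_Ioo] at hl
      exact (Finset.mem_filter.mp (hbb a ha).1).2.2.2.2 l (by omega) (by omega)
    have h2 : ∀ x ∈ Se, (T3.filter (fun a => x ∈ X a)).card ≤ 2 := by
      intro x _
      apply ot3_par (lev G v0)
      intro a ha a' ha' hx hx' hpar hle
      obtain ⟨l0, hl0, hlx⟩ := Finset.mem_image.1 hx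
      obtain ⟨l0', hl0', hlx'⟩ := Finset.mem_image.1 hx'
      rw [Finset.mem_Ioo] at hl0 hl0'
      have u := (Finset.mem_filter.mp (hbb a ha).1)
      have u' := (Finset.mem_filter.mp (hbb a' ha').1)
      have l1 : lev G v0 x = l0 := by
        rw [← hlx]; exact lev_anc hc (by omega)
      have l1' : lev G v0 x = l0' := by
        rw [← hlx']; exact lev_anc hc (by omega)
      have k1 : ∀ l, l ≤ lev G v0 x → anc G v0 x l = anc G v0 (bb a) l := by
        intro l hl
        have := anc_anc (G := G) hc (v0 := v0) (v := bb a) (i := l0) (j := l)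
          (by omega) (by omega)
        rwa [hlx] at this
      have k1' : ∀ l, l ≤ lev G v0 x → anc G v0 x l = anc G v0 (bb a') l := by
        intro l hl
        have := anc_anc (G := G) hc (v0 := v0) (v := bb a') (i := l0') (j := l)
          (by omega) (by omega)
        rwa [hlx'] at this
      have ea : anc G v0 x (lev G v0 a) = a := by rw [k1 _ (by omega), u.2.2.2.1]
      have ea' : anc G v0 x (lev G v0 a') = a' := by rw [k1' _ (by omega), u'.2.2.2.1]
      rcases Nat.lt_or_ge (lev G v0 a) (lev G v0 a') with hlt | hge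
      · exfalso
        have hle' := u.2.2.1
        have hc' : a' ∈ cand a := by
          refine hcand a a' (Finset.mem_filter.mp ha').1 x (by omega) ea ea' ?_ (by omega)
            (by omega)
          intro l h4 h5
          rw [k1 l (by omega)]
          exact u.2.2.2.2 l h4 (by omega)
        have := (hbb a ha).2 a' hc'
        omega
      · have : lev G v0 a = lev G v0 a' := by omega
        rw [← ea, this, ea']
    have h3 := ot3_double X (fun x => (Nb G v0 s x).card - (k + 1) / 2) hXs h2
    have h4 : ∀ a ∈ T3, N - G0 * k ≤ ∑ x ∈ X a, ((Nb G v0 s x).card - (k + 1) / 2) := by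
      intro a ha
      have ha1 := Finset.mem_filter.mp ha
      have u := (Finset.mem_filter.mp (hbb a ha).1)
      have t1 := (hmemT a ha1.1).2
      have t2 := (hmemT _ u.1).2
      obtain ⟨Y, hY, hY2⟩ := escape2 (N := N) hk hc hs (v0 := v0) (a := a) (b := bb a)
        (by omega) ha1.2.1 u.2.1 u.2.2.1 u.2.2.2.1
      have hYs : Y ⊆ (X a).biUnion (fun c => Nb G v0 s c) := by
        intro y hy
        obtain ⟨q1, q2, q3⟩ := hY2 y hy
        exact Finset.mem_biUnion.mpr ⟨anc G v0 (bb a) (lev G v0 y),
          Finset.mem_image.mpr ⟨lev G v0 y, Finset.mem_Ioo.mpr ⟨q1, q2⟩, rfl⟩, q3⟩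
      have h5 : N ≤ ∑ x ∈ X a, (Nb G v0 s x).card := by
        rw [← hY]
        exact (Finset.card_le_card hYs).trans Finset.card_biUnion_le
      have h6 : ∑ x ∈ X a, (Nb G v0 s x).card ≤
          ∑ x ∈ X a, ((k + 1) / 2 + ((Nb G v0 s x).card - (k + 1) / 2)) := by
        apply Finset.sum_le_sum
        intro x _
        omega
      rw [Finset.sum_add_distrib, Finset.sum_const, smul_eq_mul] at h6
      have h7 : (X a).card ≤ G0 := by
        refine Finset.card_image_le.trans ?_
        rw [Nat.card_Ioo]
        have := u.2.2.1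
        omega
      have h8 : (X a).card * ((k + 1) / 2) ≤ G0 * k :=
        Nat.mul_le_mul h7 (by omega)
      omega
    calc (N - G0 * k) * T3.card = ∑ a ∈ T3, (N - G0 * k) := by
          rw [Finset.sum_const, smul_eq_mul, Nat.mul_comm]
      _ ≤ ∑ a ∈ T3, ∑ x ∈ X a, ((Nb G v0 s x).card - (k + 1) / 2) := Finset.sum_le_sum h4
      _ ≤ _ := h3

end Pool.Agent.RBC
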