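import Pool.Agent.MP_dd54b8_co.OW
import Pool.Agent.MP_dd54b8_co.OT3

set_option autoImplicit false

/-! The final count, `k` odd. -/

namespace Pool.Agent.RBC

open SimpleGraph

variable {V : Type} [Fintype V] {G : SimpleGraph V}

open Classical in
theorem count_odd {k : ℕ} (hk : KConn G k) (hc : G.Connected) (hk3 : 3 ≤ k) (hodd : k % 2 = 1)
    (v0 : V) {ρ0 ρ R r s G0 N J Λ : ℕ} {Sp Se Bot End : Finset V} {q ov m e1 : ℕ}
    (hρ : ρ0 ≤ ρ) (h5 : 5 * k ≤ ρ0) (hs : (k + 1) * ρ ≤ s) (hsN : G0 + N ≤ s) (hr2 : 2 ≤ r)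
    (hsr : 2 * s ≤ r) (hG0 : G0 = 40 * (k + 1)) (hN : 20 * (k + 1) + G0 * k ≤ N)
    (hJ : 80 * k ^ 3 ≤ J) (hΛ : 100 * (k + 1) ≤ Λ) (hdisj : Disjoint Sp Se)
    (hsep : ∀ x, (x ∈ Sp ∨ x ∈ Se) → ∀ y, (y ∈ Sp ∨ y ∈ Se) → lev G v0 x = lev G v0 y →
      x ≠ y → r < G.dist x y)
    (hpend : ∀ x ∈ Sp, ¬ (Iso G v0 ρ R x ∧ (arm G v0 ρ x).card < k))
    (hpe : PEnd G v0 Sp End)
    (hbot : ∀ x ∈ Se, x ∈ Bot ∨ (0 < lev G v0 x ∧ par G v0 x ∈ Se))
    (hcost : 2 * q + 2 * m ≤ 2 * Sp.card + Se.card + 2 * ov)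
    (hov : Λ * ov ≤ Se.card) (hBot : Λ * Bot.card ≤ Se.card) (hE : End.card ≤ e1 + 2 * m)
    (he1 : Λ * e1 ≤ Se.card)
    (hbad : J * (Finset.univ.filter (fun x => (arm G v0 ρ x).card < k ∧
        ¬ Iso G v0 ρ R x)).card ≤
      (k - 1) * (Finset.univ.filter (fun x => (arm G v0 ρ0 x).card < k)).card) :
    k * q ≤ Fintype.card V := by
  have hsepP : ∀ x ∈ Sp, ∀ y ∈ Sp, lev G v0 x = lev G v0 y → x ≠ y → r < G.dist x y :=
    fun x hx y hy => hsep x (Or.inl hx) y (Or.inl hy)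
  have hsepE : ∀ x ∈ Se, ∀ y ∈ Se, lev G v0 x = lev G v0 y → x ≠ y → r < G.dist x y :=
    fun x hx y hy => hsep x (Or.inr hx) y (Or.inr hy)
  have hW := thin_count hk hc hodd hρ hs h5 hr2 hsr hsepP hpe
  obtain ⟨t0, t3, ht, ht0, ht3⟩ := thin2_count2 hk hc (by omega) hsN hr2 (by omega) hsepE hbot
  set n := Fintype.card V with hn
  set A := ∑ x ∈ Sp, (Nb G v0 s x).card with hA
  set B := ∑ x ∈ Se, (Nb G v0 s x).card with hB
  set u1 := ∑ x ∈ Sp, ((Nb G v0 s x).card - k) with hu1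
  set u2 := ∑ x ∈ Se, ((Nb G v0 s x).card - (k + 1) / 2) with hu2
  set b := (Sp.filter (fun x => (arm G v0 ρ x).card < k)).card with hb
  set t := (Se.filter (fun x => 2 * (Nb G v0 s x).card < k)).card with htdef
  set W := (Finset.univ.filter (fun x => (arm G v0 ρ0 x).card < k)).card with hWdef
  set bad := (Finset.univ.filter (fun x => (arm G v0 ρ x).card < k ∧
        ¬ Iso G v0 ρ R x)).card with hbaddef
  -- disjoint balls
  have e1' : A + B ≤ n := by
    have h1 : ∑ x ∈ Sp ∪ Se, (Nb G v0 s x).card = A + B := Finset.sum_union hdisj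
    rw [← h1, ← Finset.card_biUnion]
    · exact Finset.card_le_univ _
    · intro x hx y hy hne
      refine Nb_disjoint hc hsr (fun hl => ?_)
      exact hsep x (Finset.mem_union.1 hx) y (Finset.mem_union.1 hy) hl hne
  -- pendant strands
  have e2' : k * Sp.card + u1 ≤ A + k * b := by
    have h1 : ∑ x ∈ Sp, (k + ((Nb G v0 s x).card - k)) ≤
        ∑ x ∈ Sp, ((Nb G v0 s x).card + k * (if (arm G v0 ρ x).card < k then 1 else 0)) := by
      refine Finset.sum_le_sum (fun x _ => ?_)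
      split_ifs with h
      · omega
      · have := Nb_card_of_thick hc hs (not_lt.1 h)
        omega
    rw [Finset.sum_add_distrib, Finset.sum_const, smul_eq_mul, Finset.sum_add_distrib,
      ← Finset.mul_sum, ← Finset.card_filter] at h1
    rw [mul_comm k Sp.card]
    exact h1
  -- ear strands
  have e3' : (k + 1) * Se.card + 2 * u2 ≤ 2 * B + (k + 1) * t := by
    have h1 : ∑ x ∈ Se, ((k + 1) + 2 * ((Nb G v0 s x).card - (k + 1) / 2)) ≤
        ∑ x ∈ Se, (2 * (Nb G v0 s x).card +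
          (k + 1) * (if 2 * (Nb G v0 s x).card < k then 1 else 0)) := by
      refine Finset.sum_le_sum (fun x _ => ?_)
      split_ifs with h
      · omega
      · omega
    rw [Finset.sum_add_distrib, Finset.sum_const, smul_eq_mul, Finset.sum_add_distrib,
      ← Finset.mul_sum, ← Finset.mul_sum, ← Finset.mul_sum, ← Finset.card_filter] at h1
    rw [mul_comm (k + 1) Se.card]
    exact h1
  have e4' : 2 * B ≤ (k + 1) * Se.card + 2 * u2 := by
    have h1 : ∑ x ∈ Se, (2 * (Nb G v0 s x).card) ≤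
        ∑ x ∈ Se, ((k + 1) + 2 * ((Nb G v0 s x).card - (k + 1) / 2)) := by
      refine Finset.sum_le_sum (fun x _ => ?_)
      omega
    rw [Finset.sum_add_distrib, Finset.sum_const, smul_eq_mul, ← Finset.mul_sum,
      ← Finset.mul_sum] at h1
    rw [mul_comm (k + 1) Se.card]
    exact h1
  have e5' : b ≤ bad := by
    rw [hb, hbaddef]
    apply Finset.card_le_card
    intro x hx
    rw [Finset.mem_filter] at hx ⊢
    exact ⟨Finset.mem_univ _, hx.2, fun hi => hpend x hx.1 ⟨hi, hx.2⟩⟩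
  have hk0 : 0 < k := by omega
  have e6' : 80 * (k * (k * b)) ≤ W := by
    have h1 : k * (80 * (k * (k * b))) ≤ k * W := by
      calc k * (80 * (k * (k * b))) = 80 * k ^ 3 * b := by ring
        _ ≤ J * bad := Nat.mul_le_mul hJ e5'
        _ ≤ (k - 1) * W := hbad
        _ ≤ k * W := Nat.mul_le_mul_right _ (Nat.sub_le _ _)
    exact Nat.le_of_mul_le_mul_left h1 hk0
  -- products
  have p1 : k * (5 * (u1 + b) + 3 * End.card) = 5 * (k * u1) + 5 * (k * b) + 3 * (k * End.card) := by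
    ring
  rw [p1] at hW
  have p2 : k * b ≤ k * (k * b) := Nat.le_mul_of_pos_left _ hk0
  -- 150 k (k b) ≤ ...
  have e7 : 150 * (k * (k * b)) ≤ 2 * (n - A - B) + (k + 1) * Se.card + 2 * u2 + 12 * (k * u1) +
      6 * (k * End.card) := by
    have p3 : u1 ≤ k * u1 := Nat.le_mul_of_pos_left _ hk0
    omega
  have e8 : 150 * (k * b) ≤ (n - A - B) + 2 * Se.card + u2 + 12 * u1 + 6 * End.card := by
    have h1 : k * (150 * (k * b)) ≤
        k * ((n - A - B) + 2 * Se.card + u2 + 12 * u1 + 6 * End.card) := by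
      have a1 : 2 * (n - A - B) ≤ k * (n - A - B) := Nat.mul_le_mul_right _ (by omega)
      have a2 : (k + 1) * Se.card ≤ k * (2 * Se.card) := by nlinarith [Nat.zero_le Se.card]
      have a3 : 2 * u2 ≤ k * u2 := Nat.mul_le_mul_right _ (by omega)
      calc k * (150 * (k * b)) = 150 * (k * (k * b)) := by ring
        _ ≤ _ := e7
        _ ≤ k * (n - A - B) + k * (2 * Se.card) + k * u2 + 12 * (k * u1) +
              6 * (k * End.card) := by omega
        _ = _ := by ring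
    exact Nat.le_of_mul_le_mul_left h1 hk0
  have e9 : 100 * ((k + 1) * Bot.card) ≤ Se.card := by
    calc 100 * ((k + 1) * Bot.card) = 100 * (k + 1) * Bot.card := by ring
      _ ≤ Λ * Bot.card := Nat.mul_le_mul_right _ hΛ
      _ ≤ _ := hBot
  have e10 : 40 * ((k + 1) * t0) ≤ 2 * Se.card + 160 * ((k + 1) * Bot.card) := by
    rw [hG0] at ht0
    calc 40 * ((k + 1) * t0) = 40 * (k + 1) * t0 := by ring
      _ ≤ _ := ht0
      _ = _ := by ring
  have e11 : 20 * ((k + 1) * t3) ≤ 2 * u2 := by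
    refine le_trans ?_ ht3
    rw [← mul_assoc]
    exact Nat.mul_le_mul_right _ (by omega)
  have e12 : 100 * (k * ov) ≤ Se.card := by
    calc 100 * (k * ov) = 100 * k * ov := by ring
      _ ≤ Λ * ov := Nat.mul_le_mul_right _ (by omega)
      _ ≤ _ := hov
  have e13 : 400 * e1 ≤ Se.card := (Nat.mul_le_mul_right _ (by omega)).trans he1
  have e14 : (k + 1) * t ≤ (k + 1) * t0 + (k + 1) * t3 := by
    rw [← mul_add]; exact Nat.mul_le_mul_left _ ht
  have e15 : 2 * (k * q) + 2 * (k * m) ≤ 2 * (k * Sp.card) + k * Se.card + 2 * (k * ov) := by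
    calc 2 * (k * q) + 2 * (k * m) = k * (2 * q + 2 * m) := by ring
      _ ≤ k * (2 * Sp.card + Se.card + 2 * ov) := Nat.mul_le_mul_left _ hcost
      _ = _ := by ring
  have e16 : (k + 1) * Se.card = k * Se.card + Se.card := by ring
  have e17 : m ≤ k * m := Nat.le_mul_of_pos_left _ hk0
  omega

end Pool.Agent.RBC
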