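import Pool.Agent.MP_dd54b8_co.OM1

set_option autoImplicit false

/-! Task [RBO-P]: phase 2, pendant paths only, with exact cost. -/

namespace Pool.Agent.RBC

open SimpleGraph

variable {V : Type} [Fintype V] (G : SimpleGraph V)

/-- State of phase 2. `H1` is the final `H` of phase 1, `Hv` the virtual set, `D ⊆ Hv` the coloured
set (the top `C4 + 1` levels of each new pendant path are only virtual), `m` the number of the new
pendant paths, `Lc` the level of the last chosen far vertex. -/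
structure StP (v0 : V) (k ρ R r C4 C : ℕ) (H1 Se Hv D Sp End : Finset V)
    (q m Lc ov e1 : ℕ) : Prop where
  DH : D ⊆ Hv
  H1D : H1 ⊆ D
  rb : Rb G (↑D : Set V) q
  subp : Sp ⊆ Hv
  disj : Disjoint Sp Se
  sep : ∀ x, (x ∈ Sp ∨ x ∈ Se) → ∀ y, (y ∈ Sp ∨ y ∈ Se) → lev G v0 x = lev G v0 y → x ≠ y →
    r < G.dist x y
  pend : ∀ x ∈ Sp, ¬ (Iso G v0 ρ R x ∧ (arm G v0 ρ x).card < k)
  pe : PEnd G v0 Sp End
  near : ∀ y ∈ Hv, ∃ z ∈ D, G.dist y z ≤ C4 + 2
  top : ∀ y ∈ Hv, y ∉ D → Lc < lev G v0 y + (C4 + 2)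
  far : ∀ w, (∀ y ∈ Hv, C < G.dist w y) → lev G v0 w ≤ Lc
  cost : 2 * q + 2 * m ≤ 2 * Sp.card + Se.card + 2 * ov
  endc : End.card ≤ e1 + 2 * m

variable {G}

/-- One step of phase 2. Proof (compare `S1.lean`, `PA.lean`). Let `w` be a far vertex of maximal
level, `C4 = C3 + k ρ`. Let `i3 ≤ lev w` be the highest level with
`∃ y ∈ Hv, dist (anc w i3) y ≤ C4` (level `0` works), with `y0`. Then `C < (lev w - i3) + C4`.
`y0 ∈ D`: otherwise `Lc < lev y0 + C4 + 2` by `top`, `lev w ≤ Lc` by `far` and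
`lev y0 ≤ i3 + C4 < lev w - C + 2 C4`, contradiction with `3 C4 + 3 ≤ C`.
New sets: `κ` = the vertices of a shortest path from `y0` to `anc w i3`;
`D' = D ∪ κ ∪ {anc w l : i3 ≤ l ≤ lev w - (C4 + 2)}`,
`Hv' = Hv ∪ κ ∪ {anc w l : i3 ≤ l ≤ lev w}`, `Sp' = Sp ∪ {anc w l : i3 < l < lev w}`,
`End' = End ∪ {anc w (i3 + 1), anc w (lev w - 1)}`, `Lc' = lev w`,
`q' = q + C4 + (lev w - (C4 + 2) - i3)` (`rb_walk` twice, `exists_vert_walk`).
Cost: `2 q' + 2 (m + 1) ≤ 2 q + 2 m + 2 (lev w - i3) - 2 ≤ …`. `near`: `anc w l` with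
`l > lev w - (C4 + 2)` is within `C4 + 2` of `anc w (lev w - (C4 + 2)) ∈ D'`. `top`: old `y` because
`Lc' ≤ Lc`, new `y` by levels. `far`: maximality of `lev w`. `sep`: new strand vertices are at
distance `> C4 ≥ r` from `Hv` (`Se ⊆ H1 ⊆ Hv`). `pend`: an iso-thin `anc w l`, `i3 < l < lev w`, would
be `FarIso` for `H1` (its arm is within `k ρ`, `arm_dist_le`), as in `PA.lean`. `PEnd`: as in
`OB3.lean`. -/
theorem phase2_step (hc : G.Connected) {v0 : V} {k ρ R r C3 C : ℕ}
    {H1 Se Hv D Sp End : Finset V} {q m Lc ov e1 : ℕ} (hroot : v0 ∈ H1) (hSe : Se ⊆ H1)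
    (hno : ¬ ∃ a, FarIso G v0 k ρ R C3 H1 a) (hr : r ≤ C3) (hC : 3 * (C3 + k * ρ) + 3 ≤ C)
    (h : StP G v0 k ρ R r (C3 + k * ρ) C H1 Se Hv D Sp End q m Lc ov e1)
    (hw : ∃ w, ∀ y ∈ Hv, C < G.dist w y) :
    ∃ (Hv' D' Sp' End' : Finset V) (q' Lc' : ℕ),
      StP G v0 k ρ R r (C3 + k * ρ) C H1 Se Hv' D' Sp' End' q' (m + 1) Lc' ov e1 ∧
        Hv.card < Hv'.card := by
  classical
  -- a far vertex of maximal level
  obtain ⟨w, hw, hwmax⟩ : ∃ w, (∀ y ∈ Hv, C < G.dist w y) ∧
      ∀ w', (∀ y ∈ Hv, C < G.dist w' y) → lev G v0 w' ≤ lev G v0 w := by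
    obtain ⟨w0, hw0⟩ := hw
    have hne : (Finset.univ.filter (fun w => ∀ y ∈ Hv, C < G.dist w y)).Nonempty :=
      ⟨w0, by simpa using hw0⟩
    obtain ⟨w, hw, hm⟩ := Finset.exists_max_image _ (lev G v0) hne
    refine ⟨w, by simpa using hw, fun w' hw' => hm w' (by simpa using hw')⟩
  set C4 := C3 + k * ρ with hC4
  have hH1v : H1 ⊆ Hv := h.H1D.trans h.DH
  let P : ℕ → Prop := fun l => ∃ y ∈ Hv, G.dist (anc G v0 w l) y ≤ C4
  have hP0 : P 0 := by
    refine ⟨v0, hH1v hroot, ?_⟩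
    rw [anc_zero hc]
    simp
  obtain ⟨i3, hi3, hPi3, hmax⟩ : ∃ i3, i3 ≤ lev G v0 w ∧ P i3 ∧
      ∀ l, i3 < l → l ≤ lev G v0 w → ¬ P l := by
    refine ⟨Nat.findGreatest P (lev G v0 w), Nat.findGreatest_le _, ?_, ?_⟩
    · exact Nat.findGreatest_spec (P := P) (m := 0) (Nat.zero_le _) hP0
    · intro l h1 h2
      exact Nat.findGreatest_is_greatest h1 h2
  obtain ⟨y0, hy0, hd⟩ := hPi3
  have hlong : C < (lev G v0 w - i3) + C4 := by
    have h1 := hw y0 hy0
    have h2 : G.dist w y0 ≤ G.dist w (anc G v0 w i3) + G.dist (anc G v0 w i3) y0 :=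
      hc.dist_triangle
    rw [dist_self_anc hc hi3] at h2
    omega
  have hfarD : ∀ l, i3 < l → l ≤ lev G v0 w → ∀ y ∈ Hv, C4 < G.dist (anc G v0 w l) y := by
    intro l h1 h2 y hy
    by_contra hcon
    exact hmax l h1 h2 ⟨y, hy, by omega⟩
  have hwLc : lev G v0 w ≤ Lc := h.far w hw
  have hy0D : y0 ∈ D := by
    by_contra hcon
    have h1 := h.top y0 hy0 hcon
    have h2 := lev_le_add hc v0 y0 (anc G v0 w i3)
    rw [lev_anc hc hi3, SimpleGraph.dist_comm] at h2
    omega
  obtain ⟨t, ht⟩ : ∃ t, t + (C4 + 2) = lev G v0 w := ⟨lev G v0 w - (C4 + 2), by omega⟩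
  have hi3t : i3 ≤ t := by omega
  have hlev : ∀ l, l ≤ lev G v0 w → lev G v0 (anc G v0 w l) = l := fun l hl => lev_anc hc hl
  have hnotH : ∀ l, i3 < l → l ≤ lev G v0 w → anc G v0 w l ∉ Hv := by
    intro l h1 h2 hmem
    have := hfarD l h1 h2 _ hmem
    rw [SimpleGraph.dist_self] at this
    omega
  -- the connector
  obtain ⟨κw, hκw⟩ := hc.exists_walk_length_eq_dist y0 (anc G v0 w i3)
  have hκl : κw.length ≤ C4 := by
    rw [hκw, SimpleGraph.dist_comm]
    exact hd
  set κ : Finset V := κw.support.toFinset with hκ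
  have hxκ : anc G v0 w i3 ∈ κ := by
    rw [hκ, List.mem_toFinset]
    exact κw.end_mem_support
  obtain ⟨vw, hvw1, hvw2⟩ := exists_vert_walk hc (v0 := v0) (z := w) i3 (t - i3) (by omega)
  have hnew : ∀ x, x ∈ (Finset.Ioo i3 (lev G v0 w)).image (anc G v0 w) →
      ∃ l, i3 < l ∧ l < lev G v0 w ∧ x = anc G v0 w l := by
    intro x hx
    rw [Finset.mem_image] at hx
    obtain ⟨l, hl, rfl⟩ := hx
    rw [Finset.mem_Ioo] at hl
    exact ⟨l, hl.1, hl.2, rfl⟩
  have hcases : ∀ x, (x ∈ Sp ∪ (Finset.Ioo i3 (lev G v0 w)).image (anc G v0 w) ∨ x ∈ Se) →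
      (x ∈ Sp ∨ x ∈ Se) ∨ ∃ l, i3 < l ∧ l < lev G v0 w ∧ x = anc G v0 w l := by
    rintro x (hx | hx)
    · rw [Finset.mem_union] at hx
      rcases hx with hx | hx
      · exact Or.inl (Or.inl hx)
      · exact Or.inr (hnew x hx)
    · exact Or.inl (Or.inr hx)
  have holdH : ∀ x, (x ∈ Sp ∨ x ∈ Se) → x ∈ Hv := by
    rintro x (hx | hx)
    · exact h.subp hx
    · exact hH1v (hSe hx)
  have hcard : (Sp ∪ (Finset.Ioo i3 (lev G v0 w)).image (anc G v0 w)).card =
      Sp.card + (lev G v0 w - i3 - 1) := by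
    rw [Finset.card_union_of_disjoint, Finset.card_image_of_injOn, Nat.card_Ioo]
    · intro a ha b hb hab
      rw [Finset.coe_Ioo, Set.mem_Ioo] at ha hb
      have := congrArg (lev G v0) hab
      rwa [hlev a ha.2.le, hlev b hb.2.le] at this
    · rw [Finset.disjoint_left]
      intro x hx hx'
      obtain ⟨l, h1, h2, rfl⟩ := hnew x hx'
      exact hnotH l h1 h2.le (h.subp hx)
  have hwmem : w ∈ (Finset.Icc i3 (lev G v0 w)).image (anc G v0 w) := by
    rw [Finset.mem_image]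
    exact ⟨lev G v0 w, Finset.mem_Icc.2 ⟨hi3, le_rfl⟩, anc_self v0 w⟩
  refine ⟨Hv ∪ κ ∪ (Finset.Icc i3 (lev G v0 w)).image (anc G v0 w),
    D ∪ κ ∪ (Finset.Icc i3 t).image (anc G v0 w),
    Sp ∪ (Finset.Ioo i3 (lev G v0 w)).image (anc G v0 w),
    End ∪ {anc G v0 w (i3 + 1), anc G v0 w (lev G v0 w - 1)},
    q + C4 + (t - i3), lev G v0 w, ⟨?_, ?_, ?_, ?_, ?_, ?_, ?_, ?_, ?_, ?_, ?_, ?_, ?_⟩, ?_⟩
  · -- D' ⊆ Hv'
    refine Finset.union_subset_union (Finset.union_subset_union h.DH (Finset.Subset.refl _)) ?_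
    refine Finset.image_subset_image ?_
    exact Finset.Icc_subset_Icc_right (by omega)
  · exact h.H1D.trans (Finset.subset_union_left.trans Finset.subset_union_left)
  · -- Rb
    have h1 := rb_walk h.rb (a := y0) (by exact_mod_cast hy0D) κw
    have h2 := rb_mono h1 (q' := q + C4) (by omega)
    have e1 : ((D ∪ κ : Finset V) : Set V) = (↑D ∪ {x | x ∈ κw.support}) := by
      ext a
      simp [hκ]
    rw [← e1] at h2
    have h3 := rb_walk h2 (a := anc G v0 w i3)
      (by exact_mod_cast Finset.mem_union_right D hxκ) vw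
    rw [hvw1] at h3
    have e : ((D ∪ κ ∪ (Finset.Icc i3 t).image (anc G v0 w) : Finset V) : Set V) =
        (↑(D ∪ κ) ∪ {x | x ∈ vw.support}) := by
      ext a
      simp only [Finset.coe_union, Finset.coe_image, Set.mem_union, Set.mem_ofPred_eq,
        Finset.mem_coe, Finset.coe_Icc, Set.mem_image, Set.mem_Icc, hvw2]
      constructor
      · rintro ((ha | ha) | ⟨l, hl, rfl⟩)
        · exact Or.inl (Or.inl ha)
        · exact Or.inl (Or.inr ha)
        · exact Or.inr ⟨l, hl.1, by omega, rfl⟩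
      · rintro ((ha | ha) | ⟨l, hl1, hl2, rfl⟩)
        · exact Or.inl (Or.inl ha)
        · exact Or.inl (Or.inr ha)
        · exact Or.inr ⟨l, ⟨hl1, by omega⟩, rfl⟩
    rw [e]
    exact h3
  · -- subp
    intro x hx
    rw [Finset.mem_union] at hx
    rcases hx with hx | hx
    · exact Finset.mem_union_left _ (Finset.mem_union_left _ (h.subp hx))
    · obtain ⟨l, h1, h2, rfl⟩ := hnew x hx
      apply Finset.mem_union_right
      exact Finset.mem_image_of_mem _ (Finset.mem_Icc.2 ⟨h1.le, h2.le⟩)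
  · -- disj
    rw [Finset.disjoint_left]
    intro x hx hx'
    rw [Finset.mem_union] at hx
    rcases hx with hx | hx
    · exact Finset.disjoint_left.1 h.disj hx hx'
    · obtain ⟨l, h1, h2, rfl⟩ := hnew x hx
      exact hnotH l h1 h2.le (holdH _ (Or.inr hx'))
  · -- sep
    intro x hx y hy hxy hne
    rcases hcases x hx with hx | ⟨l, h1, h2, rfl⟩ <;>
      rcases hcases y hy with hy | ⟨l', h1', h2', rfl⟩
    · exact h.sep x hx y hy hxy hne
    · rw [SimpleGraph.dist_comm]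
      have := hfarD l' h1' h2'.le x (holdH x hx)
      omega
    · have := hfarD l h1 h2.le y (holdH y hy)
      omega
    · rw [hlev l h2.le, hlev l' h2'.le] at hxy
      subst hxy
      exact absurd rfl hne
  · -- pend
    intro x hx
    rw [Finset.mem_union] at hx
    rcases hx with hx | hx
    · exact h.pend x hx
    · obtain ⟨l, h1, h2, rfl⟩ := hnew x hx
      rintro ⟨hiso, hk⟩
      apply hno
      refine ⟨anc G v0 w l, ?_, hiso, hk, ⟨w, ?_, ?_⟩, ?_⟩
      · rw [lev_anc hc h2.le]; omega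
      · rw [lev_anc hc h2.le]; exact h2
      · rw [lev_anc hc h2.le]
        exact up_symm (up_self_anc hc le_rfl h2.le)
      · intro x hx y hy
        have h3 := hfarD l h1 h2.le y (hH1v hy)
        have h4 := arm_dist_le hc hx hk.le
        have h5 : G.dist (anc G v0 w l) y ≤ G.dist (anc G v0 w l) x + G.dist x y :=
          hc.dist_triangle
        omega
  · -- PEnd
    intro x hx
    rw [Finset.mem_union, Finset.mem_image] at hx
    rcases hx with hx | ⟨l, hl1, rfl⟩
    · obtain ⟨h1, h2⟩ := h.pe x hx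
      constructor
      · rcases h1 with h1 | ⟨h1, h1'⟩
        · exact Or.inl (Finset.mem_union_left _ h1)
        · exact Or.inr ⟨h1, Finset.mem_union_left _ h1'⟩
      · rcases h2 with h2 | ⟨y, hy, h2, h2'⟩
        · exact Or.inl (Finset.mem_union_left _ h2)
        · exact Or.inr ⟨y, Finset.mem_union_left _ hy, h2, h2'⟩
    · rw [Finset.mem_Ioo] at hl1
      obtain ⟨m', rfl⟩ : ∃ m', l = m' + 1 := ⟨l - 1, by omega⟩
      constructor
      · by_cases hm : m' = i3
        · left; subst hm; simp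
        · right
          refine ⟨by rw [hlev _ (by omega)]; omega, ?_⟩
          rw [par_anc_succ hc (by omega)]
          exact Finset.mem_union_right _ (Finset.mem_image.2
            ⟨m', Finset.mem_Ioo.2 ⟨by omega, by omega⟩, rfl⟩)
      · by_cases hm : m' + 2 = lev G v0 w
        · left
          have : m' + 1 = lev G v0 w - 1 := by omega
          rw [this]
          simp
        · right
          refine ⟨anc G v0 w (m' + 2), ?_, ?_, ?_⟩
          · exact Finset.mem_union_right _ (Finset.mem_image.2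
              ⟨m' + 2, Finset.mem_Ioo.2 ⟨by omega, by omega⟩, rfl⟩)
          · exact par_anc_succ hc (by omega)
          · rw [hlev _ (by omega), hlev _ (by omega)]
  · -- near
    intro y hy
    rw [Finset.mem_union, Finset.mem_union] at hy
    rcases hy with (hy | hy) | hy
    · obtain ⟨z, hz, hz2⟩ := h.near y hy
      exact ⟨z, Finset.mem_union_left _ (Finset.mem_union_left _ hz), hz2⟩
    · refine ⟨y, Finset.mem_union_left _ (Finset.mem_union_right _ hy), ?_⟩
      rw [SimpleGraph.dist_self]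
      omega
    · rw [Finset.mem_image] at hy
      obtain ⟨l, hl, rfl⟩ := hy
      rw [Finset.mem_Icc] at hl
      by_cases hlt : l ≤ t
      · refine ⟨anc G v0 w l, Finset.mem_union_right _
          (Finset.mem_image_of_mem _ (Finset.mem_Icc.2 ⟨hl.1, hlt⟩)), ?_⟩
        rw [SimpleGraph.dist_self]
        omega
      · refine ⟨anc G v0 w t, Finset.mem_union_right _
          (Finset.mem_image_of_mem _ (Finset.mem_Icc.2 ⟨hi3t, le_rfl⟩)), ?_⟩
        rw [dist_anc hc (by omega) hl.2]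
        omega
  · -- top
    intro y hy hyD
    rw [Finset.mem_union, Finset.mem_union] at hy
    rcases hy with (hy | hy) | hy
    · have h1 : y ∉ D := fun hD => hyD (Finset.mem_union_left _ (Finset.mem_union_left _ hD))
      have := h.top y hy h1
      omega
    · exact absurd (Finset.mem_union_left _ (Finset.mem_union_right _ hy)) hyD
    · rw [Finset.mem_image] at hy
      obtain ⟨l, hl, rfl⟩ := hy
      rw [Finset.mem_Icc] at hl
      by_cases hlt : l ≤ t
      · exact absurd (Finset.mem_union_right _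
          (Finset.mem_image_of_mem _ (Finset.mem_Icc.2 ⟨hl.1, hlt⟩))) hyD
      · rw [hlev l hl.2]
        omega
  · -- far
    intro w' hw'
    apply hwmax
    intro y hy
    exact hw' y (Finset.mem_union_left _ (Finset.mem_union_left _ hy))
  · -- cost
    rw [hcard]
    have := h.cost
    omega
  · -- endc
    have he : (End ∪ {anc G v0 w (i3 + 1), anc G v0 w (lev G v0 w - 1)}).card ≤ End.card + 2 := by
      refine (Finset.card_union_le _ _).trans ?_
      exact Nat.add_le_add_left Finset.card_le_two _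
    have := h.endc
    omega
  · -- growth
    apply Finset.card_lt_card
    rw [Finset.ssubset_iff_of_subset (Finset.subset_union_left.trans Finset.subset_union_left)]
    refine ⟨w, Finset.mem_union_right _ hwmem, ?_⟩
    intro hmem
    have := hw w hmem
    rw [SimpleGraph.dist_self] at this
    omega

/-- The result of phase 2: iterate `phase2_step` from `Hv = D = H`, `Lc = Fintype.card V`, `m = 0`
(`|Hv| ≤ |V|` increases). -/
theorem exists_phase2 (hc : G.Connected) {v0 : V} {k ρ R r C3 C : ℕ}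
    {H Sp1 Se Bot End1 : Finset V} {q1 ov : ℕ} (h : St G v0 k ρ R r H Sp1 Se Bot q1 ov)
    (hpe : PEnd G v0 Sp1 End1) (hno : ¬ ∃ a, FarIso G v0 k ρ R C3 H a)
    (hr : r ≤ C3) (hC : 3 * (C3 + k * ρ) + 3 ≤ C) :
    ∃ (D Sp End : Finset V) (q m : ℕ), v0 ∈ D ∧ Rb G (↑D : Set V) q ∧ Disjoint Sp Se ∧
      (∀ x, (x ∈ Sp ∨ x ∈ Se) → ∀ y, (y ∈ Sp ∨ y ∈ Se) → lev G v0 x = lev G v0 y → x ≠ y →
        r < G.dist x y) ∧
      (∀ x ∈ Sp, ¬ (Iso G v0 ρ R x ∧ (arm G v0 ρ x).card < k)) ∧ PEnd G v0 Sp End ∧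
      2 * q + 2 * m ≤ 2 * Sp.card + Se.card + 2 * ov ∧ End.card ≤ End1.card + 2 * m ∧
      ∀ w, ∃ y ∈ D, G.dist w y ≤ C + (C3 + k * ρ) + 2 := by
  classical
  have key : ∀ N : ℕ, ∀ (Hv D Sp End : Finset V) (q m Lc : ℕ),
      StP G v0 k ρ R r (C3 + k * ρ) C H Se Hv D Sp End q m Lc ov End1.card →
      Fintype.card V - Hv.card ≤ N →
      ∃ (Hv D Sp End : Finset V) (q m Lc : ℕ),
        StP G v0 k ρ R r (C3 + k * ρ) C H Se Hv D Sp End q m Lc ov End1.card ∧
        ∀ w, ∃ y ∈ Hv, G.dist w y ≤ C := by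
    intro N
    induction N with
    | zero =>
      intro Hv D Sp End q m Lc hst hN
      refine ⟨Hv, D, Sp, End, q, m, Lc, hst, fun w => ⟨w, ?_, ?_⟩⟩
      · have h1 : Hv = Finset.univ := by
          rw [← Finset.card_eq_iff_eq_univ]
          have := Finset.card_le_univ Hv
          omega
        rw [h1]
        exact Finset.mem_univ w
      · rw [SimpleGraph.dist_self]
        exact Nat.zero_le _
    | succ N ih =>
      intro Hv D Sp End q m Lc hst hN
      by_cases hw : ∃ w, ∀ y ∈ Hv, C < G.dist w y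
      · obtain ⟨Hv', D', Sp', End', q', Lc', hst', hlt⟩ :=
          phase2_step hc h.root h.sube hno hr hC hst hw
        refine ih Hv' D' Sp' End' q' (m + 1) Lc' hst' ?_
        have := Finset.card_le_univ Hv'
        omega
      · push Not at hw
        exact ⟨Hv, D, Sp, End, q, m, Lc, hst, hw⟩
  have h0 : StP G v0 k ρ R r (C3 + k * ρ) C H Se H H Sp1 End1 q1 0 (Fintype.card V) ov
      End1.card := by
    refine ⟨Finset.Subset.refl _, Finset.Subset.refl _, h.rb, h.subp, h.disj, h.sep, h.pend, hpe,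
      ?_, ?_, ?_, ?_, ?_⟩
    · intro y hy
      refine ⟨y, hy, ?_⟩
      rw [SimpleGraph.dist_self]
      omega
    · intro y hy hy'
      exact absurd hy hy'
    · intro w _
      obtain ⟨p, hp, hpl⟩ := (hc v0 w).exists_path_of_dist
      unfold lev
      rw [← hpl]
      exact hp.length_lt.le
    · have := h.cost
      omega
    · omega
  obtain ⟨Hv, D, Sp, End, q, m, Lc, hst, hfin⟩ := key _ H H Sp1 End1 q1 0 _ h0 le_rfl
  refine ⟨D, Sp, End, q, m, hst.H1D h.root, hst.rb, hst.disj, hst.sep, hst.pend, hst.pe,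
    hst.cost, hst.endc, ?_⟩
  intro w
  obtain ⟨y, hy, hy2⟩ := hfin w
  obtain ⟨z, hz, hz2⟩ := hst.near y hy
  refine ⟨z, hz, ?_⟩
  have := hc.dist_triangle (u := w) (v := y) (w := z)
  omega

end Pool.Agent.RBC
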