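import Pool.Agent.MP_dd54b8_co.OC
import Pool.Agent.MP_dd54b8_co.OA3
import Pool.Agent.MP_dd54b8_co.OP
import Pool.Agent.MP_dd54b8_co.M

set_option autoImplicit false

/-! The main theorem, `k` odd. -/

namespace Pool.Agent.RBC

open SimpleGraph

/-- The main theorem in natural number form, `k` odd. -/
theorem main_odd (k : ℕ) (hodd : k % 2 = 1) : ∃ C0 : ℕ, ∀ (V : Type) [Fintype V]
    (G : SimpleGraph V), KConn G k → ∃ q, Rb G Set.univ (q + C0) ∧ k * q ≤ Fintype.card V := by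
  classical
  rcases Nat.lt_or_ge k 3 with h2 | hk3
  · have hk1 : k = 1 := by omega
    subst hk1
    refine ⟨0, fun V _ G hG => ⟨Fintype.card V, rb_univ_card (kconn_connected hG (by omega)), ?_⟩⟩
    omega
  · set Λ := 100 * (k + 1) with hΛ
    set J := 80 * k ^ 3 with hJ
    set K := 40 * Λ ^ 2 * (k + 1) with hK
    set G0 := 40 * (k + 1) with hG0
    set ρ0 := G0 + 20 with hρ0
    set Cf : ℕ → ℕ := fun ρ => 4 * (10 * Λ * ((k + 1) * ρ) + k * ρ) + 5 with hCf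
    set C1 := Cf (ρ0 * K ^ J) with hC1
    refine ⟨3 * C1 ^ 2 + 4 * C1, fun V _ G hG => ?_⟩
    have hk : 0 < k := by omega
    have hΛ400 : 400 ≤ Λ := by omega
    have hK1 : 1 ≤ K := by
      rw [hK]
      have : 0 < 40 * Λ ^ 2 * (k + 1) := by positivity
      omega
    have hJ0 : 0 < J := by rw [hJ]; positivity
    have hc : G.Connected := kconn_connected hG hk
    obtain ⟨v0⟩ : Nonempty V := by
      rw [← Fintype.card_pos_iff]
      have := hG.1
      omega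
    obtain ⟨j, hjJ, hbad⟩ := exists_scaleW (G := G) v0 (k := k) (K := K) (J := J) ρ0 hk hK1 hJ0
    set ρ := ρ0 * K ^ j with hρ
    set R := ρ0 * K ^ (j + 1) with hR
    have hρ0ρ : ρ0 ≤ ρ := by
      calc ρ0 = ρ0 * 1 := (mul_one _).symm
        _ ≤ ρ0 * K ^ j := Nat.mul_le_mul_left _ (Nat.one_le_pow _ _ hK1)
    set y := (k + 1) * ρ with hy
    have hRy : R = 40 * Λ ^ 2 * y := by rw [hR, pow_succ, hy, hρ, hK]; ring
    have hρy : ρ ≤ y := by rw [hy]; exact Nat.le_mul_of_pos_left _ (by omega)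
    have hkρy : k * ρ ≤ y := by rw [hy]; exact Nat.mul_le_mul_right _ (by omega)
    have hρ1 : 1 ≤ ρ := by omega
    have hy1 : 1 ≤ y := by omega
    have g0 : 400 * y ≤ Λ * y := Nat.mul_le_mul_right _ hΛ400
    have g1 : 400 * (Λ * y) ≤ Λ ^ 2 * y := by
      calc 400 * (Λ * y) ≤ Λ * (Λ * y) := Nat.mul_le_mul_right _ hΛ400
        _ = Λ ^ 2 * y := by ring
    have g2 : Λ ≤ Λ * y := Nat.le_mul_of_pos_right _ hy1
    have hC3 : 10 * Λ * y = 10 * (Λ * y) := by ring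
    have hR' : R = 40 * (Λ ^ 2 * y) := by rw [hRy]; ring
    have hkr : 2 * k * ρ = 2 * (k * ρ) := by ring
    have a1 : Λ * (3 * (2 * y) + 1) = 6 * (Λ * y) + Λ := by ring
    have a2 : Λ * (3 * (2 * y) + 2) = 6 * (Λ * y) + 2 * Λ := by ring
    have a3 : Λ * (2 * (10 * Λ * y) + 2 * (k * ρ) + 4 * (2 * y) + 7) =
      20 * (Λ ^ 2 * y) + 2 * (Λ * (k * ρ)) + 8 * (Λ * y) + 7 * Λ := by ring
    have a4 : Λ * (k * ρ) ≤ Λ * y := Nat.mul_le_mul_left _ hkρy
    obtain ⟨H, Sp1, Se, Bot, End1, q1, ov, hst, hpe1, hov, hbot, hend, hno⟩ :=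
      exists_max_state1 hG hk hc v0 (ρ := ρ) (R := R) (r := 2 * y) (C3 := 10 * Λ * y)
        (Λ := Λ) (M := Λ)
        (by rw [hR']; omega) (by omega) (by rw [hkr]; omega) (by rw [hR']; omega)
        (by rw [hC3]; omega) (by rw [a1, hC3]; omega) (by rw [hC3]; omega)
        (by rw [a2, hC3]; omega) (by rw [hC3]; omega)
        (by rw [a3, hR']; omega) (by rw [hR']; omega)
    obtain ⟨D, Sp, End, q, m, hroot, hrb, hdisj, hsep, hpend, hpe, hcost, hE, hdom⟩ :=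
      exists_phase2 hc (C := 3 * (10 * Λ * y + k * ρ) + 3) hst hpe1 hno
        (by rw [hC3]; omega) le_rfl
    have hq : k * q ≤ Fintype.card V :=
      count_odd hG hc hk3 hodd v0 (ρ0 := ρ0) (ρ := ρ) (R := R) (r := 2 * y) (s := y) (G0 := G0)
        (N := y - G0) (J := J) (Λ := Λ) (Bot := Bot) (e1 := End1.card) (m := m) (ov := ov)
        hρ0ρ (by omega) le_rfl
        (by
          have : ρ0 ≤ y := hρ0ρ.trans hρy
          omega)
        (by omega) le_rfl hG0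
        (by
          have e1 : (k + 1) * ρ0 ≤ y := Nat.mul_le_mul_left _ hρ0ρ
          have e2 : (k + 1) * ρ0 = G0 * k + G0 + 20 * (k + 1) := by rw [hρ0]; ring
          omega)
        (le_of_eq hJ.symm) (le_of_eq hΛ.symm) hdisj hsep hpend hpe hst.bot hcost hov hbot hE hend
        hbad
    have hCle : 3 * (10 * Λ * y + k * ρ) + 3 + (10 * Λ * y + k * ρ) + 2 ≤ C1 := by
      have hle : ρ ≤ ρ0 * K ^ J :=
        Nat.mul_le_mul_left _ (Nat.pow_le_pow_right hK1 hjJ.le)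
      have h1 : Cf ρ ≤ C1 := by
        rw [hC1, hCf]
        have : 10 * Λ * ((k + 1) * ρ) + k * ρ ≤
            10 * Λ * ((k + 1) * (ρ0 * K ^ J)) + k * (ρ0 * K ^ J) := by gcongr
        simp only
        omega
      have h2 : Cf ρ = 4 * (10 * Λ * y + k * ρ) + 5 := by rw [hCf]
      omega
    have hext := extend (kconn_mono hG (by omega)) (C := C1) hrb ⟨v0, hroot⟩ (fun v => by
      obtain ⟨z, hz, hd⟩ := hdom v
      exact ⟨z, hz, hd.trans hCle⟩)
    exact ⟨q, hext, hq⟩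

theorem final_odd : ∀ k : ℕ, k % 2 = 1 → ∃ c : ℕ, ∀ (V : Type) [Fintype V]
    (G : SimpleGraph V),
      (k < Fintype.card V ∧
        ∀ S : Finset V, S.card < k → (G.induce ((↑S : Set V)ᶜ)).Connected) →
      ∃ f : Sym2 V → Fin (⌈(Fintype.card V : ℝ) / (k : ℝ)⌉₊ + c),
        ∀ u v : V, ∃ p : G.Walk u v, p.IsPath ∧ (p.edges.map f).Nodup := by
  intro k hodd
  obtain ⟨C0, hC0⟩ := main_odd k hodd
  refine ⟨C0 + 1, fun V _ G hG => ?_⟩
  obtain ⟨q, hq, hle⟩ := hC0 V G hG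
  refine rb_final hq ?_ (by omega)
  have hk : 0 < k := by omega
  have hkR : (0 : ℝ) < k := by exact_mod_cast hk
  have h1 : (q : ℝ) ≤ (Fintype.card V : ℝ) / (k : ℝ) := by
    rw [le_div_iff₀ hkR]
    have : ((k * q : ℕ) : ℝ) ≤ ((Fintype.card V : ℕ) : ℝ) := by exact_mod_cast hle
    push_cast at this
    linarith
  have h2 : (q : ℝ) ≤ (⌈(Fintype.card V : ℝ) / (k : ℝ)⌉₊ : ℝ) := h1.trans (Nat.le_ceil _)
  have h3 : q ≤ ⌈(Fintype.card V : ℝ) / (k : ℝ)⌉₊ := by exact_mod_cast h2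
  omega

end Pool.Agent.RBC
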