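import Pool.Agent.MP_dd54b8_co.OST

set_option autoImplicit false

/-! A state maximal for phase 1. -/

namespace Pool.Agent.RBC

open SimpleGraph

variable {V : Type} [Fintype V] {G : SimpleGraph V}

/-- A maximal state of phase 1: no far thin isolated arm is left. -/
theorem exists_max_state1 {k : ℕ} (hk : KConn G k) (hk0 : 0 < k) (hc : G.Connected) (v0 : V)
    {ρ R r C3 Λ M : ℕ}
    (hρR : ρ ≤ R) (hr2 : 2 ≤ r) (hkr : 2 * k * ρ ≤ r) (hR : 3 * r ≤ R) (hC : 4 * r ≤ C3)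
    (h0 : Λ * (3 * r + 1) + 3 * r ≤ 2 * C3 + 1) (h0M : M + 3 * r ≤ 2 * C3 + 1)
    (h2 : Λ * (3 * r + 2) + r ≤ C3 + 1) (h2M : 2 * M + r ≤ C3 + 1)
    (h3 : Λ * (2 * C3 + 2 * (k * ρ) + 4 * r + 7) + r ≤ R + 1) (h3M : 2 * M + r ≤ R + 1) :
    ∃ (H Sp Se Bot End : Finset V) (q ov : ℕ), St G v0 k ρ R r H Sp Se Bot q ov ∧
      PEnd G v0 Sp End ∧ Λ * ov ≤ Se.card ∧ M * Bot.card ≤ Se.card ∧ M * End.card ≤ Se.card ∧
      ¬ ∃ a, FarIso G v0 k ρ R C3 H a := by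
  classical
  let P : ℕ → Prop := fun m => ∃ (H Sp Se Bot End : Finset V) (q ov : ℕ),
    St G v0 k ρ R r H Sp Se Bot q ov ∧ PEnd G v0 Sp End ∧ Λ * ov ≤ Se.card ∧
      M * Bot.card ≤ Se.card ∧ M * End.card ≤ Se.card ∧ Se.card = m
  have hP0 : P 0 := by
    refine ⟨{v0}, ∅, ∅, ∅, ∅, 0, 0, ?_, ?_, by simp, by simp, by simp, by simp⟩
    · refine ⟨by simp, ?_, by simp, by simp, by simp, ?_, by simp, by simp, by simp⟩
      · simpa using rb_singleton (G := G) v0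
      · intro x hx; simp at hx
    · intro x hx; simp at hx
  have hPle : ∀ m, P m → m ≤ Fintype.card V := by
    rintro m ⟨H, Sp, Se, Bot, End, q, ov, hst, -, -, -, -, rfl⟩
    exact Finset.card_le_univ _
  set m := Nat.findGreatest P (Fintype.card V) with hm
  have hPm : P m := Nat.findGreatest_spec (Nat.zero_le _) hP0
  obtain ⟨H, Sp, Se, Bot, End, q, ov, hst, hpe, hov, hbot, hend, hcard⟩ := hPm
  refine ⟨H, Sp, Se, Bot, End, q, ov, hst, hpe, hov, hbot, hend, ?_⟩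
  intro hfar
  obtain ⟨H', Sp', Se', Bot', End', q', ov', hst', hpe', hlt, hov', hbot', hend'⟩ :=
    step1 hk hk0 hc hst hfar hρR hr2 hkr hR hC h0 h0M h2 h2M h3 h3M End hpe
  have hP' : P Se'.card :=
    ⟨H', Sp', Se', Bot', End', q', ov', hst', hpe', by omega, by omega, by omega, rfl⟩
  have h1 := Nat.le_findGreatest (hPle _ hP') hP'
  rw [← hm] at h1
  omega

end Pool.Agent.RBC
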