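import Pool.Agent.MP_dd54b8_co.O0

set_option autoImplicit false

/-! Task [RBO-S]: five consecutive tight levels around a thick strand contain no thin arm
(`k` odd). -/

namespace Pool.Agent.RBC

open SimpleGraph

variable {V : Type} [Fintype V] {G : SimpleGraph V}

/-- `S` separates the nonempty set `X` from some other vertex, so it has at least `k` elements.
Proof: otherwise `G - S` is connected; a walk in it from `x ∈ X` to `y` has an edge leaving `X`,
whose other end is neither in `X` nor in `S`. -/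
theorem sep_card {k : ℕ} (hk : KConn G k) {X S : Finset V} (hX : X.Nonempty)
    (hXS : Disjoint X S) (hnb : ∀ x ∈ X, ∀ y, G.Adj x y → y ∈ X ∨ y ∈ S)
    {y : V} (hyX : y ∉ X) (hyS : y ∉ S) : k ≤ S.card := by
  by_contra hlt
  push Not at hlt
  have hconn := hk.2 S hlt
  obtain ⟨x, hx⟩ := hX
  have hxS : x ∈ ((↑S : Set V)ᶜ) := by
    simpa using Finset.disjoint_left.1 hXS hx
  have hyS' : y ∈ ((↑S : Set V)ᶜ) := by simpa using hyS
  obtain ⟨w⟩ := hconn.preconnected ⟨x, hxS⟩ ⟨y, hyS'⟩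
  obtain ⟨d, -, hd1, hd2⟩ := w.exists_boundary_dart {v | v.1 ∈ X} hx hyX
  have hadj : G.Adj d.fst.1 d.snd.1 := d.adj
  rcases hnb d.fst.1 hd1 d.snd.1 hadj with h | h
  · exact hd2 h
  · exact d.snd.2 (Finset.mem_coe.2 h)

open Classical in
/-- The counting step. -/
private theorem slab_key {k : ℕ} (hk : KConn G k) (hc : G.Connected) (v0 : V) (l0 : ℕ)
    (U : Finset V)
    (hU : ∀ u ∈ U, l0 < lev G v0 u → lev G v0 u < l0 + 4 → ∀ u', G.Adj u u' → u' ∈ U)
    (T : Finset V) (hTU : T ⊆ U) (hT : ∀ u ∈ T, ∀ u' ∈ U, G.Adj u u' → u' ∈ T)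
    {y : V} (hy : y ∉ T) (p q : ℕ) (hp : 1 ≤ p) (hq : q ≤ 3)
    {x : V} (hxT : x ∈ T) (hx1 : l0 + p ≤ lev G v0 x) (hx2 : lev G v0 x ≤ l0 + q) :
    k ≤ (T.filter (fun u => lev G v0 u = l0 + (p - 1))).card +
      (T.filter (fun u => lev G v0 u = l0 + (q + 1))).card := by
  refine le_trans (sep_card hk (X := T.filter (fun u => l0 + p ≤ lev G v0 u ∧
    lev G v0 u ≤ l0 + q)) (S := T.filter (fun u => lev G v0 u = l0 + (p - 1)) ∪
      T.filter (fun u => lev G v0 u = l0 + (q + 1))) ?_ ?_ ?_ (y := y) ?_ ?_)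
    (Finset.card_union_le _ _)
  · exact ⟨x, Finset.mem_filter.2 ⟨hxT, hx1, hx2⟩⟩
  · rw [Finset.disjoint_left]
    intro u hu hu'
    rw [Finset.mem_filter] at hu
    rw [Finset.mem_union, Finset.mem_filter, Finset.mem_filter] at hu'
    omega
  · intro u hu u' huu'
    rw [Finset.mem_filter] at hu
    have h1 : u' ∈ U := hU u (hTU hu.1) (by omega) (by omega) u' huu'
    have h2 : u' ∈ T := hT u hu.1 u' h1 huu'
    have h3 := lev_adj hc v0 huu'
    have h4 := lev_adj hc v0 huu'.symm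
    rw [Finset.mem_union, Finset.mem_filter, Finset.mem_filter, Finset.mem_filter]
    by_cases c1 : l0 + p ≤ lev G v0 u'
    · by_cases c2 : lev G v0 u' ≤ l0 + q
      · exact Or.inl ⟨h2, c1, c2⟩
      · exact Or.inr (Or.inr ⟨h2, by omega⟩)
    · exact Or.inr (Or.inl ⟨h2, by omega⟩)
  · intro h
    exact hy (Finset.mem_filter.1 h).1
  · intro h
    rw [Finset.mem_union, Finset.mem_filter, Finset.mem_filter] at h
    rcases h with h | h
    · exact hy h.1
    · exact hy h.1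

/-- Proof. Put `L i = Nb s (x i)` (`i ≤ 4`), `|L i| = k`.
(0) `arm ρ (x i) = L i` (`arm_growth` with `t = k`: either all of the arm is within `k ρ ≤ s`, so
`arm ⊆ L i` and `k ≤ |arm|` gives equality; or `k + 1 ≤ |filter| ≤ |L i| = k`, impossible), and
every element of it is within `(k - 1) ρ` of `x i` (`arm_growth` with `t = k - 1`).
(1) If `u ∈ L i`, `u ~ u'`, `lev u' = lev (x j)`, `j ≤ 4`, `|i - j| ≤ 1` then
`dist (x j) u' ≤ 1 + (k - 1) ρ + 1 ≤ (k + 1) ρ ≤ s`, so `u' ∈ L j`.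
(2) Suppose `|arm ρ0 w| < k`. `Z = arm ρ0 w ⊆ arm ρ w = arm ρ (x 2) = L 2`. Let `U` be the union of
the five `L i` (`≤ 5k` vertices) and `A` the set of the vertices of `U` joined to some `z ∈ Z` by a
walk inside `U`. Claim `A ∩ L 2 = Z`: a path inside `U` has length `< 5k ≤ ρ0`, and any two elements of
`L 2 = arm ρ (x 2)` are `Up`-connected at their level, so `u ∈ A ∩ L 2` gives `u ∈ arm ρ0 z = Z`.
There is no edge between `A` and `U \ A`. Let `a i = |A ∩ L i|`, `b i = |L i \ A|`, `a i + b i = k`;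
`1 ≤ a 2`, `1 ≤ b 2`.
(3) `1 ≤ a 1` (`par w ∈ L 1` by (1), adjacent to `w`) and `1 ≤ b 1` (the parent of an element of
`L 2 \ A`).
(4) `sep_card` with `X = A ∩ L 2`, `S = (A ∩ L 1) ∪ (A ∩ L 3)` and with `X = L 2 \ A`,
`S = (L 1 \ A) ∪ (L 3 \ A)`: `a 1 + a 3 ≥ k`, `b 1 + b 3 ≥ k`, so `a 1 + a 3 = k` and `1 ≤ a 3, b 3`.
In the same way `X = A ∩ L 3`: `a 2 + a 4 = k`; `X = A ∩ (L 2 ∪ L 3)`: `a 1 + a 4 = k`;
`X = A ∩ L 1`: `a 0 + a 2 = k`; `X = A ∩ (L 1 ∪ L 2)`: `a 0 + a 3 = k`.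
So `a 1 = a 2 = a 3` and `2 * a 2 = k`, contradiction. -/
theorem slab {k ρ0 ρ s : ℕ} (hk : KConn G k) (hc : G.Connected) (hodd : k % 2 = 1)
    (hρ : ρ0 ≤ ρ) (hs : (k + 1) * ρ ≤ s) (h5 : 5 * k ≤ ρ0) {v0 : V} {x : ℕ → V}
    (hpar : ∀ i < 4, par G v0 (x (i + 1)) = x i ∧ lev G v0 (x (i + 1)) = lev G v0 (x i) + 1)
    (hcard : ∀ i ≤ 4, (Nb G v0 s (x i)).card = k)
    (hthick : ∀ i ≤ 4, k ≤ (arm G v0 ρ (x i)).card)
    {w : V} (hw : w ∈ Nb G v0 s (x 2)) : k ≤ (arm G v0 ρ0 w).card := by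
  classical
  by_contra hlt
  push Not at hlt
  have hk1 : 1 ≤ k := by omega
  have hρ1 : 1 ≤ ρ := by omega
  have hlev : ∀ i ≤ 4, lev G v0 (x i) = lev G v0 (x 0) + i := by
    intro i
    induction i with
    | zero => intro _; simp
    | succ i ih =>
      intro hi
      have h1 := ih (by omega)
      have h2 := (hpar i (by omega)).2
      omega
  set l0 := lev G v0 (x 0) with hl0
  have hadj : ∀ i < 4, G.Adj (x (i + 1)) (x i) := by
    intro i hi
    have h1 := hpar i hi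
    have h2 := (par_spec hc (v0 := v0) (v := x (i + 1)) (by omega)).1
    rwa [h1.1] at h2
  have hstep : ∀ i ≤ 4, ∀ j ≤ 4, i ≤ j + 1 → j ≤ i + 1 → G.dist (x j) (x i) ≤ 1 := by
    intro i hi j hj h1 h2
    rcases Nat.lt_trichotomy i j with h | h | h
    · have h3 : j = i + 1 := by omega
      subst h3
      exact (SimpleGraph.dist_eq_one_iff_adj.2 (hadj i (by omega))).le
    · subst h
      simp
    · have h3 : i = j + 1 := by omega
      subst h3
      exact (SimpleGraph.dist_eq_one_iff_adj.2 (hadj j (by omega)).symm).le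
  have hks : k * ρ ≤ s := le_trans (Nat.mul_le_mul_right ρ (Nat.le_succ k)) hs
  have harm : ∀ i ≤ 4, arm G v0 ρ (x i) = Nb G v0 s (x i) := by
    intro i hi
    rcases arm_growth hc v0 (x i) ρ k with h | h
    · apply Finset.eq_of_subset_of_card_le
      · intro u hu
        rw [mem_Nb]
        exact ⟨lev_of_mem_arm hu, le_trans (h u hu) hks⟩
      · rw [hcard i hi]
        exact hthick i hi
    · exfalso
      have h2 : (arm G v0 ρ (x i)).filter (fun u => G.dist (x i) u ≤ k * ρ) ⊆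
          Nb G v0 s (x i) := by
        intro u hu
        rw [Finset.mem_filter] at hu
        rw [mem_Nb]
        exact ⟨lev_of_mem_arm hu.1, le_trans hu.2 hks⟩
      have h3 := Finset.card_le_card h2
      rw [hcard i hi] at h3
      omega
  have hclose : ∀ i ≤ 4, ∀ u ∈ Nb G v0 s (x i), G.dist (x i) u ≤ (k - 1) * ρ := by
    intro i hi u hu
    rw [← harm i hi] at hu
    rcases arm_growth hc v0 (x i) ρ (k - 1) with h | h
    · exact h u hu
    · have h2 : (arm G v0 ρ (x i)).filter (fun u => G.dist (x i) u ≤ (k - 1) * ρ) =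
          arm G v0 ρ (x i) := by
        apply Finset.eq_of_subset_of_card_le (Finset.filter_subset _ _)
        rw [harm i hi, hcard i hi, ← harm i hi]
        omega
      rw [← h2, Finset.mem_filter] at hu
      exact hu.2
  have hk2 : (k - 1) * ρ + 2 ≤ s := by
    have h1 : (k + 1) * ρ = (k - 1) * ρ + 2 * ρ := by
      rw [← Nat.add_mul]
      congr 1
      omega
    omega
  have hnext : ∀ i ≤ 4, ∀ j ≤ 4, i ≤ j + 1 → j ≤ i + 1 → ∀ u ∈ Nb G v0 s (x i), ∀ u',
      G.Adj u u' → lev G v0 u' = l0 + j → u' ∈ Nb G v0 s (x j) := by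
    intro i hi j hj h1 h2 u hu u' huu' hl
    rw [mem_Nb]
    refine ⟨by rw [hl, hlev j hj], ?_⟩
    have h3 := hstep i hi j hj h1 h2
    have h4 := hclose i hi u hu
    have h5 : G.dist u u' = 1 := SimpleGraph.dist_eq_one_iff_adj.2 huu'
    have h6 : G.dist (x j) u' ≤ G.dist (x j) (x i) + G.dist (x i) u' := hc.dist_triangle
    have h7 : G.dist (x i) u' ≤ G.dist (x i) u + G.dist u u' := hc.dist_triangle
    omega
  -- the slab
  obtain ⟨U, hUdef⟩ : ∃ U : Finset V, U = (Finset.range 5).biUnion (fun i => Nb G v0 s (x i)) :=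
    ⟨_, rfl⟩
  have hUmem : ∀ u, u ∈ U ↔ ∃ i ≤ 4, u ∈ Nb G v0 s (x i) := by
    intro u
    rw [hUdef, Finset.mem_biUnion]
    constructor
    · rintro ⟨i, hi, h⟩
      exact ⟨i, by rw [Finset.mem_range] at hi; omega, h⟩
    · rintro ⟨i, hi, h⟩
      exact ⟨i, by rw [Finset.mem_range]; omega, h⟩
  have hUcard : U.card ≤ 5 * k := by
    rw [hUdef]
    refine le_trans Finset.card_biUnion_le ?_
    refine le_trans (Finset.sum_le_card_nsmul _ _ k ?_) ?_
    · intro i hi
      rw [Finset.mem_range] at hi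
      exact (hcard i (by omega)).le
    · simp
  have hUlev : ∀ i ≤ 4, ∀ u ∈ Nb G v0 s (x i), lev G v0 u = l0 + i := by
    intro i hi u hu
    rw [mem_Nb] at hu
    rw [hu.1, hlev i hi]
  have hUfil : ∀ i ≤ 4, U.filter (fun u => lev G v0 u = l0 + i) = Nb G v0 s (x i) := by
    intro i hi
    ext u
    rw [Finset.mem_filter, hUmem]
    constructor
    · rintro ⟨⟨j, hj, hu⟩, hl⟩
      have h1 := hUlev j hj u hu
      have h2 : i = j := by omega
      rw [h2]
      exact hu
    · intro hu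
      exact ⟨⟨i, hi, hu⟩, hUlev i hi u hu⟩
  have hUnb : ∀ u ∈ U, l0 < lev G v0 u → lev G v0 u < l0 + 4 → ∀ u', G.Adj u u' → u' ∈ U := by
    intro u hu h1 h2 u' huu'
    rw [hUmem] at hu
    obtain ⟨i, hi, hu⟩ := hu
    have h3 := hUlev i hi u hu
    have h4 := lev_adj hc v0 huu'
    have h5 := lev_adj hc v0 huu'.symm
    rw [hUmem]
    obtain ⟨j, hj⟩ : ∃ j, lev G v0 u' = l0 + j := ⟨lev G v0 u' - l0, by omega⟩
    exact ⟨j, by omega, hnext i hi j (by omega) (by omega) (by omega) u hu u' huu' hj⟩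
  -- the component(s) of the thin arm
  have h2x : Nb G v0 s (x 2) = arm G v0 ρ (x 2) := (harm 2 (by omega)).symm
  have hwarm : w ∈ arm G v0 ρ (x 2) := by rw [← h2x]; exact hw
  have hZL : arm G v0 ρ0 w ⊆ Nb G v0 s (x 2) := by
    rw [h2x, ← arm_eq_of_mem hwarm]
    exact arm_mono v0 w hρ
  have hwZ : w ∈ arm G v0 ρ0 w := self_mem_arm v0 ρ0 w
  obtain ⟨A, hAdef⟩ : ∃ A : Finset V, A = U.filter (fun u => ∃ z ∈ arm G v0 ρ0 w,
      ∃ (hz : z ∈ (↑U : Set V)) (hu : u ∈ (↑U : Set V)),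
        (G.induce (↑U : Set V)).Reachable ⟨z, hz⟩ ⟨u, hu⟩) := ⟨_, rfl⟩
  have hAU : A ⊆ U := by rw [hAdef]; exact Finset.filter_subset _ _
  have hZU : ∀ z ∈ arm G v0 ρ0 w, z ∈ U := fun z hz => (hUmem z).2 ⟨2, by omega, hZL hz⟩
  have hZA : arm G v0 ρ0 w ⊆ A := by
    intro z hz
    rw [hAdef, Finset.mem_filter]
    exact ⟨hZU z hz, z, hz, Finset.mem_coe.2 (hZU z hz), Finset.mem_coe.2 (hZU z hz),
      Reachable.refl _⟩
  have hAcl : ∀ u ∈ A, ∀ u' ∈ U, G.Adj u u' → u' ∈ A := by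
    intro u hu u' hu' huu'
    rw [hAdef, Finset.mem_filter] at hu ⊢
    obtain ⟨huU, z, hz, hzU, huU', hr⟩ := hu
    refine ⟨hu', z, hz, hzU, Finset.mem_coe.2 hu', hr.trans ?_⟩
    exact Adj.reachable huu'
  have hBcl : ∀ u ∈ U \ A, ∀ u' ∈ U, G.Adj u u' → u' ∈ U \ A := by
    intro u hu u' hu' huu'
    rw [Finset.mem_sdiff] at hu ⊢
    exact ⟨hu', fun h => hu.2 (hAcl u' h u hu.1 huu'.symm)⟩
  have hAL : A.filter (fun u => lev G v0 u = l0 + 2) ⊆ arm G v0 ρ0 w := by
    intro u hu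
    rw [Finset.mem_filter] at hu
    have huL : u ∈ Nb G v0 s (x 2) := by
      rw [← hUfil 2 (by omega), Finset.mem_filter]
      exact ⟨hAU hu.1, hu.2⟩
    rw [hAdef, Finset.mem_filter] at hu
    obtain ⟨⟨huU, z, hz, hzU, huU', hr⟩, hl⟩ := hu
    obtain ⟨p, hp⟩ := hr.exists_isPath
    have h1 : p.length < Fintype.card (↑U : Set V) := hp.length_lt
    have h2 : Fintype.card (↑U : Set V) = U.card := by simp
    let f : G.induce (↑U : Set V) →g G := (Embedding.induce (↑U : Set V)).toHom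
    have h3 : G.dist z u ≤ p.length := by
      have h4 := SimpleGraph.dist_le (p.map f)
      rw [Walk.length_map] at h4
      exact h4
    have h5 : G.dist z u ≤ ρ0 := by omega
    have h6 : u ∈ arm G v0 ρ0 z := by
      have hzL := hZL hz
      have hzl := hUlev 2 (by omega) z hzL
      apply mem_arm_of_close
      · rw [hzl, hl]
      · rw [h2x] at hzL huL
        have h7 := up_of_mem_arm hzL
        have h8 := up_of_mem_arm huL
        rw [hlev 2 (by omega)] at h7 h8
        rw [hzl]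
        exact up_trans (up_symm h7) h8
      · exact h5
    rwa [arm_eq_of_mem hz] at h6
  -- the numbers
  have hsum : ∀ i ≤ 4, (A.filter (fun u => lev G v0 u = l0 + i)).card +
      ((U \ A).filter (fun u => lev G v0 u = l0 + i)).card = k := by
    intro i hi
    rw [← hcard i hi, ← hUfil i hi, ← Finset.card_union_of_disjoint]
    · congr 1
      ext u
      rw [Finset.mem_union, Finset.mem_filter, Finset.mem_filter, Finset.mem_filter,
        Finset.mem_sdiff]
      constructor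
      · rintro (h | h)
        · exact ⟨hAU h.1, h.2⟩
        · exact ⟨h.1.1, h.2⟩
      · intro h
        by_cases hA : u ∈ A
        · exact Or.inl ⟨hA, h.2⟩
        · exact Or.inr ⟨⟨h.1, hA⟩, h.2⟩
    · rw [Finset.disjoint_left]
      intro u hu hu'
      rw [Finset.mem_filter] at hu hu'
      exact (Finset.mem_sdiff.1 hu'.1).2 hu.1
  have hwl : lev G v0 w = l0 + 2 := hUlev 2 (by omega) w hw
  have hwA : w ∈ A := hZA hwZ
  have ha2 : (A.filter (fun u => lev G v0 u = l0 + 2)).card < k :=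
    lt_of_le_of_lt (Finset.card_le_card hAL) hlt
  obtain ⟨v, hv⟩ : ∃ v, v ∈ (U \ A).filter (fun u => lev G v0 u = l0 + 2) := by
    have h1 := hsum 2 (by omega)
    apply Finset.card_pos.1
    omega
  rw [Finset.mem_filter] at hv
  have hvU := (Finset.mem_sdiff.1 hv.1).1
  have hvA := (Finset.mem_sdiff.1 hv.1).2
  have hwB : w ∉ U \ A := fun h => (Finset.mem_sdiff.1 h).2 hwA
  -- parents
  have hpw := par_spec hc (v0 := v0) (v := w) (by omega)
  have hpv := par_spec hc (v0 := v0) (v := v) (by omega)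
  have hpwA : par G v0 w ∈ A :=
    hAcl w hwA _ (hUnb w (hAU hwA) (by omega) (by omega) _ hpw.1) hpw.1
  have hpvB : par G v0 v ∈ U \ A :=
    hBcl v hv.1 _ (hUnb v hvU (by omega) (by omega) _ hpv.1) hpv.1
  have keyA := slab_key hk hc v0 l0 U hUnb A hAU hAcl hvA
  have keyB := slab_key hk hc v0 l0 U hUnb (U \ A) Finset.sdiff_subset hBcl hwB
  have s0 := hsum 0 (by omega)
  have s1 := hsum 1 (by omega)
  have s2 := hsum 2 (by omega)
  have s3 := hsum 3 (by omega)
  have s4 := hsum 4 (by omega)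
  have a13 := keyA 2 2 (by omega) (by omega) hwA (by omega) (by omega)
  have b13 := keyB 2 2 (by omega) (by omega) hv.1 (by omega) (by omega)
  have a1 : 0 < (A.filter (fun u => lev G v0 u = l0 + 1)).card :=
    Finset.card_pos.2 ⟨_, Finset.mem_filter.2 ⟨hpwA, by omega⟩⟩
  have b1 : 0 < ((U \ A).filter (fun u => lev G v0 u = l0 + 1)).card :=
    Finset.card_pos.2 ⟨_, Finset.mem_filter.2 ⟨hpvB, by omega⟩⟩
  simp only [Nat.add_one_sub_one, Nat.reduceAdd] at a13 b13
  obtain ⟨p3, hp3⟩ : ∃ v, v ∈ A.filter (fun u => lev G v0 u = l0 + 3) := by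
    apply Finset.card_pos.1
    omega
  obtain ⟨q3, hq3⟩ : ∃ v, v ∈ (U \ A).filter (fun u => lev G v0 u = l0 + 3) := by
    apply Finset.card_pos.1
    omega
  rw [Finset.mem_filter] at hp3 hq3
  have a24 := keyA 3 3 (by omega) (by omega) hp3.1 (by omega) (by omega)
  have b24 := keyB 3 3 (by omega) (by omega) hq3.1 (by omega) (by omega)
  have a14 := keyA 2 3 (by omega) (by omega) hwA (by omega) (by omega)
  have b14 := keyB 2 3 (by omega) (by omega) hv.1 (by omega) (by omega)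
  have a02 := keyA 1 1 (by omega) (by omega) hpwA (by omega) (by omega)
  have b02 := keyB 1 1 (by omega) (by omega) hpvB (by omega) (by omega)
  have a03 := keyA 1 2 (by omega) (by omega) hwA (by omega) (by omega)
  have b03 := keyB 1 2 (by omega) (by omega) hv.1 (by omega) (by omega)
  simp only [Nat.reduceSub, Nat.reduceAdd] at a24 b24 a14 b14 a02 b02 a03 b03
  omega

end Pool.Agent.RBC
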