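import Pool.Agent.MP_dd54b8_co.O0

set_option autoImplicit false

/-! The escape sets, without isolation. -/

namespace Pool.Agent.RBC

open SimpleGraph

variable {V : Type} [Fintype V] {G : SimpleGraph V}

/-- `a`, `b` on a vertical path, at most `G0` levels apart, with `|Nb a| + |Nb b| < k`.  Then one
can escape from the part between them: there are `N` vertices at levels strictly between, close to
the vertical path. -/
theorem escape2 {k s G0 N : ℕ} (hk : KConn G k) (hc : G.Connected) (hs : G0 + N ≤ s)
    {v0 a b : V} (hab : (Nb G v0 s a).card + (Nb G v0 s b).card < k) (h1 : 1 ≤ lev G v0 a)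
    (hge : lev G v0 a + 2 ≤ lev G v0 b) (hle : lev G v0 b ≤ lev G v0 a + G0)
    (hanc : anc G v0 b (lev G v0 a) = a) :
    ∃ X : Finset V, X.card = N ∧ ∀ x ∈ X, lev G v0 a < lev G v0 x ∧ lev G v0 x < lev G v0 b ∧
      x ∈ Nb G v0 s (anc G v0 b (lev G v0 x)) := by
  classical
  set u := anc G v0 b (lev G v0 a + 1) with hudef
  have hlx : lev G v0 u = lev G v0 a + 1 := lev_anc hc (by omega)
  set S : Finset V := Nb G v0 s a ∪ Nb G v0 s b with hSdef
  have hS : S.card < k := by
    have := Finset.card_union_le (Nb G v0 s a) (Nb G v0 s b)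
    rw [hSdef]
    omega
  have hu : u ∉ S := by
    intro h
    rcases Finset.mem_union.1 h with h | h
    · have := (mem_Nb.1 h).1
      omega
    · have := (mem_Nb.1 h).1
      omega
  have h0 : v0 ∉ S := by
    intro h
    have hr := lev_root (G := G) v0
    rcases Finset.mem_union.1 h with h | h
    · have := (mem_Nb.1 h).1
      omega
    · have := (mem_Nb.1 h).1
      omega
  obtain ⟨y, w, hw, hy, hwS, hwl⟩ := first_hit hk hS hc hu h0 (i := lev G v0 a) (by omega)
  have hua : G.dist u a ≤ 1 := by
    have := adj_anc hc (v0 := v0) (v := b) (i := lev G v0 a) (by omega)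
    rw [hanc] at this
    rw [SimpleGraph.dist_eq_one_iff_adj.2 this]
  have hub : ∀ l, lev G v0 a + 1 ≤ l → l ≤ lev G v0 b →
      G.dist u (anc G v0 b l) = l - (lev G v0 a + 1) := by
    intro l h2 h3
    have := dist_anc hc (v0 := v0) (v := b) (i := l) (j := lev G v0 a + 1) h2 h3
    rw [SimpleGraph.dist_comm]; exact this
  have hdv : ∀ i ≤ w.length, G.dist u (w.getVert i) ≤ i := by
    intro i hi
    have := G.dist_le (w.take i)
    rw [Walk.take_length] at this
    omega
  -- the walk is long
  have hlen : N ≤ w.length := by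
    by_contra hcon
    push Not at hcon
    have h2 := hdv w.length le_rfl
    rw [w.getVert_length] at h2
    have h3 := hc.dist_triangle (u := a) (v := u) (w := y)
    rw [SimpleGraph.dist_comm] at hua
    have h4 : y ∈ Nb G v0 s a := mem_Nb.2 ⟨hy, by omega⟩
    exact hwS y w.end_mem_support (Finset.mem_union_left _ h4)
  -- levels
  have hlow : ∀ i, i < N → lev G v0 a < lev G v0 (w.getVert i) := by
    intro i hi
    refine hwl _ (w.getVert_mem_support i) ?_
    intro h
    have h2 := hdv i (by omega)
    rw [h] at h2
    have h3 := hc.dist_triangle (u := a) (v := u) (w := y)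
    rw [SimpleGraph.dist_comm] at hua
    have h4 : y ∈ Nb G v0 s a := mem_Nb.2 ⟨hy, by omega⟩
    exact hwS y w.end_mem_support (Finset.mem_union_left _ h4)
  have hhigh : ∀ i, i < N → lev G v0 (w.getVert i) < lev G v0 b := by
    intro i
    induction i with
    | zero =>
      intro _
      rw [w.getVert_zero]
      omega
    | succ i ih =>
      intro hi
      have h2 := ih (by omega)
      have hadj : G.Adj (w.getVert i) (w.getVert (i + 1)) := w.adj_getVert_succ (by omega)
      have h3 := lev_adj hc v0 hadj.symm
      by_contra hcon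
      push Not at hcon
      have h4 : lev G v0 (w.getVert (i + 1)) = lev G v0 b := by omega
      have h5 := hdv (i + 1) (by omega)
      have h6 := hc.dist_triangle (u := b) (v := u) (w := w.getVert (i + 1))
      have h7 := hub (lev G v0 b) (by omega) le_rfl
      rw [anc_self, SimpleGraph.dist_comm] at h7
      have h8 : w.getVert (i + 1) ∈ Nb G v0 s b := mem_Nb.2 ⟨h4, by omega⟩
      exact hwS _ (w.getVert_mem_support _) (Finset.mem_union_right _ h8)
  refine ⟨(Finset.range N).image w.getVert, ?_, ?_⟩
  · rw [Finset.card_image_of_injOn, Finset.card_range]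
    intro i hi j hj hij
    have hi' : i < N := Finset.mem_range.1 hi
    have hj' : j < N := Finset.mem_range.1 hj
    exact hw.getVert_injOn (by simp only [Set.mem_ofPred_eq]; omega)
      (by simp only [Set.mem_ofPred_eq]; omega) hij
  · intro x hx
    obtain ⟨i, hi, rfl⟩ := Finset.mem_image.1 hx
    have hi' : i < N := Finset.mem_range.1 hi
    have h2 := hlow i hi'
    have h3 := hhigh i hi'
    refine ⟨h2, h3, mem_Nb.2 ⟨?_, ?_⟩⟩
    · rw [lev_anc hc (by omega)]
    · have h4 := hdv i (by omega)
      have h5 := hub (lev G v0 (w.getVert i)) (by omega) (by omega)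
      have h6 := hc.dist_triangle (u := anc G v0 b (lev G v0 (w.getVert i))) (v := u)
        (w := w.getVert i)
      rw [SimpleGraph.dist_comm] at h5
      omega

end Pool.Agent.RBC
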