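import Pool.Agent.MP_dd54b8_co.OS

set_option autoImplicit false

/-! Task [RBO-W]: few vertices in thin arms near the pendant strands (`k` odd). -/

namespace Pool.Agent.RBC

open SimpleGraph

variable {V : Type} [Fintype V] {G : SimpleGraph V}

/-- A thick arm gives a large ball: `arm_growth` with `t = k - 1`. -/
theorem Nb_card_of_thick (hc : G.Connected) {v0 x : V} {k ρ s : ℕ} (hs : (k + 1) * ρ ≤ s)
    (h : k ≤ (arm G v0 ρ x).card) : k ≤ (Nb G v0 s x).card := by
  classical
  have hle : (k - 1) * ρ ≤ s := le_trans (Nat.mul_le_mul_right ρ (by omega)) hs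
  rcases arm_growth hc v0 x ρ (k - 1) with h1 | h1
  · refine h.trans (Finset.card_le_card fun y hy => ?_)
    rw [mem_Nb]
    exact ⟨lev_of_mem_arm hy, (h1 y hy).trans hle⟩
  · have h2 : ((arm G v0 ρ x).filter (fun y => G.dist x y ≤ (k - 1) * ρ)).card ≤
        (Nb G v0 s x).card := by
      refine Finset.card_le_card fun y hy => ?_
      rw [Finset.mem_filter] at hy
      rw [mem_Nb]
      exact ⟨lev_of_mem_arm hy.1, hy.2.trans hle⟩
    have h3 : k - 1 + 1 ≤ (Nb G v0 s x).card := by
      refine le_trans ?_ h2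
      convert h1
    omega

/-- The balls around separated strand vertices are disjoint. -/
theorem Nb_disjoint (hc : G.Connected) {v0 x y : V} {s r : ℕ} (hsr : 2 * s ≤ r)
    (h : lev G v0 x = lev G v0 y → r < G.dist x y) : Disjoint (Nb G v0 s x) (Nb G v0 s y) := by
  rw [Finset.disjoint_left]
  intro z hz1 hz2
  rw [mem_Nb] at hz1 hz2
  have h1 := h (hz1.1.symm.trans hz2.1)
  have h2 : G.dist x y ≤ G.dist x z + G.dist z y := hc.dist_triangle
  have h3 : G.dist z y = G.dist y z := SimpleGraph.dist_comm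
  have := hz1.2
  have := hz2.2
  omega

open Classical in
/-- Proof. Let `W` be the set of the `w` with `|arm ρ0 w| < k`, `Q` the set of the `x ∈ Sp` with
`W ∩ Nb x ≠ ∅`, `f x = |Nb x| - k`, `b` the number of `x ∈ Sp` with `|arm ρ x| < k`. By
`Nb_disjoint` the balls `Nb x`, `x ∈ Sp`, are disjoint, so
`|W| ≤ (n - Σ_{Sp} |Nb x|) + Σ_{x ∈ Q} |Nb x|` and `Σ_Q |Nb x| ≤ k |Q| + Σ_{Sp} f x`. It remains to
see `|Q| ≤ 5 (Σ f + b) + 3 |End|`.
Let `Bad = {y ∈ Sp : |Nb y| ≠ k or |arm ρ y| < k}`; by `Nb_card_of_thick`, `|Bad| ≤ Σ f + b`.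
For `x ∈ Sp \ End` choose `ch x ∈ Sp` with `par (ch x) = x` one level higher. `par` is injective on
the elements of `Sp` of positive level in the sense: `y, y' ∈ Sp`, `lev y = lev y'`,
`par y = par y'` implies `y = y'` (their distance is at most `2 ≤ r`). Let `x ∈ Q`. Then `x ∈ End`, or
`par x ∈ End`, or `ch x ∈ End`, or all of `par (par x), par x, x, ch x, ch (ch x)` are in `Sp` and by
`slab` (applied to `x 0 = par (par x), …, x 4 = ch (ch x)`) one of the five is in `Bad`. Each of the
eight sets has at most `|End|` resp. `|Bad|` elements. -/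
theorem thin_count {k ρ0 ρ r s : ℕ} (hk : KConn G k) (hc : G.Connected) (hodd : k % 2 = 1)
    (hρ : ρ0 ≤ ρ) (hs : (k + 1) * ρ ≤ s) (h5 : 5 * k ≤ ρ0) (hr2 : 2 ≤ r) (hsr : 2 * s ≤ r)
    {v0 : V} {Sp End : Finset V}
    (hsep : ∀ x ∈ Sp, ∀ y ∈ Sp, lev G v0 x = lev G v0 y → x ≠ y → r < G.dist x y)
    (hpe : PEnd G v0 Sp End) :
    (Finset.univ.filter (fun x => (arm G v0 ρ0 x).card < k)).card +
        ∑ x ∈ Sp, (Nb G v0 s x).card ≤
      Fintype.card V +
        k * (5 * ((∑ x ∈ Sp, ((Nb G v0 s x).card - k)) +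
          (Sp.filter (fun x => (arm G v0 ρ x).card < k)).card) + 3 * End.card) +
        ∑ x ∈ Sp, ((Nb G v0 s x).card - k) := by
  set N : V → Finset V := Nb G v0 s with hN
  set W := Finset.univ.filter (fun x => (arm G v0 ρ0 x).card < k) with hW
  set b := (Sp.filter (fun x => (arm G v0 ρ x).card < k)).card with hb
  set F := ∑ x ∈ Sp, ((N x).card - k) with hF
  let q : V → Prop := fun x => ∃ w ∈ N x, (arm G v0 ρ0 w).card < k
  set Q := Sp.filter q with hQ
  set Q' := Sp.filter (fun x => ¬ q x) with hQ'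
  -- step A
  have hsum : ∑ x ∈ Q, (N x).card + ∑ x ∈ Q', (N x).card = ∑ x ∈ Sp, (N x).card :=
    Finset.sum_filter_add_sum_filter_not Sp q fun x => (N x).card
  have hdisjN : ∀ x ∈ Sp, ∀ y ∈ Sp, x ≠ y → Disjoint (N x) (N y) := by
    intro x hx y hy hne
    exact Nb_disjoint hc hsr fun hl => hsep x hx y hy hl hne
  have hU : (Q'.biUnion N).card = ∑ x ∈ Q', (N x).card :=
    Finset.card_biUnion fun x hx y hy hne =>
      hdisjN x (Finset.mem_filter.1 hx).1 y (Finset.mem_filter.1 hy).1 hne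
  have hWU : Disjoint W (Q'.biUnion N) := by
    rw [Finset.disjoint_left]
    intro w hw hw'
    obtain ⟨x, hx, hwx⟩ := Finset.mem_biUnion.1 hw'
    exact (Finset.mem_filter.1 hx).2 ⟨w, hwx, (Finset.mem_filter.1 hw).2⟩
  have hA : W.card + ∑ x ∈ Q', (N x).card ≤ Fintype.card V := by
    rw [← hU, ← Finset.card_union_of_disjoint hWU]
    exact Finset.card_le_univ _
  -- step B
  have hB : ∑ x ∈ Q, (N x).card ≤ k * Q.card + F := by
    calc ∑ x ∈ Q, (N x).card ≤ ∑ x ∈ Q, (k + ((N x).card - k)) :=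
          Finset.sum_le_sum fun x _ => by omega
      _ = k * Q.card + ∑ x ∈ Q, ((N x).card - k) := by
          rw [Finset.sum_add_distrib, Finset.sum_const, smul_eq_mul, mul_comm]
      _ ≤ k * Q.card + F := by
          refine Nat.add_le_add_left (Finset.sum_le_sum_of_subset (Finset.filter_subset _ _)) _
  -- bad vertices
  set Bad := Sp.filter (fun y => (N y).card ≠ k ∨ (arm G v0 ρ y).card < k) with hBad
  have hBadc : Bad.card ≤ F + b := by
    have h1 : Bad ⊆ Sp.filter (fun y => 1 ≤ (N y).card - k) ∪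
        Sp.filter (fun x => (arm G v0 ρ x).card < k) := by
      intro y hy
      obtain ⟨hy1, hy2⟩ := Finset.mem_filter.1 hy
      rw [Finset.mem_union, Finset.mem_filter, Finset.mem_filter]
      by_cases h : (arm G v0 ρ y).card < k
      · exact Or.inr ⟨hy1, h⟩
      · have h3 : k ≤ (N y).card := Nb_card_of_thick hc hs (by omega)
        have h4 : (N y).card ≠ k := by
          rcases hy2 with h4 | h4
          · exact h4
          · exact absurd h4 h
        exact Or.inl ⟨hy1, by omega⟩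
    have h2 : (Sp.filter (fun y => 1 ≤ (N y).card - k)).card ≤ F := by
      rw [Finset.card_eq_sum_ones]
      calc ∑ _y ∈ Sp.filter (fun y => 1 ≤ (N y).card - k), 1
          ≤ ∑ y ∈ Sp.filter (fun y => 1 ≤ (N y).card - k), ((N y).card - k) :=
            Finset.sum_le_sum fun y hy => (Finset.mem_filter.1 hy).2
        _ ≤ F := Finset.sum_le_sum_of_subset (Finset.filter_subset _ _)
    exact (Finset.card_le_card h1).trans ((Finset.card_union_le _ _).trans
      (Nat.add_le_add_right h2 _))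
  -- step C
  let p : V → V := par G v0
  have hinj : ∀ x ∈ Sp, ∀ y ∈ Sp, 0 < lev G v0 x → 0 < lev G v0 y → p x = p y → x = y := by
    intro x hx y hy h0 h0' hxy
    by_contra hne
    obtain ⟨a1, l1⟩ := par_spec hc h0
    obtain ⟨a2, l2⟩ := par_spec hc h0'
    have hl : lev G v0 x = lev G v0 y := by
      rw [← l1, ← l2]
      change lev G v0 (p x) + 1 = lev G v0 (p y) + 1
      rw [hxy]
    have h1 := hsep x hx y hy hl hne
    have h2 : G.dist x y ≤ G.dist x (p x) + G.dist (p x) y := hc.dist_triangle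
    have h3 : G.dist x (p x) = 1 := SimpleGraph.dist_eq_one_iff_adj.mpr a1
    have h4 : G.dist (p x) y = 1 := by
      rw [hxy, SimpleGraph.dist_comm]
      exact SimpleGraph.dist_eq_one_iff_adj.mpr a2
    omega
  let c : V → V := fun y => if h : ∃ x ∈ Sp, 0 < lev G v0 x ∧ p x = y then h.choose else y
  have hcp : ∀ x ∈ Sp, 0 < lev G v0 x → c (p x) = x := by
    intro x hx h0
    have h : ∃ x' ∈ Sp, 0 < lev G v0 x' ∧ p x' = p x := ⟨x, hx, h0, rfl⟩
    have h1 : c (p x) = h.choose := dif_pos h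
    obtain ⟨h2, h3, h4⟩ := h.choose_spec
    rw [h1]
    exact hinj _ h2 x hx h3 h0 h4
  have hcover : Q ⊆ End ∪ End.image c ∪ End.image p ∪ (Bad ∪ Bad.image c ∪
      Bad.image (c ∘ c) ∪ Bad.image p ∪ Bad.image (p ∘ p)) := by
    intro x hx
    obtain ⟨hxS, w, hw, hwk⟩ := Finset.mem_filter.1 hx
    simp only [Finset.mem_union, Finset.mem_image, Function.comp]
    by_cases hxE : x ∈ End
    · exact Or.inl (Or.inl (Or.inl hxE))
    obtain ⟨h1, h2⟩ := hpe x hxS
    obtain ⟨h0, hpx⟩ := h1.resolve_left hxE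
    obtain ⟨y, hyS, hyp, hyl⟩ := h2.resolve_left hxE
    by_cases hpE : p x ∈ End
    · exact Or.inl (Or.inl (Or.inr ⟨p x, hpE, hcp x hxS h0⟩))
    by_cases hyE : y ∈ End
    · exact Or.inl (Or.inr ⟨y, hyE, hyp⟩)
    obtain ⟨h0p, hppx⟩ := (hpe (p x) hpx).1.resolve_left hpE
    obtain ⟨y2, hy2S, hy2p, hy2l⟩ := (hpe y hyS).2.resolve_left hyE
    right
    by_cases b2 : x ∈ Bad
    · exact Or.inl (Or.inl (Or.inl (Or.inl b2)))
    by_cases b1 : p x ∈ Bad
    · exact Or.inl (Or.inl (Or.inl (Or.inr ⟨p x, b1, hcp x hxS h0⟩)))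
    by_cases b0 : p (p x) ∈ Bad
    · refine Or.inl (Or.inl (Or.inr ⟨p (p x), b0, ?_⟩))
      rw [hcp (p x) hpx h0p, hcp x hxS h0]
    by_cases b3 : y ∈ Bad
    · exact Or.inl (Or.inr ⟨y, b3, hyp⟩)
    by_cases b4 : y2 ∈ Bad
    · refine Or.inr ⟨y2, b4, ?_⟩
      change par G v0 (par G v0 y2) = x
      rw [hy2p, hyp]
    exfalso
    have hgood : ∀ z ∈ Sp, z ∉ Bad → (N z).card = k ∧ k ≤ (arm G v0 ρ z).card := by
      intro z hz hzB
      rw [hBad, Finset.mem_filter] at hzB
      push Not at hzB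
      exact hzB hz
    let X : ℕ → V := fun i => match i with
      | 0 => p (p x)
      | 1 => p x
      | 2 => x
      | 3 => y
      | _ => y2
    have hlx := (par_spec hc h0).2
    have hlpx := (par_spec hc h0p).2
    have hpar : ∀ i < 4, par G v0 (X (i + 1)) = X i ∧ lev G v0 (X (i + 1)) = lev G v0 (X i) + 1 := by
      intro i hi
      interval_cases i
      · exact ⟨rfl, hlpx.symm⟩
      · exact ⟨rfl, hlx.symm⟩
      · exact ⟨hyp, hyl⟩
      · exact ⟨hy2p, hy2l⟩
    have hall : ∀ i ≤ 4, (N (X i)).card = k ∧ k ≤ (arm G v0 ρ (X i)).card := by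
      intro i hi
      interval_cases i
      · exact hgood _ hppx b0
      · exact hgood _ hpx b1
      · exact hgood _ hxS b2
      · exact hgood _ hyS b3
      · exact hgood _ hy2S b4
    have := slab hk hc hodd hρ hs h5 (x := X) hpar (fun i hi => (hall i hi).1)
      (fun i hi => (hall i hi).2) (w := w) hw
    omega
  have hC : Q.card ≤ 5 * (F + b) + 3 * End.card := by
    have h1 := Finset.card_le_card hcover
    have e1 : (End.image c).card ≤ End.card := Finset.card_image_le
    have e2 : (End.image p).card ≤ End.card := Finset.card_image_le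
    have e3 : (Bad.image c).card ≤ Bad.card := Finset.card_image_le
    have e4 : (Bad.image (c ∘ c)).card ≤ Bad.card := Finset.card_image_le
    have e5 : (Bad.image p).card ≤ Bad.card := Finset.card_image_le
    have e6 : (Bad.image (p ∘ p)).card ≤ Bad.card := Finset.card_image_le
    have u1 := Finset.card_union_le (End ∪ End.image c ∪ End.image p) (Bad ∪ Bad.image c ∪
      Bad.image (c ∘ c) ∪ Bad.image p ∪ Bad.image (p ∘ p))
    have u2 := Finset.card_union_le (End ∪ End.image c) (End.image p)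
    have u3 := Finset.card_union_le End (End.image c)
    have u4 := Finset.card_union_le (Bad ∪ Bad.image c ∪ Bad.image (c ∘ c) ∪ Bad.image p)
      (Bad.image (p ∘ p))
    have u5 := Finset.card_union_le (Bad ∪ Bad.image c ∪ Bad.image (c ∘ c)) (Bad.image p)
    have u6 := Finset.card_union_le (Bad ∪ Bad.image c) (Bad.image (c ∘ c))
    have u7 := Finset.card_union_le Bad (Bad.image c)
    omega
  have hfin : k * Q.card ≤ k * (5 * (F + b) + 3 * End.card) := Nat.mul_le_mul_left k hC
  omega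

end Pool.Agent.RBC
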