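import Pool.Agent.MP_dd54b8_co.A1
import Pool.Agent.MP_dd54b8_co.C3

set_option autoImplicit false

/-! Task [RBC-S2]: adding an ear to a state. -/

namespace Pool.Agent.RBC

open SimpleGraph

variable {V : Type} [Fintype V] {G : SimpleGraph V}

open Classical in
/-- Add an ear `a, L, b` (`a, b ∈ H`, possibly `a = b`) at most `T` of whose interior vertices are
already in `H`.  The vertices of `New ⊆ L` become ear strand vertices. -/
theorem add_ear (hc : G.Connected) {v0 : V} {k ρ R r : ℕ} {H Sp Se Bot : Finset V} {q ov : ℕ}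
    (h : St G v0 k ρ R r H Sp Se Bot q ov) {a b : V} (ha : a ∈ H) (hb : b ∈ H)
    (L : List V) (hch : List.IsChain G.Adj (a :: (L ++ [b]))) (hnd : L.Nodup)
    (T O : ℕ) (hT : (L.toFinset ∩ H).card ≤ T)
    (New NB : Finset V) (hsub : New ⊆ L.toFinset)
    (hold : ∀ x ∈ New, ∀ y, (y ∈ Sp ∨ y ∈ Se) → lev G v0 x = lev G v0 y → r < G.dist x y)
    (hnew : ∀ x ∈ New, ∀ y ∈ New, lev G v0 x = lev G v0 y → x ≠ y → r < G.dist x y)
    (hnb : ∀ x ∈ New, x ∈ NB ∨ (0 < lev G v0 x ∧ par G v0 x ∈ New))
    (hcost : L.length + T + 2 ≤ New.card + 2 * O) :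
    St G v0 k ρ R r (H ∪ L.toFinset) Sp (Se ∪ New) (Bot ∪ NB) (q + (L.length + T + 2) / 2)
        (ov + O) ∧ (Se ∪ New).card = Se.card + New.card := by
  have hdisj : ∀ x ∈ New, ¬ (x ∈ Sp ∨ x ∈ Se) := by
    intro x hx hy
    have := hold x hx x hy rfl
    rw [SimpleGraph.dist_self] at this
    omega
  have hcard : (Se ∪ New).card = Se.card + New.card := by
    apply Finset.card_union_of_disjoint
    rw [Finset.disjoint_left]
    intro x hx hy
    exact hdisj x hy (Or.inr hx)
  refine ⟨⟨?_, ?_, ?_, ?_, ?_, ?_, ?_, ?_, ?_⟩, hcard⟩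
  · exact Finset.mem_union_left _ h.root
  · have hT' : (L.filter (fun x => decide (x ∈ (↑H : Set V)))).length ≤ T := by
      have h1 : (L.filter (fun x => decide (x ∈ (↑H : Set V)))).length
          = (L.filter (fun x => decide (x ∈ (↑H : Set V)))).toFinset.card :=
        (List.toFinset_card_of_nodup (hnd.filter _)).symm
      rw [h1]
      refine le_trans (Finset.card_le_card ?_) hT
      intro x hx
      rw [List.mem_toFinset, List.mem_filter] at hx
      rw [Finset.mem_inter, List.mem_toFinset]
      exact ⟨hx.1, by simpa using hx.2⟩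
    have hT2 : (@List.filter V (fun x => @decide (x ∈ (↑H : Set V)) (Classical.propDecidable _))
        L).length ≤ T := by
      refine le_of_eq_of_le ?_ hT'
      congr 1
      refine List.filter_congr (fun x _ => ?_)
      simp
    have := rb_ear_touch h.rb (show a ∈ (↑H : Set V) from ha) (show b ∈ (↑H : Set V) from hb)
      L hch hnd T hT2
    have hE : (↑(H ∪ L.toFinset) : Set V) = (↑H : Set V) ∪ {x | x ∈ L} := by
      ext x; simp
    rw [hE]
    exact this
  · exact h.subp.trans Finset.subset_union_left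
  · exact Finset.union_subset_union h.sube hsub
  · rw [Finset.disjoint_left]
    intro x hx hy
    rcases Finset.mem_union.1 hy with hy | hy
    · exact (Finset.disjoint_left.1 h.disj) hx hy
    · exact hdisj x hy (Or.inl hx)
  · have aux : ∀ x, (x ∈ Sp ∨ x ∈ Se ∪ New) → (x ∈ Sp ∨ x ∈ Se) ∨ x ∈ New := by
      rintro x (hx | hx)
      · exact Or.inl (Or.inl hx)
      · rcases Finset.mem_union.1 hx with hx | hx
        · exact Or.inl (Or.inr hx)
        · exact Or.inr hx
    intro x hx y hy hl hne
    rcases aux x hx with hx | hx <;> rcases aux y hy with hy | hy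
    · exact h.sep x hx y hy hl hne
    · rw [SimpleGraph.dist_comm]
      exact hold y hy x hx hl.symm
    · exact hold x hx y hy hl
    · exact hnew x hx y hy hl hne
  · exact h.pend
  · intro x hx
    rcases Finset.mem_union.1 hx with hx | hx
    · rcases h.bot x hx with h1 | ⟨h1, h2⟩
      · exact Or.inl (Finset.mem_union_left _ h1)
      · exact Or.inr ⟨h1, Finset.mem_union_left _ h2⟩
    · rcases hnb x hx with h1 | ⟨h1, h2⟩
      · exact Or.inl (Finset.mem_union_right _ h1)
      · exact Or.inr ⟨h1, Finset.mem_union_right _ h2⟩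
  · have h1 := h.cost
    have h2 : 2 * ((L.length + T + 2) / 2) ≤ L.length + T + 2 := Nat.mul_div_le _ _
    rw [hcard]
    omega

end Pool.Agent.RBC
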