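import Pool.Agent.MP_dd54b8_co.A1

set_option autoImplicit false

/-! Task [RBC-Z]: splitting above a thin isolated arm. -/

namespace Pool.Agent.RBC

open SimpleGraph

variable {V : Type} [Fintype V] {G : SimpleGraph V}

omit [Fintype V] in
/-- Along a walk with levels `≥ i` from a vertex with `P` to a vertex without `P` there is an edge
with the same property. -/
private theorem split_walk {v0 : V} {i : ℕ} (P : V → Prop) {s t : V} (w : G.Walk s t) :
    (∀ x ∈ w.support, i ≤ lev G v0 x) → P s → ¬ P t →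
      ∃ z z' : V, G.Adj z z' ∧ Up G v0 i s z ∧ Up G v0 i s z' ∧ P z ∧ ¬ P z' := by
  induction w with
  | nil => intro _ h h'; exact absurd h h'
  | @cons s u t h p ih =>
    intro hl hs ht
    have hls : i ≤ lev G v0 s := hl s (by simp)
    have hlu : i ≤ lev G v0 u := hl u (by simp)
    have hsu : Up G v0 i s u := up_adj h hls hlu
    by_cases hu : P u
    · obtain ⟨z, z', h1, h2, h3, h4, h5⟩ := ih
        (fun x hx => hl x (by rw [Walk.support_cons]; exact List.mem_cons_of_mem _ hx)) hu ht
      exact ⟨z, z', h1, up_trans hsu h2, up_trans hsu h3, h4, h5⟩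
    · exact ⟨s, u, h, up_refl hls, hsu, hs, hu⟩

/-- Above a thin arm with something above it there are two adjacent vertices, one with its ancestor
in the arm, the other with its ancestor outside the arm. -/
theorem exists_split {k ρ : ℕ} (hk : KConn G k) (hc : G.Connected) {v0 a : V}
    (h1 : 1 ≤ lev G v0 a) (hthin : (arm G v0 ρ a).card < k)
    (hup : ∃ u, lev G v0 a < lev G v0 u ∧ Up G v0 (lev G v0 a) a u) :
    ∃ z z' : V, G.Adj z z' ∧ Up G v0 (lev G v0 a) a z ∧ Up G v0 (lev G v0 a) a z' ∧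
      anc G v0 z (lev G v0 a) ∈ arm G v0 ρ a ∧ anc G v0 z' (lev G v0 a) ∉ arm G v0 ρ a := by
  classical
  obtain ⟨u, hu, hau⟩ := hup
  have hv0 : v0 ∉ arm G v0 ρ a := by
    intro h
    have := lev_of_mem_arm h
    rw [lev_root] at this
    omega
  have huA : u ∉ arm G v0 ρ a := by
    intro h
    have := lev_of_mem_arm h
    omega
  by_cases hf : anc G v0 u (lev G v0 a) ∈ arm G v0 ρ a
  · obtain ⟨y, w, -, hyl, hyS, hyi⟩ := first_hit hk hthin hc huA hv0 hu
    have hlev : ∀ x ∈ w.support, lev G v0 a ≤ lev G v0 x := by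
      intro x hx
      by_cases hxy : x = y
      · rw [hxy, hyl]
      · exact (hyi x hx hxy).le
    have hy : anc G v0 y (lev G v0 a) ∉ arm G v0 ρ a := by
      rw [← hyl, anc_self]
      exact hyS y w.end_mem_support
    obtain ⟨z, z', e1, e2, e3, e4, e5⟩ :=
      split_walk (fun x => anc G v0 x (lev G v0 a) ∈ arm G v0 ρ a) w hlev hf hy
    exact ⟨z, z', e1, up_trans hau e2, up_trans hau e3, e4, e5⟩
  · obtain ⟨w, hw⟩ := hau
    have ha : anc G v0 a (lev G v0 a) ∈ arm G v0 ρ a := by
      rw [anc_self]; exact self_mem_arm v0 ρ a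
    exact split_walk (fun x => anc G v0 x (lev G v0 a) ∈ arm G v0 ρ a) w hw ha hf

/-- The first level at which the two legs come close to each other. -/
theorem exists_top (hc : G.Connected) {v0 z z' : V} {i r R : ℕ} (hr : 2 ≤ r) (hrR : r ≤ R)
    (hadj : G.Adj z z') (hz : i ≤ lev G v0 z) (hz' : i ≤ lev G v0 z')
    (hfar : R < G.dist (anc G v0 z i) (anc G v0 z' i)) :
    ∃ h0, i < h0 ∧ h0 ≤ lev G v0 z ∧ h0 ≤ lev G v0 z' ∧
      G.dist (anc G v0 z h0) (anc G v0 z' h0) ≤ r ∧
      (∀ l, i ≤ l → l < h0 → r < G.dist (anc G v0 z l) (anc G v0 z' l)) ∧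
      R < 2 * (h0 - i) + r := by
  classical
  have hzz' := lev_adj hc v0 hadj
  have hz'z := lev_adj hc v0 hadj.symm
  have hd1 : G.dist z z' = 1 := SimpleGraph.dist_eq_one_iff_adj.mpr hadj
  set m := min (lev G v0 z) (lev G v0 z') with hm
  have hmz : m ≤ lev G v0 z := min_le_left _ _
  have hmz' : m ≤ lev G v0 z' := min_le_right _ _
  have him : i ≤ m := le_min hz hz'
  have hmr : G.dist (anc G v0 z m) (anc G v0 z' m) ≤ r := by
    have e1 := dist_self_anc hc hmz
    have e2 := dist_self_anc hc hmz'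
    have t1 := hc.dist_triangle (u := anc G v0 z m) (v := z) (w := anc G v0 z' m)
    have t2 := hc.dist_triangle (u := z) (v := z') (w := anc G v0 z' m)
    rw [SimpleGraph.dist_comm (u := anc G v0 z m) (v := z)] at t1
    omega
  have hex : ∃ l, i ≤ l ∧ G.dist (anc G v0 z l) (anc G v0 z' l) ≤ r := ⟨m, him, hmr⟩
  obtain ⟨hi0, hr0⟩ := Nat.find_spec hex
  have h0m : Nat.find hex ≤ m := Nat.find_min' hex ⟨him, hmr⟩
  set h0 := Nat.find hex with hh0
  have hne : h0 ≠ i := by
    intro h
    rw [h] at hr0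
    omega
  refine ⟨h0, by omega, by omega, by omega, hr0, ?_, ?_⟩
  · intro l hl hl0
    have := Nat.find_min hex hl0
    by_contra hcon
    push Not at hcon
    exact this ⟨hl, hcon⟩
  · have e1 := dist_anc hc (v0 := v0) (v := z) (i := h0) (j := i) hi0 (by omega)
    have e2 := dist_anc hc (v0 := v0) (v := z') (i := h0) (j := i) hi0 (by omega)
    have t1 := hc.dist_triangle (u := anc G v0 z i) (v := anc G v0 z h0) (w := anc G v0 z' i)
    have t2 := hc.dist_triangle (u := anc G v0 z h0) (v := anc G v0 z' h0) (w := anc G v0 z' i)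
    rw [SimpleGraph.dist_comm (u := anc G v0 z i) (v := anc G v0 z h0)] at t1
    omega

end Pool.Agent.RBC
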