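import Pool.Agent.MP_dd54b8_co.S1
import Pool.Agent.MP_dd54b8_co.S2
import Pool.Agent.MP_dd54b8_co.Z

set_option autoImplicit false

/-! Improvements of a state, and the legs above a far thin isolated arm (no task here). -/

namespace Pool.Agent.RBC

open SimpleGraph

variable {V : Type} [Fintype V] (G : SimpleGraph V)

/-- The state can be improved: more strand vertices, with a controlled increase of the overhead and
of the number of bottom vertices. -/
def Better (v0 : V) (k ρ R r Λ M : ℕ) (Sp Se Bot : Finset V) (ov : ℕ) : Prop :=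
  ∃ (H' Sp' Se' Bot' : Finset V) (q' ov' : ℕ), St G v0 k ρ R r H' Sp' Se' Bot' q' ov' ∧
    Sp.card + Se.card < Sp'.card + Se'.card ∧
    Λ * ov' + (Sp.card + Se.card) ≤ Λ * ov + (Sp'.card + Se'.card) ∧
    M * Bot'.card + (Sp.card + Se.card) ≤ M * Bot.card + (Sp'.card + Se'.card)

/-- Legs: two adjacent vertices `z, z'` above a thin isolated arm at level `i` that is far from `H`;
the vertical paths below `z` and `z'` (the legs) are far apart at the levels `i, …, h0 - 1` and close
at level `h0`; `b1 < i` is the highest level at which the first leg is close to `H`. -/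
structure Legs (v0 : V) (r R C3 : ℕ) (H : Finset V) (z z' : V) (i h0 b1 : ℕ) : Prop where
  ih : i < h0
  hz : h0 ≤ lev G v0 z
  hz' : h0 ≤ lev G v0 z'
  top : G.dist (anc G v0 z h0) (anc G v0 z' h0) ≤ r
  apart : ∀ l, i ≤ l → l < h0 → r < G.dist (anc G v0 z l) (anc G v0 z' l)
  long : R < 2 * (h0 - i) + r
  bi : b1 < i
  bH : ∃ y ∈ H, G.dist (anc G v0 z b1) y ≤ r
  clear : ∀ l, b1 < l → l ≤ i → ∀ y ∈ H, r < G.dist (anc G v0 z l) y
  gap : C3 < (i - b1) + r
  farA : ∀ y ∈ H, C3 < G.dist (anc G v0 z i) y

end Pool.Agent.RBC
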