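import Pool.Agent.MP_dd54b8_co.A1
import Pool.Agent.MP_dd54b8_co.C1

set_option autoImplicit false

/-! Task [RBC-S1]: adding a connector and a vertical pendant path to a state. -/

namespace Pool.Agent.RBC

open SimpleGraph

variable {V : Type} [Fintype V] {G : SimpleGraph V}

open Classical in
/-- Add a shortest path from `x` to a vertex of `H`. -/
theorem add_conn (hc : G.Connected) {v0 : V} {k ρ R r : ℕ} {H Sp Se Bot : Finset V} {q ov : ℕ}
    (h : St G v0 k ρ R r H Sp Se Bot q ov) {x y0 : V} {d : ℕ} (hy0 : y0 ∈ H)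
    (hd : G.dist x y0 ≤ d) :
    ∃ κ : Finset V, x ∈ κ ∧ κ.card ≤ d + 1 ∧ (∀ y ∈ κ, G.dist x y + G.dist y y0 ≤ d) ∧
      St G v0 k ρ R r (H ∪ κ) Sp Se Bot (q + d) (ov + d) := by
  obtain ⟨w, hw⟩ := hc.exists_walk_length_eq_dist y0 x
  have hwd : w.length ≤ d := by
    rw [hw, SimpleGraph.dist_comm]
    exact hd
  refine ⟨w.support.toFinset, ?_, ?_, ?_, ?_⟩
  · rw [List.mem_toFinset]
    exact w.end_mem_support
  · have h1 := List.toFinset_card_le w.support
    have h2 := w.length_support
    omega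
  · intro y hy
    rw [List.mem_toFinset] at hy
    have h1 := SimpleGraph.dist_le (w.takeUntil y hy)
    have h2 := SimpleGraph.dist_le (w.dropUntil y hy)
    have h3 : (w.takeUntil y hy).length + (w.dropUntil y hy).length = w.length := by
      have := congrArg SimpleGraph.Walk.length (w.take_spec hy)
      rwa [SimpleGraph.Walk.length_append] at this
    rw [SimpleGraph.dist_comm (u := x), SimpleGraph.dist_comm (u := y) (v := y0)]
    omega
  · refine ⟨Finset.mem_union_left _ h.root, ?_, h.subp.trans Finset.subset_union_left,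
      h.sube.trans Finset.subset_union_left, h.disj, h.sep, h.pend, h.bot, ?_⟩
    · have h1 := rb_walk h.rb (a := y0) (by exact_mod_cast hy0) w
      have h2 := rb_mono h1 (q' := q + d) (by omega)
      have e : ((H ∪ w.support.toFinset : Finset V) : Set V) = (↑H ∪ {x | x ∈ w.support}) := by
        ext a
        simp
      rw [e]
      exact h2
    · have := h.cost
      omega

/-- The vertical walk. -/
theorem exists_vert_walk (hc : G.Connected) {v0 z : V} (lo : ℕ) : ∀ n : ℕ, lo + n ≤ lev G v0 z →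
    ∃ w : G.Walk (anc G v0 z lo) (anc G v0 z (lo + n)), w.length = n ∧
      ∀ x, x ∈ w.support ↔ ∃ l, lo ≤ l ∧ l ≤ lo + n ∧ anc G v0 z l = x := by
  intro n
  induction n with
  | zero =>
    intro _
    refine ⟨SimpleGraph.Walk.nil, rfl, ?_⟩
    intro x
    rw [SimpleGraph.Walk.support_nil, List.mem_singleton]
    constructor
    · rintro rfl
      exact ⟨lo, le_refl _, le_refl _, rfl⟩
    · rintro ⟨l, h1, h2, rfl⟩
      have : l = lo := by omega
      rw [this]
  | succ n ih =>
    intro hn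
    obtain ⟨w, hw1, hw2⟩ := ih (by omega)
    have hadj : G.Adj (anc G v0 z (lo + n)) (anc G v0 z (lo + (n + 1))) :=
      (adj_anc hc (i := lo + n) (by omega)).symm
    refine ⟨w.concat hadj, ?_, ?_⟩
    · rw [SimpleGraph.Walk.length_concat, hw1]
    · intro x
      rw [SimpleGraph.Walk.support_concat, List.mem_append, hw2,
        List.mem_singleton]
      constructor
      · rintro (⟨l, h1, h2, rfl⟩ | rfl)
        · exact ⟨l, h1, by omega, rfl⟩
        · exact ⟨lo + (n + 1), by omega, le_refl _, rfl⟩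
      · rintro ⟨l, h1, h2, rfl⟩
        by_cases hl : l = lo + (n + 1)
        · right
          rw [hl]
        · left
          exact ⟨l, h1, by omega, rfl⟩

open Classical in
/-- Add a connector from `anc z lo` to `H` and the vertical path `anc z lo, …, anc z hi`; its
interior vertices become pendant strand vertices. -/
theorem add_pend (hc : G.Connected) {v0 : V} {k ρ R r : ℕ} {H Sp Se Bot : Finset V} {q ov : ℕ}
    (h : St G v0 k ρ R r H Sp Se Bot q ov) {z y0 : V} {d lo hi : ℕ} (hy0 : y0 ∈ H)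
    (hd : G.dist (anc G v0 z lo) y0 ≤ d) (hlo : lo ≤ hi) (hhi : hi ≤ lev G v0 z)
    (hfar : ∀ l, lo < l → l < hi → ∀ y ∈ H, r < G.dist (anc G v0 z l) y)
    (hthin : ∀ l, lo < l → l < hi →
      ¬ (Iso G v0 ρ R (anc G v0 z l) ∧ (arm G v0 ρ (anc G v0 z l)).card < k)) :
    ∃ κ : Finset V, κ.card ≤ d + 1 ∧
      (∀ y ∈ κ, G.dist (anc G v0 z lo) y + G.dist y y0 ≤ d) ∧
      St G v0 k ρ R r (H ∪ κ ∪ (Finset.Icc lo hi).image (anc G v0 z))
        (Sp ∪ (Finset.Ioo lo hi).image (anc G v0 z)) Se Bot (q + d + (hi - lo)) (ov + d + 1) ∧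
      (Sp ∪ (Finset.Ioo lo hi).image (anc G v0 z)).card = Sp.card + (hi - lo - 1) := by
  obtain ⟨κ, hxκ, hκc, hκd, hst⟩ := add_conn hc h hy0 hd
  have hlev : ∀ l, l < hi → lev G v0 (anc G v0 z l) = l := fun l hl => lev_anc hc (by omega)
  have hnotH : ∀ l, lo < l → l < hi → anc G v0 z l ∉ H := by
    intro l h1 h2 hmem
    have := hfar l h1 h2 _ hmem
    rw [SimpleGraph.dist_self] at this
    omega
  have hcard : (Sp ∪ (Finset.Ioo lo hi).image (anc G v0 z)).card = Sp.card + (hi - lo - 1) := by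
    rw [Finset.card_union_of_disjoint, Finset.card_image_of_injOn, Nat.card_Ioo]
    · intro a ha b hb hab
      rw [Finset.coe_Ioo, Set.mem_Ioo] at ha hb
      have := congrArg (lev G v0) hab
      rwa [hlev a ha.2, hlev b hb.2] at this
    · rw [Finset.disjoint_left]
      intro x hx hx'
      rw [Finset.mem_image] at hx'
      obtain ⟨l, hl, rfl⟩ := hx'
      rw [Finset.mem_Ioo] at hl
      exact hnotH l hl.1 hl.2 (h.subp hx)
  refine ⟨κ, hκc, hκd, ?_, hcard⟩
  obtain ⟨w, hw1, hw2⟩ := exists_vert_walk hc (v0 := v0) (z := z) lo (hi - lo) (by omega)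
  have hnew : ∀ x, x ∈ (Finset.Ioo lo hi).image (anc G v0 z) →
      ∃ l, lo < l ∧ l < hi ∧ x = anc G v0 z l := by
    intro x hx
    rw [Finset.mem_image] at hx
    obtain ⟨l, hl, rfl⟩ := hx
    rw [Finset.mem_Ioo] at hl
    exact ⟨l, hl.1, hl.2, rfl⟩
  have hcases : ∀ x, (x ∈ Sp ∪ (Finset.Ioo lo hi).image (anc G v0 z) ∨ x ∈ Se) →
      (x ∈ Sp ∨ x ∈ Se) ∨ ∃ l, lo < l ∧ l < hi ∧ x = anc G v0 z l := by
    rintro x (hx | hx)
    · rw [Finset.mem_union] at hx
      rcases hx with hx | hx
      · exact Or.inl (Or.inl hx)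
      · exact Or.inr (hnew x hx)
    · exact Or.inl (Or.inr hx)
  have holdH : ∀ x, (x ∈ Sp ∨ x ∈ Se) → x ∈ H := by
    rintro x (hx | hx)
    · exact h.subp hx
    · exact h.sube hx
  refine ⟨?_, ?_, ?_, ?_, ?_, ?_, ?_, h.bot, ?_⟩
  · exact Finset.mem_union_left _ (Finset.mem_union_left _ h.root)
  · have h1 := rb_walk hst.rb (a := anc G v0 z lo)
      (by exact_mod_cast Finset.mem_union_right H hxκ) w
    rw [hw1] at h1
    have e : ((H ∪ κ ∪ (Finset.Icc lo hi).image (anc G v0 z) : Finset V) : Set V) =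
        (↑(H ∪ κ) ∪ {x | x ∈ w.support}) := by
      ext a
      simp only [Finset.coe_union, Finset.coe_image, Set.mem_union, Set.mem_ofPred_eq,
        Finset.mem_coe, Finset.coe_Icc, Set.mem_image, Set.mem_Icc, hw2]
      constructor
      · rintro ((ha | ha) | ⟨l, hl, rfl⟩)
        · exact Or.inl (Or.inl ha)
        · exact Or.inl (Or.inr ha)
        · exact Or.inr ⟨l, hl.1, by omega, rfl⟩
      · rintro ((ha | ha) | ⟨l, hl1, hl2, rfl⟩)
        · exact Or.inl (Or.inl ha)
        · exact Or.inl (Or.inr ha)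
        · exact Or.inr ⟨l, ⟨hl1, by omega⟩, rfl⟩
    rw [e]
    exact h1
  · intro x hx
    rw [Finset.mem_union] at hx
    rcases hx with hx | hx
    · exact Finset.mem_union_left _ (Finset.mem_union_left _ (h.subp hx))
    · obtain ⟨l, h1, h2, rfl⟩ := hnew x hx
      apply Finset.mem_union_right
      exact Finset.mem_image_of_mem _ (Finset.mem_Icc.2 ⟨h1.le, h2.le⟩)
  · intro x hx
    exact Finset.mem_union_left _ (Finset.mem_union_left _ (h.sube hx))
  · rw [Finset.disjoint_left]
    intro x hx hx'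
    rw [Finset.mem_union] at hx
    rcases hx with hx | hx
    · exact Finset.disjoint_left.1 h.disj hx hx'
    · obtain ⟨l, h1, h2, rfl⟩ := hnew x hx
      exact hnotH l h1 h2 (h.sube hx')
  · intro x hx y hy hxy hne
    rcases hcases x hx with hx | ⟨l, h1, h2, rfl⟩ <;>
      rcases hcases y hy with hy | ⟨l', h1', h2', rfl⟩
    · exact h.sep x hx y hy hxy hne
    · rw [SimpleGraph.dist_comm]
      exact hfar l' h1' h2' x (holdH x hx)
    · exact hfar l h1 h2 y (holdH y hy)
    · rw [hlev l h2, hlev l' h2'] at hxy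
      subst hxy
      exact absurd rfl hne
  · intro x hx
    rw [Finset.mem_union] at hx
    rcases hx with hx | hx
    · exact h.pend x hx
    · obtain ⟨l, h1, h2, rfl⟩ := hnew x hx
      exact hthin l h1 h2
  · rw [hcard]
    have := h.cost
    omega

end Pool.Agent.RBC
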