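import Pool.Agent.MP_dd54b8_co.A1

set_option autoImplicit false

/-! Task [RBC-T1]: the escape sets. -/

namespace Pool.Agent.RBC

open SimpleGraph

variable {V : Type} [Fintype V] {G : SimpleGraph V}

/-- `a`, `b` represent arms with fewer than `k/2` elements, `a` is isolated and is the ancestor of
`b`.  Then from the vertex just above `a` (below `b`) one can escape: there are `N` vertices, each
reachable by a short walk that stays above the level of `a` and avoids the arm of `b`. -/
theorem escape {k ρ R N : ℕ} (hk : KConn G k) (hc : G.Connected) (hρR : ρ ≤ R) (hN : N + 2 ≤ R)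
    {v0 a b : V} (ha : 2 * (arm G v0 ρ a).card < k) (hb : 2 * (arm G v0 ρ b).card < k)
    (hiso : Iso G v0 ρ R a) (h1 : 1 ≤ lev G v0 a) (hab : lev G v0 a + 2 ≤ lev G v0 b)
    (hanc : anc G v0 b (lev G v0 a) = a) :
    ∃ X : Finset V, X.card = N ∧ ∀ x ∈ X, ∃ w : G.Walk (anc G v0 b (lev G v0 a + 1)) x,
      w.length < N ∧ ∀ y ∈ w.support, lev G v0 a < lev G v0 y ∧ y ∉ arm G v0 ρ b := by
  classical
  have hlx : lev G v0 (anc G v0 b (lev G v0 a + 1)) = lev G v0 a + 1 := lev_anc hc (by omega)
  have hS : (arm G v0 ρ a ∪ arm G v0 ρ b).card < k := by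
    have := Finset.card_union_le (arm G v0 ρ a) (arm G v0 ρ b)
    omega
  have hu : anc G v0 b (lev G v0 a + 1) ∉ arm G v0 ρ a ∪ arm G v0 ρ b := by
    intro h
    rcases Finset.mem_union.1 h with h | h
    · have := lev_of_mem_arm h
      omega
    · have := lev_of_mem_arm h
      omega
  have h0 : v0 ∉ arm G v0 ρ a ∪ arm G v0 ρ b := by
    intro h
    have hr := lev_root (G := G) v0
    rcases Finset.mem_union.1 h with h | h
    · have := lev_of_mem_arm h
      omega
    · have := lev_of_mem_arm h
      omega
  obtain ⟨y, w, hw, hy, hwS, hwl⟩ := first_hit hk hS hc hu h0 (i := lev G v0 a) (by omega)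
  have hadj : G.Adj (anc G v0 b (lev G v0 a + 1)) a := by
    have := adj_anc hc (v0 := v0) (v := b) (i := lev G v0 a) (by omega)
    rwa [hanc] at this
  -- the first hit is far away
  have hlev : ∀ x ∈ w.support, lev G v0 a ≤ lev G v0 x := by
    intro x hx
    by_cases hxy : x = y
    · rw [hxy, hy]
    · exact (hwl x hx hxy).le
  have hup : Up G v0 (lev G v0 a) a y := by
    refine ⟨Walk.cons hadj.symm w, fun x hx => ?_⟩
    rw [Walk.support_cons, List.mem_cons] at hx
    rcases hx with rfl | hx
    · exact le_rfl
    · exact hlev x hx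
  have hya : y ∉ arm G v0 ρ a := fun h =>
    hwS y w.end_mem_support (Finset.mem_union_left _ h)
  have hfar : R < G.dist a y := iso_far hc hρR hiso (self_mem_arm v0 ρ a) hy hup hya
  have hlen : N + 2 ≤ w.length := by
    have h2 : G.dist a y ≤ (Walk.cons hadj.symm w).length := G.dist_le _
    rw [Walk.length_cons] at h2
    omega
  refine ⟨(Finset.range N).image w.getVert, ?_, ?_⟩
  · rw [Finset.card_image_of_injOn, Finset.card_range]
    intro i hi j hj hij
    have hi' : i < N := Finset.mem_range.1 hi
    have hj' : j < N := Finset.mem_range.1 hj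
    exact hw.getVert_injOn (by simp only [Set.mem_ofPred_eq]; omega)
      (by simp only [Set.mem_ofPred_eq]; omega) hij
  · intro x hx
    obtain ⟨i, hi, rfl⟩ := Finset.mem_image.1 hx
    have hi' : i < N := Finset.mem_range.1 hi
    refine ⟨w.take i, ?_, fun z hz => ?_⟩
    · rw [Walk.take_length]
      exact lt_of_le_of_lt (min_le_left _ _) hi'
    · obtain ⟨j, rfl, hj⟩ := Walk.mem_support_iff_exists_getVert.1 hz
      rw [Walk.take_length] at hj
      have hji : j ≤ i := hj.trans (min_le_left _ _)
      rw [Walk.take_getVert, min_eq_right hji]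
      have hmem : w.getVert j ∈ w.support := w.getVert_mem_support j
      refine ⟨hwl _ hmem ?_, fun h => hwS _ hmem (Finset.mem_union_right _ h)⟩
      intro h
      have h3 : w.getVert j = w.getVert w.length := by rw [h, w.getVert_length]
      have := hw.getVert_injOn (by simp only [Set.mem_ofPred_eq]; omega)
        (by simp only [Set.mem_ofPred_eq]; omega) h3
      omega

end Pool.Agent.RBC
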